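import Mathlib

namespace Pool.Agent.Helper45

open MvPolynomial

set_option linter.unusedSectionVars false

section Dim

variable {k : Type*} [Field k] {σ : Type*} [Fintype σ]

theorem finrank_homog (E : ℕ) :
    Module.finrank k (homogeneousSubmodule σ k E) = (Fintype.card σ + E - 1).choose E := by
  classical
  have h1 : homogeneousSubmodule σ k E = restrictSupport k {d : σ →₀ ℕ | d.degree = E} := by
    ext f
    rw [mem_restrictSupport_iff, mem_homogeneousSubmodule]
    constructor
    · intro hf d hd
      by_contra h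
      exact (mem_support_iff.1 (Finset.mem_coe.1 hd)) (hf.coeff_eq_zero h)
    · intro hf d hd
      have := hf (Finset.mem_coe.2 (mem_support_iff.2 hd))
      rw [← this]
      exact (DFunLike.congr_fun Finsupp.degree_eq_weight_one d).symm
  have h2 : {d : σ →₀ ℕ | d.degree = E} =
      ((Finset.univ.finsuppAntidiag E : Finset (σ →₀ ℕ)) : Set (σ →₀ ℕ)) := by
    ext d
    simp [Finsupp.degree_eq_sum]
  rw [h1, h2]
  rw [Module.finrank_eq_card_basis (basisRestrictSupport k
    ((Finset.univ.finsuppAntidiag E : Finset (σ →₀ ℕ)) : Set (σ →₀ ℕ)))]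
  simp only [Finset.coe_sort_coe, Fintype.card_coe]
  rw [Finset.card_finsuppAntidiag_nat_eq_choose, Finset.card_univ]

instance finite_homog (E : ℕ) : Module.Finite k (homogeneousSubmodule σ k E) :=
  Module.Finite.iff_fg.2 (homogeneousSubmodule_fg _ _ E)

theorem homogeneousComponent_mul_right {k : Type*} [Field k] {σ : Type*} {f : MvPolynomial σ k}
    {j : ℕ} (hf : f.IsHomogeneous j) (p : MvPolynomial σ k) (N : ℕ) :
    homogeneousComponent N (p * f) = if j ≤ N then homogeneousComponent (N - j) p * f else 0 := by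
  have h1 : p * f = ∑ i ∈ Finset.range (p.totalDegree + 1), homogeneousComponent i p * f := by
    rw [← Finset.sum_mul, sum_homogeneousComponent]
  rw [h1, map_sum]
  have h2 : ∀ i, homogeneousComponent N (homogeneousComponent i p * f) =
      if i + j = N then homogeneousComponent i p * f else 0 := by
    intro i
    rw [homogeneousComponent_of_mem (n := i + j)
      ((homogeneousComponent_isHomogeneous i p).mul hf)]
    by_cases h : N = i + j
    · rw [if_pos h, if_pos h.symm]
    · rw [if_neg h, if_neg (Ne.symm h)]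
  rw [Finset.sum_congr rfl fun i _ => h2 i]
  by_cases hj : j ≤ N
  · rw [if_pos hj]
    by_cases hN : N - j ∈ Finset.range (p.totalDegree + 1)
    · rw [Finset.sum_eq_single (N - j)]
      · rw [if_pos (by omega)]
      · intro i _ hi
        rw [if_neg (by omega)]
      · intro h; exact absurd hN h
    · rw [Finset.sum_eq_zero]
      · rw [homogeneousComponent_eq_zero, zero_mul]
        rw [Finset.mem_range] at hN
        omega
      · intro i hi
        rw [if_neg]
        rintro rfl
        exact hN (by rw [Nat.add_sub_cancel]; exact hi)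
  · rw [if_neg hj]
    refine Finset.sum_eq_zero fun i _ => ?_
    rw [if_neg (by omega)]

/-- The degree `E + j` part of the ideal generated by the first `t` forms of degree `j`. -/
noncomputable def degPart (f : ℕ → MvPolynomial σ k) (t E : ℕ) : Submodule k (MvPolynomial σ k) :=
  ⨆ a ∈ Finset.range t, (homogeneousSubmodule σ k E).map (LinearMap.mulLeft k (f a))

theorem degPart_succ (f : ℕ → MvPolynomial σ k) (t E : ℕ) :
    degPart f (t + 1) E =
      (homogeneousSubmodule σ k E).map (LinearMap.mulLeft k (f t)) ⊔ degPart f t E := by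
  unfold degPart
  rw [Finset.range_add_one, Finset.iSup_insert]

theorem mem_degPart {f : ℕ → MvPolynomial σ k} {t E : ℕ} {p : MvPolynomial σ k} :
    p ∈ degPart f t E ↔ ∃ c : ℕ → MvPolynomial σ k, (∀ a, (c a).IsHomogeneous E) ∧
      p = ∑ a ∈ Finset.range t, f a * c a := by
  unfold degPart
  rw [Submodule.mem_iSup_finset_iff_exists_sum]
  constructor
  · rintro ⟨μ, hμ⟩
    have : ∀ a, ∃ c : MvPolynomial σ k, c.IsHomogeneous E ∧ f a * c = μ a := by
      intro a
      obtain ⟨c, hc, hc2⟩ := Submodule.mem_map.1 (μ a).2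
      exact ⟨c, hc, hc2⟩
    choose c hc1 hc2 using this
    refine ⟨c, hc1, ?_⟩
    rw [← hμ]
    exact Finset.sum_congr rfl fun a _ => (hc2 a).symm
  · rintro ⟨c, hc1, hc2⟩
    refine ⟨fun a => ⟨f a * c a, Submodule.mem_map.2 ⟨c a, hc1 a, rfl⟩⟩, ?_⟩
    rw [hc2]

theorem degPart_le {f : ℕ → MvPolynomial σ k} {j : ℕ} (hf : ∀ a, (f a).IsHomogeneous j)
    (t E : ℕ) : degPart f t E ≤ homogeneousSubmodule σ k (E + j) := by
  intro p hp
  obtain ⟨c, hc1, hc2⟩ := mem_degPart.1 hp
  rw [hc2]
  refine Submodule.sum_mem _ fun a _ => ?_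
  rw [add_comm E j]
  exact (hf a).mul (hc1 a)

theorem finite_degPart {f : ℕ → MvPolynomial σ k} {j : ℕ} (hf : ∀ a, (f a).IsHomogeneous j)
    (t E : ℕ) : Module.Finite k (degPart f t E) :=
  Submodule.finiteDimensional_of_le (degPart_le hf t E)

/-- The part of degree `E` of the ideal generated by the first `t` forms. -/
noncomputable def lowPart (f : ℕ → MvPolynomial σ k) (j t E : ℕ) :
    Submodule k (MvPolynomial σ k) :=
  if j ≤ E then degPart f t (E - j) else ⊥

theorem degPart_zero (f : ℕ → MvPolynomial σ k) (E : ℕ) : degPart f 0 E = ⊥ := by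
  unfold degPart
  rw [Finset.range_zero]
  refine le_antisymm (iSup₂_le fun i hi => absurd hi (Finset.notMem_empty i)) bot_le

theorem lowPart_of_le (f : ℕ → MvPolynomial σ k) {j E : ℕ} (t : ℕ) (h : j ≤ E) :
    lowPart f j t E = degPart f t (E - j) := if_pos h

theorem lowPart_of_not (f : ℕ → MvPolynomial σ k) {j E : ℕ} (t : ℕ) (h : ¬ j ≤ E) :
    lowPart f j t E = ⊥ := if_neg h

theorem lowPart_le {f : ℕ → MvPolynomial σ k} {j : ℕ} (hf : ∀ a, (f a).IsHomogeneous j)
    (t E : ℕ) : lowPart f j t E ≤ homogeneousSubmodule σ k E := by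
  unfold lowPart
  split_ifs with h
  · refine (degPart_le hf t (E - j)).trans ?_
    rw [Nat.sub_add_cancel h]
  · exact bot_le

theorem map_lowPart_le {f : ℕ → MvPolynomial σ k} {j : ℕ} (hf : ∀ a, (f a).IsHomogeneous j)
    (t E : ℕ) : (lowPart f j t E).map (LinearMap.mulLeft k (f t)) ≤
      (homogeneousSubmodule σ k E).map (LinearMap.mulLeft k (f t)) ⊓ degPart f t E := by
  refine le_inf (Submodule.map_mono (lowPart_le hf t E)) ?_
  rintro _ ⟨p, hp, rfl⟩
  unfold lowPart at hp
  split_ifs at hp with h
  · obtain ⟨c, hc1, hc2⟩ := mem_degPart.1 hp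
    rw [mem_degPart]
    refine ⟨fun a => f t * c a, fun a => ?_, ?_⟩
    · have := (hf t).mul (hc1 a)
      rwa [Nat.add_sub_cancel' h] at this
    · rw [LinearMap.mulLeft_apply, hc2, Finset.mul_sum]
      exact Finset.sum_congr rfl fun a _ => by ring
  · rw [SetLike.mem_coe, Submodule.mem_bot] at hp
    rw [hp, map_zero]
    exact zero_mem _

theorem finrank_map_mul {f : MvPolynomial σ k} (hf : f ≠ 0) (W : Submodule k (MvPolynomial σ k)) :
    Module.finrank k (W.map (LinearMap.mulLeft k f)) = Module.finrank k W := by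
  have hinj : Function.Injective (LinearMap.mulLeft k f) := by
    intro a b hab
    exact mul_left_cancel₀ hf hab
  exact (LinearEquiv.finrank_eq (Submodule.equivMapOfInjective _ hinj W)).symm

theorem finrank_step_le {f : ℕ → MvPolynomial σ k} {j : ℕ} (hf : ∀ a, (f a).IsHomogeneous j)
    (t E : ℕ) (h0 : f t ≠ 0) :
    Module.finrank k (degPart f (t + 1) E) + Module.finrank k (lowPart f j t E) ≤
      Module.finrank k (degPart f t E) + Module.finrank k (homogeneousSubmodule σ k E) := by
  have : Module.Finite k (degPart f t E) := finite_degPart hf t E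
  have h1 := Submodule.finrank_sup_add_finrank_inf_eq
    ((homogeneousSubmodule σ k E).map (LinearMap.mulLeft k (f t))) (degPart f t E)
  rw [← degPart_succ, finrank_map_mul h0] at h1
  have h2 : Module.finrank k (lowPart f j t E) ≤ Module.finrank k
      ((homogeneousSubmodule σ k E).map (LinearMap.mulLeft k (f t)) ⊓ degPart f t E :
        Submodule k (MvPolynomial σ k)) := by
    rw [← finrank_map_mul h0 (lowPart f j t E)]
    exact Submodule.finrank_mono (map_lowPart_le hf t E)
  omega

theorem finrank_step_eq {f : ℕ → MvPolynomial σ k} {j : ℕ} (hf : ∀ a, (f a).IsHomogeneous j)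
    (t E : ℕ) (h0 : f t ≠ 0)
    (hcol : ∀ g : MvPolynomial σ k, g.IsHomogeneous E → f t * g ∈ degPart f t E →
      g ∈ lowPart f j t E) :
    Module.finrank k (degPart f (t + 1) E) + Module.finrank k (lowPart f j t E) =
      Module.finrank k (degPart f t E) + Module.finrank k (homogeneousSubmodule σ k E) := by
  have : Module.Finite k (degPart f t E) := finite_degPart hf t E
  have h1 := Submodule.finrank_sup_add_finrank_inf_eq
    ((homogeneousSubmodule σ k E).map (LinearMap.mulLeft k (f t))) (degPart f t E)
  rw [← degPart_succ, finrank_map_mul h0] at h1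
  have h2 : (lowPart f j t E).map (LinearMap.mulLeft k (f t)) =
      (homogeneousSubmodule σ k E).map (LinearMap.mulLeft k (f t)) ⊓ degPart f t E := by
    refine le_antisymm (map_lowPart_le hf t E) ?_
    rintro _ ⟨⟨g, hg, rfl⟩, hg2⟩
    exact ⟨g, hcol g hg hg2, rfl⟩
  rw [← h2, finrank_map_mul h0] at h1
  omega

/-- The expected dimension of the part of degree `E + j` of an ideal generated by `t` forms of
degree `j` in `n + 1` variables. -/
def uval (n j t E : ℕ) : ℤ :=
  ∑ i ∈ Finset.range (E / j + 1), (-1) ^ i * (t.choose (i + 1) : ℤ) * ((n + E - i * j).choose n : ℤ)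

theorem uval_zero (n j E : ℕ) : uval n j 0 E = 0 := by
  unfold uval
  refine Finset.sum_eq_zero fun i _ => ?_
  simp

theorem uval_succ (n j t E : ℕ) (hj : 1 ≤ j) :
    uval n j (t + 1) E = uval n j t E + ((n + E).choose n : ℤ) -
      (if j ≤ E then uval n j t (E - j) else 0) := by
  have h1 : uval n j (t + 1) E = uval n j t E +
      ∑ i ∈ Finset.range (E / j + 1), (-1) ^ i * (t.choose i : ℤ) *
        ((n + E - i * j).choose n : ℤ) := by
    unfold uval
    rw [← Finset.sum_add_distrib]
    refine Finset.sum_congr rfl fun i _ => ?_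
    rw [Nat.choose_succ_succ]
    push_cast
    ring
  have h2 : ∑ i ∈ Finset.range (E / j + 1), (-1) ^ i * (t.choose i : ℤ) *
        ((n + E - i * j).choose n : ℤ) = ((n + E).choose n : ℤ) -
      (if j ≤ E then uval n j t (E - j) else 0) := by
    rw [Finset.sum_range_succ']
    simp only [pow_zero, Nat.choose_zero_right, zero_mul, Nat.sub_zero]
    by_cases h : j ≤ E
    · rw [if_pos h]
      have e : E / j = (E - j) / j + 1 := Nat.div_eq_sub_div hj h
      unfold uval
      rw [e]
      have : ∑ i ∈ Finset.range ((E - j) / j + 1), (-1) ^ (i + 1) * (t.choose (i + 1) : ℤ) *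
          ((n + E - (i + 1) * j).choose n : ℤ) =
          - ∑ i ∈ Finset.range ((E - j) / j + 1), (-1) ^ i * (t.choose (i + 1) : ℤ) *
          ((n + (E - j) - i * j).choose n : ℤ) := by
        rw [← Finset.sum_neg_distrib]
        refine Finset.sum_congr rfl fun i hi => ?_
        have e2 : n + E - (i + 1) * j = n + (E - j) - i * j := by
          rw [add_mul, one_mul]
          omega
        rw [e2]
        ring
      rw [this]
      push_cast
      ring
    · rw [if_neg h]
      have e : E / j = 0 := Nat.div_eq_of_lt (by omega)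
      rw [e]
      simp
  rw [h1, h2]
  ring

variable {n : ℕ} (hσ : Fintype.card σ = n + 1)
include hσ

theorem finrank_homog' (E : ℕ) :
    (Module.finrank k (homogeneousSubmodule σ k E) : ℤ) = ((n + E).choose n : ℤ) := by
  rw [finrank_homog, hσ]
  have : n + 1 + E - 1 = n + E := by omega
  rw [this, ← Nat.choose_symm_of_eq_add (n := n + E) (a := n) (b := E) rfl]

theorem special_value {f : ℕ → MvPolynomial σ k} {j : ℕ} (hj : 1 ≤ j)
    (hf : ∀ a, (f a).IsHomogeneous j) (r D : ℕ) (h0 : ∀ a < r, f a ≠ 0)
    (hcol : ∀ t < r, ∀ E ≤ D, ∀ g : MvPolynomial σ k, g.IsHomogeneous E →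
      f t * g ∈ degPart f t E → g ∈ lowPart f j t E) :
    ∀ t ≤ r, ∀ E ≤ D, (Module.finrank k (degPart f t E) : ℤ) = uval n j t E := by
  intro t
  induction t with
  | zero =>
    intro _ E _
    rw [uval_zero, degPart_zero, finrank_bot, Nat.cast_zero]
  | succ t ih =>
    intro ht E hE
    have h1 := finrank_step_eq hf t E (h0 t (by omega)) (hcol t (by omega) E hE)
    have h2 := ih (by omega) E hE
    have h3 := finrank_homog' (k := k) hσ E
    have h4 : (Module.finrank k (lowPart f j t E) : ℤ) =
        if j ≤ E then uval n j t (E - j) else 0 := by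
      by_cases h : j ≤ E
      · rw [lowPart_of_le f t h, if_pos h]
        exact ih (by omega) (E - j) (by omega)
      · rw [lowPart_of_not f t h, if_neg h, finrank_bot, Nat.cast_zero]
    rw [uval_succ n j t E hj, ← h4, ← h2, ← h3]
    have h5 : ((Module.finrank k (degPart f (t + 1) E) + Module.finrank k (lowPart f j t E) : ℕ) :
      ℤ) = ((Module.finrank k (degPart f t E) +
      Module.finrank k (homogeneousSubmodule σ k E) : ℕ) : ℤ) := by rw [h1]
    push_cast at h5
    linarith

theorem generic_value {f : ℕ → MvPolynomial σ k} {j : ℕ} (hj : 1 ≤ j)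
    (hf : ∀ a, (f a).IsHomogeneous j) (r D : ℕ) (h0 : ∀ a < r, f a ≠ 0)
    (hlow : ∀ t ≤ r, ∀ E ≤ D, uval n j t E ≤ (Module.finrank k (degPart f t E) : ℤ)) :
    ∀ t ≤ r, ∀ E ≤ D, (Module.finrank k (degPart f t E) : ℤ) = uval n j t E := by
  intro t
  induction t with
  | zero =>
    intro _ E _
    rw [uval_zero, degPart_zero, finrank_bot, Nat.cast_zero]
  | succ t ih =>
    intro ht E hE
    refine le_antisymm ?_ (hlow (t + 1) ht E hE)
    have h1 := finrank_step_le hf t E (h0 t (by omega))
    have h2 := ih (by omega) E hE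
    have h3 := finrank_homog' (k := k) hσ E
    have h4 : (Module.finrank k (lowPart f j t E) : ℤ) =
        if j ≤ E then uval n j t (E - j) else 0 := by
      by_cases h : j ≤ E
      · rw [lowPart_of_le f t h, if_pos h]
        exact ih (by omega) (E - j) (by omega)
      · rw [lowPart_of_not f t h, if_neg h, finrank_bot, Nat.cast_zero]
    rw [uval_succ n j t E hj, ← h4, ← h2, ← h3]
    have h5 : ((Module.finrank k (degPart f (t + 1) E) + Module.finrank k (lowPart f j t E) : ℕ) :
      ℤ) ≤ ((Module.finrank k (degPart f t E) +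
      Module.finrank k (homogeneousSubmodule σ k E) : ℕ) : ℤ) := by exact_mod_cast h1
    push_cast at h5
    linarith

end Dim

end Pool.Agent.Helper45
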