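import Mathlib

namespace Pool.Agent.Helper45

open MvPolynomial

set_option linter.unusedSectionVars false

section Semi

variable {k : Type*} [Field k] {σ τ : Type*}

/-- Coefficientwise extension of a linear functional to polynomials with polynomial
coefficients. -/
noncomputable def extFun (l : MvPolynomial σ k →ₗ[k] k) (W : MvPolynomial σ (MvPolynomial τ k)) :
    MvPolynomial τ k :=
  ∑ v ∈ W.support, coeff v W * C (l (monomial v 1))

theorem eval_extFun (l : MvPolynomial σ k →ₗ[k] k) (W : MvPolynomial σ (MvPolynomial τ k))
    (P : τ → k) : eval P (extFun l W) = l (map (eval P) W) := by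
  have h1 : map (eval P) W = ∑ v ∈ W.support, monomial v (eval P (coeff v W)) := by
    conv_lhs => rw [← support_sum_monomial_coeff W]
    rw [map_sum]
    exact Finset.sum_congr rfl fun v _ => map_monomial _ _ _
  rw [h1, map_sum]
  unfold extFun
  rw [map_sum]
  refine Finset.sum_congr rfl fun v _ => ?_
  rw [map_mul, eval_C]
  have : (monomial v (eval P (coeff v W)) : MvPolynomial σ k) =
      (eval P (coeff v W)) • monomial v 1 := by
    rw [smul_monomial, smul_eq_mul, mul_one]
  rw [this, map_smul, smul_eq_mul]

/-- Lower semicontinuity of the rank of a finite family of polynomials with polynomial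
coefficients. -/
theorem semicont {ι' : Type*} [Finite ι'] (W : ι' → MvPolynomial σ (MvPolynomial τ k))
    (P0 : τ → k) : ∃ G : MvPolynomial τ k, eval P0 G ≠ 0 ∧ ∀ P : τ → k, eval P G ≠ 0 →
      Module.finrank k (Submodule.span k (Set.range fun i => map (eval P0) (W i))) ≤
      Module.finrank k (Submodule.span k (Set.range fun i => map (eval P) (W i))) := by
  classical
  have hfin : Module.Finite k (Submodule.span k (Set.range fun i => map (eval P0) (W i))) :=
    FiniteDimensional.span_of_finite k (Set.finite_range _)
  obtain ⟨N, hN, f, hf1, hf3⟩ : ∃ N, N = Module.finrank k (Submodule.span k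
      (Set.range fun i => map (eval P0) (W i))) ∧ ∃ f : Fin N → MvPolynomial σ k,
      (∀ i, f i ∈ Set.range fun i => map (eval P0) (W i)) ∧ LinearIndependent k f := by
    obtain ⟨f, hf1, _, hf3⟩ := Submodule.exists_fun_fin_finrank_span_eq k
      (Set.range fun i => map (eval P0) (W i))
    exact ⟨_, rfl, f, hf1, hf3⟩
  rw [← hN]
  choose a ha using hf1
  -- dual functionals
  obtain ⟨Λ, hΛ⟩ := LinearMap.exists_extend (hf3.repr : _ →ₗ[k] (Fin N →₀ k))
  let l : Fin N → (MvPolynomial σ k →ₗ[k] k) := fun i => Finsupp.lapply i ∘ₗ Λ
  have hl : ∀ i i', l i (f i') = if i = i' then 1 else 0 := by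
    intro i i'
    have h1 : Λ (f i') = Finsupp.single i' 1 := by
      have hmem : f i' ∈ Submodule.span k (Set.range f) := Submodule.subset_span ⟨i', rfl⟩
      have h2 := LinearMap.congr_fun hΛ ⟨f i', hmem⟩
      have h3 := hf3.repr_eq_single i' ⟨f i', hmem⟩ rfl
      rw [LinearMap.comp_apply, Submodule.subtype_apply] at h2
      rw [h2]
      exact h3
    change (Λ (f i')) i = _
    rw [h1, Finsupp.single_apply]
    by_cases h : i' = i
    · rw [if_pos h, if_pos h.symm]
    · rw [if_neg h, if_neg (Ne.symm h)]
  let G : MvPolynomial τ k := (Matrix.of fun i i' => extFun (l i) (W (a i'))).det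
  have hG : ∀ P, eval P G = (Matrix.of fun i i' => l i (map (eval P) (W (a i')))).det := by
    intro P
    change eval P (Matrix.det _) = _
    rw [RingHom.map_det]
    congr 1
    ext i i'
    rw [RingHom.mapMatrix_apply, Matrix.map_apply, Matrix.of_apply, Matrix.of_apply, eval_extFun]
  refine ⟨G, ?_, ?_⟩
  · rw [hG]
    have : (Matrix.of fun i i' => l i (map (eval P0) (W (a i')))) = (1 : Matrix (Fin N) (Fin N) k)
        := by
      ext i i'
      rw [Matrix.of_apply, Matrix.one_apply]
      have := ha i'
      simp only at this
      rw [this, hl]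
    rw [this, Matrix.det_one]
    exact one_ne_zero
  · intro P hP
    rw [hG] at hP
    have hli : LinearIndependent k (fun i' => map (eval P) (W (a i'))) := by
      refine LinearIndependent.of_comp (LinearMap.pi l) ?_
      have := Matrix.linearIndependent_cols_of_det_ne_zero hP
      exact this
    have hfin2 : Module.Finite k (Submodule.span k (Set.range fun i => map (eval P) (W i))) :=
      FiniteDimensional.span_of_finite k (Set.finite_range _)
    have hc := finrank_span_eq_card hli
    rw [Fintype.card_fin] at hc
    rw [← hc]
    refine Submodule.finrank_mono (Submodule.span_mono ?_)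
    rintro _ ⟨i, rfl⟩
    exact ⟨a i, rfl⟩

end Semi

end Pool.Agent.Helper45
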