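import Mathlib
import Pool.Agent.Helper45.FatHilb
import Pool.Agent.Helper45.FatSemi

namespace Pool.Agent.Helper45

open MvPolynomial

set_option linter.unusedSectionVars false

section Gen

variable {k : Type*} [Field k] {σ : Type*} [Fintype σ]

/-- The linear form with coefficient vector `p`. -/
noncomputable def linForm (p : σ → k) : MvPolynomial σ k := ∑ s, C (p s) * X s

theorem linForm_isHomogeneous (p : σ → k) : (linForm p).IsHomogeneous 1 := by
  unfold linForm
  refine IsHomogeneous.sum _ _ _ fun s _ => ?_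
  exact isHomogeneous_C_mul_X _ _

theorem coeff_linForm [DecidableEq σ] (p : σ → k) (s : σ) :
    coeff (Finsupp.single s 1) (linForm p) = p s := by
  unfold linForm
  rw [coeff_sum, Finset.sum_eq_single s]
  · rw [coeff_C_mul, coeff_X, if_pos rfl, mul_one]
  · intro s' _ hs'
    rw [coeff_C_mul, coeff_X, if_neg, mul_zero]
    intro h
    exact hs' (Finsupp.single_left_injective one_ne_zero h)
  · intro h; exact absurd (Finset.mem_univ _) h

theorem linForm_ne_zero {p : σ → k} (hp : p ≠ 0) : linForm p ≠ 0 := by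
  classical
  intro h
  apply hp
  ext s
  rw [← coeff_linForm p s, h, coeff_zero, Pi.zero_apply]

/-- Extend a family of points indexed by `Fin r` to all natural numbers. -/
noncomputable def ptSeq {r : ℕ} (P : Fin r × σ → k) : ℕ → σ → k :=
  fun a s => if h : a < r then P (⟨a, h⟩, s) else 1

theorem ptSeq_of_lt {r : ℕ} (P : Fin r × σ → k) {a : ℕ} (h : a < r) :
    ptSeq P a = fun s => P (⟨a, h⟩, s) := by
  funext s
  unfold ptSeq
  rw [dif_pos h]

/-- Powers of the linear forms attached to a family of points. -/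
noncomputable def powSeq {r : ℕ} (P : Fin r × σ → k) (j : ℕ) : ℕ → MvPolynomial σ k :=
  fun a => linForm (ptSeq P a) ^ j

theorem powSeq_isHomogeneous {r : ℕ} (P : Fin r × σ → k) (j a : ℕ) :
    (powSeq P j a).IsHomogeneous j := by
  have := (linForm_isHomogeneous (ptSeq P a)).pow j
  rwa [one_mul] at this

theorem degPart_eq_span (f : ℕ → MvPolynomial σ k) (t E : ℕ) :
    degPart f t E = Submodule.span k (Set.range fun x : Fin t × {v : σ →₀ ℕ // v.degree = E} =>
      f x.1 * monomial x.2.1 1) := by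
  refine le_antisymm ?_ ?_
  · unfold degPart
    refine iSup₂_le fun a ha => ?_
    rintro _ ⟨c, hc, rfl⟩
    rw [LinearMap.mulLeft_apply]
    have : f a * c = ∑ v ∈ c.support, coeff v c • (f a * monomial v 1) := by
      conv_lhs => rw [← support_sum_monomial_coeff c]
      rw [Finset.mul_sum]
      refine Finset.sum_congr rfl fun v _ => ?_
      rw [← mul_smul_comm, smul_monomial, smul_eq_mul, mul_one]
    rw [this]
    refine Submodule.sum_mem _ fun v hv => Submodule.smul_mem _ _ (Submodule.subset_span ?_)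
    have hdeg : v.degree = E := by
      by_contra h
      exact (mem_support_iff.1 hv) (IsHomogeneous.coeff_eq_zero hc h)
    exact ⟨(⟨a, Finset.mem_range.1 ha⟩, ⟨v, hdeg⟩), rfl⟩
  · rw [Submodule.span_le]
    rintro _ ⟨⟨a, v, hv⟩, rfl⟩
    refine Submodule.mem_iSup_of_mem (a : ℕ)
      (Submodule.mem_iSup_of_mem (Finset.mem_range.2 a.2) ?_)
    exact ⟨monomial v 1, isHomogeneous_monomial _ hv, rfl⟩

instance finite_degree (E : ℕ) : Finite {v : σ →₀ ℕ // v.degree = E} := by
  classical
  have h2 : {d : σ →₀ ℕ | d.degree = E} =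
      ((Finset.univ.finsuppAntidiag E : Finset (σ →₀ ℕ)) : Set (σ →₀ ℕ)) := by
    ext d
    simp [Finsupp.degree_eq_sum]
  have : {d : σ →₀ ℕ | d.degree = E}.Finite := by
    rw [h2]; exact Finset.finite_toSet _
  exact this.to_subtype

/-- The universal family of products of powers of linear forms with monomials. -/
noncomputable def powFam (k : Type*) [Field k] {σ : Type*} [Fintype σ] {r : ℕ} (j : ℕ)
    (a : Fin r) (v : σ →₀ ℕ) : MvPolynomial σ (MvPolynomial (Fin r × σ) k) :=
  (∑ s, C (X (a, s)) * X s) ^ j * monomial v 1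

theorem map_powFam {r : ℕ} (j : ℕ) (a : Fin r) (v : σ →₀ ℕ) (P : Fin r × σ → k) :
    map (eval P) (powFam k j a v) = linForm (fun s => P (a, s)) ^ j * monomial v 1 := by
  unfold powFam linForm
  rw [map_mul, map_pow, map_sum, map_monomial, map_one]
  congr 2
  refine Finset.sum_congr rfl fun s _ => ?_
  rw [map_mul, map_C, map_X, eval_X]

theorem semicont_degPart {r : ℕ} (P0 : Fin r × σ → k) (j t E : ℕ) (ht : t ≤ r) :
    ∃ G : MvPolynomial (Fin r × σ) k, eval P0 G ≠ 0 ∧ ∀ P : Fin r × σ → k, eval P G ≠ 0 →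
      Module.finrank k (degPart (powSeq P0 j) t E) ≤
      Module.finrank k (degPart (powSeq P j) t E) := by
  obtain ⟨G, hG1, hG2⟩ := semicont
    (fun x : Fin t × {v : σ →₀ ℕ // v.degree = E} => powFam k j (Fin.castLE ht x.1) x.2.1) P0
  refine ⟨G, hG1, fun P hP => ?_⟩
  have h := hG2 P hP
  have hW : ∀ (P : Fin r × σ → k) (x : Fin t × {v : σ →₀ ℕ // v.degree = E}),
      map (eval P) (powFam k j (Fin.castLE ht x.1) x.2.1) =
      powSeq P j x.1 * monomial x.2.1 1 := by
    intro P x
    have hlt : (x.1 : ℕ) < r := lt_of_lt_of_le x.1.2 ht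
    rw [map_powFam]
    unfold powSeq
    rw [ptSeq_of_lt P hlt]
    rfl
  rw [degPart_eq_span, degPart_eq_span]
  have e : ∀ P : Fin r × σ → k, (fun x : Fin t × {v : σ →₀ ℕ // v.degree = E} =>
      powSeq P j x.1 * monomial x.2.1 1) = fun x : Fin t × {v : σ →₀ ℕ // v.degree = E} =>
      map (eval P) (powFam k j (Fin.castLE ht x.1) x.2.1) := fun P => (funext (hW P)).symm
  rw [e P0, e P]
  exact h

theorem exists_prod {τ ι : Type*} (P0 : τ → k) (s : Finset ι) (Q : ι → (τ → k) → Prop)
    (h : ∀ i ∈ s, ∃ G : MvPolynomial τ k, eval P0 G ≠ 0 ∧ ∀ P, eval P G ≠ 0 → Q i P) :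
    ∃ G : MvPolynomial τ k, eval P0 G ≠ 0 ∧ ∀ P, eval P G ≠ 0 → ∀ i ∈ s, Q i P := by
  choose! G hG1 hG2 using h
  refine ⟨∏ i ∈ s, G i, ?_, ?_⟩
  · rw [map_prod]
    exact Finset.prod_ne_zero_iff.2 hG1
  · intro P hP i hi
    rw [map_prod] at hP
    exact hG2 i hi P (Finset.prod_ne_zero_iff.1 hP i hi)

/-- If a special family has the expected dimensions then so has a general one. -/
theorem generic_degPart {n : ℕ} (hσ : Fintype.card σ = n + 1) {r : ℕ} (P0 : Fin r × σ → k)
    {j : ℕ} (hj : 1 ≤ j) (D : ℕ)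
    (h0 : ∀ t ≤ r, ∀ E ≤ D, (Module.finrank k (degPart (powSeq P0 j) t E) : ℤ) = uval n j t E) :
    ∃ G : MvPolynomial (Fin r × σ) k, eval P0 G ≠ 0 ∧ ∀ P : Fin r × σ → k, eval P G ≠ 0 →
      (∀ a : Fin r, (fun s => P (a, s)) ≠ 0) →
      ∀ E ≤ D, (Module.finrank k (degPart (powSeq P j) r E) : ℤ) = uval n j r E := by
  obtain ⟨G, hG1, hG2⟩ := exists_prod P0 (Finset.range (r + 1) ×ˢ Finset.range (D + 1))
    (fun x P => Module.finrank k (degPart (powSeq P0 j) x.1 x.2) ≤
      Module.finrank k (degPart (powSeq P j) x.1 x.2)) (by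
      rintro ⟨t, E⟩ hx
      rw [Finset.mem_product, Finset.mem_range, Finset.mem_range] at hx
      exact semicont_degPart P0 j t E (by omega))
  refine ⟨G, hG1, fun P hP hne E hE => ?_⟩
  refine generic_value hσ hj (powSeq_isHomogeneous P j) r D ?_ ?_ r le_rfl E hE
  · intro a ha
    unfold powSeq
    refine pow_ne_zero _ (linForm_ne_zero ?_)
    rw [ptSeq_of_lt P ha]
    exact hne ⟨a, ha⟩
  · intro t ht E hE
    have := hG2 P hP (t, E) (by
      rw [Finset.mem_product, Finset.mem_range, Finset.mem_range]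
      constructor <;> simp only <;> omega)
    rw [← h0 t ht E hE]
    exact_mod_cast this

end Gen

end Pool.Agent.Helper45
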