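import Mathlib

namespace Pool.Agent.Helper45

set_option linter.unusedSectionVars false

section ShInd

variable {ι : Type*} [DecidableEq ι]

/-- Signed sum over the families of disjoint hyperedges inside `B` (with the vertices of `l`
treated one by one). -/
noncomputable def Ind (x : Finset ι → ℝ) : List ι → Finset ι → ℝ
  | [], _ => 1
  | i :: l, B => if i ∈ B then Ind x l (B.erase i) -
      ∑ e ∈ (B.erase i).powerset, x (insert i e) * Ind x l (B.erase i \ e) else Ind x l B

theorem Ind_cons_of_mem (x : Finset ι → ℝ) {i : ι} (l : List ι) {B : Finset ι} (h : i ∈ B) :
    Ind x (i :: l) B = Ind x l (B.erase i) -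
      ∑ e ∈ (B.erase i).powerset, x (insert i e) * Ind x l (B.erase i \ e) := by
  rw [Ind, if_pos h]

theorem Ind_cons_of_notMem (x : Finset ι → ℝ) {i : ι} (l : List ι) {B : Finset ι} (h : i ∉ B) :
    Ind x (i :: l) B = Ind x l B := by
  rw [Ind, if_neg h]

/-- Linearity of `Ind` in a single weight. -/
theorem Ind_add (x : Finset ι → ℝ) (e' : Finset ι) (he' : e'.Nonempty) (y : ℝ) (l : List ι)
    (hl : l.Nodup) (B : Finset ι) (hB : ∀ b ∈ B, b ∈ l) :
    Ind (fun e => x e + if e = e' then y else 0) l B =
      Ind x l B - (if e' ⊆ B then y * Ind x l (B \ e') else 0) := by
  induction l generalizing B with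
  | nil =>
    have hB0 : B = ∅ := Finset.eq_empty_of_forall_notMem fun b hb => by
      have := hB b hb
      simp at this
    subst hB0
    have : ¬ e' ⊆ ∅ := fun h => he'.ne_empty (Finset.subset_empty.1 h)
    rw [if_neg this, Ind, Ind, sub_zero]
  | cons i l ih =>
    have hl' : l.Nodup := (List.nodup_cons.1 hl).2
    have hil : i ∉ l := (List.nodup_cons.1 hl).1
    by_cases hiB : i ∈ B
    · rw [Ind_cons_of_mem _ _ hiB, Ind_cons_of_mem _ _ hiB]
      set B' := B.erase i with hB'
      have hB'l : ∀ b ∈ B', b ∈ l := by
        intro b hb
        rw [hB', Finset.mem_erase] at hb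
        rcases List.mem_cons.1 (hB b hb.2) with h | h
        · exact absurd h hb.1
        · exact h
      have hsub : ∀ e, ∀ b ∈ B' \ e, b ∈ l := fun e b hb => hB'l b (Finset.mem_sdiff.1 hb).1
      by_cases hie : i ∈ e'
      · -- the weight is used at this vertex
        have h1 : ∀ B'' : Finset ι, (∀ b ∈ B'', b ∈ l) →
            Ind (fun e => x e + if e = e' then y else 0) l B'' = Ind x l B'' := by
          intro B'' hB''
          rw [ih hl' B'' hB'', if_neg, sub_zero]
          intro h
          exact hil (hB'' i (h hie))
        rw [h1 B' hB'l]
        have h2 : ∑ e ∈ B'.powerset, (x (insert i e) + if insert i e = e' then y else 0) *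
            Ind (fun e => x e + if e = e' then y else 0) l (B' \ e) =
            ∑ e ∈ B'.powerset, x (insert i e) * Ind x l (B' \ e) +
            ∑ e ∈ B'.powerset, (if insert i e = e' then y * Ind x l (B' \ e) else 0) := by
          rw [← Finset.sum_add_distrib]
          refine Finset.sum_congr rfl fun e _ => ?_
          rw [h1 _ (hsub e), add_mul]
          congr 1
          split_ifs
          · rfl
          · rw [zero_mul]
        rw [h2]
        have h3 : ∑ e ∈ B'.powerset, (if insert i e = e' then y * Ind x l (B' \ e) else 0) =
            if e' ⊆ B then y * Ind x (i :: l) (B \ e') else 0 := by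
          have hiB2 : i ∉ B \ e' := fun h => (Finset.mem_sdiff.1 h).2 hie
          rw [Ind_cons_of_notMem _ _ hiB2]
          have h4 : B \ e' = B' \ (e'.erase i) := by
            ext b
            simp only [hB', Finset.mem_sdiff, Finset.mem_erase, not_and]
            constructor
            · rintro ⟨h5, h6⟩
              refine ⟨⟨?_, h5⟩, fun _ => h6⟩
              rintro rfl
              exact h6 hie
            · rintro ⟨⟨h5, h6⟩, h7⟩
              exact ⟨h6, h7 h5⟩
          by_cases hsub' : e' ⊆ B
          · rw [if_pos hsub', Finset.sum_eq_single (e'.erase i)]
            · rw [if_pos (Finset.insert_erase hie), h4]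
            · intro e he hne
              rw [if_neg]
              intro h5
              apply hne
              rw [← h5, Finset.erase_insert]
              intro h6
              have := Finset.mem_powerset.1 he h6
              rw [hB'] at this
              exact Finset.notMem_erase i B this
            · intro h5
              exfalso
              apply h5
              rw [Finset.mem_powerset, hB']
              exact Finset.erase_subset_erase i hsub'
          · rw [if_neg hsub']
            refine Finset.sum_eq_zero fun e he => ?_
            rw [if_neg]
            intro h5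
            apply hsub'
            rw [← h5]
            refine Finset.insert_subset hiB ?_
            exact (Finset.mem_powerset.1 he).trans (Finset.erase_subset _ _)
        rw [h3]
        ring
      · -- the weight is not used at this vertex
        have h1 : ∀ e, (x (insert i e) + if insert i e = e' then y else 0) = x (insert i e) := by
          intro e
          rw [if_neg, add_zero]
          rintro rfl
          exact hie (Finset.mem_insert_self _ _)
        rw [ih hl' B' hB'l]
        have h2 : ∑ e ∈ B'.powerset, (x (insert i e) + if insert i e = e' then y else 0) *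
            Ind (fun e => x e + if e = e' then y else 0) l (B' \ e) =
            ∑ e ∈ B'.powerset, x (insert i e) * Ind x l (B' \ e) -
            ∑ e ∈ B'.powerset, (if e' ⊆ B' \ e then x (insert i e) * (y * Ind x l ((B' \ e) \ e'))
              else 0) := by
          rw [← Finset.sum_sub_distrib]
          refine Finset.sum_congr rfl fun e _ => ?_
          rw [h1, ih hl' _ (hsub e)]
          split_ifs
          · ring
          · ring
        rw [h2]
        by_cases hsub' : e' ⊆ B
        · have hsub'' : e' ⊆ B' := by
            intro b hb
            rw [hB', Finset.mem_erase]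
            exact ⟨fun h => hie (h ▸ hb), hsub' hb⟩
          rw [if_pos hsub', if_pos hsub'']
          have hiB2 : i ∈ B \ e' := Finset.mem_sdiff.2 ⟨hiB, hie⟩
          rw [Ind_cons_of_mem _ _ hiB2]
          have h4 : (B \ e').erase i = B' \ e' := by
            rw [hB', Finset.erase_sdiff_comm]
          rw [h4]
          have h5 : ∑ e ∈ B'.powerset, (if e' ⊆ B' \ e then
              x (insert i e) * (y * Ind x l ((B' \ e) \ e')) else 0) =
              ∑ e ∈ (B' \ e').powerset, y * (x (insert i e) * Ind x l ((B' \ e') \ e)) := by
            rw [← Finset.sum_filter]
            have h6 : B'.powerset.filter (fun e => e' ⊆ B' \ e) = (B' \ e').powerset := by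
              ext e
              rw [Finset.mem_filter, Finset.mem_powerset, Finset.mem_powerset,
                Finset.subset_sdiff, Finset.subset_sdiff]
              constructor
              · rintro ⟨h7, _, h8⟩
                exact ⟨h7, h8.symm⟩
              · rintro ⟨h7, h8⟩
                exact ⟨h7, hsub'', h8.symm⟩
            rw [h6]
            refine Finset.sum_congr rfl fun e _ => ?_
            rw [sdiff_right_comm]
            ring
          rw [h5, ← Finset.mul_sum]
          ring
        · have hsub'' : ¬ e' ⊆ B' := fun h => hsub' (h.trans (Finset.erase_subset _ _))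
          rw [if_neg hsub', if_neg hsub'']
          have h5 : ∑ e ∈ B'.powerset, (if e' ⊆ B' \ e then
              x (insert i e) * (y * Ind x l ((B' \ e) \ e')) else 0) = 0 := by
            refine Finset.sum_eq_zero fun e _ => ?_
            rw [if_neg]
            exact fun h => hsub'' (h.trans Finset.sdiff_subset)
          rw [h5]
          ring
    · rw [Ind_cons_of_notMem _ _ hiB, Ind_cons_of_notMem _ _ hiB]
      have hBl : ∀ b ∈ B, b ∈ l := by
        intro b hb
        rcases List.mem_cons.1 (hB b hb) with h | h
        · exact absurd (h ▸ hb) hiB
        · exact h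
      rw [ih hl' B hBl]
      rw [Ind_cons_of_notMem]
      exact fun h => hiB (Finset.mem_sdiff.1 h).1

end ShInd

end Pool.Agent.Helper45
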