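import Mathlib
import Pool.Agent.Helper45.FatSemi

namespace Pool.Agent.Helper45

open MvPolynomial

set_option linter.unusedSectionVars false

section ShA

variable {k : Type*} [Field k] {ι : Type*} [DecidableEq ι] {N : ℕ}

/-- A product of variables, one for each block in `B`. -/
noncomputable def mono (k : Type*) [Field k] {ι : Type*} {N : ℕ} (B : Finset ι)
    (f : ι → Fin N) : MvPolynomial (ι × Fin N) k :=
  ∏ i ∈ B, X (i, f i)

/-- A rank one tensor: a product of linear forms, one for each block in `e`. -/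
noncomputable def tens (e : Finset ι) (a : ι × Fin N → k) : MvPolynomial (ι × Fin N) k :=
  ∏ i ∈ e, ∑ u : Fin N, C (a (i, u)) * X (i, u)

/-- Relevant indices. -/
def Rel (B : Finset ι) (w : Finset ι → ℕ) : Set (Finset ι × ℕ) := {t | t.1 ⊆ B ∧ t.2 < w t.1}

/-- The multilinear multiples of the rank one tensors. -/
noncomputable def gen (B : Finset ι) (a : (Finset ι × ℕ) × (ι × Fin N) → k)
    (t : Finset ι × ℕ) (h : ι → Fin N) : MvPolynomial (ι × Fin N) k :=
  tens t.1 (fun p => a (t, p)) * mono k (B \ t.1) h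

/-- The span of the multilinear multiples of the rank one tensors. -/
noncomputable def spn (B : Finset ι) (w : Finset ι → ℕ)
    (a : (Finset ι × ℕ) × (ι × Fin N) → k) : Submodule k (MvPolynomial (ι × Fin N) k) :=
  Submodule.span k (Set.range fun x : Rel B w × (ι → Fin N) => gen B a x.1.1 x.2)

theorem gen_mem_spn {B : Finset ι} {w : Finset ι → ℕ} (a : (Finset ι × ℕ) × (ι × Fin N) → k)
    {t : Finset ι × ℕ} (ht : t ∈ Rel B w) (h : ι → Fin N) : gen B a t h ∈ spn B w a :=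
  Submodule.subset_span ⟨(⟨t, ht⟩, h), rfl⟩

theorem finite_Rel (B : Finset ι) (w : Finset ι → ℕ) : (Rel B w).Finite := by
  have h1 : Rel B w ⊆ ((B.powerset.biUnion fun e => (Finset.range (w e)).image fun ν => (e, ν) :
      Finset (Finset ι × ℕ)) : Set (Finset ι × ℕ)) := by
    rintro ⟨e, ν⟩ ⟨h1, h2⟩
    simp only [Finset.coe_biUnion, Finset.mem_coe, Finset.mem_powerset, Finset.coe_image,
      Set.mem_iUnion, Set.mem_image, Finset.mem_range]
    exact ⟨e, h1, ν, h2, rfl⟩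
  exact (Finset.finite_toSet _).subset h1

theorem tens_congr {e : Finset ι} {a b : ι × Fin N → k} (h : ∀ i ∈ e, ∀ u, a (i, u) = b (i, u)) :
    tens e a = tens e b := by
  unfold tens
  refine Finset.prod_congr rfl fun i hi => ?_
  refine Finset.sum_congr rfl fun u _ => ?_
  rw [h i hi u]

theorem mono_congr {B : Finset ι} {f g : ι → Fin N} (h : ∀ i ∈ B, f i = g i) :
    mono k B f = mono k B g := by
  unfold mono
  refine Finset.prod_congr rfl fun i hi => ?_
  rw [h i hi]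

theorem spn_congr {B : Finset ι} {w : Finset ι → ℕ} {a b : (Finset ι × ℕ) × (ι × Fin N) → k}
    (h : ∀ t ∈ Rel B w, ∀ p, a (t, p) = b (t, p)) : spn B w a = spn B w b := by
  unfold spn
  congr 1
  ext y
  constructor
  · rintro ⟨⟨⟨t, ht⟩, f⟩, rfl⟩
    refine ⟨⟨⟨t, ht⟩, f⟩, ?_⟩
    simp only [gen]
    rw [show (fun p => b (t, p)) = fun p => a (t, p) from funext fun p => (h t ht p).symm]
  · rintro ⟨⟨⟨t, ht⟩, f⟩, rfl⟩
    refine ⟨⟨⟨t, ht⟩, f⟩, ?_⟩
    simp only [gen]
    rw [show (fun p => a (t, p)) = fun p => b (t, p) from funext fun p => h t ht p]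

/-- Reindexing of a configuration. -/
def reidx (ρ : Finset ι × ℕ → Finset ι × ℕ) (s : (Finset ι × ℕ) × (ι × Fin N) → k) :
    (Finset ι × ℕ) × (ι × Fin N) → k := fun x => s (ρ x.1, x.2)

/-- The polynomial family behind `gen`. -/
noncomputable def genFam (k : Type*) [Field k] {ι : Type*} [DecidableEq ι] {N : ℕ}
    (ρ : Finset ι × ℕ → Finset ι × ℕ) (B : Finset ι) (t : Finset ι × ℕ)
    (h : ι → Fin N) :
    MvPolynomial (ι × Fin N) (MvPolynomial ((Finset ι × ℕ) × (ι × Fin N)) k) :=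
  (∏ i ∈ t.1, ∑ u : Fin N, C (X (ρ t, (i, u))) * X (i, u)) * ∏ i ∈ B \ t.1, X (i, h i)

theorem map_genFam (ρ : Finset ι × ℕ → Finset ι × ℕ) (B : Finset ι) (t : Finset ι × ℕ)
    (h : ι → Fin N) (s : (Finset ι × ℕ) × (ι × Fin N) → k) :
    map (eval s) (genFam k ρ B t h) = gen B (reidx ρ s) t h := by
  unfold genFam gen tens mono reidx
  rw [map_mul, map_prod, map_prod]
  congr 1
  · refine Finset.prod_congr rfl fun i _ => ?_
    rw [map_sum]
    refine Finset.sum_congr rfl fun u _ => ?_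
    rw [map_mul, map_C, map_X, eval_X]
  · refine Finset.prod_congr rfl fun i _ => ?_
    rw [map_X]

theorem semicont_spn [Finite ι] (ρ : Finset ι × ℕ → Finset ι × ℕ) (B : Finset ι)
    (w : Finset ι → ℕ) (s0 : (Finset ι × ℕ) × (ι × Fin N) → k) :
    ∃ G : MvPolynomial ((Finset ι × ℕ) × (ι × Fin N)) k, eval s0 G ≠ 0 ∧ ∀ s, eval s G ≠ 0 →
      Module.finrank k (spn B w (reidx ρ s0)) ≤ Module.finrank k (spn B w (reidx ρ s)) := by
  have : Finite (Rel B w) := (finite_Rel B w).to_subtype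
  obtain ⟨G, hG1, hG2⟩ := semicont
    (fun x : Rel B w × (ι → Fin N) => genFam k ρ B x.1.1 x.2) s0
  refine ⟨G, hG1, fun s hs => ?_⟩
  have h := hG2 s hs
  have e : ∀ s, (fun x : Rel B w × (ι → Fin N) => map (eval s) (genFam k ρ B x.1.1 x.2)) =
      fun x : Rel B w × (ι → Fin N) => gen B (reidx ρ s) x.1.1 x.2 := by
    intro s
    funext x
    exact map_genFam ρ B x.1.1 x.2 s
  rw [e, e] at h
  exact h

/-- Existence of a configuration whose span has rank at least `r`. -/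
def ER (k : Type*) [Field k] {ι : Type*} [DecidableEq ι] (N : ℕ) (B : Finset ι)
    (w : Finset ι → ℕ) (r : ℕ) : Prop :=
  ∃ a : (Finset ι × ℕ) × (ι × Fin N) → k, r ≤ Module.finrank k (spn B w a)

/-- A common configuration for finitely many open conditions. -/
theorem common [Finite ι] [Infinite k] {β : Type*} (Bs : Finset β) (B : β → Finset ι)
    (w : β → Finset ι → ℕ) (r : β → ℕ) (ρ : β → Finset ι × ℕ → Finset ι × ℕ)
    (hρ : ∀ b ∈ Bs, Set.InjOn (ρ b) (Rel (B b) (w b)))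
    (h : ∀ b ∈ Bs, ER k N (B b) (w b) (r b)) :
    ∃ s : (Finset ι × ℕ) × (ι × Fin N) → k, ∀ b ∈ Bs,
      r b ≤ Module.finrank k (spn (B b) (w b) (reidx (ρ b) s)) := by
  classical
  have key : ∀ b ∈ Bs, ∃ G : MvPolynomial ((Finset ι × ℕ) × (ι × Fin N)) k, G ≠ 0 ∧
      ∀ s, eval s G ≠ 0 → r b ≤ Module.finrank k (spn (B b) (w b) (reidx (ρ b) s)) := by
    intro b hb
    obtain ⟨a, ha⟩ := h b hb
    let s0 : (Finset ι × ℕ) × (ι × Fin N) → k := fun x =>
      a (Function.invFunOn (ρ b) (Rel (B b) (w b)) x.1, x.2)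
    have hs0 : spn (B b) (w b) (reidx (ρ b) s0) = spn (B b) (w b) a := by
      refine spn_congr fun t ht p => ?_
      unfold reidx
      simp only [s0]
      rw [Set.InjOn.leftInvOn_invFunOn (hρ b hb) ht]
    obtain ⟨G, hG1, hG2⟩ := semicont_spn (ρ b) (B b) (w b) s0
    refine ⟨G, ?_, fun s hs => ?_⟩
    · rintro rfl
      exact hG1 (map_zero _)
    · have := hG2 s hs
      rw [hs0] at this
      exact ha.trans this
  choose! G hG1 hG2 using key
  have hprod : ∏ b ∈ Bs, G b ≠ 0 := Finset.prod_ne_zero_iff.2 hG1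
  obtain ⟨s, hs⟩ : ∃ s, eval s (∏ b ∈ Bs, G b) ≠ 0 := by
    by_contra hcon
    push Not at hcon
    exact hprod (MvPolynomial.funext fun s => by rw [hcon s, map_zero])
  refine ⟨s, fun b hb => hG2 b hb s ?_⟩
  rw [map_prod] at hs
  exact Finset.prod_ne_zero_iff.1 hs b hb

theorem finite_spn [Finite ι] (B : Finset ι) (w : Finset ι → ℕ)
    (a : (Finset ι × ℕ) × (ι × Fin N) → k) : Module.Finite k (spn B w a) := by
  have : Finite (Rel B w) := (finite_Rel B w).to_subtype
  exact FiniteDimensional.span_of_finite k (Set.finite_range _)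

theorem spn_mono_w (B : Finset ι) {w w' : Finset ι → ℕ} (h : ∀ e ⊆ B, w e ≤ w' e)
    (a : (Finset ι × ℕ) × (ι × Fin N) → k) : spn B w a ≤ spn B w' a := by
  unfold spn
  refine Submodule.span_mono ?_
  rintro _ ⟨⟨⟨t, ht⟩, f⟩, rfl⟩
  exact ⟨⟨⟨t, ht.1, ht.2.trans_le (h _ ht.1)⟩, f⟩, rfl⟩

theorem ER_mono_w [Finite ι] (B : Finset ι) {w w' : Finset ι → ℕ} (h : ∀ e ⊆ B, w e ≤ w' e)
    {r r' : ℕ} (hr : r' ≤ r) (hER : ER k N B w r) : ER k N B w' r' := by
  obtain ⟨a, ha⟩ := hER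
  have := finite_spn B w' a
  exact ⟨a, hr.trans (ha.trans (Submodule.finrank_mono (spn_mono_w B h a)))⟩

end ShA

end Pool.Agent.Helper45
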