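import Mathlib
import Pool.Agent.Helper45.ShA

namespace Pool.Agent.Helper45

open MvPolynomial

set_option linter.unusedSectionVars false

section ShStep

variable {k : Type*} [Field k] {ι : Type*} [DecidableEq ι] {N : ℕ}

theorem pderiv_prod_eq_zero {σ α : Type*} (x : σ) (s : Finset α) (f : α → MvPolynomial σ k)
    (h : ∀ a ∈ s, pderiv x (f a) = 0) : pderiv x (∏ a ∈ s, f a) = 0 := by
  refine Finset.prod_induction f (fun p => pderiv x p = 0) ?_ ?_ h
  · intro a b ha hb
    rw [pderiv_mul, ha, hb, zero_mul, mul_zero, add_zero]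
  · exact pderiv_one

theorem pderiv_spn {B : Finset ι} {i : ι} (hi : i ∉ B) (g : Fin N) (w : Finset ι → ℕ)
    (a : (Finset ι × ℕ) × (ι × Fin N) → k) :
    ∀ y ∈ spn B w a, pderiv (i, g) y = 0 := by
  intro y hy
  unfold spn at hy
  induction hy using Submodule.span_induction with
  | mem y hy =>
    obtain ⟨⟨⟨t, ht⟩, f⟩, rfl⟩ := hy
    simp only [gen]
    have h1 : pderiv (i, g) (tens t.1 (fun p => a (t, p))) = 0 := by
      unfold tens
      refine pderiv_prod_eq_zero _ _ _ fun i' hi' => ?_
      rw [map_sum]
      refine Finset.sum_eq_zero fun u _ => ?_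
      rw [pderiv_C_mul, pderiv_X_of_ne, mul_zero]
      intro h
      have : i' = i := congrArg Prod.fst h
      exact hi (this ▸ ht.1 hi')
    have h2 : pderiv (i, g) (mono k (B \ t.1) f) = 0 := by
      unfold mono
      refine pderiv_prod_eq_zero _ _ _ fun i' hi' => ?_
      rw [pderiv_X_of_ne]
      intro h
      have : i' = i := congrArg Prod.fst h
      exact hi (this ▸ (Finset.mem_sdiff.1 hi').1)
    rw [pderiv_mul, h1, h2, zero_mul, mul_zero, add_zero]
  | zero => exact map_zero _
  | add x y _ _ hx hy => rw [map_add, hx, hy, add_zero]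
  | smul c x _ hx => rw [Derivation.map_smul, hx, smul_zero]

/-- Dimension of a sum of sectors. -/
theorem sector_sum [Finite ι] {B B' : Finset ι} {i : ι} (hi : i ∉ B') (w : Finset ι → ℕ)
    (a : (Finset ι × ℕ) × (ι × Fin N) → k) (w' : Fin N → Finset ι → ℕ)
    (b : Fin N → (Finset ι × ℕ) × (ι × Fin N) → k)
    (h : ∀ g, ∀ t ∈ Rel B' (w' g), ∀ f, X (i, g) * gen B' (b g) t f ∈ spn B w a) :
    ∑ g, Module.finrank k (spn B' (w' g) (b g)) ≤ Module.finrank k (spn B w a) := by
  classical
  have hfin := finite_spn B w a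
  have hfin' : ∀ g, Module.Finite k (spn B' (w' g) (b g)) := fun g => finite_spn B' (w' g) (b g)
  have hmem : ∀ g, ∀ y ∈ spn B' (w' g) (b g), X (i, g) * y ∈ spn B w a := by
    intro g y hy
    unfold spn at hy
    induction hy using Submodule.span_induction with
    | mem y hy =>
      obtain ⟨⟨⟨t, ht⟩, f⟩, rfl⟩ := hy
      exact h g t ht f
    | zero => rw [mul_zero]; exact Submodule.zero_mem _
    | add x y _ _ hx hy => rw [mul_add]; exact Submodule.add_mem _ hx hy
    | smul c x _ hx => rw [mul_smul_comm]; exact Submodule.smul_mem _ _ hx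
  let Ψ0 : (∀ g, spn B' (w' g) (b g)) →ₗ[k] MvPolynomial (ι × Fin N) k :=
    ∑ g, LinearMap.mulLeft k (X (i, g)) ∘ₗ (spn B' (w' g) (b g)).subtype ∘ₗ LinearMap.proj g
  have hΨ0 : ∀ x, Ψ0 x = ∑ g, X (i, g) * (x g : MvPolynomial (ι × Fin N) k) := by
    intro x
    simp only [Ψ0]
    rw [LinearMap.sum_apply]
    rfl
  let Ψ : (∀ g, spn B' (w' g) (b g)) →ₗ[k] spn B w a := Ψ0.codRestrict _ fun x => by
    rw [hΨ0]
    exact Submodule.sum_mem _ fun g _ => hmem g _ (x g).2
  have hinj : Function.Injective Ψ := by
    rw [injective_iff_map_eq_zero]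
    intro x hx
    have h1 : Ψ0 x = 0 := congrArg Subtype.val hx
    rw [hΨ0] at h1
    funext g
    apply Subtype.ext
    have h2 := congrArg (pderiv (i, g)) h1
    rw [map_sum, map_zero, Finset.sum_eq_single g] at h2
    · rw [pderiv_mul, pderiv_X_self, pderiv_spn hi g (w' g) (b g) _ (x g).2, mul_zero, add_zero,
        one_mul] at h2
      exact h2
    · intro g' _ hg'
      rw [pderiv_mul, pderiv_spn hi g (w' g') (b g') _ (x g').2, mul_zero, add_zero,
        pderiv_X_of_ne, zero_mul]
      intro h
      exact hg' (congrArg Prod.snd h)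
    · intro h; exact absurd (Finset.mem_univ _) h
  have := LinearMap.finrank_le_finrank_of_injective hinj
  rwa [Module.finrank_pi_fintype] at this

/-- The offset of a sector inside its class. -/
def off (c : Fin N → Finset ι) (m : Fin N → ℕ) (g : Fin N) : ℕ :=
  ∑ g' ∈ Finset.univ.filter (fun g' => g' < g ∧ c g' = c g), m g'

theorem off_add_le {c : Fin N → Finset ι} {m : Fin N → ℕ} {g g' : Fin N} (h : g < g')
    (hc : c g = c g') : off c m g + m g ≤ off c m g' := by
  classical
  unfold off
  have h1 : g ∉ Finset.univ.filter (fun g'' => g'' < g ∧ c g'' = c g) := by simp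
  rw [add_comm, ← Finset.sum_insert h1]
  refine Finset.sum_le_sum_of_subset ?_
  intro x hx
  rw [Finset.mem_insert, Finset.mem_filter] at hx
  rw [Finset.mem_filter]
  refine ⟨Finset.mem_univ _, ?_⟩
  rcases hx with rfl | ⟨_, h2, h3⟩
  · exact ⟨h, hc⟩
  · exact ⟨h2.trans h, h3.trans hc⟩

theorem off_add_le_total {c : Fin N → Finset ι} {m : Fin N → ℕ} (g : Fin N) :
    off c m g + m g ≤ ∑ g' ∈ Finset.univ.filter (fun g' => c g' = c g), m g' := by
  classical
  unfold off
  have h1 : g ∉ Finset.univ.filter (fun g'' => g'' < g ∧ c g'' = c g) := by simp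
  rw [add_comm, ← Finset.sum_insert h1]
  refine Finset.sum_le_sum_of_subset ?_
  intro x hx
  rw [Finset.mem_insert, Finset.mem_filter] at hx
  rw [Finset.mem_filter]
  refine ⟨Finset.mem_univ _, ?_⟩
  rcases hx with rfl | ⟨_, _, h3⟩
  · rfl
  · exact h3

theorem step [Finite ι] [Infinite k] {i : ι} {B' : Finset ι} (hi : i ∉ B') (w : Finset ι → ℕ)
    (c : Fin N → Finset ι) (m r : Fin N → ℕ) (hc : ∀ g, c g ⊆ B')
    (hER : ∀ g, ER k N B' (fun e => w e + if e = c g then m g else 0) (r g))
    (hw : ∀ e ⊆ B', ∑ g ∈ Finset.univ.filter (fun g => c g = e), m g ≤ w (insert i e)) :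
    ER k N (insert i B') w (∑ g, r g) := by
  classical
  let wg : Fin N → Finset ι → ℕ := fun g e => w e + if e = c g then m g else 0
  let ρ : Fin N → Finset ι × ℕ → Finset ι × ℕ := fun g t =>
    if t.1 = c g ∧ w t.1 ≤ t.2 then (insert i t.1, off c m g + (t.2 - w t.1)) else t
  have hρ : ∀ g ∈ (Finset.univ : Finset (Fin N)), Set.InjOn (ρ g) (Rel B' (wg g)) := by
    intro g _ t ht t' ht' heq
    have hit : i ∉ t.1 := fun h => hi (ht.1 h)
    have hit' : i ∉ t'.1 := fun h => hi (ht'.1 h)
    simp only [ρ] at heq
    split_ifs at heq with h1 h2 h2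
    · have h3 := congrArg Prod.snd heq
      simp only at h3
      have h4 : t.1 = t'.1 := h1.1.trans h2.1.symm
      refine Prod.ext h4 ?_
      rw [h4] at h1 h3
      omega
    · exfalso
      apply hit'
      rw [← heq]
      exact Finset.mem_insert_self _ _
    · exfalso
      apply hit
      rw [heq]
      exact Finset.mem_insert_self _ _
    · exact heq
  obtain ⟨s, hs⟩ := common (k := k) (N := N) (Finset.univ : Finset (Fin N)) (fun _ => B') wg r ρ hρ
    (fun g _ => hER g)
  let a : (Finset ι × ℕ) × (ι × Fin N) → k := fun x =>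
    if i ∈ x.1.1 ∧ x.2.1 = i then
      (if c x.2.2 = x.1.1.erase i ∧ off c m x.2.2 ≤ x.1.2 ∧ x.1.2 < off c m x.2.2 + m x.2.2
        then 1 else 0)
    else s x
  have ha1 : ∀ (e : Finset ι) (ν : ℕ) (u : Fin N), i ∈ e → a ((e, ν), (i, u)) =
      if c u = e.erase i ∧ off c m u ≤ ν ∧ ν < off c m u + m u then 1 else 0 := by
    intro e ν u he
    exact if_pos ⟨he, rfl⟩
  have ha2 : ∀ (e : Finset ι) (ν : ℕ) (i' : ι) (u : Fin N), (i ∈ e → i' ≠ i) →
      a ((e, ν), (i', u)) = s ((e, ν), (i', u)) := by
    intro e ν i' u he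
    exact if_neg fun h => he h.1 h.2
  have hsum : ∀ g : Fin N, ∀ ν < m g, ∑ u : Fin N,
      C (a ((insert i (c g), off c m g + ν), (i, u))) * (X (i, u) : MvPolynomial (ι × Fin N) k) =
      X (i, g) := by
    intro g ν hν
    have hig : i ∉ c g := fun h => hi (hc g h)
    rw [Finset.sum_eq_single g]
    · have : a ((insert i (c g), off c m g + ν), (i, g)) = 1 := by
        rw [ha1 _ _ _ (Finset.mem_insert_self _ _), if_pos]
        refine ⟨(Finset.erase_insert hig).symm, by omega, by omega⟩
      rw [this, C_1, one_mul]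
    · intro u _ hu
      have : a ((insert i (c g), off c m g + ν), (i, u)) = 0 := by
        rw [ha1 _ _ _ (Finset.mem_insert_self _ _), if_neg]
        rintro ⟨h1, h2, h3⟩
        rw [Finset.erase_insert hig] at h1
        rcases lt_or_gt_of_ne hu with h4 | h4
        · have := off_add_le (m := m) h4 h1
          omega
        · have := off_add_le (m := m) h4 h1.symm
          omega
      rw [this, C_0, zero_mul]
    · intro h; exact absurd (Finset.mem_univ _) h
  refine ⟨a, ?_⟩
  refine (Finset.sum_le_sum fun g hg => hs g hg).trans ?_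
  refine sector_sum hi w a wg (fun g => reidx (ρ g) s) ?_
  intro g t ht f
  have hit : i ∉ t.1 := fun h => hi (ht.1 h)
  have hmono : mono k ((insert i B') \ (insert i t.1)) f = mono k (B' \ t.1) f := by
    have : (insert i B') \ (insert i t.1) = B' \ t.1 := by
      ext x
      simp only [Finset.mem_sdiff, Finset.mem_insert, not_or]
      constructor
      · rintro ⟨h1, h2, h3⟩
        exact ⟨h1.resolve_left h2, h3⟩
      · rintro ⟨h1, h2⟩
        exact ⟨Or.inr h1, fun h => hi (h ▸ h1), h2⟩
    rw [this]
  by_cases h1 : t.1 = c g ∧ w t.1 ≤ t.2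
  · -- extra tensors
    have hρt : ρ g t = (insert i t.1, off c m g + (t.2 - w t.1)) := if_pos h1
    have hlt : t.2 - w t.1 < m g := by
      have := ht.2
      simp only [wg] at this
      rw [if_pos h1.1] at this
      omega
    have hrel : (insert i t.1, off c m g + (t.2 - w t.1)) ∈ Rel (insert i B') w := by
      refine ⟨Finset.insert_subset_insert i ht.1, ?_⟩
      have h2 := off_add_le_total (c := c) (m := m) g
      have h3 := hw (c g) (hc g)
      simp only
      rw [h1.1]
      rw [h1.1] at hlt
      omega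
    have h4 := gen_mem_spn a hrel f
    have h5 : gen (insert i B') a (insert i t.1, off c m g + (t.2 - w t.1)) f =
        X (i, g) * gen B' (reidx (ρ g) s) t f := by
      simp only [gen]
      rw [hmono]
      have h6 : tens (insert i t.1)
          (fun p => a ((insert i t.1, off c m g + (t.2 - w t.1)), p)) =
          X (i, g) * tens t.1 (fun p => reidx (ρ g) s (t, p)) := by
        unfold tens
        rw [Finset.prod_insert hit]
        congr 1
        · rw [h1.1] at hlt ⊢
          exact hsum g _ hlt
        · refine Finset.prod_congr rfl fun i' hi' => ?_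
          refine Finset.sum_congr rfl fun u _ => ?_
          have h7 : a ((insert i t.1, off c m g + (t.2 - w t.1)), (i', u)) =
              reidx (ρ g) s (t, (i', u)) := by
            rw [ha2 _ _ _ _ fun _ h8 => hit (h8 ▸ hi')]
            unfold reidx
            simp only
            rw [hρt]
          simp only [h7]
      rw [h6, mul_assoc]
    rw [← h5]
    exact h4
  · -- shared tensors
    have hρt : ρ g t = t := if_neg h1
    have hlt : t.2 < w t.1 := by
      have := ht.2
      simp only [wg] at this
      by_cases h2 : t.1 = c g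
      · by_contra h3
        exact h1 ⟨h2, by omega⟩
      · rw [if_neg h2] at this
        omega
    have hrel : t ∈ Rel (insert i B') w := ⟨ht.1.trans (Finset.subset_insert _ _), hlt⟩
    have h4 := gen_mem_spn a hrel (Function.update f i g)
    have h5 : gen (insert i B') a t (Function.update f i g) =
        X (i, g) * gen B' (reidx (ρ g) s) t f := by
      simp only [gen]
      have h6 : tens t.1 (fun p => a (t, p)) = tens t.1 (fun p => reidx (ρ g) s (t, p)) := by
        refine tens_congr fun i' hi' u => ?_
        have h7 : a ((t.1, t.2), (i', u)) = s ((t.1, t.2), (i', u)) :=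
          ha2 _ _ _ _ fun h8 => absurd h8 hit
        unfold reidx
        simp only
        rw [hρt]
        exact h7
      have h7 : mono k ((insert i B') \ t.1) (Function.update f i g) =
          X (i, g) * mono k (B' \ t.1) f := by
        have : (insert i B') \ t.1 = insert i (B' \ t.1) := Finset.insert_sdiff_of_notMem _ hit
        rw [this]
        unfold mono
        rw [Finset.prod_insert (fun h => hi (Finset.mem_sdiff.1 h).1), Function.update_self]
        congr 1
        refine Finset.prod_congr rfl fun i' hi' => ?_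
        rw [Function.update_of_ne]
        rintro rfl
        exact hi (Finset.mem_sdiff.1 hi').1
      rw [h6, h7]
      ring
    rw [← h5]
    exact h4

end ShStep

end Pool.Agent.Helper45
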