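import Mathlib
import Pool.Agent.Helper45.ShStep
import Pool.Agent.Helper45.ShInd

namespace Pool.Agent.Helper45

open MvPolynomial Filter

set_option linter.unusedSectionVars false

section ShMain

variable {k : Type*} [Field k] {ι : Type*} [DecidableEq ι] {N : ℕ}

theorem ER_zero (B : Finset ι) (w : Finset ι → ℕ) : ER k N B w 0 :=
  ⟨fun _ => 0, Nat.zero_le _⟩

theorem ER_add_leg [Finite ι] [Infinite k] {B : Finset ι} {i : ι} (hi : i ∉ B)
    {w : Finset ι → ℕ} {r : ℕ} (h : ER k N B w r) : ER k N (insert i B) w (N * r) := by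
  have h1 := step (k := k) hi w (fun _ : Fin N => ∅) (fun _ => 0) (fun _ => r)
    (fun _ => Finset.empty_subset _) (fun _ => by simpa using h) (fun e _ => by simp)
  simpa using h1

theorem ER_add_legs [Finite ι] [Infinite k] {B B2 : Finset ι} (hB : B ⊆ B2)
    {w : Finset ι → ℕ} {r : ℕ} (h : ER k N B w r) :
    ER k N B2 w (N ^ (B2.card - B.card) * r) := by
  classical
  obtain ⟨C, hC⟩ : ∃ C, C = B2 \ B := ⟨_, rfl⟩
  induction C using Finset.induction_on generalizing B2 with
  | empty =>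
    have : B2 = B := by
      refine Finset.Subset.antisymm ?_ hB
      rw [← Finset.sdiff_eq_empty_iff_subset, ← hC]
    subst this
    simpa using h
  | insert i C hiC ih =>
    have hiB2 : i ∈ B2 := by
      have : i ∈ B2 \ B := by rw [← hC]; exact Finset.mem_insert_self _ _
      exact (Finset.mem_sdiff.1 this).1
    have hiB : i ∉ B := by
      have : i ∈ B2 \ B := by rw [← hC]; exact Finset.mem_insert_self _ _
      exact (Finset.mem_sdiff.1 this).2
    have h1 : B ⊆ B2.erase i := fun b hb => Finset.mem_erase.2 ⟨fun h => hiB (h ▸ hb), hB hb⟩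
    have h2 : C = B2.erase i \ B := by
      rw [Finset.erase_sdiff_comm, ← hC, Finset.erase_insert hiC]
    have h3 := ER_add_leg (Finset.notMem_erase i B2) (ih h1 h2)
    rw [Finset.insert_erase hiB2, ← mul_assoc, ← pow_succ'] at h3
    have h4 : (B2.erase i).card - B.card + 1 = B2.card - B.card := by
      rw [Finset.card_erase_of_mem hiB2]
      have h5 := Finset.card_le_card h1
      rw [Finset.card_erase_of_mem hiB2] at h5
      have h6 : 0 < B2.card := Finset.card_pos.2 ⟨i, hiB2⟩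
      omega
    rwa [h4] at h3

theorem ER_of_empty [Finite ι] [Infinite k] (hN : 0 < N) (B : Finset ι) {w : Finset ι → ℕ}
    (hw : 1 ≤ w ∅) : ER k N B w (N ^ B.card) := by
  have h1 : ER k N (∅ : Finset ι) w 1 := by
    refine ⟨fun _ => 0, ?_⟩
    have hfin := finite_spn (k := k) (N := N) (∅ : Finset ι) w fun _ => 0
    have hrel : ((∅ : Finset ι), 0) ∈ Rel ∅ w := ⟨Finset.Subset.refl _, hw⟩
    have h2 := gen_mem_spn (k := k) (fun _ => 0) hrel (fun _ => (⟨0, hN⟩ : Fin N))
    have h3 : gen (k := k) ∅ (fun _ => 0) ((∅ : Finset ι), 0) (fun _ => (⟨0, hN⟩ : Fin N)) = 1 := by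
      simp [gen, tens, mono]
    rw [h3] at h2
    rw [Nat.one_le_iff_ne_zero]
    intro h4
    rw [Submodule.finrank_eq_zero] at h4
    rw [h4, Submodule.mem_bot] at h2
    exact one_ne_zero h2
  have h2 := ER_add_legs (Finset.empty_subset B) h1
  simpa using h2

/-- Number of tensors in each class. -/
noncomputable def wN (x : Finset ι → ℝ) (N : ℕ) (e : Finset ι) : ℕ := ⌊x e * (N : ℝ) ^ e.card⌋₊

/-- Asymptotic rank statement. -/
def AR (k : Type*) [Field k] {ι : Type*} [DecidableEq ι] (B : Finset ι) (x : Finset ι → ℝ)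
    (η : ℝ) : Prop :=
  ∀ᶠ N : ℕ in atTop, ∃ r : ℕ, (1 - η) * (N : ℝ) ^ B.card ≤ r ∧ ER k N B (wN x N) r

theorem AR_mono {B : Finset ι} {x : Finset ι → ℝ} {η η' : ℝ} (h : η ≤ η') (hAR : AR k B x η) :
    AR k B x η' := by
  refine hAR.mono fun N hN => ?_
  obtain ⟨r, h1, h2⟩ := hN
  refine ⟨r, le_trans ?_ h1, h2⟩
  refine mul_le_mul_of_nonneg_right (by linarith) (by positivity)

theorem AR_of_one_le (B : Finset ι) (x : Finset ι → ℝ) {η : ℝ} (h : 1 ≤ η) : AR k B x η := by
  refine Filter.Eventually.of_forall fun N => ⟨0, ?_, ER_zero _ _⟩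
  rw [Nat.cast_zero]
  exact mul_nonpos_of_nonpos_of_nonneg (by linarith) (by positivity)

theorem AR_add_legs [Finite ι] [Infinite k] {B B2 : Finset ι} (hB : B ⊆ B2)
    {x : Finset ι → ℝ} {η : ℝ} (h : AR k B x η) : AR k B2 x η := by
  refine h.mono fun N hN => ?_
  obtain ⟨r, h1, h2⟩ := hN
  refine ⟨N ^ (B2.card - B.card) * r, ?_, ER_add_legs hB h2⟩
  push_cast
  have h3 : (N : ℝ) ^ B2.card = (N : ℝ) ^ (B2.card - B.card) * (N : ℝ) ^ B.card := by
    rw [← pow_add, Nat.sub_add_cancel (Finset.card_le_card hB)]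
  rw [h3, mul_left_comm]
  exact mul_le_mul_of_nonneg_left h1 (by positivity)

theorem eventually_count (p y x : ℝ) (hp : 0 ≤ p) (hy : 0 ≤ y) (a : ℕ) (ha : 1 ≤ a)
    (h : p * y < x) :
    ∀ᶠ N : ℕ in atTop, ⌈p * (N : ℝ)⌉₊ * (⌊y * (N : ℝ) ^ a⌋₊ + 1) ≤ ⌊x * (N : ℝ) ^ (a + 1)⌋₊ := by
  have h1 : Tendsto (fun N : ℕ => (p + 1 / (N : ℝ)) * (y + 1 / (N : ℝ))) atTop
      (nhds ((p + 0) * (y + 0))) := by
    refine Tendsto.mul ?_ ?_
    · exact tendsto_const_nhds.add tendsto_one_div_atTop_nhds_zero_nat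
    · exact tendsto_const_nhds.add tendsto_one_div_atTop_nhds_zero_nat
  rw [add_zero, add_zero] at h1
  filter_upwards [h1.eventually_lt_const h, eventually_ge_atTop 1] with N hN1 hN2
  have hNpos : (0 : ℝ) < N := by exact_mod_cast hN2
  have hN1' : (1 : ℝ) ≤ N := by exact_mod_cast hN2
  refine Nat.le_floor ?_
  push_cast
  have h2 : (⌈p * (N : ℝ)⌉₊ : ℝ) ≤ N * (p + 1 / (N : ℝ)) := by
    have := (Nat.ceil_lt_add_one (by positivity : 0 ≤ p * (N : ℝ))).le
    have h3 : (N : ℝ) * (p + 1 / (N : ℝ)) = p * N + 1 := by field_simp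
    rw [h3]; exact this
  have h3 : ((⌊y * (N : ℝ) ^ a⌋₊ : ℝ) + 1) ≤ (N : ℝ) ^ a * (y + 1 / (N : ℝ)) := by
    have h4 := Nat.floor_le (by positivity : 0 ≤ y * (N : ℝ) ^ a)
    have h5 : (N : ℝ) ^ a * (y + 1 / (N : ℝ)) = y * (N : ℝ) ^ a + (N : ℝ) ^ a / N := by
      field_simp
    have h6 : 1 ≤ (N : ℝ) ^ a / N := by
      rw [le_div_iff₀ hNpos, one_mul]
      calc (N : ℝ) = (N : ℝ) ^ 1 := (pow_one _).symm
        _ ≤ (N : ℝ) ^ a := pow_le_pow_right₀ hN1' ha
    linarith
  calc (⌈p * (N : ℝ)⌉₊ : ℝ) * ((⌊y * (N : ℝ) ^ a⌋₊ : ℝ) + 1)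
      ≤ (N * (p + 1 / (N : ℝ))) * ((N : ℝ) ^ a * (y + 1 / (N : ℝ))) :=
        mul_le_mul h2 h3 (by positivity) (by positivity)
    _ = ((p + 1 / (N : ℝ)) * (y + 1 / (N : ℝ))) * (N : ℝ) ^ (a + 1) := by ring
    _ ≤ x * (N : ℝ) ^ (a + 1) := mul_le_mul_of_nonneg_right hN1.le (by positivity)

theorem eventually_count_one (p x : ℝ) (hp : 0 ≤ p) (h : p < x) :
    ∀ᶠ N : ℕ in atTop, ⌈p * (N : ℝ)⌉₊ ≤ ⌊x * (N : ℝ) ^ 1⌋₊ := by
  have h1 : Tendsto (fun N : ℕ => p + 1 / (N : ℝ)) atTop (nhds (p + 0)) :=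
    tendsto_const_nhds.add tendsto_one_div_atTop_nhds_zero_nat
  rw [add_zero] at h1
  filter_upwards [h1.eventually_lt_const h, eventually_ge_atTop 1] with N hN1 hN2
  have hNpos : (0 : ℝ) < N := by exact_mod_cast hN2
  refine Nat.le_floor ?_
  have := (Nat.ceil_lt_add_one (by positivity : 0 ≤ p * (N : ℝ))).le
  have h3 : (N : ℝ) * (p + 1 / (N : ℝ)) = p * N + 1 := by field_simp
  rw [pow_one, mul_comm x]
  calc (⌈p * (N : ℝ)⌉₊ : ℝ) ≤ N * (p + 1 / (N : ℝ)) := by rw [h3]; exact this
    _ ≤ N * x := mul_le_mul_of_nonneg_left hN1.le hNpos.le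

/-- Distribution of the sectors among the classes. -/
theorem portion [Finite ι] [Infinite k] {i : ι} {B' : Finset ι} (hi : i ∉ B')
    (x : Finset ι → ℝ) (hx : ∀ e, 0 ≤ x e) (η' : ℝ) (hη' : 0 ≤ η') (hleft : AR k B' x η')
    (p y : Finset ι → ℝ) (hp : ∀ e, 0 ≤ p e) (hy : ∀ e, 0 ≤ y e)
    (h1 : ∀ e ⊆ B', 0 < p e → e ≠ ∅ → p e * y e < x (insert i e) ∧
      AR k B' (fun e'' => x e'' + if e'' = e then y e else 0) 0)
    (h2 : 0 < p ∅ → p ∅ < x {i}) :
    AR k (insert i B') x (max 0 (1 - ∑ e ∈ B'.powerset, p e) * η') := by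
  classical
  let E : Finset (Finset ι) := B'.powerset.filter (fun e => 0 < p e)
  have hE : ∀ e ∈ E, e ⊆ B' ∧ 0 < p e := fun e he => by
    rw [Finset.mem_filter, Finset.mem_powerset] at he
    exact he
  let mm : Finset ι → ℕ → ℕ := fun e N => if e = ∅ then 1 else ⌊y e * (N : ℝ) ^ e.card⌋₊ + 1
  have hcount : ∀ e ∈ E, ∀ᶠ N : ℕ in atTop, ⌈p e * (N : ℝ)⌉₊ * mm e N ≤ wN x N (insert i e) := by
    intro e he
    have hie : i ∉ e := fun h => hi ((hE e he).1 h)
    by_cases h0 : e = ∅
    · subst h0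
      have := eventually_count_one (p ∅) (x {i}) (hp _) (h2 (hE _ he).2)
      refine this.mono fun N hN => ?_
      simp only [mm, if_pos, mul_one]
      unfold wN
      simpa using hN
    · have hcard : 1 ≤ e.card := Finset.card_pos.2 (Finset.nonempty_iff_ne_empty.2 h0)
      have := eventually_count (p e) (y e) (x (insert i e)) (hp _) (hy _) e.card hcard
        (h1 e (hE e he).1 (hE e he).2 h0).1
      refine this.mono fun N hN => ?_
      simp only [mm, if_neg h0]
      unfold wN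
      rw [Finset.card_insert_of_notMem hie]
      exact hN
  have hER : ∀ e ∈ E, ∀ᶠ N : ℕ in atTop,
      ER k N B' (fun e'' => wN x N e'' + if e'' = e then mm e N else 0) (N ^ B'.card) := by
    intro e he
    by_cases h0 : e = ∅
    · subst h0
      filter_upwards [eventually_gt_atTop 0] with N hN
      refine ER_of_empty hN B' ?_
      simp [mm]
    · have := (h1 e (hE e he).1 (hE e he).2 h0).2
      refine this.mono fun N hN => ?_
      obtain ⟨r, hr1, hr2⟩ := hN
      refine ER_mono_w B' ?_ ?_ hr2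
      · intro e'' _
        by_cases h3 : e'' = e
        · subst h3
          simp only [mm, if_neg h0, if_pos, wN]
          rw [add_mul]
          have h4 : (0 : ℝ) ≤ x e'' * (N : ℝ) ^ e''.card :=
            mul_nonneg (hx _) (by positivity)
          have h5 : (0 : ℝ) ≤ y e'' * (N : ℝ) ^ e''.card :=
            mul_nonneg (hy _) (by positivity)
          have h6 := Nat.lt_floor_add_one (x e'' * (N : ℝ) ^ e''.card)
          have h7 := Nat.lt_floor_add_one (y e'' * (N : ℝ) ^ e''.card)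
          have h8 : x e'' * (N : ℝ) ^ e''.card + y e'' * (N : ℝ) ^ e''.card <
              ((⌊x e'' * (N : ℝ) ^ e''.card⌋₊ + (⌊y e'' * (N : ℝ) ^ e''.card⌋₊ + 1) + 1 : ℕ) : ℝ)
              := by
            push_cast
            linarith
          have h9 := (Nat.floor_lt (add_nonneg h4 h5)).2 h8
          omega
        · simp only [wN, if_neg h3, add_zero]
          exact le_rfl
      · rw [sub_zero, one_mul] at hr1
        exact_mod_cast hr1
  have hall : ∀ᶠ N : ℕ in atTop, ∀ e ∈ E,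
      ⌈p e * (N : ℝ)⌉₊ * mm e N ≤ wN x N (insert i e) ∧
      ER k N B' (fun e'' => wN x N e'' + if e'' = e then mm e N else 0) (N ^ B'.card) := by
    rw [Filter.eventually_all_finset]
    intro e he
    exact (hcount e he).and (hER e he)
  filter_upwards [hall, hleft] with N hN hleftN
  obtain ⟨r0, hr01, hr02⟩ := hleftN
  let n : Finset ι → ℕ := fun e => ⌈p e * (N : ℝ)⌉₊
  let T := (Σ e : E, Fin (n e.1)) ⊕ Fin (N - ∑ e ∈ E, n e)
  have hcardT : Fintype.card (Fin N) ≤ Fintype.card T := by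
    rw [Fintype.card_sum, Fintype.card_sigma, Fintype.card_fin, Fintype.card_fin]
    simp only [Fintype.card_fin]
    rw [Finset.sum_coe_sort E n]
    omega
  obtain ⟨emb⟩ := Function.Embedding.nonempty_of_card_le hcardT
  let cT : T → Finset ι := Sum.elim (fun z => z.1.1) (fun _ => ∅)
  let mT : T → ℕ := Sum.elim (fun z => mm z.1.1 N) (fun _ => 0)
  let rT : T → ℕ := Sum.elim (fun _ => N ^ B'.card) (fun _ => r0)
  have hstep := step (k := k) (N := N) hi (wN x N) (fun g => cT (emb g)) (fun g => mT (emb g))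
    (fun g => rT (emb g)) ?_ ?_ ?_
  · refine ⟨_, ?_, hstep⟩
    rw [Finset.card_insert_of_notMem hi]
    -- count the unused sectors
    let q := (Finset.univ.filter fun g : Fin N => (emb g).isRight).card
    have hq : q ≤ N - ∑ e ∈ E, n e := by
      have h3 : (Finset.univ.filter fun g : Fin N => (emb g).isRight).map emb ⊆
          (Finset.univ : Finset (Fin (N - ∑ e ∈ E, n e))).map Function.Embedding.inr := by
        intro z hz
        rw [Finset.mem_map] at hz
        obtain ⟨g, hg, rfl⟩ := hz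
        rw [Finset.mem_filter] at hg
        obtain ⟨b, hb⟩ := Sum.isRight_iff.1 hg.2
        rw [Finset.mem_map]
        exact ⟨b, Finset.mem_univ _, hb.symm⟩
      have h4 := Finset.card_le_card h3
      rw [Finset.card_map, Finset.card_map, Finset.card_univ, Fintype.card_fin] at h4
      exact h4
    have hsum : ((∑ g, rT (emb g) : ℕ) : ℝ) ≥
        (N : ℝ) ^ (B'.card + 1) - q * (η' * (N : ℝ) ^ B'.card) := by
      push_cast
      have h3 : ∀ g : Fin N, (N : ℝ) ^ B'.card -
          (if (emb g).isRight then η' * (N : ℝ) ^ B'.card else 0) ≤ (rT (emb g) : ℝ) := by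
        intro g
        rcases hg : emb g with z | z
        · simp [rT]
        · simp only [Sum.isRight_inr, if_true, rT, Sum.elim_inr]
          linarith
      have h4 := Finset.sum_le_sum fun g (_ : g ∈ (Finset.univ : Finset (Fin N))) => h3 g
      rw [Finset.sum_sub_distrib, Finset.sum_const, Finset.card_univ, Fintype.card_fin,
        ← Finset.sum_filter, Finset.sum_const, nsmul_eq_mul, nsmul_eq_mul] at h4
      rw [ge_iff_le, pow_succ']
      exact h4
    refine le_trans ?_ hsum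
    have h3 : (q : ℝ) ≤ max 0 (1 - ∑ e ∈ B'.powerset, p e) * N := by
      have h4 : ∑ e ∈ B'.powerset, p e = ∑ e ∈ E, p e := by
        symm
        refine Finset.sum_subset (Finset.filter_subset _ _) ?_
        intro e he hne
        by_contra h5
        exact hne (Finset.mem_filter.2 ⟨he, lt_of_le_of_ne (hp e) (Ne.symm h5)⟩)
      rw [h4]
      rcases le_total N (∑ e ∈ E, n e) with h5 | h5
      · have : q = 0 := by omega
        rw [this, Nat.cast_zero]
        exact mul_nonneg (le_max_left _ _) (by positivity)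
      · have h6 : (q : ℝ) ≤ (N : ℝ) - ∑ e ∈ E, (n e : ℝ) := by
          have h7 : ((q + ∑ e ∈ E, n e : ℕ) : ℝ) ≤ N := by
            exact_mod_cast (by omega : q + ∑ e ∈ E, n e ≤ N)
          push_cast at h7
          linarith
        have h7 : ∑ e ∈ E, p e * (N : ℝ) ≤ ∑ e ∈ E, (n e : ℝ) :=
          Finset.sum_le_sum fun e _ => Nat.le_ceil _
        rw [← Finset.sum_mul] at h7
        calc (q : ℝ) ≤ (1 - ∑ e ∈ E, p e) * N := by linarith
          _ ≤ max 0 (1 - ∑ e ∈ E, p e) * N :=
            mul_le_mul_of_nonneg_right (le_max_right _ _) (by positivity)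
    have h4 : (q : ℝ) * (η' * (N : ℝ) ^ B'.card) ≤
        (max 0 (1 - ∑ e ∈ B'.powerset, p e) * N) * (η' * (N : ℝ) ^ B'.card) :=
      mul_le_mul_of_nonneg_right h3 (by positivity)
    have h5 : (max 0 (1 - ∑ e ∈ B'.powerset, p e) * N) * (η' * (N : ℝ) ^ B'.card) =
        (max 0 (1 - ∑ e ∈ B'.powerset, p e) * η') * (N : ℝ) ^ (B'.card + 1) := by ring
    rw [h5] at h4
    linarith
  · intro g
    rcases emb g with z | z
    · exact (hE z.1.1 z.1.2).1
    · exact Finset.empty_subset _
  · intro g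
    rcases emb g with z | z
    · exact (hN z.1.1 z.1.2).2
    · simp only [cT, mT, rT, Sum.elim_inr]
      simpa using hr02
  · intro e he
    have h3 : ∑ g ∈ Finset.univ.filter (fun g => cT (emb g) = e), mT (emb g) ≤
        ∑ z ∈ Finset.univ.filter (fun z => cT z = e), mT z := by
      rw [← Finset.sum_map (Finset.univ.filter (fun g => cT (emb g) = e)) emb mT]
      refine Finset.sum_le_sum_of_subset ?_
      intro z hz
      rw [Finset.mem_map] at hz
      obtain ⟨g, hg, rfl⟩ := hz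
      rw [Finset.mem_filter] at hg ⊢
      exact ⟨Finset.mem_univ _, hg.2⟩
    refine h3.trans ?_
    rw [Finset.sum_filter, Fintype.sum_sum_type, Fintype.sum_sigma]
    have h4 : ∑ z : Fin (N - ∑ e ∈ E, n e), (if cT (Sum.inr z) = e then mT (Sum.inr z) else 0) = 0
        := by
      refine Finset.sum_eq_zero fun z _ => ?_
      simp [mT]
    rw [h4, add_zero]
    have h5 : ∀ z : E, ∑ u : Fin (n z.1), (if cT (Sum.inl ⟨z, u⟩) = e then mT (Sum.inl ⟨z, u⟩)
        else 0) = if z.1 = e then n z.1 * mm z.1 N else 0 := by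
      intro z
      simp only [cT, mT, Sum.elim_inl]
      split_ifs with h6
      · rw [Finset.sum_const, Finset.card_univ, Fintype.card_fin, smul_eq_mul]
      · simp
    rw [Finset.sum_congr rfl fun z _ => h5 z]
    by_cases h6 : e ∈ E
    · rw [Finset.sum_eq_single (⟨e, h6⟩ : E)]
      · rw [if_pos rfl]
        exact (hN e h6).1
      · intro z _ hz
        rw [if_neg]
        intro h7
        exact hz (Subtype.ext h7)
      · intro h7; exact absurd (Finset.mem_univ _) h7
    · rw [Finset.sum_eq_zero]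
      · exact Nat.zero_le _
      · intro z _
        rw [if_neg]
        rintro rfl
        exact h6 z.2

end ShMain

end Pool.Agent.Helper45
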