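import Mathlib

namespace Pool.Agent.Helper45

set_option linter.unusedSectionVars false

section ShPolar

variable {k : Type*} [Field k] [CharZero k] {R : Type*} [CommRing R] [Algebra k R]

theorem sum_superset_sign {α : Type*} [Fintype α] [DecidableEq α] (T : Finset α)
    (hT : T ≠ Finset.univ) :
    ∑ S : Finset α, (if T ⊆ S then (-1 : k) ^ S.card else 0) = 0 := by
  obtain ⟨x, hx⟩ : ∃ x, x ∉ T := by
    by_contra h
    push Not at h
    exact hT (Finset.eq_univ_iff_forall.2 h)
  refine Finset.sum_involution (fun S _ => if x ∈ S then S.erase x else insert x S) ?_ ?_ ?_ ?_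
  · intro S _
    by_cases h : x ∈ S
    · simp only [h, if_true]
      have h1 : T ⊆ S.erase x ↔ T ⊆ S := by
        constructor
        · exact fun h2 => h2.trans (Finset.erase_subset _ _)
        · exact fun h2 y hy => Finset.mem_erase.2 ⟨fun h3 => hx (h3 ▸ hy), h2 hy⟩
      simp only [h1]
      split_ifs
      · rw [Finset.card_erase_of_mem h]
        have h2 : 0 < S.card := Finset.card_pos.2 ⟨x, h⟩
        obtain ⟨n, hn⟩ := Nat.exists_eq_succ_of_ne_zero h2.ne'
        rw [hn, Nat.succ_sub_one, pow_succ]
        ring
      · ring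
    · simp only [h, if_false]
      have h1 : T ⊆ insert x S ↔ T ⊆ S := by
        constructor
        · exact fun h2 y hy => (Finset.mem_insert.1 (h2 hy)).resolve_left fun h3 => hx (h3 ▸ hy)
        · exact fun h2 => h2.trans (Finset.subset_insert _ _)
      simp only [h1]
      split_ifs
      · rw [Finset.card_insert_of_notMem h, pow_succ]
        ring
      · ring
  · intro S _ _ h
    by_cases h1 : x ∈ S
    · simp only [h1, if_true] at h
      exact (Finset.notMem_erase x S) (h.symm ▸ h1)
    · simp only [h1, if_false] at h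
      exact h1 (h ▸ Finset.mem_insert_self x S)
  · intro S _
    exact Finset.mem_univ _
  · intro S _
    by_cases h : x ∈ S
    · simp only [h, if_true, Finset.notMem_erase, if_false]
      exact Finset.insert_erase h
    · simp only [h, if_false, Finset.mem_insert_self, if_true]
      exact Finset.erase_insert h

/-- A product is a combination of powers of partial sums. -/
theorem prod_mem_span_pow {j : ℕ} (y : Fin j → R) :
    ∏ l, y l ∈ Submodule.span k (Set.range fun S : Finset (Fin j) => (∑ l ∈ S, y l) ^ j) := by
  classical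
  have h1 : ∑ S : Finset (Fin j), ((-1 : k) ^ S.card) • (∑ l ∈ S, y l) ^ j =
      ∑ w : Fin j → Fin j, (∑ S : Finset (Fin j), (if Finset.univ.image w ⊆ S then
        (-1 : k) ^ S.card else 0)) • ∏ l, y (w l) := by
    have h2 : ∀ S : Finset (Fin j), ((-1 : k) ^ S.card) • (∑ l ∈ S, y l) ^ j =
        ∑ w : Fin j → Fin j, (if Finset.univ.image w ⊆ S then (-1 : k) ^ S.card else 0) •
          ∏ l, y (w l) := by
      intro S
      rw [Finset.sum_pow', Finset.smul_sum]
      have h3 : Fintype.piFinset (fun _ : Fin j => S) =
          Finset.univ.filter (fun w : Fin j → Fin j => Finset.univ.image w ⊆ S) := by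
        ext w
        simp only [Fintype.mem_piFinset, Finset.mem_filter, Finset.mem_univ, true_and]
        constructor
        · intro h z hz
          rw [Finset.mem_image] at hz
          obtain ⟨l, _, rfl⟩ := hz
          exact h l
        · intro h l
          exact h (Finset.mem_image_of_mem w (Finset.mem_univ l))
      rw [h3, Finset.sum_filter]
      refine Finset.sum_congr rfl fun w _ => ?_
      split_ifs
      · rfl
      · rw [zero_smul]
    rw [Finset.sum_congr rfl fun S _ => h2 S, Finset.sum_comm]
    refine Finset.sum_congr rfl fun w _ => ?_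
    rw [Finset.sum_smul]
  have h4 : ∀ w : Fin j → Fin j, (∑ S : Finset (Fin j), (if Finset.univ.image w ⊆ S then
      (-1 : k) ^ S.card else 0)) • ∏ l, y (w l) =
      if Function.Surjective w then (-1 : k) ^ j • ∏ l, y l else 0 := by
    intro w
    split_ifs with hw
    · have h5 : Finset.univ.image w = Finset.univ := by
        rw [Finset.eq_univ_iff_forall]
        intro z
        obtain ⟨l, hl⟩ := hw z
        exact Finset.mem_image.2 ⟨l, Finset.mem_univ _, hl⟩
      rw [h5, Finset.sum_eq_single Finset.univ]
      · rw [if_pos (Finset.Subset.refl _), Finset.card_univ, Fintype.card_fin]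
        congr 1
        have hb : Function.Bijective w := Finite.surjective_iff_bijective.1 hw
        exact Fintype.prod_bijective w hb _ _ fun l => rfl
      · intro S _ hS
        rw [if_neg]
        intro h6
        exact hS (Finset.univ_subset_iff.1 h6)
      · intro h; exact absurd (Finset.mem_univ _) h
    · rw [sum_superset_sign, zero_smul]
      intro h5
      apply hw
      intro z
      have : z ∈ Finset.univ.image w := by rw [h5]; exact Finset.mem_univ _
      obtain ⟨l, _, hl⟩ := Finset.mem_image.1 this
      exact ⟨l, hl⟩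
  rw [Finset.sum_congr rfl fun w _ => h4 w, ← Finset.sum_filter, Finset.sum_const] at h1
  set c := (Finset.univ.filter fun w : Fin j → Fin j => Function.Surjective w).card with hc
  have hc0 : (c : k) ≠ 0 := by
    rw [Nat.cast_ne_zero, hc]
    exact Finset.card_ne_zero.2 ⟨id, Finset.mem_filter.2 ⟨Finset.mem_univ _,
      Function.surjective_id⟩⟩
  have h5 : ∏ l, y l = ((c : k)⁻¹ * (-1 : k) ^ j) •
      ∑ S : Finset (Fin j), ((-1 : k) ^ S.card) • (∑ l ∈ S, y l) ^ j := by
    rw [h1, ← Nat.cast_smul_eq_nsmul k, smul_smul, smul_smul]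
    have : (c : k)⁻¹ * (-1) ^ j * c * (-1) ^ j = 1 := by
      have h6 : ((-1 : k) ^ j) * (-1) ^ j = 1 := by rw [← mul_pow]; simp
      calc (c : k)⁻¹ * (-1) ^ j * c * (-1) ^ j = ((c : k)⁻¹ * c) * (((-1 : k) ^ j) * (-1) ^ j) := by
            ring
        _ = 1 := by rw [h6, inv_mul_cancel₀ hc0, one_mul]
    rw [this, one_smul]
  rw [h5]
  refine Submodule.smul_mem _ _ (Submodule.sum_mem _ fun S _ => Submodule.smul_mem _ _ ?_)
  exact Submodule.subset_span ⟨S, rfl⟩

/-- The product over a finite set is a combination of the power of the sum and of products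
along non-injective maps. -/
theorem prod_mem_of_noninj {α : Type*} [DecidableEq α] {j : ℕ} (e : Finset α) (he : e.card = j)
    (y : α → R) (P : Submodule k R) (h1 : (∑ i ∈ e, y i) ^ j ∈ P)
    (h2 : ∀ w : Fin j → α, ¬ Function.Injective w → ∏ l, y (w l) ∈ P) : ∏ i ∈ e, y i ∈ P := by
  classical
  rw [Finset.sum_pow'] at h1
  rw [← Finset.sum_filter_add_sum_filter_not _ (fun w : Fin j → α => Function.Injective w)] at h1
  have h3 : ∑ w ∈ (Fintype.piFinset fun _ : Fin j => e).filter
      (fun w : Fin j → α => ¬ Function.Injective w), ∏ l, y (w l) ∈ P :=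
    Submodule.sum_mem _ fun w hw => h2 w (Finset.mem_filter.1 hw).2
  have h4 := (Submodule.add_mem_iff_left P h3).1 h1
  have h5 : ∀ w ∈ (Fintype.piFinset fun _ : Fin j => e).filter
      (fun w : Fin j → α => Function.Injective w), ∏ l, y (w l) = ∏ i ∈ e, y i := by
    intro w hw
    rw [Finset.mem_filter, Fintype.mem_piFinset] at hw
    have h6 : Finset.univ.image w = e := by
      refine Finset.eq_of_subset_of_card_le ?_ ?_
      · intro z hz
        obtain ⟨l, _, rfl⟩ := Finset.mem_image.1 hz
        exact hw.1 l
      · rw [Finset.card_image_of_injective _ hw.2, Finset.card_univ, Fintype.card_fin, he]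
    rw [← h6, Finset.prod_image (fun _ _ _ _ h => hw.2 h)]
  rw [Finset.sum_congr rfl h5, Finset.sum_const] at h4
  set c := ((Fintype.piFinset fun _ : Fin j => e).filter
      (fun w : Fin j → α => Function.Injective w)).card with hc
  have hc0 : (c : k) ≠ 0 := by
    rw [Nat.cast_ne_zero, hc]
    refine Finset.card_ne_zero.2 ?_
    let q := e.equivFinOfCardEq he
    refine ⟨fun l => (q.symm l : α), Finset.mem_filter.2 ⟨?_, ?_⟩⟩
    · rw [Fintype.mem_piFinset]
      exact fun l => (q.symm l).2
    · intro l l' h
      exact q.symm.injective (Subtype.ext h)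
  have h6 : ∏ i ∈ e, y i = (c : k)⁻¹ • (c • ∏ i ∈ e, y i) := by
    rw [← Nat.cast_smul_eq_nsmul k, smul_smul, inv_mul_cancel₀ hc0, one_smul]
  rw [h6]
  exact Submodule.smul_mem _ _ h4

end ShPolar

end Pool.Agent.Helper45
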