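import Mathlib
import Pool.Agent.Helper45.ShMain
import Pool.Agent.Helper45.ShPolar

namespace Pool.Agent.Helper45

open MvPolynomial

set_option linter.unusedSectionVars false

section ShPoly

variable {k : Type*} [Field k] {κ : Type*} [DecidableEq κ] {N : ℕ}

/-- The space of multilinear polynomials with one variable in each block of `B`. -/
noncomputable def mspace (k : Type*) [Field k] {κ : Type*} (N : ℕ) (B : Finset κ) :
    Submodule k (MvPolynomial (κ × Fin N) k) :=
  Submodule.span k (Set.range fun f : κ → Fin N => mono k B f)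

theorem finrank_mspace_le (B : Finset κ) : Module.finrank k (mspace k N B) ≤ N ^ B.card := by
  classical
  let F : (B → Fin N) → MvPolynomial (κ × Fin N) k := fun g => ∏ i : B, X (i.1, g i)
  have h1 : mspace k N B ≤ Submodule.span k (Set.range F) := by
    unfold mspace
    refine Submodule.span_mono ?_
    rintro _ ⟨f, rfl⟩
    refine ⟨fun i => f i.1, ?_⟩
    simp only [F]
    unfold mono
    exact Finset.prod_coe_sort B fun i => (X (i, f i) : MvPolynomial (κ × Fin N) k)
  have : Module.Finite k (Submodule.span k (Set.range F)) :=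
    FiniteDimensional.span_of_finite k (Set.finite_range _)
  refine (Submodule.finrank_mono h1).trans ?_
  refine (finrank_range_le_card F).trans ?_
  rw [Fintype.card_fun, Fintype.card_fin, Fintype.card_coe]

theorem finite_mspace (B : Finset κ) : Module.Finite k (mspace k N B) := by
  classical
  let F : (B → Fin N) → MvPolynomial (κ × Fin N) k := fun g => ∏ i : B, X (i.1, g i)
  have h1 : mspace k N B ≤ Submodule.span k (Set.range F) := by
    unfold mspace
    refine Submodule.span_mono ?_
    rintro _ ⟨f, rfl⟩
    refine ⟨fun i => f i.1, ?_⟩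
    simp only [F]
    unfold mono
    exact Finset.prod_coe_sort B fun i => (X (i, f i) : MvPolynomial (κ × Fin N) k)
  have : Module.Finite k (Submodule.span k (Set.range F)) :=
    FiniteDimensional.span_of_finite k (Set.finite_range _)
  exact Submodule.finiteDimensional_of_le h1

theorem tens_mul_mono_mem (α : κ × Fin N → k) (e C : Finset κ) (hd : Disjoint e C)
    (h : κ → Fin N) : tens e α * mono k C h ∈ mspace k N (e ∪ C) := by
  induction e using Finset.induction_on with
  | empty =>
    unfold tens
    rw [Finset.prod_empty, one_mul, Finset.empty_union]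
    exact Submodule.subset_span ⟨h, rfl⟩
  | insert i e hie ih =>
    rw [Finset.disjoint_insert_left] at hd
    have h1 := ih hd.2
    have h2 : tens (insert i e) α * mono k C h =
        ∑ u : Fin N, α (i, u) • (X (i, u) * (tens e α * mono k C h)) := by
      unfold tens
      rw [Finset.prod_insert hie, mul_assoc, Finset.sum_mul]
      refine Finset.sum_congr rfl fun u _ => ?_
      rw [smul_eq_C_mul]
      ring
    rw [h2]
    refine Submodule.sum_mem _ fun u _ => Submodule.smul_mem _ _ ?_
    generalize tens e α * mono k C h = y at h1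
    unfold mspace at h1
    induction h1 using Submodule.span_induction with
    | mem y hy =>
      obtain ⟨f, rfl⟩ := hy
      refine Submodule.subset_span ⟨Function.update f i u, ?_⟩
      simp only
      rw [Finset.insert_union]
      have hi : i ∉ e ∪ C := by
        rw [Finset.mem_union, not_or]
        exact ⟨hie, hd.1⟩
      unfold mono
      rw [Finset.prod_insert hi, Function.update_self]
      congr 1
      refine Finset.prod_congr rfl fun i' hi' => ?_
      rw [Function.update_of_ne]
      rintro rfl
      exact hi hi'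
    | zero => rw [mul_zero]; exact Submodule.zero_mem _
    | add x y _ _ hx hy => rw [mul_add]; exact Submodule.add_mem _ hx hy
    | smul c x _ hx => rw [mul_smul_comm]; exact Submodule.smul_mem _ _ hx

theorem spn_le_mspace (B : Finset κ) (w : Finset κ → ℕ)
    (a : (Finset κ × ℕ) × (κ × Fin N) → k) : spn B w a ≤ mspace k N B := by
  unfold spn
  rw [Submodule.span_le]
  rintro _ ⟨⟨⟨t, ht⟩, f⟩, rfl⟩
  have h1 := tens_mul_mono_mem (fun p => a (t, p)) t.1 (B \ t.1) Finset.disjoint_sdiff f
  rw [Finset.union_sdiff_of_subset ht.1] at h1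
  exact h1

/-- A complement of small dimension. -/
theorem exists_compl {B : Finset κ} {w : Finset κ → ℕ} {a : (Finset κ × ℕ) × (κ × Fin N) → k}
    {r : ℕ} (hr : r ≤ Module.finrank k (spn B w a)) :
    ∃ C : Submodule k (MvPolynomial (κ × Fin N) k), Module.Finite k C ∧
      Module.finrank k C ≤ N ^ B.card - r ∧ mspace k N B ≤ spn B w a ⊔ C := by
  have hfin := finite_mspace (k := k) (N := N) B
  obtain ⟨C', hC'⟩ := Submodule.exists_isCompl ((spn B w a).comap (mspace k N B).subtype)
  have h1 := Submodule.finrank_add_eq_of_isCompl hC'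
  have h2 : Module.finrank k ((spn B w a).comap (mspace k N B).subtype) =
      Module.finrank k (spn B w a) := by
    have e := Submodule.comapSubtypeEquivOfLe (spn_le_mspace B w a)
    exact e.finrank_eq
  have h3 : Module.finrank k (C'.map (mspace k N B).subtype) = Module.finrank k C' :=
    Submodule.finrank_map_subtype_eq _ _
  refine ⟨C'.map (mspace k N B).subtype, inferInstance, ?_, ?_⟩
  · rw [h3]
    have h4 := finrank_mspace_le (k := k) (N := N) B
    omega
  · intro y hy
    have h5 : (⟨y, hy⟩ : mspace k N B) ∈ (spn B w a).comap (mspace k N B).subtype ⊔ C' := by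
      rw [hC'.sup_eq_top]; exact Submodule.mem_top
    obtain ⟨u, hu, v, hv, huv⟩ := Submodule.mem_sup.1 h5
    refine Submodule.mem_sup.2 ⟨u, hu, v, ⟨v, hv, rfl⟩, ?_⟩
    exact congrArg Subtype.val huv

variable {j E : ℕ}

/-- Products of variables with a repeated block. -/
def RepMem (k : Type*) [Field k] {κ : Type*} {N : ℕ} (j : ℕ)
    (P : Submodule k (MvPolynomial (κ × Fin N) k)) : Prop :=
  ∀ s : Fin j → κ × Fin N, ¬ Function.Injective (fun l => (s l).1) → ∏ l, X (s l) ∈ P

theorem tens_mem [CharZero k] {P : Submodule k (MvPolynomial (κ × Fin N) k)}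
    (hrep : RepMem k j P) (e : Finset κ) (he : e.card = j) (α : κ × Fin N → k)
    (h : (∑ i ∈ e, ∑ u : Fin N, C (α (i, u)) * X (i, u)) ^ j ∈ P) : tens e α ∈ P := by
  classical
  unfold tens
  refine prod_mem_of_noninj e he (fun i => ∑ u : Fin N, C (α (i, u)) * X (i, u)) P h ?_
  intro w hw
  rw [Finset.prod_univ_sum]
  refine Submodule.sum_mem _ fun u _ => ?_
  have h1 : ∏ l, (C (α (w l, u l)) * X (w l, u l) : MvPolynomial (κ × Fin N) k) =
      (∏ l, α (w l, u l)) • ∏ l, X (w l, u l) := by
    rw [Finset.prod_mul_distrib, smul_eq_C_mul, map_prod]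
  rw [h1]
  exact Submodule.smul_mem _ _ (hrep (fun l => (w l, u l)) hw)

theorem mono_isHomogeneous (B : Finset κ) (f : κ → Fin N) :
    (mono k B f).IsHomogeneous B.card := by
  unfold mono
  have := IsHomogeneous.prod B (fun i => (X (i, f i) : MvPolynomial (κ × Fin N) k)) (fun _ => 1)
    (fun i _ => isHomogeneous_X _ _)
  simpa using this

theorem spn_le_mul [CharZero k] {P : Submodule k (MvPolynomial (κ × Fin N) k)}
    (hrep : RepMem k j P) (a : (Finset κ × ℕ) × (κ × Fin N) → k) (M : ℕ)
    (hpow : ∀ e : Finset κ, e.card = j → ∀ ν < M,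
      (∑ i ∈ e, ∑ u : Fin N, C (a ((e, ν), (i, u))) * X (i, u)) ^ j ∈ P)
    (B : Finset κ) (hB : B.card = E + j) :
    spn B (fun e => if e.card = j then M else 0) a ≤ P * homogeneousSubmodule (κ × Fin N) k E := by
  unfold spn
  rw [Submodule.span_le]
  rintro _ ⟨⟨⟨t, ht1, ht2⟩, f⟩, rfl⟩
  simp only at ht2
  have hcard : t.1.card = j := by
    by_contra h
    rw [if_neg h] at ht2
    exact absurd ht2 (Nat.not_lt_zero _)
  rw [if_pos hcard] at ht2
  simp only [gen]
  refine Submodule.mul_mem_mul ?_ ?_
  · exact tens_mem hrep t.1 hcard _ (hpow t.1 hcard t.2 ht2)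
  · rw [mem_homogeneousSubmodule]
    have := mono_isHomogeneous (k := k) (B \ t.1) f
    rwa [Finset.card_sdiff_of_subset ht1, hB, hcard, Nat.add_sub_cancel] at this

/-- Every monomial of degree `D` is a product of `D` variables. -/
theorem monomial_eq_prod {σ : Type*} {D : ℕ} (v : σ →₀ ℕ) (hv : v.degree = D) :
    ∃ s : Fin D → σ, (monomial v 1 : MvPolynomial σ k) = ∏ l, X (s l) := by
  classical
  induction D generalizing v with
  | zero =>
    rw [Finsupp.degree_eq_zero_iff] at hv
    subst hv
    exact ⟨Fin.elim0, by simp⟩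
  | succ D ih =>
    obtain ⟨x, hx⟩ : ∃ x, v x ≠ 0 := by
      by_contra h
      push Not at h
      have : v = 0 := Finsupp.ext h
      rw [this, map_zero] at hv
      omega
    have hle : Finsupp.single x 1 ≤ v := by
      rw [Finsupp.single_le_iff]
      omega
    have hv' : v = Finsupp.single x 1 + (v - Finsupp.single x 1) := by
      rw [add_tsub_cancel_of_le hle]
    have hdeg : (v - Finsupp.single x 1).degree = D := by
      have := hv
      rw [hv', map_add, Finsupp.degree_single] at this
      omega
    obtain ⟨s, hs⟩ := ih _ hdeg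
    refine ⟨Fin.cons x s, ?_⟩
    rw [Fin.prod_univ_succ]
    simp only [Fin.cons_zero, Fin.cons_succ]
    rw [← hs, X, monomial_mul, one_mul, ← hv']

theorem prodX_isHomogeneous {σ α : Type*} (T : Finset α) (s : α → σ) :
    (∏ l ∈ T, (X (s l) : MvPolynomial σ k)).IsHomogeneous T.card := by
  have := IsHomogeneous.prod T (fun l => (X (s l) : MvPolynomial σ k)) (fun _ => 1)
    (fun l _ => isHomogeneous_X _ _)
  simpa using this

theorem monomial_cover [Fintype κ] (hj : 2 ≤ j) {P : Submodule k (MvPolynomial (κ × Fin N) k)}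
    (hrep : RepMem k j P) (s : Fin (E + j) → κ × Fin N) :
    ∏ l, X (s l) ∈ P * homogeneousSubmodule (κ × Fin N) k E ⊔
      ⨆ B ∈ Finset.powersetCard (E + j) (Finset.univ : Finset κ), mspace k N B := by
  classical
  by_cases hinj : Function.Injective (fun l => (s l).1)
  · -- multilinear monomial
    refine Submodule.mem_sup_right ?_
    let B : Finset κ := Finset.univ.image fun l => (s l).1
    have hB : B ∈ Finset.powersetCard (E + j) (Finset.univ : Finset κ) := by
      rw [Finset.mem_powersetCard]
      refine ⟨Finset.subset_univ _, ?_⟩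
      rw [Finset.card_image_of_injective _ hinj, Finset.card_univ, Fintype.card_fin]
    refine Submodule.mem_iSup_of_mem B (Submodule.mem_iSup_of_mem hB ?_)
    have hne : Nonempty (Fin (E + j)) := ⟨⟨0, by omega⟩⟩
    let f : κ → Fin N := fun i => (s (Function.invFun (fun l => (s l).1) i)).2
    refine Submodule.subset_span ⟨f, ?_⟩
    simp only
    unfold mono
    rw [Finset.prod_image fun _ _ _ _ h => hinj h]
    refine Finset.prod_congr rfl fun l _ => ?_
    congr 1
    have h1 : Function.invFun (fun l => (s l).1) (s l).1 = l :=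
      Function.leftInverse_invFun hinj l
    simp only [f]
    rw [h1]
  · -- a repeated block
    refine Submodule.mem_sup_left ?_
    rw [Function.Injective] at hinj
    push Not at hinj
    obtain ⟨p, q, hpq, hne⟩ := hinj
    obtain ⟨T, hT1, _, hT2⟩ := Finset.exists_subsuperset_card_eq
      (s := ({p, q} : Finset (Fin (E + j)))) (t := Finset.univ) (n := j) (Finset.subset_univ _)
      (by rw [Finset.card_pair hne]; exact hj) (by rw [Finset.card_univ, Fintype.card_fin]; omega)
    have h1 : ∏ l, (X (s l) : MvPolynomial (κ × Fin N) k) =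
        (∏ l ∈ T, X (s l)) * ∏ l ∈ Tᶜ, X (s l) := by
      rw [Finset.prod_mul_prod_compl]
    rw [h1]
    refine Submodule.mul_mem_mul ?_ ?_
    · have h2 : ∏ l ∈ T, (X (s l) : MvPolynomial (κ × Fin N) k) =
          ∏ l' : Fin j, X (s (T.orderEmbOfFin hT2 l')) := by
        conv_lhs => rw [← Finset.map_orderEmbOfFin_univ T hT2]
        rw [Finset.prod_map]
        rfl
      rw [h2]
      refine hrep (fun l' => s (T.orderEmbOfFin hT2 l')) ?_
      intro h3
      have hp : p ∈ T := hT1 (by simp)
      have hq : q ∈ T := hT1 (by simp)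
      rw [← Finset.mem_coe, ← Finset.range_orderEmbOfFin T hT2] at hp hq
      obtain ⟨p', hp'⟩ := hp
      obtain ⟨q', hq'⟩ := hq
      have h4 : p' = q' := by
        apply h3
        simp only
        rw [hp', hq']
        exact hpq
      apply hne
      rw [← hp', ← hq', h4]
    · rw [mem_homogeneousSubmodule]
      have h5 : Tᶜ.card = E := by
        rw [Finset.card_compl, Fintype.card_fin, hT2]
        omega
      have := prodX_isHomogeneous (k := k) Tᶜ s
      rwa [h5] at this

theorem iSup_finset_finrank {β : Type*} [DecidableEq β] {W : Type*} [AddCommGroup W] [Module k W]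
    (s : Finset β) (C : β → Submodule k W) (c : ℕ)
    (h : ∀ b ∈ s, Module.Finite k (C b) ∧ Module.finrank k (C b) ≤ c) :
    Module.Finite k (⨆ b ∈ s, C b : Submodule k W) ∧
      Module.finrank k (⨆ b ∈ s, C b : Submodule k W) ≤ s.card * c := by
  induction s using Finset.induction_on with
  | empty =>
    have : (⨆ b ∈ (∅ : Finset β), C b) = ⊥ := by simp
    rw [this]
    exact ⟨inferInstance, by simp⟩
  | insert b s hb ih =>
    obtain ⟨h1, h2⟩ := ih fun b' hb' => h b' (Finset.mem_insert_of_mem hb')
    obtain ⟨h3, h4⟩ := h b (Finset.mem_insert_self _ _)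
    rw [Finset.iSup_insert]
    refine ⟨Submodule.finite_sup _ _, ?_⟩
    refine (Submodule.finrank_add_le_finrank_add_finrank _ _).trans ?_
    rw [Finset.card_insert_of_notMem hb, add_mul, one_mul, add_comm]
    exact add_le_add h2 h4

/-- The main covering statement. -/
theorem homog_cover [CharZero k] [Fintype κ] (hj : 2 ≤ j)
    {P : Submodule k (MvPolynomial (κ × Fin N) k)}
    (hrep : RepMem k j P) (a : (Finset κ × ℕ) × (κ × Fin N) → k) (M : ℕ)
    (hpow : ∀ e : Finset κ, e.card = j → ∀ ν < M,
      (∑ i ∈ e, ∑ u : Fin N, C (a ((e, ν), (i, u))) * X (i, u)) ^ j ∈ P) (r : ℕ)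
    (hr : ∀ B : Finset κ, B.card = E + j →
      r ≤ Module.finrank k (spn B (fun e => if e.card = j then M else 0) a)) :
    ∃ C : Submodule k (MvPolynomial (κ × Fin N) k), Module.Finite k C ∧
      Module.finrank k C ≤ (Fintype.card κ).choose (E + j) * (N ^ (E + j) - r) ∧
      homogeneousSubmodule (κ × Fin N) k (E + j) ≤
        P * homogeneousSubmodule (κ × Fin N) k E ⊔ C := by
  classical
  have h1 : ∀ B : Finset κ, ∃ C : Submodule k (MvPolynomial (κ × Fin N) k),
      B.card = E + j → Module.Finite k C ∧
      Module.finrank k C ≤ N ^ B.card - r ∧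
      mspace k N B ≤ spn B (fun e => if e.card = j then M else 0) a ⊔ C := by
    intro B
    by_cases hB : B.card = E + j
    · obtain ⟨C, hC⟩ := exists_compl (hr B hB)
      exact ⟨C, fun _ => hC⟩
    · exact ⟨⊥, fun h => absurd h hB⟩
  choose C hC using h1
  have hcard : ∀ B ∈ Finset.powersetCard (E + j) (Finset.univ : Finset κ), B.card = E + j :=
    fun B hB => (Finset.mem_powersetCard.1 hB).2
  obtain ⟨h2, h3⟩ := iSup_finset_finrank (Finset.powersetCard (E + j) (Finset.univ : Finset κ)) C
    (N ^ (E + j) - r) (fun B hB => by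
      obtain ⟨h4, h5, _⟩ := hC B (hcard B hB)
      rw [hcard B hB] at h5
      exact ⟨h4, h5⟩)
  refine ⟨⨆ B ∈ Finset.powersetCard (E + j) (Finset.univ : Finset κ), C B, h2, ?_, ?_⟩
  · rw [Finset.card_powersetCard, Finset.card_univ] at h3
    exact h3
  · intro p hp
    rw [mem_homogeneousSubmodule] at hp
    rw [← support_sum_monomial_coeff p]
    refine Submodule.sum_mem _ fun v hv => ?_
    have hdeg : v.degree = E + j := by
      by_contra h
      exact (mem_support_iff.1 hv) (IsHomogeneous.coeff_eq_zero hp h)
    have h4 : (monomial v (coeff v p) : MvPolynomial (κ × Fin N) k) =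
        coeff v p • monomial v 1 := by
      rw [smul_monomial, smul_eq_mul, mul_one]
    rw [h4]
    refine Submodule.smul_mem _ _ ?_
    obtain ⟨s, hs⟩ := monomial_eq_prod (k := k) v hdeg
    rw [hs]
    have h5 := monomial_cover (k := k) hj hrep s
    have h6 : P * homogeneousSubmodule (κ × Fin N) k E ⊔
        ⨆ B ∈ Finset.powersetCard (E + j) (Finset.univ : Finset κ), mspace k N B ≤
        P * homogeneousSubmodule (κ × Fin N) k E ⊔
        ⨆ B ∈ Finset.powersetCard (E + j) (Finset.univ : Finset κ), C B := by
      refine sup_le le_sup_left ?_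
      refine iSup₂_le fun B hB => ?_
      refine (hC B (hcard B hB)).2.2.trans ?_
      refine sup_le ?_ ?_
      · exact (spn_le_mul hrep a M hpow B (hcard B hB)).trans le_sup_left
      · refine le_sup_of_le_right ?_
        exact le_iSup₂ (f := fun (B : Finset κ)
          (_ : B ∈ Finset.powersetCard (E + j) (Finset.univ : Finset κ)) => C B) B hB
    exact h6 h5

end ShPoly

end Pool.Agent.Helper45
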