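import Mathlib
import Pool.Agent.Helper45.ShMain

namespace Pool.Agent.Helper45

open Filter

set_option linter.unusedSectionVars false

section ShInduct

variable {k : Type*} [Field k] {ι : Type*} [DecidableEq ι]

theorem AR_main [Finite ι] [Infinite k] (l : List ι) (hl : l.Nodup) :
    ∀ B : Finset ι, (∀ b ∈ B, b ∈ l) → ∀ x : Finset ι → ℝ, (∀ e, 0 ≤ x e) →
      (Ind x l B < 0 → AR k B x 0) ∧ (∀ η, 0 < η → Ind x l B < η → AR k B x η) := by
  classical
  induction l with
  | nil =>
    intro B hB x hx
    have h1 : Ind x [] B = 1 := by rw [Ind]
    rw [h1]
    exact ⟨fun h => absurd h (by norm_num), fun η _ h => AR_of_one_le B x h.le⟩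
  | cons i l ih =>
    intro B hB x hx
    have hl' : l.Nodup := (List.nodup_cons.1 hl).2
    have ih' := ih hl'
    by_cases hiB : i ∈ B
    · obtain ⟨B', hB'⟩ : ∃ B', B' = B.erase i := ⟨_, rfl⟩
      have hB'l : ∀ b ∈ B', b ∈ l := by
        intro b hb
        rw [hB', Finset.mem_erase] at hb
        rcases List.mem_cons.1 (hB b hb.2) with h | h
        · exact absurd h hb.1
        · exact h
      have hBi : B = insert i B' := by rw [hB', Finset.insert_erase hiB]
      have hiB' : i ∉ B' := by rw [hB']; exact Finset.notMem_erase i B
      have hsub : B' ⊆ B := by rw [hB']; exact Finset.erase_subset _ _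
      rw [Ind_cons_of_mem _ _ hiB, ← hB']
      set J : Finset ι → ℝ := fun e => Ind x l (B' \ e) with hJ
      set I' : ℝ := Ind x l B' with hI'
      have hJ0 : J ∅ = I' := by simp only [hJ, hI', Finset.sdiff_empty]
      set S : ℝ := ∑ e ∈ B'.powerset, x (insert i e) * J e with hS
      by_cases hneg : ∃ e ∈ B'.powerset, J e < 0
      · obtain ⟨e, _, he2⟩ := hneg
        have h1 : AR k (B' \ e) x 0 :=
          (ih' (B' \ e) (fun b hb => hB'l b (Finset.mem_sdiff.1 hb).1) x hx).1 he2
        have h2 : AR k B x 0 := AR_add_legs (Finset.sdiff_subset.trans hsub) h1
        exact ⟨fun _ => h2, fun η hη _ => AR_mono hη.le h2⟩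
      · push Not at hneg
        have hI'0 : 0 ≤ I' := by
          rw [← hJ0]; exact hneg ∅ (Finset.empty_mem_powerset _)
        have hS0 : 0 ≤ S := Finset.sum_nonneg fun e he => mul_nonneg (hx _) (hneg e he)
        -- the derivative identity
        have hder : ∀ (e : Finset ι) (y : ℝ), e ⊆ B' → e ≠ ∅ →
            Ind (fun e'' => x e'' + if e'' = e then y else 0) l B' = I' - y * J e := by
          intro e y he h0
          rw [Ind_add x e (Finset.nonempty_iff_ne_empty.2 h0) y l hl' B' hB'l, if_pos he]
        have hclaim1 : I' - S < 0 → AR k B x 0 := by
          intro hlt
          have hSpos : 0 < S := by linarith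
          set θ : ℝ := (1 + I' / S) / 2 with hθ
          have h1 : I' / S < 1 := by rw [div_lt_one hSpos]; linarith
          have h2 : 0 ≤ I' / S := div_nonneg hI'0 hSpos.le
          have hθ1 : θ < 1 := by rw [hθ]; linarith
          have hθ0 : 0 < θ := by rw [hθ]; linarith
          have hθS : I' < θ * S := by
            rw [hθ]
            have : I' = I' / S * S := by field_simp
            have h3 : (1 + I' / S) / 2 * S = S / 2 + (I' / S * S) / 2 := by ring
            rw [h3, ← this]
            linarith
          let p : Finset ι → ℝ := fun e => if e ⊆ B' then x (insert i e) * J e / S else 0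
          let y : Finset ι → ℝ := fun e => if 0 < J e then θ * S / J e else 0
          have hp : ∀ e, 0 ≤ p e := by
            intro e
            simp only [p]
            split_ifs with h
            · exact div_nonneg (mul_nonneg (hx _) (hneg e (Finset.mem_powerset.2 h))) hSpos.le
            · exact le_rfl
          have hy : ∀ e, 0 ≤ y e := by
            intro e
            simp only [y]
            split_ifs with h
            · positivity
            · exact le_rfl
          have hpp : ∀ e ⊆ B', 0 < p e → 0 < J e ∧ 0 < x (insert i e) := by
            intro e he hpe
            simp only [p, if_pos he] at hpe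
            have h3 : 0 < x (insert i e) * J e := by
              by_contra h4
              push Not at h4
              have := div_nonpos_of_nonpos_of_nonneg h4 hSpos.le
              linarith
            have h5 := hneg e (Finset.mem_powerset.2 he)
            refine ⟨?_, ?_⟩
            · rcases h5.eq_or_lt with h6 | h6
              · rw [← h6, mul_zero] at h3; exact absurd h3 (lt_irrefl _)
              · exact h6
            · rcases (hx (insert i e)).eq_or_lt with h6 | h6
              · rw [← h6, zero_mul] at h3; exact absurd h3 (lt_irrefl _)
              · exact h6
          have hport := portion (k := k) hiB' x hx 1 zero_le_one (AR_of_one_le B' x le_rfl) p y hp hy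
            (by
              intro e he hpe h0
              obtain ⟨hJe, hxe⟩ := hpp e he hpe
              refine ⟨?_, ?_⟩
              · simp only [p, y, if_pos he, if_pos hJe]
                have : x (insert i e) * J e / S * (θ * S / J e) = θ * x (insert i e) := by
                  field_simp
                rw [this]
                nlinarith
              · refine (ih' B' hB'l _ ?_).1 ?_
                · intro e''
                  exact add_nonneg (hx _) (by split_ifs; exacts [hy _, le_rfl])
                · rw [hder e (y e) he h0]
                  simp only [y, if_pos hJe]
                  have : θ * S / J e * J e = θ * S := by field_simp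
                  rw [this]
                  linarith)
            (by
              intro hpe
              obtain ⟨hJe, hxe⟩ := hpp ∅ (Finset.empty_subset _) hpe
              simp only [p, if_pos (Finset.empty_subset B')]
              rw [hJ0]
              have h3 : x (insert i ∅) * I' / S = x {i} * (I' / S) := by
                rw [insert_empty_eq]; ring
              rw [h3]
              have h4 : x (insert i ∅) = x {i} := by rw [insert_empty_eq]
              rw [h4] at hxe
              nlinarith)
          have hsum : ∑ e ∈ B'.powerset, p e = 1 := by
            have : ∀ e ∈ B'.powerset, p e = x (insert i e) * J e / S := by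
              intro e he
              simp only [p, if_pos (Finset.mem_powerset.1 he)]
            rw [Finset.sum_congr rfl this, ← Finset.sum_div, div_self hSpos.ne']
          rw [hsum, sub_self, max_self, zero_mul, ← hBi] at hport
          exact hport
        refine ⟨hclaim1, ?_⟩
        intro η hη hlt
        by_cases hneg2 : I' - S < 0
        · exact AR_mono hη.le (hclaim1 hneg2)
        · push Not at hneg2
          rcases hI'0.eq_or_lt with hI'z | hI'pos
          · have h1 : AR k B' x η := (ih' B' hB'l x hx).2 η hη (by rw [← hI', ← hI'z]; exact hη)
            exact AR_add_legs hsub h1
          · -- the main case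
            obtain ⟨gap, hgap⟩ : ∃ gap, gap = η - (I' - S) := ⟨_, rfl⟩
            have hgap0 : 0 < gap := by rw [hgap]; linarith
            obtain ⟨δ, hδ⟩ : ∃ δ, δ = min (1 / 2) (gap / (4 * I')) := ⟨_, rfl⟩
            have hδ0 : 0 < δ := by rw [hδ]; exact lt_min (by norm_num) (by positivity)
            have hδ1 : δ ≤ 1 / 2 := by rw [hδ]; exact min_le_left _ _
            have hδ2 : δ * I' ≤ gap / 4 := by
              have : δ ≤ gap / (4 * I') := by rw [hδ]; exact min_le_right _ _
              calc δ * I' ≤ gap / (4 * I') * I' := mul_le_mul_of_nonneg_right this hI'0
                _ = gap / 4 := by field_simp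
            obtain ⟨θ, hθ⟩ : ∃ θ, θ = 1 - δ := ⟨_, rfl⟩
            have hθ0 : 0 < θ := by rw [hθ]; linarith
            have hθ1 : θ < 1 := by rw [hθ]; linarith
            obtain ⟨θ', hθ'⟩ : ∃ θ', θ' = (1 + θ) / 2 := ⟨_, rfl⟩
            have hθ'1 : θ' < 1 := by rw [hθ']; linarith
            have hθθ' : θ < θ' := by rw [hθ']; linarith
            have hθ'0 : 0 < θ' := hθ0.trans hθθ'
            let p : Finset ι → ℝ := fun e => if e ⊆ B' then θ * (x (insert i e) * J e) / I' else 0
            let y : Finset ι → ℝ := fun e => if 0 < J e then θ' * I' / (θ * J e) else 0
            have hp : ∀ e, 0 ≤ p e := by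
              intro e
              simp only [p]
              split_ifs with h
              · exact div_nonneg (mul_nonneg hθ0.le (mul_nonneg (hx _)
                  (hneg e (Finset.mem_powerset.2 h)))) hI'0
              · exact le_rfl
            have hy : ∀ e, 0 ≤ y e := by
              intro e
              simp only [y]
              split_ifs with h
              · positivity
              · exact le_rfl
            have hpp : ∀ e ⊆ B', 0 < p e → 0 < J e ∧ 0 < x (insert i e) := by
              intro e he hpe
              simp only [p, if_pos he] at hpe
              have h3 : 0 < x (insert i e) * J e := by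
                by_contra h4
                push Not at h4
                have := div_nonpos_of_nonpos_of_nonneg
                  (mul_nonpos_of_nonneg_of_nonpos hθ0.le h4) hI'0
                linarith
              have h5 := hneg e (Finset.mem_powerset.2 he)
              refine ⟨?_, ?_⟩
              · rcases h5.eq_or_lt with h6 | h6
                · rw [← h6, mul_zero] at h3; exact absurd h3 (lt_irrefl _)
                · exact h6
              · rcases (hx (insert i e)).eq_or_lt with h6 | h6
                · rw [← h6, zero_mul] at h3; exact absurd h3 (lt_irrefl _)
                · exact h6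
            have hε : 0 < I' + gap / 4 := by positivity
            have hport := portion (k := k) hiB' x hx (I' + gap / 4) hε.le
              ((ih' B' hB'l x hx).2 (I' + gap / 4) hε (by linarith)) p y hp hy
              (by
                intro e he hpe h0
                obtain ⟨hJe, hxe⟩ := hpp e he hpe
                refine ⟨?_, ?_⟩
                · simp only [p, y, if_pos he, if_pos hJe]
                  have : θ * (x (insert i e) * J e) / I' * (θ' * I' / (θ * J e)) =
                      θ' * x (insert i e) := by
                    field_simp
                  rw [this]
                  nlinarith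
                · refine (ih' B' hB'l _ ?_).1 ?_
                  · intro e''
                    exact add_nonneg (hx _) (by split_ifs; exacts [hy _, le_rfl])
                  · rw [hder e (y e) he h0]
                    simp only [y, if_pos hJe]
                    have h3 : θ' * I' / (θ * J e) * J e = θ' / θ * I' := by field_simp
                    rw [h3]
                    have h4 : 1 < θ' / θ := by rw [one_lt_div hθ0]; exact hθθ'
                    nlinarith)
              (by
                intro hpe
                obtain ⟨hJe, hxe⟩ := hpp ∅ (Finset.empty_subset _) hpe
                simp only [p, if_pos (Finset.empty_subset B')]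
                rw [hJ0]
                have h3 : θ * (x (insert i ∅) * I') / I' = θ * x {i} := by
                  rw [insert_empty_eq]; field_simp
                rw [h3]
                have h4 : x (insert i ∅) = x {i} := by rw [insert_empty_eq]
                rw [h4] at hxe
                nlinarith)
            have hsum : ∑ e ∈ B'.powerset, p e = θ * S / I' := by
              have : ∀ e ∈ B'.powerset, p e = θ * (x (insert i e) * J e) / I' := by
                intro e he
                simp only [p, if_pos (Finset.mem_powerset.1 he)]
              rw [Finset.sum_congr rfl this, ← Finset.sum_div, ← Finset.mul_sum]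
            rw [hsum, ← hBi] at hport
            refine AR_mono ?_ hport
            have h3 : S / I' ≤ 1 := by rw [div_le_one hI'pos]; linarith
            have h4 : 0 ≤ S / I' := div_nonneg hS0 hI'0
            have h5 : θ * S / I' = θ * (S / I') := by ring
            rw [h5]
            have h6 : 0 ≤ 1 - θ * (S / I') := by nlinarith
            rw [max_eq_right h6]
            have h7 : S = S / I' * I' := by field_simp
            have h8 : (1 - θ * (S / I')) * (I' + gap / 4) =
                (I' - S / I' * I') + δ * (S / I' * I') + (1 - θ * (S / I')) * (gap / 4) := by
              rw [hθ]; ring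
            rw [h8, ← h7]
            have h9 : δ * S ≤ gap / 4 := by
              calc δ * S ≤ δ * I' := mul_le_mul_of_nonneg_left (by linarith) hδ0.le
                _ ≤ gap / 4 := hδ2
            have h10 : (1 - θ * (S / I')) * (gap / 4) ≤ gap / 4 := by
              have : 1 - θ * (S / I') ≤ 1 := by nlinarith
              nlinarith
            linarith
    · rw [Ind_cons_of_notMem _ _ hiB]
      have hBl : ∀ b ∈ B, b ∈ l := by
        intro b hb
        rcases List.mem_cons.1 (hB b hb) with h | h
        · exact absurd (h ▸ hb) hiB
        · exact h
      exact ih' B hBl x hx

end ShInduct

end Pool.Agent.Helper45
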