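import Mathlib
import Pool.Agent.Helper45.ShInduct

namespace Pool.Agent.Helper45

open MvPolynomial Filter

set_option linter.unusedSectionVars false

section Thr

/-- The threshold polynomial. -/
noncomputable def thr (j b : ℕ) (c : ℝ) : ℝ :=
  ∑ i ∈ Finset.range (b / j + 1), (-c) ^ i / ((i.factorial : ℝ) * ((b - i * j).factorial : ℝ))

theorem thr_eq {j : ℕ} (hj : 1 ≤ j) (b M : ℕ) (hM : b / j + 1 ≤ M) (c : ℝ) :
    thr j b c = ∑ i ∈ Finset.range M, (if i * j ≤ b then
      (-c) ^ i / ((i.factorial : ℝ) * ((b - i * j).factorial : ℝ)) else 0) := by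
  unfold thr
  rw [← Finset.sum_subset (Finset.range_subset_range.2 hM)]
  · refine Finset.sum_congr rfl fun i hi => ?_
    rw [if_pos]
    rw [Finset.mem_range] at hi
    calc i * j ≤ (b / j) * j := Nat.mul_le_mul_right j (by omega)
      _ ≤ b := Nat.div_mul_le_self b j
  · intro i _ hi
    rw [if_neg]
    rw [Finset.mem_range] at hi
    intro h
    have := (Nat.le_div_iff_mul_le hj).2 h
    omega

theorem thr_rec {j : ℕ} (hj : 1 ≤ j) (b : ℕ) (c : ℝ) :
    ((b : ℝ) + 1) * thr j (b + 1) c =
      thr j b c - (if j ≤ b + 1 then (j : ℝ) * c * thr j (b + 1 - j) c else 0) := by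
  have hM1 : (b + 1) / j + 1 ≤ b + 3 := by
    have := Nat.div_le_self (b + 1) j
    omega
  have hM2 : b / j + 1 ≤ b + 3 := by
    have := Nat.div_le_self b j
    omega
  have hM3 : (b + 1 - j) / j + 1 ≤ b + 2 := by
    have := Nat.div_le_self (b + 1 - j) j
    omega
  rw [thr_eq hj (b + 1) (b + 3) hM1, thr_eq hj b (b + 3) hM2, Finset.mul_sum]
  have key : ∀ i, ((b : ℝ) + 1) * (if i * j ≤ b + 1 then
      (-c) ^ i / ((i.factorial : ℝ) * ((b + 1 - i * j).factorial : ℝ)) else 0) =
      (if i * j ≤ b then (-c) ^ i / ((i.factorial : ℝ) * ((b - i * j).factorial : ℝ)) else 0) +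
      (if i * j ≤ b + 1 then (i : ℝ) * j * ((-c) ^ i / ((i.factorial : ℝ) *
        ((b + 1 - i * j).factorial : ℝ))) else 0) := by
    intro i
    by_cases h : i * j ≤ b
    · have h' : i * j ≤ b + 1 := by omega
      rw [if_pos h, if_pos h', if_pos h']
      have h1 : b + 1 - i * j = (b - i * j) + 1 := by omega
      rw [h1, Nat.factorial_succ]
      have h2 : ((b - i * j : ℕ) : ℝ) = (b : ℝ) - i * j := by
        rw [Nat.cast_sub h]; push_cast; ring
      push_cast
      rw [h2]
      have h3 : ((b : ℝ) - i * j + 1) ≠ 0 := by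
        rw [← h2]; positivity
      have h4 : (i.factorial : ℝ) ≠ 0 := by positivity
      have h5 : ((b - i * j).factorial : ℝ) ≠ 0 := by positivity
      field_simp
      ring
    · by_cases h' : i * j ≤ b + 1
      · rw [if_neg h, if_pos h', if_pos h', zero_add]
        have h1 : (i : ℝ) * j = (b : ℝ) + 1 := by
          have : i * j = b + 1 := by omega
          exact_mod_cast this
        rw [h1]
      · rw [if_neg h, if_neg h', if_neg h']
        ring
  rw [Finset.sum_congr rfl fun i _ => key i, Finset.sum_add_distrib]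
  rw [sub_eq_add_neg]
  congr 1
  by_cases hjb : j ≤ b + 1
  · rw [if_pos hjb, thr_eq hj (b + 1 - j) (b + 2) hM3, Finset.sum_range_succ']
    have h0 : (if 0 * j ≤ b + 1 then ((0 : ℕ) : ℝ) * j * ((-c) ^ 0 / (((0 : ℕ).factorial : ℝ) *
        ((b + 1 - 0 * j).factorial : ℝ))) else 0) = 0 := by
      rw [if_pos (by omega)]; simp
    rw [h0, add_zero, Finset.mul_sum, ← Finset.sum_neg_distrib]
    refine Finset.sum_congr rfl fun i _ => ?_
    by_cases h : (i + 1) * j ≤ b + 1
    · have h' : i * j ≤ b + 1 - j := by
        rw [add_mul, one_mul] at h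
        omega
      rw [if_pos h, if_pos h']
      have h1 : b + 1 - (i + 1) * j = b + 1 - j - i * j := by
        rw [add_mul, one_mul]; omega
      rw [h1, Nat.factorial_succ]
      push_cast
      have h4 : (i.factorial : ℝ) ≠ 0 := by positivity
      have h5 : ((b + 1 - j - i * j).factorial : ℝ) ≠ 0 := by positivity
      have h6 : (i : ℝ) + 1 ≠ 0 := by positivity
      rw [pow_succ]
      field_simp
    · have h' : ¬ i * j ≤ b + 1 - j := by
        rw [add_mul, one_mul] at h
        omega
      rw [if_neg h, if_neg h']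
      ring
  · rw [if_neg hjb, neg_zero]
    refine Finset.sum_eq_zero fun i _ => ?_
    rcases Nat.eq_zero_or_pos i with rfl | hi
    · simp
    · rw [if_neg]
      intro h
      have : j ≤ i * j := Nat.le_mul_of_pos_left j hi
      omega

theorem thr_zero (j : ℕ) (c : ℝ) : thr j 0 c = 1 := by
  unfold thr
  simp

/-- The normalised threshold polynomial. -/
noncomputable def uthr (j b : ℕ) (x : ℝ) : ℝ := (b.factorial : ℝ) * thr j b (x / (j.factorial : ℝ))

theorem uthr_succ {j : ℕ} (hj : 1 ≤ j) (b : ℕ) (x : ℝ) :
    uthr j (b + 1) x = uthr j b x -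
      (if j ≤ b + 1 then (b.choose (j - 1) : ℝ) * x * uthr j (b + 1 - j) x else 0) := by
  unfold uthr
  rw [Nat.factorial_succ]
  push_cast
  have h1 : ((b : ℝ) + 1) * (b.factorial : ℝ) * thr j (b + 1) (x / (j.factorial : ℝ)) =
      (b.factorial : ℝ) * (((b : ℝ) + 1) * thr j (b + 1) (x / (j.factorial : ℝ))) := by ring
  rw [h1, thr_rec hj, mul_sub]
  congr 1
  by_cases h : j ≤ b + 1
  · rw [if_pos h, if_pos h]
    have h2 : (b.choose (j - 1) : ℝ) * ((b + 1 - j).factorial : ℝ) * ((j - 1).factorial : ℝ) =
        (b.factorial : ℝ) := by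
      have h3 := Nat.choose_mul_factorial_mul_factorial (n := b) (k := j - 1) (by omega)
      have h4 : b - (j - 1) = b + 1 - j := by omega
      rw [h4] at h3
      rw [← h3]
      push_cast
      ring
    have h5 : (j.factorial : ℝ) = (j : ℝ) * ((j - 1).factorial : ℝ) := by
      rw [← Nat.mul_factorial_pred (by omega)]
      push_cast
      ring
    rw [← h2, h5]
    have h6 : (j : ℝ) ≠ 0 := by positivity
    have h7 : ((j - 1).factorial : ℝ) ≠ 0 := by positivity
    field_simp
  · rw [if_neg h, if_neg h, mul_zero]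

theorem uthr_zero (j : ℕ) (x : ℝ) : uthr j 0 x = 1 := by
  unfold uthr
  rw [thr_zero]
  simp

end Thr

section Unif

variable {ι : Type*} [DecidableEq ι]

/-- Uniform weights. -/
noncomputable def xU (j : ℕ) (x : ℝ) (e : Finset ι) : ℝ := if e.card = j then x else 0

theorem Ind_unif {j : ℕ} (hj : 1 ≤ j) (x : ℝ) (l : List ι) (B : Finset ι)
    (hB : ∀ b ∈ B, b ∈ l) : Ind (xU j x) l B = uthr j B.card x := by
  induction l generalizing B with
  | nil =>
    have hB0 : B = ∅ := Finset.eq_empty_of_forall_notMem fun b hb => by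
      have := hB b hb
      simp at this
    subst hB0
    rw [Ind, Finset.card_empty, uthr_zero]
  | cons i l ih =>
    by_cases hiB : i ∈ B
    · rw [Ind_cons_of_mem _ _ hiB]
      obtain ⟨B', hB'⟩ : ∃ B', B' = B.erase i := ⟨_, rfl⟩
      rw [← hB']
      have hB'l : ∀ b ∈ B', b ∈ l := by
        intro b hb
        rw [hB', Finset.mem_erase] at hb
        rcases List.mem_cons.1 (hB b hb.2) with h | h
        · exact absurd h hb.1
        · exact h
      have hiB' : i ∉ B' := by rw [hB']; exact Finset.notMem_erase i B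
      have hcard : B.card = B'.card + 1 := by
        rw [hB', Finset.card_erase_of_mem hiB]
        have : 0 < B.card := Finset.card_pos.2 ⟨i, hiB⟩
        omega
      rw [hcard, uthr_succ hj, ih B' hB'l]
      congr 1
      have h1 : ∀ e ∈ B'.powerset, xU j x (insert i e) * Ind (xU j x) l (B' \ e) =
          if e.card = j - 1 then x * uthr j (B'.card + 1 - j) x else 0 := by
        intro e he
        have he' := Finset.mem_powerset.1 he
        have hie : i ∉ e := fun h => hiB' (he' h)
        unfold xU
        rw [Finset.card_insert_of_notMem hie]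
        have hle := Finset.card_le_card he'
        by_cases h : e.card = j - 1
        · rw [if_pos h, if_pos (by omega)]
          have h2 := ih (B' \ e) fun b hb => hB'l b (Finset.mem_sdiff.1 hb).1
          unfold xU at h2
          rw [h2, Finset.card_sdiff_of_subset he', h]
          congr 2
          omega
        · rw [if_neg h, if_neg (by omega), zero_mul]
      rw [Finset.sum_congr rfl h1, ← Finset.sum_filter, Finset.sum_const]
      have h2 : B'.powerset.filter (fun e => e.card = j - 1) = Finset.powersetCard (j - 1) B' := by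
        ext e
        rw [Finset.mem_filter, Finset.mem_powerset, Finset.mem_powersetCard]
      rw [h2, Finset.card_powersetCard, nsmul_eq_mul]
      by_cases h : j ≤ B'.card + 1
      · rw [if_pos h]
        ring
      · rw [if_neg h, Nat.choose_eq_zero_of_lt (by omega)]
        simp
    · rw [Ind_cons_of_notMem _ _ hiB]
      refine ih B ?_
      intro b hb
      rcases List.mem_cons.1 (hB b hb) with h | h
      · exact absurd (h ▸ hb) hiB
      · exact h

end Unif

end Pool.Agent.Helper45
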