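import Mathlib
import Pool.Agent.Helper45.ShUnif
import Pool.Agent.Helper45.ShPoly

namespace Pool.Agent.Helper45

open MvPolynomial Filter

set_option linter.unusedSectionVars false

section ShExist

variable {k : Type*} [Field k] {ι κ : Type*} [DecidableEq ι] [DecidableEq κ] {N : ℕ}

/-- Transport of a configuration along an embedding of the set of blocks. -/
theorem ER_transfer [Finite κ] (φ : ι ↪ κ) [Nonempty ι] {B : Finset ι} {w : Finset ι → ℕ}
    {w' : Finset κ → ℕ} (hw : ∀ e ⊆ B, w e ≤ w' (e.map φ)) {r : ℕ} (h : ER k N B w r) :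
    ER k N (B.map φ) w' r := by
  classical
  obtain ⟨a, ha⟩ := h
  let a' : (Finset κ × ℕ) × (κ × Fin N) → k := fun x =>
    a ((x.1.1.preimage φ φ.injective.injOn, x.1.2), (Function.invFun φ x.2.1, x.2.2))
  let ψ : ι × Fin N → κ × Fin N := Prod.map φ id
  have hψ : Function.Injective ψ := φ.injective.prodMap Function.injective_id
  have hfin := finite_spn (k := k) (N := N) (B.map φ) w' a'
  refine ⟨a', ha.trans ?_⟩
  have hren : Function.Injective (rename ψ : MvPolynomial (ι × Fin N) k →ₐ[k] _) :=
    rename_injective ψ hψ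
  have h1 : Module.finrank k (spn B w a) =
      Module.finrank k ((spn B w a).map (rename ψ : MvPolynomial (ι × Fin N) k →ₐ[k]
        MvPolynomial (κ × Fin N) k).toLinearMap) :=
    (LinearEquiv.finrank_eq (Submodule.equivMapOfInjective _ hren (spn B w a)))
  rw [h1]
  refine Submodule.finrank_mono ?_
  unfold spn
  rw [Submodule.map_span, Submodule.span_le]
  rintro _ ⟨_, ⟨⟨⟨t, ht1, ht2⟩, f⟩, rfl⟩, rfl⟩
  have hinv : ∀ i, Function.invFun φ (φ i) = i := Function.leftInverse_invFun φ.injective
  have hpre : (t.1.map φ).preimage φ φ.injective.injOn = t.1 := by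
    ext i
    rw [Finset.mem_preimage, Finset.mem_map']
  refine Submodule.subset_span ⟨(⟨(t.1.map φ, t.2), ?_, ?_⟩, fun i' => f (Function.invFun φ i')), ?_⟩
  · exact Finset.map_subset_map.2 ht1
  · exact ht2.trans_le (hw _ ht1)
  · change gen (B.map φ) a' (t.1.map φ, t.2) (fun i' => f (Function.invFun φ i')) =
      rename ψ (gen B a t f)
    unfold gen tens mono
    rw [map_mul, map_prod, map_prod]
    congr 1
    · rw [Finset.prod_map]
      refine Finset.prod_congr rfl fun i _ => ?_
      rw [map_sum]
      refine Finset.sum_congr rfl fun u _ => ?_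
      rw [map_mul, rename_C, rename_X]
      simp only [a', ψ, Prod.map_apply, id]
      rw [hpre, hinv]
    · rw [← Finset.map_sdiff, Finset.prod_map]
      refine Finset.prod_congr rfl fun i _ => ?_
      rw [rename_X]
      simp only [ψ, Prod.map_apply, id]
      rw [hinv]

/-- Existence of configurations which are good for all sets of `D` blocks at once. -/
theorem exists_config [Infinite k] {j D : ℕ} (hD : 1 ≤ D) (x : ℝ) (η : ℝ)
    (hAR : AR k (Finset.univ : Finset (Fin D)) (xU j x) η) :
    ∀ᶠ N : ℕ in atTop, ∃ r : ℕ, (1 - η) * (N : ℝ) ^ D ≤ r ∧ ∀ K : ℕ,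
      ∃ a : (Finset (Fin K) × ℕ) × (Fin K × Fin N) → k, ∀ B : Finset (Fin K), B.card = D →
        r ≤ Module.finrank k (spn B
          (fun e => if e.card = j then ⌊x * (N : ℝ) ^ j⌋₊ else 0) a) := by
  refine hAR.mono fun N hN => ?_
  obtain ⟨r, hr1, hr2⟩ := hN
  rw [Finset.card_univ, Fintype.card_fin] at hr1
  refine ⟨r, hr1, fun K => ?_⟩
  obtain ⟨s, hs⟩ := common (k := k) (N := N) (Finset.powersetCard D (Finset.univ : Finset (Fin K)))
    id (fun _ => fun e => if e.card = j then ⌊x * (N : ℝ) ^ j⌋₊ else 0) (fun _ => r)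
    (fun _ => id) (fun b _ => Function.injective_id.injOn) (by
      intro B hB
      have hBc : B.card = D := (Finset.mem_powersetCard.1 hB).2
      have hne : Nonempty (Fin D) := ⟨⟨0, hD⟩⟩
      have h1 := ER_transfer (k := k) (N := N) (B.orderEmbOfFin hBc).toEmbedding
        (B := Finset.univ) (w := wN (xU j x) N)
        (w' := fun e => if e.card = j then ⌊x * (N : ℝ) ^ j⌋₊ else 0) ?_ hr2
      · have h2 : (Finset.univ : Finset (Fin D)).map (B.orderEmbOfFin hBc).toEmbedding = B :=
          Finset.map_orderEmbOfFin_univ B hBc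
        rw [h2] at h1
        exact h1
      · intro e _
        unfold wN xU
        rw [Finset.card_map]
        by_cases h : e.card = j
        · rw [if_pos h, if_pos h, h]
        · rw [if_neg h, if_neg h, zero_mul, Nat.floor_zero])
  refine ⟨s, fun B hB => ?_⟩
  exact hs B (Finset.mem_powersetCard.2 ⟨Finset.subset_univ _, hB⟩)

/-- The asymptotic rank statement for uniform weights. -/
theorem AR_unif [Infinite k] {j D : ℕ} (hj : 1 ≤ j) {x : ℝ} (hx : 0 ≤ x) :
    (uthr j D x < 0 → AR k (Finset.univ : Finset (Fin D)) (xU j x) 0) ∧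
      (∀ η, 0 < η → uthr j D x < η → AR k (Finset.univ : Finset (Fin D)) (xU j x) η) := by
  have h1 := AR_main (k := k) (List.finRange D) (List.nodup_finRange D) Finset.univ
    (fun b _ => List.mem_finRange b) (xU j x) (by
      intro e
      unfold xU
      split_ifs
      · exact hx
      · exact le_rfl)
  have h2 := Ind_unif hj x (List.finRange D) (Finset.univ : Finset (Fin D))
    (fun b _ => List.mem_finRange b)
  rw [Finset.card_univ, Fintype.card_fin] at h2
  rw [h2] at h1
  exact h1

end ShExist

end Pool.Agent.Helper45
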