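import Mathlib
import Pool.Agent.Helper45.ShExist
import Pool.Agent.Helper45.FatGen

namespace Pool.Agent.Helper45

open MvPolynomial Filter

set_option linter.unusedSectionVars false

section ShPts

variable {k : Type*} [Field k] {κ : Type*} [DecidableEq κ] [Fintype κ] {N j M E : ℕ}

/-- Index type of the special points. -/
abbrev PtIdx (κ : Type*) (N j M : ℕ) : Type _ :=
  ({e : Finset κ // e.card = j} × Fin M) ⊕
    ({s : Fin j → κ × Fin N // ¬ Function.Injective fun l => (s l).1} × Finset (Fin j))

/-- The special points. -/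
noncomputable def ptCfg (a : (Finset κ × ℕ) × (κ × Fin N) → k) : PtIdx κ N j M → κ × Fin N → k :=
  Sum.elim (fun x p => if p.1 ∈ x.1.1 then a ((x.1.1, (x.2 : ℕ)), p) else 0)
    (fun x p => ∑ l ∈ x.2, if x.1.1 l = p then 1 else 0)

theorem linForm_ptCfg_inl (a : (Finset κ × ℕ) × (κ × Fin N) → k)
    (x : {e : Finset κ // e.card = j} × Fin M) :
    linForm (ptCfg a (Sum.inl x) : κ × Fin N → k) =
      ∑ i ∈ x.1.1, ∑ u : Fin N, C (a ((x.1.1, (x.2 : ℕ)), (i, u))) * X (i, u) := by
  unfold linForm ptCfg
  rw [Fintype.sum_prod_type]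
  simp only [Sum.elim_inl]
  rw [← Finset.sum_subset (Finset.subset_univ x.1.1)]
  · refine Finset.sum_congr rfl fun i hi => ?_
    refine Finset.sum_congr rfl fun u _ => ?_
    rw [if_pos hi]
  · intro i _ hi
    refine Finset.sum_eq_zero fun u _ => ?_
    rw [if_neg hi, C_0, zero_mul]

theorem linForm_ptCfg_inr (a : (Finset κ × ℕ) × (κ × Fin N) → k)
    (x : {s : Fin j → κ × Fin N // ¬ Function.Injective fun l => (s l).1} × Finset (Fin j)) :
    linForm (ptCfg (M := M) a (Sum.inr x) : κ × Fin N → k) = ∑ l ∈ x.2, X (x.1.1 l) := by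
  unfold linForm ptCfg
  simp only [Sum.elim_inr]
  have h1 : ∀ p : κ × Fin N, C (∑ l ∈ x.2, if x.1.1 l = p then (1 : k) else 0) *
      (X p : MvPolynomial (κ × Fin N) k) = ∑ l ∈ x.2, if x.1.1 l = p then X p else 0 := by
    intro p
    rw [map_sum, Finset.sum_mul]
    refine Finset.sum_congr rfl fun l _ => ?_
    split_ifs
    · rw [C_1, one_mul]
    · rw [C_0, zero_mul]
  rw [Finset.sum_congr rfl fun p _ => h1 p, Finset.sum_comm]
  refine Finset.sum_congr rfl fun l _ => ?_
  rw [Finset.sum_ite_eq, if_pos (Finset.mem_univ _)]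

/-- The span of the powers of the linear forms of the special points. -/
noncomputable def ptSpan (j M : ℕ) (a : (Finset κ × ℕ) × (κ × Fin N) → k) :
    Submodule k (MvPolynomial (κ × Fin N) k) :=
  Submodule.span k (Set.range fun x : PtIdx κ N j M => linForm (ptCfg a x) ^ j)

theorem repMem_ptSpan [CharZero k] (a : (Finset κ × ℕ) × (κ × Fin N) → k) :
    RepMem k j (ptSpan j M a) := by
  intro s hs
  have h1 := prod_mem_span_pow (k := k) (j := j)
    (fun l => (X (s l) : MvPolynomial (κ × Fin N) k))
  refine (Submodule.span_le.2 ?_) h1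
  rintro _ ⟨S, rfl⟩
  refine Submodule.subset_span ⟨Sum.inr (⟨s, hs⟩, S), ?_⟩
  simp only
  rw [linForm_ptCfg_inr]

theorem hpow_ptSpan (a : (Finset κ × ℕ) × (κ × Fin N) → k) (e : Finset κ) (he : e.card = j)
    (ν : ℕ) (hν : ν < M) :
    (∑ i ∈ e, ∑ u : Fin N, C (a ((e, ν), (i, u))) * X (i, u)) ^ j ∈ ptSpan j M a := by
  refine Submodule.subset_span ⟨Sum.inl (⟨e, he⟩, ⟨ν, hν⟩), ?_⟩
  simp only
  rw [linForm_ptCfg_inl]

end ShPts

section Proj

variable {k : Type*} [Field k] {σ τ : Type*} [Fintype σ] [Fintype τ]

theorem killCompl_linForm {f : τ → σ} (hf : Function.Injective f) (p : σ → k) :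
    killCompl hf (linForm p) = linForm (fun t => p (f t)) := by
  classical
  unfold linForm
  rw [map_sum]
  symm
  refine Fintype.sum_of_injective f hf _ _ ?_ ?_
  · intro s hs
    rw [map_mul]
    have : killCompl hf (X s : MvPolynomial σ k) = 0 := by
      unfold killCompl
      rw [aeval_X, dif_neg hs]
    rw [this, mul_zero]
  · intro t
    rw [map_mul]
    have h1 : killCompl hf (X (f t) : MvPolynomial σ k) = X t := by
      have := killCompl_rename_app (R := k) hf (X t)
      rwa [rename_X] at this
    have h2 : killCompl hf (C (p (f t)) : MvPolynomial σ k) = C (p (f t)) := by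
      rw [killCompl_C]
    rw [h1, h2]

theorem killCompl_isHomogeneous {f : τ → σ} (hf : Function.Injective f) {p : MvPolynomial σ k}
    {d : ℕ} (hp : p.IsHomogeneous d) : (killCompl hf p).IsHomogeneous d := by
  classical
  have h1 := IsHomogeneous.aeval (n := 1) hp
    (fun i => if h : i ∈ Set.range f then (X ((Equiv.ofInjective f hf).symm ⟨i, h⟩) :
      MvPolynomial τ k) else 0) (by
    intro i
    split_ifs
    · exact isHomogeneous_X _ _
    · exact isHomogeneous_zero _ _ _)
  rw [one_mul] at h1
  unfold killCompl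
  convert h1

theorem homog_le_map_killCompl {f : τ → σ} (hf : Function.Injective f) (d : ℕ) :
    homogeneousSubmodule τ k d ≤
      (homogeneousSubmodule σ k d).map (killCompl hf).toLinearMap := by
  intro p hp
  refine ⟨rename f p, ?_, ?_⟩
  · exact (mem_homogeneousSubmodule _ _).2 (IsHomogeneous.rename_isHomogeneous hp)
  · exact killCompl_rename_app hf p

theorem map_killCompl_le {f : τ → σ} (hf : Function.Injective f) (d : ℕ) :
    (homogeneousSubmodule σ k d).map (killCompl hf).toLinearMap ≤ homogeneousSubmodule τ k d := by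
  rintro _ ⟨p, hp, rfl⟩
  exact (mem_homogeneousSubmodule _ _).2 (killCompl_isHomogeneous hf hp)

end Proj

section Main

variable {k : Type*} [Field k] [CharZero k]

theorem card_ptIdx (K N j M : ℕ) : Fintype.card (PtIdx (Fin K) N j M) ≤
    K.choose j * M + (K ^ j - K.descFactorial j) * N ^ j * 2 ^ j := by
  classical
  unfold PtIdx
  rw [Fintype.card_sum, Fintype.card_prod, Fintype.card_prod, Fintype.card_finset_len,
    Fintype.card_fin, Fintype.card_fin, Fintype.card_finset, Fintype.card_fin]
  refine Nat.add_le_add_left (Nat.mul_le_mul_right _ ?_) _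
  have h1 : Fintype.card {s : Fin j → Fin K × Fin N // ¬ Function.Injective fun l => (s l).1} ≤
      Fintype.card ({f : Fin j → Fin K // ¬ Function.Injective f} × (Fin j → Fin N)) := by
    refine Fintype.card_le_of_injective
      (fun s => (⟨fun l => (s.1 l).1, s.2⟩, fun l => (s.1 l).2)) ?_
    intro s t hst
    simp only [Prod.mk.injEq, Subtype.mk.injEq] at hst
    apply Subtype.ext
    funext l
    exact Prod.ext (congrFun hst.1 l) (congrFun hst.2 l)
  refine h1.trans ?_
  rw [Fintype.card_prod, Fintype.card_fun, Fintype.card_fin, Fintype.card_fin,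
    Fintype.card_subtype_compl, Fintype.card_fun, Fintype.card_fin, Fintype.card_fin]
  have h2 : Fintype.card {f : Fin j → Fin K // Function.Injective f} = K.descFactorial j := by
    rw [Fintype.card_congr (Equiv.subtypeInjectiveEquivEmbedding (Fin j) (Fin K)),
      Fintype.card_embedding_eq, Fintype.card_fin, Fintype.card_fin]
  rw [h2]

/-- Existence of special points in `n + 1` variables. -/
theorem exists_points {j E K N n M r t R : ℕ} (hj : 2 ≤ j) (hn : n + 1 ≤ K * N)
    (a : (Finset (Fin K) × ℕ) × (Fin K × Fin N) → k)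
    (hr : ∀ B : Finset (Fin K), B.card = E + j →
      r ≤ Module.finrank k (spn B (fun e => if e.card = j then M else 0) a))
    (ht : K.choose j * M + (K ^ j - K.descFactorial j) * N ^ j * 2 ^ j ≤ t) (htR : t ≤ R) :
    ∃ P0 : Fin R × Fin (n + 1) → k,
      Module.finrank k (homogeneousSubmodule (Fin (n + 1)) k (E + j)) ≤
        Module.finrank k (degPart (powSeq P0 j) t E) +
          K.choose (E + j) * (N ^ (E + j) - r) := by
  classical
  obtain ⟨C, hC1, hC2, hC3⟩ := homog_cover (k := k) (E := E) hj (repMem_ptSpan (M := M) a) a M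
    (fun e he ν hν => hpow_ptSpan a e he ν hν) r hr
  rw [Fintype.card_fin] at hC2
  let emb : Fin (n + 1) → Fin K × Fin N := fun s => finProdFinEquiv.symm (Fin.castLE hn s)
  have hemb : Function.Injective emb := by
    intro s t hst
    exact Fin.castLE_injective hn (finProdFinEquiv.symm.injective hst)
  have hcard := card_ptIdx K N j M
  let en := Fintype.equivFin (PtIdx (Fin K) N j M)
  let P0 : Fin R × Fin (n + 1) → k := fun x =>
    if h : (x.1 : ℕ) < Fintype.card (PtIdx (Fin K) N j M) then ptCfg a (en.symm ⟨x.1, h⟩) (emb x.2)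
    else 0
  have hP0 : ∀ x : PtIdx (Fin K) N j M, powSeq P0 j (en x) =
      linForm (fun s => ptCfg a x (emb s)) ^ j := by
    intro x
    have h1 : (en x : ℕ) < Fintype.card (PtIdx (Fin K) N j M) := (en x).2
    have h2 : (en x : ℕ) < R := by omega
    unfold powSeq
    rw [ptSeq_of_lt P0 h2]
    congr 2
    funext s
    simp only [P0]
    rw [dif_pos h1]
    simp only [Fin.eta, Equiv.symm_apply_apply]
  refine ⟨P0, ?_⟩
  have hle : homogeneousSubmodule (Fin (n + 1)) k (E + j) ≤
      degPart (powSeq P0 j) t E ⊔ C.map (killCompl hemb).toLinearMap := by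
    refine (homog_le_map_killCompl hemb (E + j)).trans ?_
    refine (Submodule.map_mono hC3).trans ?_
    rw [Submodule.map_sup]
    refine sup_le_sup_right ?_ _
    rw [Submodule.map_mul]
    refine Submodule.mul_le.2 ?_
    intro p hp q hq
    have hq' := map_killCompl_le hemb E hq
    unfold ptSpan at hp
    rw [Submodule.map_span] at hp
    induction hp using Submodule.span_induction with
    | mem y hy =>
      obtain ⟨_, ⟨x, rfl⟩, rfl⟩ := hy
      have h1 : (en x : ℕ) < Fintype.card (PtIdx (Fin K) N j M) := (en x).2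
      refine Submodule.mem_iSup_of_mem ((en x : ℕ))
        (Submodule.mem_iSup_of_mem (Finset.mem_range.2 (by omega)) ?_)
      refine ⟨q, hq', ?_⟩
      rw [LinearMap.mulLeft_apply, hP0]
      congr 1
      rw [AlgHom.toLinearMap_apply, map_pow, killCompl_linForm]
    | zero => rw [zero_mul]; exact Submodule.zero_mem _
    | add x y _ _ hx hy => rw [add_mul]; exact Submodule.add_mem _ hx hy
    | smul c x _ hx => rw [smul_mul_assoc]; exact Submodule.smul_mem _ _ hx
  have hfin1 : Module.Finite k (degPart (powSeq P0 j) t E) :=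
    finite_degPart (powSeq_isHomogeneous P0 j) t E
  have hfin2 : Module.Finite k (C.map (killCompl hemb).toLinearMap) := inferInstance
  refine (Submodule.finrank_mono hle).trans ?_
  refine (Submodule.finrank_add_le_finrank_add_finrank _ _).trans ?_
  refine Nat.add_le_add_left ?_ _
  exact (Submodule.finrank_map_le _ _).trans hC2

end Main

end Pool.Agent.Helper45
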