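import Mathlib
import Pool.Agent.Helper45.FatGen

namespace Pool.Agent.Helper45.Gr

open MvPolynomial

set_option linter.unusedSectionVars false

section GrBase

variable {k : Type*} [Field k] {σ : Type*} [Fintype σ] {ι : Type*}

/-- The space generated in degree `E` more by the elements of index in `S`. -/
noncomputable def setPart (f : ι → MvPolynomial σ k) (S : Finset ι) (E : ℕ) :
    Submodule k (MvPolynomial σ k) :=
  ⨆ a ∈ S, (homogeneousSubmodule σ k E).map (LinearMap.mulLeft k (f a))

/-- Powers of linear forms. -/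
noncomputable def pw (P : ι → σ → k) (j : ℕ) (a : ι) : MvPolynomial σ k := linForm (P a) ^ j

theorem pw_isHomogeneous (P : ι → σ → k) (j : ℕ) (a : ι) : (pw P j a).IsHomogeneous j := by
  have := (linForm_isHomogeneous (P a)).pow j
  rwa [one_mul] at this

theorem setPart_mono {f : ι → MvPolynomial σ k} {S T : Finset ι} (h : S ⊆ T) (E : ℕ) :
    setPart f S E ≤ setPart f T E := by
  unfold setPart
  exact iSup₂_le fun i hi => le_iSup₂ (f := fun (i : ι) (_ : i ∈ T) =>
    (homogeneousSubmodule σ k E).map (LinearMap.mulLeft k (f i))) i (h hi)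

theorem mul_mem_setPart {f : ι → MvPolynomial σ k} {S : Finset ι} {E : ℕ} {a : ι} (ha : a ∈ S)
    {g : MvPolynomial σ k} (hg : g.IsHomogeneous E) : f a * g ∈ setPart f S E :=
  Submodule.mem_iSup_of_mem a (Submodule.mem_iSup_of_mem ha ⟨g, hg, rfl⟩)

theorem setPart_insert [DecidableEq ι] (f : ι → MvPolynomial σ k) (S : Finset ι) (a : ι)
    (E : ℕ) : setPart f (insert a S) E =
      (homogeneousSubmodule σ k E).map (LinearMap.mulLeft k (f a)) ⊔ setPart f S E := by
  unfold setPart
  rw [Finset.iSup_insert]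

theorem setPart_congr {f g : ι → MvPolynomial σ k} {S : Finset ι} {E : ℕ}
    (h : ∀ a ∈ S, f a = g a) : setPart f S E = setPart g S E := by
  unfold setPart
  refine iSup_congr fun a => iSup_congr fun ha => ?_
  rw [h a ha]

theorem setPart_map {κ : Type*} (φ : κ ↪ ι) (f : ι → MvPolynomial σ k) (S : Finset κ) (E : ℕ) :
    setPart f (S.map φ) E = setPart (fun a => f (φ a)) S E := by
  unfold setPart
  refine le_antisymm ?_ ?_
  · refine iSup₂_le fun i hi => ?_
    obtain ⟨a, ha, rfl⟩ := Finset.mem_map.1 hi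
    exact le_iSup₂ (f := fun (a : κ) (_ : a ∈ S) =>
      (homogeneousSubmodule σ k E).map (LinearMap.mulLeft k (f (φ a)))) a ha
  · refine iSup₂_le fun a ha => ?_
    exact le_iSup₂ (f := fun (i : ι) (_ : i ∈ S.map φ) =>
      (homogeneousSubmodule σ k E).map (LinearMap.mulLeft k (f i))) (φ a)
      (Finset.mem_map_of_mem φ ha)

theorem setPart_le {f : ι → MvPolynomial σ k} {j : ℕ} (hf : ∀ a, (f a).IsHomogeneous j)
    (S : Finset ι) (E : ℕ) : setPart f S E ≤ homogeneousSubmodule σ k (E + j) := by
  unfold setPart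
  refine iSup₂_le fun a _ => ?_
  rintro _ ⟨c, hc, rfl⟩
  rw [LinearMap.mulLeft_apply, add_comm E j]
  exact (hf a).mul hc

theorem finite_setPart {f : ι → MvPolynomial σ k} {j : ℕ} (hf : ∀ a, (f a).IsHomogeneous j)
    (S : Finset ι) (E : ℕ) : Module.Finite k (setPart f S E) :=
  Submodule.finiteDimensional_of_le (setPart_le hf S E)

theorem setPart_eq_span (f : ι → MvPolynomial σ k) (S : Finset ι) (E : ℕ) :
    setPart f S E = Submodule.span k (Set.range fun x : S × {v : σ →₀ ℕ // v.degree = E} =>
      f x.1 * monomial x.2.1 1) := by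
  refine le_antisymm ?_ ?_
  · unfold setPart
    refine iSup₂_le fun a ha => ?_
    rintro _ ⟨c, hc, rfl⟩
    rw [LinearMap.mulLeft_apply]
    have : f a * c = ∑ v ∈ c.support, coeff v c • (f a * monomial v 1) := by
      conv_lhs => rw [← support_sum_monomial_coeff c]
      rw [Finset.mul_sum]
      refine Finset.sum_congr rfl fun v _ => ?_
      rw [← mul_smul_comm, smul_monomial, smul_eq_mul, mul_one]
    rw [this]
    refine Submodule.sum_mem _ fun v hv => Submodule.smul_mem _ _ (Submodule.subset_span ?_)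
    have hdeg : v.degree = E := by
      by_contra h
      exact (mem_support_iff.1 hv) (IsHomogeneous.coeff_eq_zero hc h)
    exact ⟨(⟨a, ha⟩, ⟨v, hdeg⟩), rfl⟩
  · rw [Submodule.span_le]
    rintro _ ⟨⟨a, v, hv⟩, rfl⟩
    exact mul_mem_setPart a.2 (isHomogeneous_monomial _ hv)

/-- The universal power of a linear form. -/
noncomputable def uPow (k : Type*) [Field k] {σ : Type*} [Fintype σ] {ι : Type*} (j : ℕ)
    (a : ι) : MvPolynomial σ (MvPolynomial (ι × σ) k) :=
  (∑ s, C (X (a, s)) * X s) ^ j

theorem map_uPow (j : ℕ) (a : ι) (P : ι × σ → k) :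
    map (eval P) (uPow k j a : MvPolynomial σ (MvPolynomial (ι × σ) k)) =
      linForm (fun s => P (a, s)) ^ j := by
  unfold uPow linForm
  rw [map_pow, map_sum]
  congr 1
  refine Finset.sum_congr rfl fun s _ => ?_
  rw [map_mul, map_C, map_X, eval_X]

/-- Semicontinuity for the dimension of `setPart` enlarged by one product of powers. -/
theorem semicont_setPart (j E : ℕ) (S : Finset ι) (Y : Finset (ι × ι)) (P0 : ι × σ → k) :
    ∃ G : MvPolynomial (ι × σ) k, eval P0 G ≠ 0 ∧ ∀ P : ι × σ → k, eval P G ≠ 0 →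
      Module.finrank k (setPart (pw (fun a s => P0 (a, s)) j) S E ⊔ Submodule.span k
        (Set.range fun y : Y => pw (fun a s => P0 (a, s)) j y.1.1 *
          pw (fun a s => P0 (a, s)) j y.1.2) : Submodule k (MvPolynomial σ k)) ≤
      Module.finrank k (setPart (pw (fun a s => P (a, s)) j) S E ⊔ Submodule.span k
        (Set.range fun y : Y => pw (fun a s => P (a, s)) j y.1.1 *
          pw (fun a s => P (a, s)) j y.1.2) : Submodule k (MvPolynomial σ k)) := by
  let W : (S × {v : σ →₀ ℕ // v.degree = E}) ⊕ Y → MvPolynomial σ (MvPolynomial (ι × σ) k) :=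
    Sum.elim (fun x => uPow k j (x.1 : ι) * monomial x.2.1 1)
      (fun y => uPow k j y.1.1 * uPow k j y.1.2)
  obtain ⟨G, hG1, hG2⟩ := semicont W P0
  refine ⟨G, hG1, fun P hP => ?_⟩
  have h := hG2 P hP
  have e : ∀ P : ι × σ → k, Submodule.span k (Set.range fun i => map (eval P) (W i)) =
      setPart (pw (fun a s => P (a, s)) j) S E ⊔ Submodule.span k
        (Set.range fun y : Y => pw (fun a s => P (a, s)) j y.1.1 *
          pw (fun a s => P (a, s)) j y.1.2) := by
    intro P
    rw [setPart_eq_span, ← Submodule.span_union]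
    congr 1
    have h1 : (fun i => map (eval P) (W i)) = Sum.elim
        (fun x : S × {v : σ →₀ ℕ // v.degree = E} =>
          pw (fun a s => P (a, s)) j (x.1 : ι) * monomial x.2.1 1)
        (fun y : Y => pw (fun a s => P (a, s)) j y.1.1 * pw (fun a s => P (a, s)) j y.1.2) := by
      funext i
      rcases i with x | y
      · simp only [W, Sum.elim_inl]
        rw [map_mul, map_uPow, map_monomial, map_one]
        rfl
      · simp only [W, Sum.elim_inr]
        rw [map_mul, map_uPow, map_uPow]
        rfl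
    rw [h1, Set.Sum.elim_range]
  rw [e, e] at h
  exact h

/-- The largest dimension for `t` points. -/
noncomputable def gen (k : Type*) [Field k] (σ : Type*) [Fintype σ] (j E t : ℕ) : ℕ :=
  sSup (Set.range fun P : Fin t → σ → k => Module.finrank k (setPart (pw P j) Finset.univ E))

theorem gen_bdd (j E t : ℕ) : BddAbove (Set.range fun P : Fin t → σ → k =>
    Module.finrank k (setPart (pw P j) Finset.univ E)) := by
  refine ⟨Module.finrank k (homogeneousSubmodule σ k (E + j)), ?_⟩
  rintro _ ⟨P, rfl⟩
  exact Submodule.finrank_mono (setPart_le (pw_isHomogeneous P j) _ E)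

theorem gen_le_homog (j E t : ℕ) :
    gen k σ j E t ≤ Module.finrank k (homogeneousSubmodule σ k (E + j)) := by
  unfold gen
  refine csSup_le ⟨_, ⟨fun _ _ => 0, rfl⟩⟩ ?_
  rintro _ ⟨P, rfl⟩
  exact Submodule.finrank_mono (setPart_le (pw_isHomogeneous P j) _ E)

theorem gen_attained (j E t : ℕ) : ∃ P : Fin t → σ → k,
    Module.finrank k (setPart (pw P j) Finset.univ E) = gen k σ j E t := by
  have := Nat.sSup_mem (s := Set.range fun P : Fin t → σ → k =>
    Module.finrank k (setPart (pw P j) Finset.univ E)) ⟨_, ⟨fun _ _ => 0, rfl⟩⟩ (gen_bdd j E t)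
  exact this

theorem le_gen (j E : ℕ) (P : ι → σ → k) (S : Finset ι) :
    Module.finrank k (setPart (pw P j) S E) ≤ gen k σ j E S.card := by
  let φ : Fin S.card ↪ ι := S.equivFin.symm.toEmbedding.trans (Function.Embedding.subtype _)
  have h1 : (Finset.univ : Finset (Fin S.card)).map φ = S := by
    ext i
    simp only [φ, Finset.mem_map, Finset.mem_univ, true_and, Function.Embedding.trans_apply,
      Equiv.coe_toEmbedding, Function.Embedding.subtype_apply]
    constructor
    · rintro ⟨a, rfl⟩
      exact Subtype.mem _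
    · intro hi
      exact ⟨S.equivFin ⟨i, hi⟩, by simp⟩
  have h2 : setPart (pw P j) S E = setPart (pw (fun a => P (φ a)) j) Finset.univ E := by
    conv_lhs => rw [← h1]
    rw [setPart_map]
    rfl
  rw [h2]
  exact le_csSup (gen_bdd j E S.card) ⟨_, rfl⟩

/-- Every set of indices carries a configuration of largest dimension. -/
theorem exists_max (j E : ℕ) (S : Finset ι) : ∃ P : ι × σ → k,
    Module.finrank k (setPart (pw (fun a s => P (a, s)) j) S E) = gen k σ j E S.card := by
  classical
  obtain ⟨Q, hQ⟩ := gen_attained (k := k) (σ := σ) j E S.card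
  let φ : Fin S.card ↪ ι := S.equivFin.symm.toEmbedding.trans (Function.Embedding.subtype _)
  have h1 : (Finset.univ : Finset (Fin S.card)).map φ = S := by
    ext i
    simp only [φ, Finset.mem_map, Finset.mem_univ, true_and, Function.Embedding.trans_apply,
      Equiv.coe_toEmbedding, Function.Embedding.subtype_apply]
    constructor
    · rintro ⟨a, rfl⟩
      exact Subtype.mem _
    · intro hi
      exact ⟨S.equivFin ⟨i, hi⟩, by simp⟩
  obtain ⟨P0, hP0⟩ : ∃ P0 : ι × σ → k, ∀ a s, P0 (φ a, s) = Q a s := by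
    refine ⟨fun x => if h : ∃ a, φ a = x.1 then Q h.choose x.2 else 0, fun a s => ?_⟩
    have h : ∃ a', φ a' = φ a := ⟨a, rfl⟩
    simp only
    rw [dif_pos h, φ.injective h.choose_spec]
  refine ⟨P0, ?_⟩
  rw [← hQ]
  have h2 : setPart (pw (fun a s => P0 (a, s)) j) S E =
      setPart (pw (fun a s => P0 (a, s)) j) (Finset.univ.map φ) E := by rw [h1]
  rw [h2, setPart_map]
  have h3 : (fun a => pw (fun a s => P0 (a, s)) j (φ a)) = pw Q j := by
    funext a
    unfold pw
    congr 2
    funext s
    exact hP0 a s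
  rw [h3]

/-- For general points all subsets have the largest dimension. -/
theorem exists_generic_tuple [Fintype ι] (j E : ℕ) :
    ∃ G : MvPolynomial (ι × σ) k, G ≠ 0 ∧ ∀ P : ι × σ → k, eval P G ≠ 0 → ∀ S : Finset ι,
      Module.finrank k (setPart (pw (fun a s => P (a, s)) j) S E) = gen k σ j E S.card := by
  classical
  have key : ∀ S : Finset ι, ∃ G : MvPolynomial (ι × σ) k, G ≠ 0 ∧ ∀ P : ι × σ → k,
      eval P G ≠ 0 →
      Module.finrank k (setPart (pw (fun a s => P (a, s)) j) S E) = gen k σ j E S.card := by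
    intro S
    obtain ⟨P0, hP0⟩ := exists_max (k := k) (σ := σ) j E S
    obtain ⟨G, hG1, hG2⟩ := semicont_setPart j E S ∅ P0
    refine ⟨G, ?_, fun P hP => le_antisymm (le_gen j E _ S) ?_⟩
    · rintro rfl
      exact hG1 (map_zero _)
    · have h := hG2 P hP
      have e : ∀ P : ι × σ → k, (Submodule.span k (Set.range fun y : (∅ : Finset (ι × ι)) =>
          pw (fun a s => P (a, s)) j y.1.1 * pw (fun a s => P (a, s)) j y.1.2) :
          Submodule k (MvPolynomial σ k)) = ⊥ := by
        intro P
        rw [Set.range_eq_empty, Submodule.span_empty]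
      rw [e, e, sup_bot_eq, sup_bot_eq, hP0] at h
      exact h
  choose G hG1 hG2 using key
  refine ⟨∏ S : Finset ι, G S, Finset.prod_ne_zero_iff.2 fun S _ => hG1 S, fun P hP S => ?_⟩
  rw [map_prod] at hP
  exact hG2 S P (Finset.prod_ne_zero_iff.1 hP S (Finset.mem_univ S))

/-- The colon space. -/
noncomputable def col (f : ι → MvPolynomial σ k) (S : Finset ι) (h : MvPolynomial σ k) (E : ℕ) :
    Submodule k (MvPolynomial σ k) :=
  homogeneousSubmodule σ k E ⊓ (setPart f S E).comap (LinearMap.mulLeft k h)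

theorem mem_col {f : ι → MvPolynomial σ k} {S : Finset ι} {h g : MvPolynomial σ k} {E : ℕ} :
    g ∈ col f S h E ↔ g.IsHomogeneous E ∧ h * g ∈ setPart f S E := by
  unfold col
  rw [Submodule.mem_inf, mem_homogeneousSubmodule, Submodule.mem_comap, LinearMap.mulLeft_apply]

theorem col_mono {f : ι → MvPolynomial σ k} {S T : Finset ι} (hST : S ⊆ T)
    (h : MvPolynomial σ k) (E : ℕ) : col f S h E ≤ col f T h E := by
  intro g hg
  rw [mem_col] at hg ⊢
  exact ⟨hg.1, setPart_mono hST E hg.2⟩

theorem col_congr {f g : ι → MvPolynomial σ k} {S : Finset ι} {E : ℕ}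
    (hfg : ∀ a ∈ S, f a = g a) (h : MvPolynomial σ k) : col f S h E = col g S h E := by
  unfold col
  rw [setPart_congr hfg]

theorem finite_col (f : ι → MvPolynomial σ k) (S : Finset ι) (h : MvPolynomial σ k) (E : ℕ) :
    Module.Finite k (col f S h E) := Submodule.finiteDimensional_of_le inf_le_left

theorem finrank_col [DecidableEq ι] {f : ι → MvPolynomial σ k} {j : ℕ}
    (hf : ∀ a, (f a).IsHomogeneous j) {o : ι} (ho : f o ≠ 0) (S : Finset ι) (E : ℕ) :
    Module.finrank k (col f S (f o) E) + Module.finrank k (setPart f (insert o S) E) =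
      Module.finrank k (homogeneousSubmodule σ k E) + Module.finrank k (setPart f S E) := by
  have : Module.Finite k (setPart f S E) := finite_setPart hf S E
  have h1 := Submodule.finrank_sup_add_finrank_inf_eq
    ((homogeneousSubmodule σ k E).map (LinearMap.mulLeft k (f o))) (setPart f S E)
  rw [← setPart_insert, finrank_map_mul ho] at h1
  have h2 : (col f S (f o) E).map (LinearMap.mulLeft k (f o)) =
      (homogeneousSubmodule σ k E).map (LinearMap.mulLeft k (f o)) ⊓ setPart f S E := by
    refine le_antisymm ?_ ?_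
    · refine le_inf (Submodule.map_mono inf_le_left) ?_
      rintro _ ⟨g, hg, rfl⟩
      exact (mem_col.1 hg).2
    · rintro _ ⟨⟨g, hg, rfl⟩, hg2⟩
      exact ⟨g, mem_col.2 ⟨hg, hg2⟩, rfl⟩
  rw [← h2, finrank_map_mul ho] at h1
  omega

end GrBase

end Pool.Agent.Helper45.Gr
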