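import Mathlib
import Pool.Agent.Helper45.GrBase
import Pool.Agent.Helper45.ShPolar
import Pool.Agent.Helper45.ShPoly

namespace Pool.Agent.Helper45.Gr

open MvPolynomial

set_option linter.unusedSectionVars false

section GrSpan

variable {k : Type*} [Field k] {σ : Type*} [Fintype σ] {ι : Type*}

theorem eval_aeval_poly {τ : Type*} (p : τ → Polynomial k) (G : MvPolynomial τ k) (u : k) :
    (aeval p G).eval u = eval (fun i => (p i).eval u) G := by
  induction G using MvPolynomial.induction_on with
  | C a => simp
  | add a b ha hb => simp [ha, hb]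
  | mul_X a i ha => simp [ha]

theorem eval_aeval_mv {τ ρ : Type*} (p : τ → MvPolynomial ρ k) (G : MvPolynomial τ k)
    (u : ρ → k) : eval u (aeval p G) = eval (fun i => eval u (p i)) G := by
  induction G using MvPolynomial.induction_on with
  | C a => rw [algHom_C, algebraMap_eq, eval_C, eval_C]
  | add a b ha hb => rw [map_add, map_add, map_add, ha, hb]
  | mul_X a i ha => rw [map_mul, map_mul, aeval_X, map_mul, ha, eval_X]

/-- A polynomial curve which is infinitely often in a subspace has its value at zero in it. -/
theorem coeff_zero_mem {R : Type*} [CommRing R] [Algebra k R] (U : Submodule k R)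
    (w : Polynomial R) (h : {s : k | w.eval (algebraMap k R s) ∈ U}.Infinite) :
    w.coeff 0 ∈ U := by
  by_contra hcon
  obtain ⟨π, hπ1, hπ2⟩ := Submodule.exists_le_ker_of_notMem hcon
  let q : Polynomial k := ∑ i ∈ w.support, Polynomial.monomial i (π (w.coeff i))
  have hq : ∀ s, q.eval s = π (w.eval (algebraMap k R s)) := by
    intro s
    have h2 : w.eval (algebraMap k R s) = ∑ i ∈ w.support, w.coeff i * (algebraMap k R s) ^ i :=
      Polynomial.eval_eq_sum
    rw [h2, map_sum, Polynomial.eval_finsetSum]
    refine Finset.sum_congr rfl fun i _ => ?_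
    rw [Polynomial.eval_monomial, ← map_pow, mul_comm (w.coeff i), ← Algebra.smul_def, map_smul,
      smul_eq_mul, mul_comm]
  have h0 : q = 0 := by
    refine Polynomial.eq_zero_of_infinite_isRoot q (h.mono fun s hs => ?_)
    change q.eval s = 0
    rw [hq]
    exact hπ2 hs
  have h1 : q.coeff 0 = π (w.coeff 0) := by
    simp only [q, Polynomial.finsetSum_coeff, Polynomial.coeff_monomial]
    rw [Finset.sum_ite_eq' w.support 0 fun i => π (w.coeff i)]
    split_ifs with h2
    · rfl
    · rw [Polynomial.notMem_support_iff.1 h2, map_zero]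
  rw [h0, Polynomial.coeff_zero] at h1
  exact hπ1 h1.symm

theorem linForm_add (p q : σ → k) : linForm (p + q) = linForm p + linForm q := by
  unfold linForm
  rw [← Finset.sum_add_distrib]
  refine Finset.sum_congr rfl fun s _ => ?_
  rw [Pi.add_apply, map_add, add_mul]

theorem linForm_smul (c : k) (p : σ → k) : linForm (c • p) = C c * linForm p := by
  unfold linForm
  rw [Finset.mul_sum]
  refine Finset.sum_congr rfl fun s _ => ?_
  rw [Pi.smul_apply, smul_eq_mul, map_mul, mul_assoc]

theorem linForm_zero : linForm (0 : σ → k) = 0 := by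
  unfold linForm
  simp

theorem linForm_sum {α : Type*} (A : Finset α) (p : α → σ → k) :
    linForm (∑ a ∈ A, p a) = ∑ a ∈ A, linForm (p a) := by
  classical
  induction A using Finset.induction_on with
  | empty => rw [Finset.sum_empty, Finset.sum_empty, linForm_zero]
  | insert a A ha ih => rw [Finset.sum_insert ha, Finset.sum_insert ha, linForm_add, ih]

theorem linForm_single [DecidableEq σ] (x : σ) :
    linForm (Pi.single x 1 : σ → k) = X x := by
  unfold linForm
  rw [Finset.sum_eq_single x]
  · rw [Pi.single_eq_same, map_one, one_mul]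
  · intro s _ hs
    rw [Pi.single_eq_of_ne hs, map_zero, zero_mul]
  · intro h; exact absurd (Finset.mem_univ _) h

/-- Powers of the linear forms in a nonempty open set span. -/
theorem homog_le_of_open [CharZero k] {D : ℕ} (G : MvPolynomial σ k) (hG : G ≠ 0)
    (U : Submodule k (MvPolynomial σ k)) (h : ∀ l : σ → k, eval l G ≠ 0 → linForm l ^ D ∈ U) :
    homogeneousSubmodule σ k D ≤ U := by
  classical
  intro p hp
  by_contra hcon
  obtain ⟨π, hπ1, hπ2⟩ := Submodule.exists_le_ker_of_notMem hcon
  let W : MvPolynomial σ (MvPolynomial σ k) := (∑ s, C (X s) * X s) ^ D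
  have hW : ∀ l : σ → k, map (eval l) W = linForm l ^ D := by
    intro l
    simp only [W]
    unfold linForm
    rw [map_pow, map_sum]
    congr 1
    refine Finset.sum_congr rfl fun s _ => ?_
    rw [map_mul, map_C, map_X, eval_X]
  have h1 : G * extFun π W = 0 := by
    refine MvPolynomial.funext fun l => ?_
    rw [map_mul, eval_extFun, hW, map_zero]
    by_cases hl : eval l G = 0
    · rw [hl, zero_mul]
    · have := hπ2 (h l hl)
      rw [LinearMap.mem_ker] at this
      rw [this, mul_zero]
  have h2 : extFun π W = 0 := (mul_eq_zero.1 h1).resolve_left hG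
  have h3 : ∀ l : σ → k, π (linForm l ^ D) = 0 := by
    intro l
    rw [← hW, ← eval_extFun, h2, map_zero]
  apply hπ1
  rw [← support_sum_monomial_coeff p, map_sum]
  refine Finset.sum_eq_zero fun v hv => ?_
  have hdeg : v.degree = D := by
    by_contra hne
    exact (mem_support_iff.1 hv) (IsHomogeneous.coeff_eq_zero hp hne)
  have h4 : (monomial v (coeff v p) : MvPolynomial σ k) = (coeff v p) • monomial v 1 := by
    rw [smul_monomial, smul_eq_mul, mul_one]
  rw [h4, map_smul]
  obtain ⟨s, hs⟩ := monomial_eq_prod (k := k) v hdeg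
  rw [hs]
  have h5 := prod_mem_span_pow (k := k) (fun l : Fin D => (X (s l) : MvPolynomial σ k))
  have h6 : Submodule.span k (Set.range fun S : Finset (Fin D) =>
      (∑ l ∈ S, (X (s l) : MvPolynomial σ k)) ^ D) ≤ LinearMap.ker π := by
    rw [Submodule.span_le]
    rintro _ ⟨S, rfl⟩
    have h7 : ∑ l ∈ S, (X (s l) : MvPolynomial σ k) =
        linForm (∑ l ∈ S, (Pi.single (s l) 1 : σ → k)) := by
      rw [linForm_sum]
      exact Finset.sum_congr rfl fun l _ => (linForm_single _).symm
    simp only [h7]
    exact h3 _
  have h8 := h6 h5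
  rw [LinearMap.mem_ker] at h8
  rw [h8, smul_zero]

/-- The contraction towards `L`. -/
noncomputable def gam (L v : σ → k) (s : k) (x : σ → k) : σ → k :=
  (∑ t, v t * x t) • L + s • (x - (∑ t, v t * x t) • L)

theorem gam_gam {L v : σ → k} (hv : ∑ t, v t * L t = 1) {s u : k} (hsu : s * u = 1)
    (x : σ → k) : gam L v s (gam L v u x) = x := by
  have h1 : ∑ t, v t * gam L v u x t = ∑ t, v t * x t := by
    unfold gam
    simp only [Pi.add_apply, Pi.smul_apply, Pi.sub_apply, smul_eq_mul]
    have : ∀ t, v t * ((∑ t, v t * x t) * L t + u * (x t - (∑ t, v t * x t) * L t)) =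
        (∑ t, v t * x t) * (v t * L t) + u * (v t * x t) -
          u * ((∑ t, v t * x t) * (v t * L t)) := by
      intro t; ring
    simp only [this]
    rw [Finset.sum_sub_distrib, Finset.sum_add_distrib, ← Finset.mul_sum, ← Finset.mul_sum,
      ← Finset.mul_sum, ← Finset.mul_sum, hv]
    ring
  have h2 : gam L v s (gam L v u x) = (∑ t, v t * x t) • L +
      s • (gam L v u x - (∑ t, v t * x t) • L) := by
    conv_lhs => unfold gam
    have h3 := h1
    unfold gam at h3
    rw [h3]
    rfl
  rw [h2]
  unfold gam
  rw [add_sub_cancel_left, smul_smul, hsu, one_smul, add_sub_cancel]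

theorem linForm_gam (L v : σ → k) (s : k) (x : σ → k) :
    linForm (gam L v s x) = C (∑ t, v t * x t) * linForm L +
      C s * (linForm x - C (∑ t, v t * x t) * linForm L) := by
  unfold gam
  rw [linForm_add, linForm_smul, linForm_smul, sub_eq_add_neg, linForm_add]
  have : linForm (-((∑ t, v t * x t) • L)) = - (C (∑ t, v t * x t) * linForm L) := by
    have h1 : -((∑ t, v t * x t) • L) = (-(∑ t, v t * x t)) • L := by rw [neg_smul]
    rw [h1, linForm_smul, map_neg, neg_mul]
  rw [this, ← sub_eq_add_neg]

/-- The substitution attached to the contraction. -/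
noncomputable def Gam (L v : σ → k) (s : k) : MvPolynomial σ k →ₐ[k] MvPolynomial σ k :=
  aeval fun i => C (v i) * linForm L + C s * (X i - C (v i) * linForm L)

theorem Gam_linForm (L v : σ → k) (s : k) (x : σ → k) :
    Gam L v s (linForm x) = linForm (gam L v s x) := by
  rw [linForm_gam]
  have h1 : Gam L v s (linForm x) = ∑ t, C (x t) *
      (C (v t) * linForm L + C s * (X t - C (v t) * linForm L)) := by
    conv_lhs => unfold linForm
    rw [map_sum]
    refine Finset.sum_congr rfl fun t _ => ?_
    rw [map_mul]
    unfold Gam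
    rw [aeval_X, algHom_C, algebraMap_eq]
  rw [h1]
  have h2 : ∀ t, (C (x t) : MvPolynomial σ k) *
      (C (v t) * linForm L + C s * (X t - C (v t) * linForm L)) =
      C (v t * x t) * linForm L + C s * (C (x t) * X t) - C s * (C (v t * x t) * linForm L) := by
    intro t
    rw [map_mul]
    ring
  have h3 : ∑ t, (C (v t * x t) * linForm L + C s * (C (x t) * X t) -
      C s * (C (v t * x t) * linForm L)) = C (∑ t, v t * x t) * linForm L +
      C s * linForm x - C s * (C (∑ t, v t * x t) * linForm L) := by
    rw [Finset.sum_sub_distrib, Finset.sum_add_distrib, ← Finset.sum_mul, ← Finset.mul_sum,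
      ← Finset.mul_sum, ← Finset.sum_mul, ← map_sum]
    rfl
  rw [Finset.sum_congr rfl fun t _ => h2 t, h3]
  ring

end GrSpan

end Pool.Agent.Helper45.Gr
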