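import Mathlib
import Pool.Agent.Helper45.GrSpan

namespace Pool.Agent.Helper45.Gr

open MvPolynomial

set_option linter.unusedSectionVars false

section GrYZ

variable {k : Type*} [Field k] {σ : Type*} [Fintype σ] {ι : Type*}

/-- The substitution attached to the contraction, with the parameter as a variable. -/
noncomputable def GamX (L v : σ → k) : MvPolynomial σ k →ₐ[k] Polynomial (MvPolynomial σ k) :=
  aeval fun i => Polynomial.C (C (v i) * linForm L) +
    Polynomial.X * Polynomial.C (X i - C (v i) * linForm L)

theorem eval_GamX (L v : σ → k) (s : k) (z : MvPolynomial σ k) :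
    (GamX L v z).eval (algebraMap k (MvPolynomial σ k) s) = Gam L v s z := by
  induction z using MvPolynomial.induction_on with
  | C a =>
    rw [algHom_C, algHom_C, Polynomial.algebraMap_apply, Polynomial.eval_C]
  | add a b ha hb => rw [map_add, map_add, Polynomial.eval_add, ha, hb]
  | mul_X a i ha =>
    rw [map_mul, map_mul, Polynomial.eval_mul, ha]
    congr 1
    unfold GamX Gam
    rw [aeval_X, aeval_X, Polynomial.eval_add, Polynomial.eval_C, Polynomial.eval_mul,
      Polynomial.eval_X, Polynomial.eval_C, algebraMap_eq]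

theorem Gam_zero {E : ℕ} (L v : σ → k) {z : MvPolynomial σ k} (hz : z.IsHomogeneous E) :
    Gam L v 0 z = C (eval v z) * linForm L ^ E := by
  have h1 : z = ∑ u ∈ z.support, monomial u (coeff u z) := (support_sum_monomial_coeff z).symm
  have h2 : ∀ u ∈ z.support, Gam L v 0 (monomial u (coeff u z)) =
      C (eval v (monomial u (coeff u z))) * linForm L ^ E := by
    intro u hu
    have hdeg : u.degree = E := by
      by_contra hne
      exact (mem_support_iff.1 hu) (IsHomogeneous.coeff_eq_zero hz hne)
    rw [monomial_eq, map_mul, algHom_C, algebraMap_eq]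
    rw [map_mul, eval_C, map_mul, mul_assoc]
    congr 1
    rw [Finsupp.prod, map_prod, map_prod, map_prod]
    have h3 : ∀ i ∈ u.support, Gam L v 0 (X i ^ u i) = C (eval v (X i ^ u i)) * linForm L ^ u i := by
      intro i _
      rw [map_pow]
      unfold Gam
      rw [aeval_X, map_zero, zero_mul, add_zero, mul_pow, map_pow, eval_X, map_pow]
    rw [Finset.prod_congr rfl h3, Finset.prod_mul_distrib, Finset.prod_pow_eq_pow_sum]
    congr 2
  conv_lhs => rw [h1]
  rw [map_sum, Finset.sum_congr rfl h2, ← Finset.sum_mul, ← map_sum, ← map_sum, ← h1]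

theorem Gam_isHomogeneous {E : ℕ} (L v : σ → k) (s : k) {z : MvPolynomial σ k}
    (hz : z.IsHomogeneous E) : (Gam L v s z).IsHomogeneous E := by
  unfold Gam
  have h1 : ∀ i, (C (v i) * linForm L + C s * (X i - C (v i) * linForm L)).IsHomogeneous 1 := by
    intro i
    have h2 : (C (v i) * linForm L).IsHomogeneous 1 := by
      have := (isHomogeneous_C σ (v i)).mul (linForm_isHomogeneous L)
      rwa [zero_add] at this
    refine h2.add ?_
    have h3 : (C s * (X i - C (v i) * linForm L)).IsHomogeneous (0 + 1) :=
      (isHomogeneous_C σ s).mul ((isHomogeneous_X k i).sub h2)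
    rwa [zero_add] at h3
  have h2 := hz.aeval (n := 1) (fun i => C (v i) * linForm L +
    C s * (X i - C (v i) * linForm L)) h1
  rwa [one_mul] at h2

theorem map_setPart_le {f g : ι → MvPolynomial σ k} {T : Finset ι} {E : ℕ}
    (Γ : MvPolynomial σ k →ₐ[k] MvPolynomial σ k) (hΓ : ∀ z, z.IsHomogeneous E →
      (Γ z).IsHomogeneous E) (hfg : ∀ a ∈ T, Γ (f a) = g a) {y : MvPolynomial σ k}
    (hy : y ∈ setPart f T E) : Γ y ∈ setPart g T E := by
  have h : setPart f T E ≤ (setPart g T E).comap Γ.toLinearMap := by
    conv_lhs => unfold setPart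
    refine iSup₂_le fun a ha => ?_
    rintro _ ⟨c, hc, rfl⟩
    rw [Submodule.mem_comap, LinearMap.mulLeft_apply, AlgHom.toLinearMap_apply, map_mul,
      hfg a ha]
    exact mul_mem_setPart ha (hΓ c hc)
  exact h hy

theorem eval_smul_homog {E : ℕ} {z : MvPolynomial σ k} (hz : z.IsHomogeneous E) (c : k)
    (v : σ → k) : eval (c • v) z = c ^ E * eval v z := by
  rw [eval_eq', eval_eq', Finset.mul_sum]
  refine Finset.sum_congr rfl fun u hu => ?_
  have hdeg : u.degree = E := by
    by_contra hne
    exact (mem_support_iff.1 hu) (IsHomogeneous.coeff_eq_zero hz hne)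
  have h1 : ∏ i, (c • v) i ^ u i = c ^ E * ∏ i, v i ^ u i := by
    have h2 : ∀ i, (c • v) i ^ u i = c ^ u i * v i ^ u i := fun i => by
      rw [Pi.smul_apply, smul_eq_mul, mul_pow]
    rw [Finset.prod_congr rfl fun i _ => h2 i, Finset.prod_mul_distrib,
      Finset.prod_pow_eq_pow_sum, ← hdeg, Finsupp.degree_eq_sum]
  rw [h1]
  ring

theorem exists_vec [Infinite k] {E : ℕ} {L : σ → k} (hL : L ≠ 0) {z : MvPolynomial σ k}
    (hz : z ≠ 0) (hzE : z.IsHomogeneous E) :
    ∃ v : σ → k, ∑ t, v t * L t = 1 ∧ eval v z ≠ 0 := by
  obtain ⟨v, hv⟩ : ∃ v, eval v (z * linForm L) ≠ 0 := by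
    by_contra hcon
    push Not at hcon
    exact mul_ne_zero hz (linForm_ne_zero hL) (MvPolynomial.funext fun v => by
      rw [hcon v, map_zero])
  rw [map_mul] at hv
  have hv1 := left_ne_zero_of_mul hv
  have hv2 := right_ne_zero_of_mul hv
  have h3 : eval v (linForm L) = ∑ t, v t * L t := by
    unfold linForm
    rw [map_sum]
    refine Finset.sum_congr rfl fun t _ => ?_
    rw [map_mul, eval_C, eval_X, mul_comm]
  rw [h3] at hv2
  set c := ∑ t, v t * L t with hc
  refine ⟨c⁻¹ • v, ?_, ?_⟩
  · simp only [Pi.smul_apply, smul_eq_mul, mul_assoc]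
    rw [← Finset.mul_sum, ← hc, inv_mul_cancel₀ hv2]
  · rw [eval_smul_homog hzE]
    exact mul_ne_zero (pow_ne_zero _ (inv_ne_zero hv2)) hv1

/-- If a fixed colon element works for all general families in the positions `T`, then the family
in the positions `T` generates everything. -/
theorem yz [CharZero k] [DecidableEq ι] {j E : ℕ} (G : MvPolynomial (ι × σ) k) (h : ι)
    (S T : Finset ι) (hhT : h ∉ T) (hST : Disjoint S T)
    (hne : ∀ P, eval P G ≠ 0 → (fun s => P (h, s)) ≠ 0)
    (hz : ∀ P : ι × σ → k, eval P G ≠ 0 → ∃ z : MvPolynomial σ k, z ≠ 0 ∧ z.IsHomogeneous E ∧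
      ∀ P' : ι × σ → k, eval P' G ≠ 0 → (∀ a ∈ insert h S, ∀ s, P' (a, s) = P (a, s)) →
        pw (fun a s => P' (a, s)) j h * z ∈ setPart (pw (fun a s => P' (a, s)) j) T E)
    (P : ι × σ → k) (hP : eval P G ≠ 0) :
    homogeneousSubmodule σ k (E + j) ≤ setPart (pw (fun a s => P (a, s)) j) T E := by
  -- first the power of the form at `h`
  have step1 : ∀ P : ι × σ → k, eval P G ≠ 0 → linForm (fun s => P (h, s)) ^ (E + j) ∈
      setPart (pw (fun a s => P (a, s)) j) T E := by
    intro P hP
    obtain ⟨z, hz0, hzE, hz⟩ := hz P hP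
    set L : σ → k := fun s => P (h, s) with hL
    obtain ⟨v, hv1, hv2⟩ := exists_vec (hne P hP) hz0 hzE
    -- the moved family
    let p : ι × σ → Polynomial k := fun x => if x.1 ∈ T then
      Polynomial.C ((∑ t, v t * P (x.1, t)) * L x.2) +
        Polynomial.X * Polynomial.C (P x - (∑ t, v t * P (x.1, t)) * L x.2) else
      Polynomial.C (P x)
    have hp : ∀ (u : k) (a : ι) (s : σ), (p (a, s)).eval u =
        if a ∈ T then gam L v u (fun t => P (a, t)) s else P (a, s) := by
      intro u a s
      simp only [p]
      split_ifs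
      · rw [Polynomial.eval_add, Polynomial.eval_C, Polynomial.eval_mul, Polynomial.eval_X,
          Polynomial.eval_C]
        rfl
      · rw [Polynomial.eval_C]
    have hp1 : (fun x => (p x).eval 1) = P := by
      funext x
      obtain ⟨a, s⟩ := x
      rw [hp]
      split_ifs
      · unfold gam
        rw [one_smul]
        simp
      · rfl
    let Gp : Polynomial k := aeval p G
    have hGp : Gp ≠ 0 := by
      intro h0
      have h1 : Gp.eval 1 = eval P G := by
        simp only [Gp]
        rw [eval_aeval_poly, hp1]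
      rw [h0, Polynomial.eval_zero] at h1
      exact hP h1.symm
    have hinf : {s : k | s ≠ 0 ∧ Gp.eval s⁻¹ ≠ 0}.Infinite := by
      have hfin : {s : k | ¬ (s ≠ 0 ∧ Gp.eval s⁻¹ ≠ 0)}.Finite := by
        have h1 : {s : k | ¬ (s ≠ 0 ∧ Gp.eval s⁻¹ ≠ 0)} ⊆
            {0} ∪ (fun s : k => s⁻¹) ⁻¹' {u | Gp.IsRoot u} := by
          intro s hs
          simp only [Set.mem_ofPred_eq, not_and_or, not_not] at hs
          rcases hs with hs | hs
          · exact Or.inl hs
          · exact Or.inr hs
        refine Set.Finite.subset ((Set.finite_singleton 0).union ?_) h1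
        exact (Polynomial.finite_setOfPred_isRoot hGp).preimage inv_injective.injOn
      have h2 := hfin.infinite_compl
      refine h2.mono fun s hs => ?_
      by_contra hcon
      exact hs hcon
    have hw : (Polynomial.C (linForm L ^ j) * GamX L v z).coeff 0 ∈
        setPart (pw (fun a s => P (a, s)) j) T E := by
      refine coeff_zero_mem _ _ (hinf.mono ?_)
      rintro s ⟨hs0, hs⟩
      rw [Set.mem_ofPred_eq, Polynomial.eval_mul, Polynomial.eval_C, eval_GamX]
      let P' : ι × σ → k := fun x => (p x).eval s⁻¹
      have hP' : eval P' G ≠ 0 := by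
        simp only [Gp] at hs
        rwa [eval_aeval_poly] at hs
      have hagree : ∀ a, a ∉ T → ∀ t, P' (a, t) = P (a, t) := by
        intro a ha t
        simp only [P']
        rw [hp, if_neg ha]
      have h1 := hz P' hP' (by
        intro a ha t
        refine hagree a ?_ t
        rw [Finset.mem_insert] at ha
        rcases ha with rfl | ha
        · exact hhT
        · exact Finset.disjoint_left.1 hST ha)
      have hL' : (fun t => P' (h, t)) = L := by
        funext t
        exact hagree h hhT t
      have hLL : gam L v s L = L := by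
        unfold gam
        rw [hv1, one_smul, sub_self, smul_zero, add_zero]
      have h2 : Gam L v s (pw (fun a t => P' (a, t)) j h * z) =
          linForm L ^ j * Gam L v s z := by
        have h3 : pw (fun a t => P' (a, t)) j h = linForm L ^ j := by
          unfold pw
          simp only
          rw [hL']
        rw [map_mul, h3, map_pow, Gam_linForm, hLL]
      rw [← h2]
      refine map_setPart_le (Gam L v s) (fun z hz => Gam_isHomogeneous L v s hz) ?_ h1
      intro a ha
      have h3 : (fun t => P' (a, t)) = gam L v s⁻¹ (fun t => P (a, t)) := by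
        funext t
        simp only [P']
        rw [hp, if_pos ha]
      unfold pw
      simp only
      rw [map_pow, Gam_linForm, h3, gam_gam hv1 (mul_inv_cancel₀ hs0)]
    have h0 : (Polynomial.C (linForm L ^ j) * GamX L v z).coeff 0 =
        linForm L ^ j * (C (eval v z) * linForm L ^ E) := by
      rw [Polynomial.coeff_zero_eq_eval_zero, Polynomial.eval_mul, Polynomial.eval_C]
      have h1 := eval_GamX L v 0 z
      rw [map_zero] at h1
      rw [h1, Gam_zero L v hzE]
    rw [h0] at hw
    have h4 : linForm L ^ (E + j) = (eval v z)⁻¹ •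
        (linForm L ^ j * (C (eval v z) * linForm L ^ E)) := by
      rw [smul_eq_C_mul, pow_add]
      have h5 : (C (eval v z)⁻¹ * C (eval v z) : MvPolynomial σ k) = 1 := by
        rw [← map_mul, inv_mul_cancel₀ hv2, map_one]
      calc linForm L ^ E * linForm L ^ j =
          1 * (linForm L ^ j * linForm L ^ E) := by ring
        _ = C (eval v z)⁻¹ * (linForm L ^ j * (C (eval v z) * linForm L ^ E)) := by
          rw [← h5]; ring
    rw [h4]
    exact Submodule.smul_mem _ _ hw
  -- now all forms
  let q : ι × σ → MvPolynomial σ k := fun x => if x.1 = h then X x.2 else C (P x)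
  have hq : ∀ (l : σ → k) (a : ι) (s : σ), eval l (q (a, s)) = if a = h then l s else P (a, s) := by
    intro l a s
    simp only [q]
    split_ifs
    · rw [eval_X]
    · rw [eval_C]
  refine homog_le_of_open (aeval q G) ?_ _ ?_
  · intro h0
    have h1 : eval (fun s => P (h, s)) (aeval q G) = eval P G := by
      rw [eval_aeval_mv]
      congr 1
      congr 1
      funext x
      obtain ⟨a, s⟩ := x
      rw [hq]
      split_ifs with h2
      · rw [h2]
      · rfl
    rw [h0, map_zero] at h1
    exact hP h1.symm
  · intro l hl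
    rw [eval_aeval_mv] at hl
    have h1 := step1 _ hl
    have h2 : (fun s => eval l (q (h, s))) = l := by
      funext s
      rw [hq, if_pos rfl]
    rw [h2] at h1
    have h3 : setPart (pw (fun a s => eval l (q (a, s))) j) T E =
        setPart (pw (fun a s => P (a, s)) j) T E := by
      refine setPart_congr fun a ha => ?_
      unfold pw
      simp only
      congr 2
      funext s
      rw [hq, if_neg]
      rintro rfl
      exact hhT ha
    rw [h3] at h1
    exact h1

end GrYZ

end Pool.Agent.Helper45.Gr
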