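import Mathlib
import Pool.Agent.Helper45.GrYZ

namespace Pool.Agent.Helper45.Gr

open MvPolynomial

set_option linter.unusedSectionVars false

section GrExch

/-- If a set function does not change when one element is added to a set of size `t` then it is
constant on the sets of size `t`. -/
theorem exch {ι β : Type*} [DecidableEq ι] (I : Finset ι) (K : Finset ι → β) (t : ℕ)
    (H : ∀ S ⊆ I, S.card = t → ∀ a ∈ I, a ∉ S → K S = K (insert a S)) :
    ∀ S ⊆ I, S.card = t → ∀ T ⊆ I, T.card = t → K S = K T := by
  intro S hS hSt T hT hTt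
  induction hn : (T \ S).card generalizing S with
  | zero =>
    have h1 : T ⊆ S := by
      rw [Finset.card_eq_zero, Finset.sdiff_eq_empty_iff_subset] at hn
      exact hn
    rw [Finset.eq_of_subset_of_card_le h1 (by omega)]
  | succ m ih =>
    obtain ⟨a, ha⟩ : (T \ S).Nonempty := by
      rw [← Finset.card_pos]; omega
    have hST : (S \ T).card = (T \ S).card := by
      have h1 := Finset.card_sdiff_add_card_inter S T
      have h2 := Finset.card_sdiff_add_card_inter T S
      rw [Finset.inter_comm] at h2
      omega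
    obtain ⟨b, hb⟩ : (S \ T).Nonempty := by
      rw [← Finset.card_pos]; omega
    rw [Finset.mem_sdiff] at ha hb
    set S1 := insert a (S.erase b) with hS1
    have hab : a ≠ b := fun h => ha.2 (h ▸ hb.1)
    have haS : a ∉ S.erase b := fun h => ha.2 (Finset.mem_of_mem_erase h)
    have hS1I : S1 ⊆ I := Finset.insert_subset (hT ha.1) ((Finset.erase_subset _ _).trans hS)
    have hcard : S1.card = t := by
      rw [hS1, Finset.card_insert_of_notMem haS, Finset.card_erase_of_mem hb.1]
      have : 0 < S.card := Finset.card_pos.2 ⟨b, hb.1⟩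
      omega
    have hbS1 : b ∉ S1 := by
      rw [hS1, Finset.mem_insert, Finset.mem_erase]
      push Not
      exact ⟨hab.symm, fun h => absurd rfl h⟩
    have hins : insert b S1 = insert a S := by
      rw [hS1, Finset.insert_comm, Finset.insert_erase hb.1]
    have h1 := H S hS hSt a (hT ha.1) ha.2
    have h2 := H S1 hS1I hcard b (hS hb.1) hbS1
    rw [h1, ← hins, ← h2]
    refine ih S1 hS1I hcard ?_
    have h3 : T \ S1 = (T \ S).erase a := by
      ext x
      simp only [hS1, Finset.mem_sdiff, Finset.mem_insert, Finset.mem_erase, not_or]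
      constructor
      · rintro ⟨h4, h5, h6⟩
        refine ⟨h5, h4, fun h7 => h6 ⟨?_, h7⟩⟩
        rintro rfl
        exact hb.2 h4
      · rintro ⟨h4, h5, h6⟩
        exact ⟨h5, h4, fun h7 => h6 h7.2⟩
    rw [h3, Finset.card_erase_of_mem (Finset.mem_sdiff.2 ha)]
    omega

variable {k : Type*} [Field k] {M : Type*} [AddCommGroup M] [Module k M]

/-- Intersections of hyperplanes in general position. -/
theorem finrank_iInf_hyp {ι : Type*} [DecidableEq ι] (V0 : Submodule k M)
    [FiniteDimensional k V0] (K : ι → Submodule k M) (e : ι → M) (T : Finset ι)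
    (hK : ∀ a ∈ T, K a ≤ V0) (hdim : ∀ a ∈ T, Module.finrank k (K a) + 1 = Module.finrank k V0)
    (he0 : ∀ a ∈ T, e a ∈ V0) (he1 : ∀ a ∈ T, e a ∉ K a)
    (he2 : ∀ a ∈ T, ∀ b ∈ T, b ≠ a → e b ∈ K a) (A : Finset ι) (hA : A ⊆ T) :
    Module.finrank k (V0 ⊓ ⨅ a ∈ A, K a : Submodule k M) + A.card = Module.finrank k V0 := by
  induction A using Finset.induction_on with
  | empty =>
    have h1 : (⨅ a ∈ (∅ : Finset ι), K a) = ⊤ := by simp
    rw [h1, inf_top_eq, Finset.card_empty, add_zero]
  | insert a A ha ih =>
    have hAT : A ⊆ T := (Finset.subset_insert _ _).trans hA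
    have haT : a ∈ T := hA (Finset.mem_insert_self _ _)
    have ih := ih hAT
    set W : Submodule k M := V0 ⊓ ⨅ a ∈ A, K a with hW
    have hWV : W ≤ V0 := inf_le_left
    have h1 : (V0 ⊓ ⨅ b ∈ insert a A, K b : Submodule k M) = W ⊓ K a := by
      rw [Finset.iInf_insert, hW, inf_assoc, inf_comm (K a)]
    have heW : e a ∈ W := by
      rw [hW, Submodule.mem_inf]
      refine ⟨he0 a haT, ?_⟩
      simp only [Submodule.mem_iInf]
      intro b hb
      exact he2 b (hAT hb) a haT fun h => ha (h ▸ hb)
    have hfW : FiniteDimensional k W := Submodule.finiteDimensional_of_le hWV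
    have hfK : FiniteDimensional k (K a) := Submodule.finiteDimensional_of_le (hK a haT)
    have h2 := Submodule.finrank_sup_add_finrank_inf_eq W (K a)
    have h3 : W ⊔ K a = V0 := by
      have hle : W ⊔ K a ≤ V0 := sup_le hWV (hK a haT)
      refine Submodule.eq_of_le_of_finrank_le hle ?_
      have hlt : K a < W ⊔ K a := by
        refine lt_of_le_of_ne le_sup_right fun h => ?_
        have : e a ∈ W ⊔ K a := Submodule.mem_sup_left heW
        rw [← h] at this
        exact he1 a haT this
      have hfS : FiniteDimensional k (W ⊔ K a : Submodule k M) :=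
        Submodule.finiteDimensional_of_le hle
      have := Submodule.finrank_lt_finrank_of_lt hlt
      have := hdim a haT
      omega
    rw [h3] at h2
    have h4 := hdim a haT
    rw [h1, Finset.card_insert_of_notMem ha]
    omega

/-- Vectors outside the hyperplane attached to them are independent. -/
theorem card_le_of_hyp {ι : Type*} [DecidableEq ι] (V0 : Submodule k M)
    [FiniteDimensional k V0] (K : ι → Submodule k M) (e : ι → M) (T : Finset ι)
    (he0 : ∀ a ∈ T, e a ∈ V0) (he1 : ∀ a ∈ T, e a ∉ K a)
    (he2 : ∀ a ∈ T, ∀ b ∈ T, b ≠ a → e b ∈ K a) : T.card ≤ Module.finrank k V0 := by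
  have hli : LinearIndependent k (fun a : T => (⟨e a, he0 a a.2⟩ : V0)) := by
    rw [Fintype.linearIndependent_iff]
    intro g hg a
    by_contra hne
    have h1 : ∑ b : T, g b • e b = 0 := by
      have := congrArg Subtype.val hg
      simpa using this
    have h2 : g a • e a = - ∑ b ∈ (Finset.univ.erase a), g b • e b := by
      rw [← Finset.add_sum_erase _ _ (Finset.mem_univ a)] at h1
      exact eq_neg_of_add_eq_zero_left h1
    have h3 : g a • e a ∈ K a := by
      rw [h2]
      refine Submodule.neg_mem _ (Submodule.sum_mem _ fun b hb => Submodule.smul_mem _ _ ?_)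
      refine he2 a a.2 b b.2 fun h => ?_
      exact (Finset.mem_erase.1 hb).1 (Subtype.ext h)
    exact he1 a a.2 ((Submodule.smul_mem_iff _ hne).1 h3)
  have := hli.fintype_card_le_finrank
  rwa [Fintype.card_coe] at this

end GrExch

end Pool.Agent.Helper45.Gr
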