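import Mathlib
import Pool.Agent.Helper45.GrGrow

namespace Pool.Agent.Helper45.Gr

open MvPolynomial

set_option linter.unusedSectionVars false

section GrN

variable {k : Type*} [Field k] [CharZero k] {σ : Type*} [Fintype σ]

theorem exists_eval {τ : Type*} {G : MvPolynomial τ k} (hG : G ≠ 0) : ∃ P, eval P G ≠ 0 := by
  by_contra hcon
  push Not at hcon
  exact hG (MvPolynomial.funext fun P => by rw [hcon P, map_zero])

/-- General families. -/
def IsGen {k : Type*} [Field k] {σ : Type*} [Fintype σ] {ι : Type*} (j E : ℕ)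
    (P : ι × σ → k) : Prop :=
  (∀ a, (fun s => P (a, s)) ≠ 0) ∧ ∀ S : Finset ι,
    Module.finrank k (setPart (pw (fun a s => P (a, s)) j) S E) = gen k σ j E S.card

theorem exists_gen [Nonempty σ] (ι : Type*) [Fintype ι] (j E : ℕ) :
    ∃ G : MvPolynomial (ι × σ) k, G ≠ 0 ∧ ∀ P : ι × σ → k, eval P G ≠ 0 → IsGen j E P := by
  obtain ⟨G, hG1, hG2⟩ := exists_generic_tuple (k := k) (σ := σ) (ι := ι) j E
  obtain ⟨s0⟩ := ‹Nonempty σ›
  refine ⟨G * ∏ a : ι, X (a, s0), mul_ne_zero hG1
    (Finset.prod_ne_zero_iff.2 fun a _ => X_ne_zero _), fun P hP => ?_⟩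
  rw [map_mul, map_prod] at hP
  have h1 := left_ne_zero_of_mul hP
  have h2 := right_ne_zero_of_mul hP
  refine ⟨fun a h => ?_, hG2 P h1⟩
  rw [Finset.prod_ne_zero_iff] at h2
  have h3 := h2 a (Finset.mem_univ a)
  rw [eval_X] at h3
  exact h3 (congrFun h s0)

theorem gen_mono {j E s t : ℕ} (h : s ≤ t) : gen k σ j E s ≤ gen k σ j E t := by
  obtain ⟨G, hG1, hG2⟩ := exists_generic_tuple (k := k) (σ := σ) (ι := Fin t) j E
  obtain ⟨P, hP⟩ := exists_eval hG1
  obtain ⟨S, hS1, hS2⟩ := Finset.exists_subset_card_eq (s := (Finset.univ : Finset (Fin t)))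
    (n := s) (by rw [Finset.card_univ, Fintype.card_fin]; exact h)
  have h1 := hG2 P hP S
  have h2 := hG2 P hP Finset.univ
  rw [hS2] at h1
  rw [Finset.card_univ, Fintype.card_fin] at h2
  rw [← h1, ← h2]
  have := finite_setPart (pw_isHomogeneous (fun (a : Fin t) s => P (a, s)) j) Finset.univ E
  exact Submodule.finrank_mono (setPart_mono hS1 E)

theorem pw_ne_zero {ι : Type*} {P : ι × σ → k} {j : ℕ} {a : ι} (h : (fun s => P (a, s)) ≠ 0) :
    pw (fun a s => P (a, s)) j a ≠ 0 := pow_ne_zero _ (linForm_ne_zero h)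

/-- Generic dimension of the colon space. -/
noncomputable def dd (k : Type*) [Field k] (σ : Type*) [Fintype σ] (j E t : ℕ) : ℕ :=
  Module.finrank k (homogeneousSubmodule σ k E) + gen k σ j E t - gen k σ j E (t + 1)

theorem finrank_col_gen {ι : Type*} [DecidableEq ι] {j E : ℕ} {P : ι × σ → k}
    (hP : IsGen j E P) {o : ι} {S : Finset ι} (ho : o ∉ S) :
    Module.finrank k (col (pw (fun a s => P (a, s)) j) S (pw (fun a s => P (a, s)) j o) E) +
      gen k σ j E (S.card + 1) =
      Module.finrank k (homogeneousSubmodule σ k E) + gen k σ j E S.card := by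
  have h1 := finrank_col (pw_isHomogeneous (fun a s => P (a, s)) j) (pw_ne_zero (j := j) (hP.1 o))
    S E
  rw [hP.2, hP.2, Finset.card_insert_of_notMem ho] at h1
  exact h1

theorem finrank_col_eq {ι : Type*} [DecidableEq ι] {j E : ℕ} {P : ι × σ → k}
    (hP : IsGen j E P) {o : ι} {S : Finset ι} (ho : o ∉ S) :
    Module.finrank k (col (pw (fun a s => P (a, s)) j) S (pw (fun a s => P (a, s)) j o) E) =
      dd k σ j E S.card := by
  have := finrank_col_gen hP ho
  unfold dd
  omega

theorem dd_add [Nonempty σ] (j E t : ℕ) : dd k σ j E t + gen k σ j E (t + 1) =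
    Module.finrank k (homogeneousSubmodule σ k E) + gen k σ j E t := by
  obtain ⟨G, hG1, hG2⟩ := exists_gen (k := k) (σ := σ) (Fin (t + 1)) j E
  obtain ⟨P, hP⟩ := exists_eval hG1
  have h := finrank_col_gen (hG2 P hP) (o := 0) (S := Finset.univ.erase 0)
    (Finset.notMem_erase _ _)
  rw [Finset.card_erase_of_mem (Finset.mem_univ _), Finset.card_univ, Fintype.card_fin,
    Nat.add_sub_cancel] at h
  unfold dd
  omega

theorem exists_sub {m : ℕ} (t : ℕ) (h : t ≤ m) :
    ∃ S ⊆ (Finset.univ : Finset (Fin (m + 1))).erase 0, S.card = t := by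
  apply Finset.exists_subset_card_eq
  rw [Finset.card_erase_of_mem (Finset.mem_univ _), Finset.card_univ, Fintype.card_fin,
    Nat.add_sub_cancel]
  exact h

theorem dd_mono_succ [Nonempty σ] (j E t : ℕ) : dd k σ j E t ≤ dd k σ j E (t + 1) := by
  obtain ⟨G, hG1, hG2⟩ := exists_gen (k := k) (σ := σ) (Fin (t + 1 + 1)) j E
  obtain ⟨P, hP⟩ := exists_eval hG1
  obtain ⟨S, hS1, hS2⟩ := exists_sub (m := t + 1) t (by omega)
  have h0 : (0 : Fin (t + 1 + 1)) ∉ S := fun h => Finset.notMem_erase _ _ (hS1 h)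
  have h1 := finrank_col_eq (hG2 P hP) h0
  have h2 := finrank_col_eq (hG2 P hP) (o := 0) (S := Finset.univ.erase 0)
    (Finset.notMem_erase _ _)
  rw [Finset.card_erase_of_mem (Finset.mem_univ _), Finset.card_univ, Fintype.card_fin,
    Nat.add_sub_cancel] at h2
  rw [hS2] at h1
  rw [← h1, ← h2]
  have := finite_col (pw (fun a s => P (a, s)) j) (Finset.univ.erase 0)
    (pw (fun a s => P (a, s)) j 0) E
  exact Submodule.finrank_mono (col_mono hS1 _ _)

theorem dd_mono [Nonempty σ] {j E s t : ℕ} (h : s ≤ t) : dd k σ j E s ≤ dd k σ j E t := by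
  induction t, h using Nat.le_induction with
  | base => exact le_rfl
  | succ t _ ih => exact ih.trans (dd_mono_succ j E t)

theorem exists_ne_zero_of_finrank_pos {M : Type*} [AddCommGroup M] [Module k M]
    (V : Submodule k M) (h : 0 < Module.finrank k V) : ∃ z ∈ V, z ≠ 0 := by
  have hne : V ≠ ⊥ := by
    rintro rfl
    rw [finrank_bot] at h
    exact lt_irrefl _ h
  exact Submodule.exists_mem_ne_zero_of_ne_bot hne

/-- Two disjoint sets of the same size. -/
theorem exists_pair (t : ℕ) : ∃ S T : Finset (Fin (2 * t + 1)),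
    S ⊆ Finset.univ.erase 0 ∧ T ⊆ Finset.univ.erase 0 ∧ S.card = t ∧ T.card = t ∧
      Disjoint S T := by
  obtain ⟨S, hS1, hS2⟩ := exists_sub (m := 2 * t) t (by omega)
  refine ⟨S, Finset.univ.erase 0 \ S, hS1, Finset.sdiff_subset, hS2, ?_, Finset.disjoint_sdiff⟩
  rw [Finset.card_sdiff_of_subset hS1, Finset.card_erase_of_mem (Finset.mem_univ _),
    Finset.card_univ, Fintype.card_fin, hS2]
  omega

/-- The colon space cannot be constant unless everything is generated. -/
theorem growN [Nonempty σ] {j E t : ℕ} (h1 : 1 ≤ dd k σ j E t)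
    (h2 : dd k σ j E (t + 1) = dd k σ j E t) :
    gen k σ j E t = Module.finrank k (homogeneousSubmodule σ k (E + j)) := by
  refine le_antisymm (gen_le_homog j E t) ?_
  obtain ⟨G, hG1, hG2⟩ := exists_gen (k := k) (σ := σ) (Fin (2 * t + 1)) j E
  obtain ⟨P, hP⟩ := exists_eval hG1
  obtain ⟨S, T, hS, hT, hSt, hTt, hST⟩ := exists_pair t
  have hhS : (0 : Fin (2 * t + 1)) ∉ S := fun h => Finset.notMem_erase _ _ (hS h)
  have hhT : (0 : Fin (2 * t + 1)) ∉ T := fun h => Finset.notMem_erase _ _ (hT h)
  have key := yz (E := E) (j := j) G 0 S T hhT hST (fun P hP => (hG2 P hP).1 0) ?_ P hP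
  · have := finite_setPart (pw_isHomogeneous (fun a s => P (a, s)) j) T E
    have h3 := Submodule.finrank_mono key
    rwa [(hG2 P hP).2, hTt] at h3
  · intro P hP
    have h3 := finrank_col_eq (hG2 P hP) hhS
    rw [hSt] at h3
    obtain ⟨z, hz1, hz2⟩ := exists_ne_zero_of_finrank_pos
      (col (pw (fun a s => P (a, s)) j) S (pw (fun a s => P (a, s)) j 0) E) (by omega)
    refine ⟨z, hz2, (mem_col.1 hz1).1, fun P' hP' hagree => ?_⟩
    have hpw : ∀ a ∈ insert 0 S, pw (fun a s => P' (a, s)) j a = pw (fun a s => P (a, s)) j a := by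
      intro a ha
      unfold pw
      simp only
      congr 2
      funext s
      exact hagree a ha s
    have h4 : col (pw (fun a s => P' (a, s)) j) S (pw (fun a s => P' (a, s)) j 0) E =
        col (pw (fun a s => P (a, s)) j) S (pw (fun a s => P (a, s)) j 0) E := by
      rw [hpw 0 (Finset.mem_insert_self _ _)]
      exact col_congr (fun a ha => hpw a (Finset.mem_insert_of_mem ha)) _
    rw [← h4] at hz1
    have h5 := exch (Finset.univ.erase (0 : Fin (2 * t + 1)))
      (fun S => col (pw (fun a s => P' (a, s)) j) S (pw (fun a s => P' (a, s)) j 0) E) t ?_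
      S hS hSt T hT hTt
    · rw [h5] at hz1
      exact (mem_col.1 hz1).2
    · intro S' hS' hS't a ha haS'
      have hS'0 : (0 : Fin (2 * t + 1)) ∉ S' := fun h => Finset.notMem_erase _ _ (hS' h)
      have hins0 : (0 : Fin (2 * t + 1)) ∉ insert a S' := by
        rw [Finset.mem_insert]
        push Not
        exact ⟨fun h => (Finset.mem_erase.1 ha).1 h.symm, hS'0⟩
      have := finite_col (pw (fun a s => P' (a, s)) j) (insert a S')
        (pw (fun a s => P' (a, s)) j 0) E
      refine Submodule.eq_of_le_of_finrank_eq (col_mono (Finset.subset_insert _ _) _ _) ?_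
      rw [finrank_col_eq (hG2 P' hP') hS'0, finrank_col_eq (hG2 P' hP') hins0,
        Finset.card_insert_of_notMem haS', hS't, h2]

/-- Products of two general powers are not in the general ideal with few generators. -/
theorem exists_gen2 [Nonempty σ] (ι : Type*) [Fintype ι] [DecidableEq ι] {j N : ℕ}
    (hN : gen k σ j j N < Module.finrank k (homogeneousSubmodule σ k (j + j))) :
    ∃ G : MvPolynomial (ι × σ) k, G ≠ 0 ∧ ∀ P : ι × σ → k, eval P G ≠ 0 → IsGen j j P ∧
      ∀ S : Finset ι, S.card ≤ N → ∀ a b : ι, a ∉ S → b ∉ S →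
        pw (fun a s => P (a, s)) j a * pw (fun a s => P (a, s)) j b ∉
          setPart (pw (fun a s => P (a, s)) j) S j := by
  obtain ⟨G0, hG01, hG02⟩ := exists_gen (k := k) (σ := σ) ι j j
  have key : ∀ x : Finset ι × ι × ι, ∃ G : MvPolynomial (ι × σ) k, G ≠ 0 ∧
      ∀ P : ι × σ → k, eval P G ≠ 0 → IsGen j j P → x.1.card ≤ N → x.2.1 ∉ x.1 → x.2.2 ∉ x.1 →
        pw (fun a s => P (a, s)) j x.2.1 * pw (fun a s => P (a, s)) j x.2.2 ∉
          setPart (pw (fun a s => P (a, s)) j) x.1 j := by
    rintro ⟨S, a, b⟩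
    by_cases hcond : S.card ≤ N ∧ a ∉ S ∧ b ∉ S
    · obtain ⟨hSN, haS, hbS⟩ := hcond
      obtain ⟨P0, hP0⟩ := exists_max (k := k) (σ := σ) j j S
      obtain ⟨l, hl⟩ : ∃ l : σ → k, linForm l ^ (j + j) ∉
          setPart (pw (fun a s => P0 (a, s)) j) S j := by
        by_contra hcon
        push Not at hcon
        have h1 := homog_le_of_open (D := j + j) (1 : MvPolynomial σ k) one_ne_zero
          (setPart (pw (fun a s => P0 (a, s)) j) S j) (fun l _ => hcon l)
        have := finite_setPart (pw_isHomogeneous (fun a s => P0 (a, s)) j) S j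
        have h2 := Submodule.finrank_mono h1
        rw [hP0] at h2
        have h3 := gen_mono (k := k) (σ := σ) (j := j) (E := j) hSN
        omega
      let P1 : ι × σ → k := fun x => if x.1 = a ∨ x.1 = b then l x.2 else P0 x
      have hP1 : setPart (pw (fun a s => P1 (a, s)) j) S j =
          setPart (pw (fun a s => P0 (a, s)) j) S j := by
        refine setPart_congr fun c hc => ?_
        unfold pw
        simp only [P1]
        congr 2
        funext s
        rw [if_neg]
        rintro (rfl | rfl)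
        · exact haS hc
        · exact hbS hc
      have ha1 : pw (fun a s => P1 (a, s)) j a = linForm l ^ j := by
        unfold pw
        simp [P1]
      have hb1 : pw (fun a s => P1 (a, s)) j b = linForm l ^ j := by
        unfold pw
        simp [P1]
      obtain ⟨G, hG1, hG2⟩ := semicont_setPart j j S {(a, b)} P1
      refine ⟨G, ?_, fun P hP hgen _ _ _ hmem => ?_⟩
      · rintro rfl
        exact hG1 (map_zero _)
      · have h1 := hG2 P hP
        have hspan : ∀ P : ι × σ → k, (Set.range fun y : ({(a, b)} : Finset (ι × ι)) =>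
            pw (fun a s => P (a, s)) j y.1.1 * pw (fun a s => P (a, s)) j y.1.2) =
            {pw (fun a s => P (a, s)) j a * pw (fun a s => P (a, s)) j b} := by
          intro P
          ext z
          simp only [Set.mem_range, Subtype.exists, Finset.mem_singleton, Set.mem_singleton_iff]
          constructor
          · rintro ⟨y, rfl, rfl⟩
            rfl
          · rintro rfl
            exact ⟨(a, b), rfl, rfl⟩
        rw [hspan, hspan, hP1, ha1, hb1, ← pow_add] at h1
        have h2 : setPart (pw (fun a s => P (a, s)) j) S j ⊔ Submodule.span k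
            {pw (fun a s => P (a, s)) j a * pw (fun a s => P (a, s)) j b} =
            setPart (pw (fun a s => P (a, s)) j) S j := by
          rw [sup_eq_left, Submodule.span_le, Set.singleton_subset_iff]
          exact hmem
        rw [h2, hgen.2] at h1
        have h3 : setPart (pw (fun a s => P0 (a, s)) j) S j <
            setPart (pw (fun a s => P0 (a, s)) j) S j ⊔ Submodule.span k
              {linForm l ^ (j + j)} := by
          refine lt_of_le_of_ne le_sup_left fun h => hl ?_
          rw [h]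
          exact Submodule.mem_sup_right (Submodule.mem_span_singleton_self _)
        have hfin := finite_setPart (pw_isHomogeneous (fun a s => P0 (a, s)) j) S j
        have h4 := Submodule.finrank_lt_finrank_of_lt h3
        rw [hP0] at h4
        omega
    · refine ⟨1, one_ne_zero, fun P _ _ h1 h2 h3 => absurd ⟨h1, h2, h3⟩ hcond⟩
  choose G hG1 hG2 using key
  refine ⟨G0 * ∏ x : Finset ι × ι × ι, G x, mul_ne_zero hG01
    (Finset.prod_ne_zero_iff.2 fun x _ => hG1 x), fun P hP => ?_⟩
  rw [map_mul, map_prod] at hP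
  have h1 := hG02 P (left_ne_zero_of_mul hP)
  refine ⟨h1, fun S hS a b ha hb => ?_⟩
  exact hG2 (S, a, b) P (Finset.prod_ne_zero_iff.1 (right_ne_zero_of_mul hP) _
    (Finset.mem_univ _)) h1 hS ha hb

theorem pw_mem_col {ι : Type*} {j : ℕ} {P : ι → σ → k} {S : Finset ι} {a o : ι} (ha : a ∈ S) :
    pw P j a ∈ col (pw P j) S (pw P j o) j := by
  rw [mem_col]
  refine ⟨pw_isHomogeneous P j a, ?_⟩
  rw [mul_comm]
  exact mul_mem_setPart ha (pw_isHomogeneous P j o)

/-- Lower bound for the colon space. -/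
theorem le_dd [Nonempty σ] {j N : ℕ}
    (hN : gen k σ j j N < Module.finrank k (homogeneousSubmodule σ k (j + j))) :
    N + 1 ≤ dd k σ j j (N + 1) := by
  obtain ⟨G, hG1, hG2⟩ := exists_gen2 (Fin (N + 1 + 1)) hN
  obtain ⟨P, hP⟩ := exists_eval hG1
  obtain ⟨hgen, hprod⟩ := hG2 P hP
  set T : Finset (Fin (N + 1 + 1)) := Finset.univ.erase 0 with hT
  have hT0 : (0 : Fin (N + 1 + 1)) ∉ T := Finset.notMem_erase _ _
  have hTc : T.card = N + 1 := by
    rw [hT, Finset.card_erase_of_mem (Finset.mem_univ _), Finset.card_univ, Fintype.card_fin,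
      Nat.add_sub_cancel]
  have h1 := finrank_col_eq hgen hT0
  rw [hTc] at h1
  rw [← h1]
  refine hTc.symm.le.trans ?_
  have hfin := finite_col (pw (fun a s => P (a, s)) j) T (pw (fun a s => P (a, s)) j 0) j
  refine card_le_of_hyp (col (pw (fun a s => P (a, s)) j) T (pw (fun a s => P (a, s)) j 0) j)
    (fun a => col (pw (fun a s => P (a, s)) j) (T.erase a) (pw (fun a s => P (a, s)) j 0) j)
    (pw (fun a s => P (a, s)) j) T ?_ ?_ ?_
  · exact fun a ha => pw_mem_col ha
  · intro a ha hmem
    refine hprod (T.erase a) ?_ 0 a ?_ (Finset.notMem_erase _ _) (mem_col.1 hmem).2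
    · rw [Finset.card_erase_of_mem ha]; omega
    · exact fun h => hT0 (Finset.mem_of_mem_erase h)
  · intro a ha b hb hne
    exact pw_mem_col (Finset.mem_erase.2 ⟨hne, hb⟩)

/-- The common part of the colon spaces. -/
noncomputable def ZZ {ι : Type*} [DecidableEq ι] (f : ι → MvPolynomial σ k)
    (h : MvPolynomial σ k) (j : ℕ) (S : Finset ι) : Submodule k (MvPolynomial σ k) :=
  ⨅ a ∈ S, col f (S.erase a) h j

theorem ZZ_le {ι : Type*} [DecidableEq ι] {f : ι → MvPolynomial σ k} {h : MvPolynomial σ k}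
    {j : ℕ} {S : Finset ι} (hS : S.Nonempty) : ZZ f h j S ≤ col f S h j := by
  obtain ⟨a, ha⟩ := hS
  exact (iInf₂_le a ha).trans (col_mono (Finset.erase_subset _ _) _ _)

theorem ZZ_congr {ι : Type*} [DecidableEq ι] {f g : ι → MvPolynomial σ k}
    {h : MvPolynomial σ k} {j : ℕ} {S : Finset ι} (hfg : ∀ a ∈ S, f a = g a) :
    ZZ f h j S = ZZ g h j S := by
  unfold ZZ
  refine iInf_congr fun a => iInf_congr fun ha => ?_
  exact col_congr (fun b hb => hfg b (Finset.mem_of_mem_erase hb)) _

theorem ZZ_mono {ι : Type*} [DecidableEq ι] {f : ι → MvPolynomial σ k} {h : MvPolynomial σ k}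
    {j : ℕ} {S : Finset ι} (hS : S.Nonempty) {b : ι} (hb : b ∉ S) :
    ZZ f h j S ≤ ZZ f h j (insert b S) := by
  conv_rhs => unfold ZZ
  refine le_iInf₂ fun a ha => ?_
  rw [Finset.mem_insert] at ha
  rcases ha with rfl | ha
  · rw [Finset.erase_insert hb]
    exact ZZ_le hS
  · refine (iInf₂_le a ha).trans (col_mono ?_ _ _)
    exact Finset.erase_subset_erase a (Finset.subset_insert _ _)

theorem finrank_ZZ {ι : Type*} [DecidableEq ι] {j N : ℕ} {P : ι × σ → k}
    (hgen : IsGen j j P) (hprod : ∀ S : Finset ι, S.card ≤ N → ∀ a b : ι, a ∉ S → b ∉ S →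
        pw (fun a s => P (a, s)) j a * pw (fun a s => P (a, s)) j b ∉
          setPart (pw (fun a s => P (a, s)) j) S j) {o : ι} {S : Finset ι} (ho : o ∉ S)
    {t : ℕ} (hS : S.card = t + 1) (ht : t ≤ N) (hdd : dd k σ j j (t + 1) = dd k σ j j t + 1) :
    Module.finrank k (ZZ (pw (fun a s => P (a, s)) j) (pw (fun a s => P (a, s)) j o) j S) +
      (t + 1) = dd k σ j j (t + 1) := by
  have hfin := finite_col (pw (fun a s => P (a, s)) j) S (pw (fun a s => P (a, s)) j o) j
  have h1 := finrank_col_eq hgen ho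
  rw [hS] at h1
  have hcard : ∀ a ∈ S, (S.erase a).card = t := by
    intro a ha
    rw [Finset.card_erase_of_mem ha]; omega
  have h2 := finrank_iInf_hyp
    (col (pw (fun a s => P (a, s)) j) S (pw (fun a s => P (a, s)) j o) j)
    (fun a => col (pw (fun a s => P (a, s)) j) (S.erase a) (pw (fun a s => P (a, s)) j o) j)
    (pw (fun a s => P (a, s)) j) S
    (fun a _ => col_mono (Finset.erase_subset _ _) _ _)
    (by
      intro a ha
      have h3 := finrank_col_eq hgen (o := o) (S := S.erase a)
        (fun h => ho (Finset.mem_of_mem_erase h))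
      rw [hcard a ha] at h3
      rw [h3, h1, hdd])
    (fun a ha => pw_mem_col ha)
    (by
      intro a ha hmem
      refine hprod (S.erase a) ?_ o a ?_ (Finset.notMem_erase _ _) (mem_col.1 hmem).2
      · rw [hcard a ha]; exact ht
      · exact fun h => ho (Finset.mem_of_mem_erase h))
    (fun a _ b hb hne => pw_mem_col (Finset.mem_erase.2 ⟨hne, hb⟩)) S le_rfl
  have hne : S.Nonempty := by
    rw [← Finset.card_pos]; omega
  have h3 : (col (pw (fun a s => P (a, s)) j) S (pw (fun a s => P (a, s)) j o) j ⊓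
      ⨅ a ∈ S, col (pw (fun a s => P (a, s)) j) (S.erase a) (pw (fun a s => P (a, s)) j o) j :
        Submodule k (MvPolynomial σ k)) =
      ZZ (pw (fun a s => P (a, s)) j) (pw (fun a s => P (a, s)) j o) j S :=
    inf_eq_right.2 (ZZ_le hne)
  rw [h3, hS, h1] at h2
  exact h2

/-- The colon space cannot grow at the expected speed unless it is the expected one. -/
theorem growN2 [Nonempty σ] {j t : ℕ} (h1 : t < dd k σ j j t)
    (h2 : dd k σ j j (t + 1) = dd k σ j j t + 1) (h3 : dd k σ j j (t + 2) = dd k σ j j t + 2) :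
    gen k σ j j (t + 1) = Module.finrank k (homogeneousSubmodule σ k (j + j)) := by
  refine le_antisymm (gen_le_homog j j (t + 1)) ?_
  by_contra hlt
  push Not at hlt
  obtain ⟨G, hG1, hG2⟩ := exists_gen2 (Fin (2 * (t + 1) + 1)) hlt
  obtain ⟨P, hP⟩ := exists_eval hG1
  obtain ⟨S, T, hS, hT, hSt, hTt, hST⟩ := exists_pair (t + 1)
  have hhS : (0 : Fin (2 * (t + 1) + 1)) ∉ S := fun h => Finset.notMem_erase _ _ (hS h)
  have hhT : (0 : Fin (2 * (t + 1) + 1)) ∉ T := fun h => Finset.notMem_erase _ _ (hT h)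
  have key := yz (E := j) (j := j) G 0 S T hhT hST (fun P hP => (hG2 P hP).1.1 0) ?_ P hP
  · have := finite_setPart (pw_isHomogeneous (fun a s => P (a, s)) j) T j
    have h4 := Submodule.finrank_mono key
    rw [(hG2 P hP).1.2, hTt] at h4
    omega
  · intro P hP
    have h4 := finrank_ZZ (hG2 P hP).1 (hG2 P hP).2 hhS hSt (by omega) h2
    obtain ⟨z, hz1, hz2⟩ := exists_ne_zero_of_finrank_pos
      (ZZ (pw (fun a s => P (a, s)) j) (pw (fun a s => P (a, s)) j 0) j S) (by omega)
    have hSne : S.Nonempty := by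
      rw [← Finset.card_pos]; omega
    have hTne : T.Nonempty := by
      rw [← Finset.card_pos]; omega
    refine ⟨z, hz2, (mem_col.1 (ZZ_le hSne hz1)).1, fun P' hP' hagree => ?_⟩
    have hpw : ∀ a ∈ insert 0 S, pw (fun a s => P' (a, s)) j a = pw (fun a s => P (a, s)) j a := by
      intro a ha
      unfold pw
      simp only
      congr 2
      funext s
      exact hagree a ha s
    have h5 : ZZ (pw (fun a s => P' (a, s)) j) (pw (fun a s => P' (a, s)) j 0) j S =
        ZZ (pw (fun a s => P (a, s)) j) (pw (fun a s => P (a, s)) j 0) j S := by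
      rw [hpw 0 (Finset.mem_insert_self _ _)]
      exact ZZ_congr fun a ha => hpw a (Finset.mem_insert_of_mem ha)
    rw [← h5] at hz1
    have h6 := exch (Finset.univ.erase (0 : Fin (2 * (t + 1) + 1)))
      (fun S => ZZ (pw (fun a s => P' (a, s)) j) (pw (fun a s => P' (a, s)) j 0) j S)
      (t + 1) ?_ S hS hSt T hT hTt
    · rw [h6] at hz1
      exact (mem_col.1 (ZZ_le hTne hz1)).2
    · intro S' hS' hS't a ha haS'
      have hS'0 : (0 : Fin (2 * (t + 1) + 1)) ∉ S' := fun h => Finset.notMem_erase _ _ (hS' h)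
      have hins0 : (0 : Fin (2 * (t + 1) + 1)) ∉ insert a S' := by
        rw [Finset.mem_insert]
        push Not
        exact ⟨fun h => (Finset.mem_erase.1 ha).1 h.symm, hS'0⟩
      have hS'ne : S'.Nonempty := by
        rw [← Finset.card_pos]; omega
      have hcard : (insert a S').card = (t + 1) + 1 := by
        rw [Finset.card_insert_of_notMem haS', hS't]
      have h7 := finrank_ZZ (hG2 P' hP').1 (hG2 P' hP').2 hS'0 hS't (by omega) h2
      have h8 := finrank_ZZ (hG2 P' hP').1 (hG2 P' hP').2 hins0 hcard (le_refl (t + 1))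
        (by rw [h2]; exact h3)
      have hfin := finite_col (pw (fun a s => P' (a, s)) j) (insert a S')
        (pw (fun a s => P' (a, s)) j 0) j
      have hfin2 : Module.Finite k (ZZ (pw (fun a s => P' (a, s)) j)
          (pw (fun a s => P' (a, s)) j 0) j (insert a S')) :=
        Submodule.finiteDimensional_of_le (ZZ_le (Finset.insert_nonempty _ _))
      refine Submodule.eq_of_le_of_finrank_eq (ZZ_mono hS'ne haS') ?_
      rw [show t + 1 + 1 = t + 2 from rfl, h3] at h8
      rw [h2] at h7
      omega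

end GrN

end Pool.Agent.Helper45.Gr
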