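import Mathlib
import Pool.Agent.Helper45.GrN

namespace Pool.Agent.Helper45.Gr

open MvPolynomial

set_option linter.unusedSectionVars false

section GrCount

variable {k : Type*} [Field k] [CharZero k] {σ : Type*} [Fintype σ]

theorem gen_zero (j E : ℕ) : gen k σ j E 0 = 0 := by
  obtain ⟨P, hP⟩ := gen_attained (k := k) (σ := σ) j E 0
  rw [← hP]
  have : setPart (pw P j) Finset.univ E = ⊥ := by
    unfold setPart
    refine le_antisymm (iSup₂_le fun i _ => i.elim0) bot_le
  rw [this, finrank_bot]

/-- Number of Koszul relations: zero or one for each pair. -/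
def nu (j E : ℕ) : ℕ := if E = j then 1 else 0

/-- Excess of the expected dimension. -/
noncomputable def exc (k : Type*) [Field k] (σ : Type*) [Fintype σ] (j E t : ℕ) : ℤ :=
  t * Module.finrank k (homogeneousSubmodule σ k E) - nu j E * (t.choose 2 : ℕ) - gen k σ j E t

/-- Excess of the colon space. -/
noncomputable def kap (k : Type*) [Field k] (σ : Type*) [Fintype σ] (j E t : ℕ) : ℤ :=
  dd k σ j E t - nu j E * t

theorem exc_zero (j E : ℕ) : exc k σ j E 0 = 0 := by
  unfold exc
  rw [gen_zero]
  simp

theorem exc_succ [Nonempty σ] (j E t : ℕ) :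
    exc k σ j E (t + 1) = exc k σ j E t + kap k σ j E t := by
  have h1 := dd_add (k := k) (σ := σ) j E t
  have h2 : (t + 1).choose 2 = t + t.choose 2 := by
    rw [Nat.choose_succ_succ' t 1, Nat.choose_one_right]
  unfold exc kap
  rw [h2]
  push_cast
  have h3 : (gen k σ j E (t + 1) : ℤ) = Module.finrank k (homogeneousSubmodule σ k E) +
      gen k σ j E t - dd k σ j E t := by
    have : (dd k σ j E t : ℤ) + gen k σ j E (t + 1) =
      Module.finrank k (homogeneousSubmodule σ k E) + gen k σ j E t := by exact_mod_cast h1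
    linarith
  rw [h3]
  ring

theorem kap_nonneg [Nonempty σ] {j E s : ℕ}
    (h : ∀ u < s, gen k σ j E u < Module.finrank k (homogeneousSubmodule σ k (E + j))) :
    0 ≤ kap k σ j E s := by
  unfold kap nu
  split_ifs with hE
  · subst hE
    rcases Nat.eq_zero_or_pos s with rfl | hs
    · simp
    · obtain ⟨N, rfl⟩ : ∃ N, s = N + 1 := ⟨s - 1, by omega⟩
      have := le_dd (h N (by omega))
      push_cast
      have h2 : ((N : ℤ) + 1) ≤ dd k σ E E (N + 1) := by exact_mod_cast this
      linarith
  · push_cast
    have : (0 : ℤ) ≤ dd k σ j E s := by positivity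
    linarith

theorem kap_succ [Nonempty σ] {j E s : ℕ}
    (h : gen k σ j E s < Module.finrank k (homogeneousSubmodule σ k (E + j)))
    (h1 : 1 ≤ kap k σ j E s) : kap k σ j E s + (1 - nu j E) ≤ kap k σ j E (s + 1) := by
  have hdd : 1 ≤ dd k σ j E s := by
    have h2 : (0 : ℤ) ≤ (nu j E : ℤ) * s := by positivity
    unfold kap at h1
    have : (1 : ℤ) ≤ dd k σ j E s := by linarith
    exact_mod_cast this
  have hmono := dd_mono_succ (k := k) (σ := σ) j E s
  have hne : dd k σ j E (s + 1) ≠ dd k σ j E s := fun h2 => by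
    have := growN hdd h2
    omega
  have hlt : dd k σ j E s + 1 ≤ dd k σ j E (s + 1) := by omega
  have hlt' : (dd k σ j E s : ℤ) + 1 ≤ dd k σ j E (s + 1) := by exact_mod_cast hlt
  unfold kap
  push_cast
  have e : (nu j E : ℤ) * ((s : ℤ) + 1) = nu j E * s + nu j E := by ring
  rw [e]
  linarith

theorem nu_le_one (j E : ℕ) : nu j E ≤ 1 := by
  unfold nu
  split_ifs <;> omega

theorem kap_succ' [Nonempty σ] {j E s : ℕ}
    (h : gen k σ j E s < Module.finrank k (homogeneousSubmodule σ k (E + j)))
    (h1 : 1 ≤ kap k σ j E s) : kap k σ j E s ≤ kap k σ j E (s + 1) := by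
  have h2 := kap_succ h h1
  have h3 : (nu j E : ℤ) ≤ 1 := by exact_mod_cast nu_le_one j E
  linarith

theorem kap_add_two [Nonempty σ] {j E s : ℕ}
    (h : gen k σ j E (s + 1) < Module.finrank k (homogeneousSubmodule σ k (E + j)))
    (h1 : 1 ≤ kap k σ j E s) : kap k σ j E s + 1 ≤ kap k σ j E (s + 2) := by
  have h0 : gen k σ j E s < Module.finrank k (homogeneousSubmodule σ k (E + j)) :=
    lt_of_le_of_lt (gen_mono (Nat.le_succ s)) h
  have h2 := kap_succ h0 h1
  have h3 := kap_succ' h0 h1
  have h4 := kap_succ h (h1.trans h3)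
  have h5 := kap_succ' h (h1.trans h3)
  by_cases hE : E = j
  · subst hE
    by_contra hcon
    push Not at hcon
    have h6 : kap k σ E E (s + 1) = kap k σ E E s := by
      rw [show s + 2 = s + 1 + 1 from rfl] at hcon
      linarith
    have h7 : kap k σ E E (s + 2) = kap k σ E E s := by
      rw [show s + 2 = s + 1 + 1 from rfl] at hcon ⊢
      linarith
    have hnu : nu E E = 1 := if_pos rfl
    unfold kap at h1 h6 h7
    rw [hnu] at h1 h6 h7
    push_cast at h1 h6 h7
    have h8 := growN2 (k := k) (σ := σ) (j := E) (t := s) (by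
        have : (s : ℤ) < dd k σ E E s := by linarith
        exact_mod_cast this)
      (by
        have : (dd k σ E E (s + 1) : ℤ) = dd k σ E E s + 1 := by linarith
        exact_mod_cast this)
      (by
        have : (dd k σ E E (s + 2) : ℤ) = dd k σ E E s + 2 := by linarith
        exact_mod_cast this)
    omega
  · have hnu : nu j E = 0 := if_neg hE
    rw [hnu] at h2
    push_cast at h2
    rw [show s + 2 = s + 1 + 1 from rfl]
    linarith

theorem kap_lower [Nonempty σ] {j E s0 tf : ℕ}
    (h : ∀ u < tf, gen k σ j E u < Module.finrank k (homogeneousSubmodule σ k (E + j)))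
    (h1 : 1 ≤ kap k σ j E s0) : ∀ i : ℕ, s0 + i ≤ tf →
      (i : ℤ) + 1 ≤ 2 * kap k σ j E (s0 + i) ∧ 1 ≤ kap k σ j E (s0 + i) := by
  intro i
  induction i using Nat.twoStepInduction with
  | zero =>
    intro _
    rw [add_zero]
    constructor
    · push_cast
      linarith
    · exact h1
  | one =>
    intro hle
    have h2 := kap_succ' (h s0 (by omega)) h1
    constructor
    · push_cast
      linarith
    · linarith
  | more i ih _ =>
    intro hle
    obtain ⟨h2, h3⟩ := ih (by omega)
    have h4 := kap_add_two (h (s0 + i + 1) (by omega)) h3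
    rw [show s0 + (i + 2) = s0 + i + 2 by ring]
    constructor
    · push_cast
      linarith
    · linarith

theorem exc_nonneg [Nonempty σ] {j E t : ℕ}
    (h : ∀ u < t, gen k σ j E u < Module.finrank k (homogeneousSubmodule σ k (E + j))) :
    0 ≤ exc k σ j E t := by
  induction t with
  | zero => rw [exc_zero]
  | succ t ih =>
    rw [exc_succ]
    have h1 := ih fun u hu => h u (by omega)
    have h2 := kap_nonneg (s := t) fun u hu => h u (by omega)
    linarith

theorem exc_lower [Nonempty σ] {j E s0 tf : ℕ}
    (h : ∀ u < tf, gen k σ j E u < Module.finrank k (homogeneousSubmodule σ k (E + j)))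
    (h1 : 1 ≤ kap k σ j E s0) : ∀ i : ℕ, s0 + i ≤ tf →
      (i : ℤ) ^ 2 ≤ 4 * exc k σ j E (s0 + i) := by
  intro i
  induction i with
  | zero =>
    intro hle
    have := exc_nonneg (j := j) (E := E) (t := s0) fun u hu => h u (by omega)
    rw [add_zero]
    push_cast
    linarith
  | succ i ih =>
    intro hle
    have h2 := ih (by omega)
    have h3 := (kap_lower h h1 i (by omega)).1
    rw [← add_assoc, exc_succ]
    push_cast
    nlinarith

/-- The counting dichotomy. -/
theorem count [Nonempty σ] {j E t T : ℕ}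
    (hT : gen k σ j E T = Module.finrank k (homogeneousSubmodule σ k (E + j)))
    (ht : exc k σ j E t ≠ 0) :
    ∃ tf s0 : ℕ, s0 ≤ t ∧ s0 ≤ tf ∧ tf ≤ T ∧
      4 * (Module.finrank k (homogeneousSubmodule σ k (E + j)) : ℤ) + ((tf : ℤ) - s0) ^ 2 ≤
        4 * (tf * Module.finrank k (homogeneousSubmodule σ k E) -
          nu j E * (tf.choose 2 : ℕ)) := by
  classical
  have hex : ∃ T, gen k σ j E T = Module.finrank k (homogeneousSubmodule σ k (E + j)) := ⟨T, hT⟩
  set tf := Nat.find hex with htf
  have hfull : gen k σ j E tf = Module.finrank k (homogeneousSubmodule σ k (E + j)) :=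
    Nat.find_spec hex
  have hlt : ∀ u < tf, gen k σ j E u < Module.finrank k (homogeneousSubmodule σ k (E + j)) :=
    fun u hu => lt_of_le_of_ne (gen_le_homog j E u) (Nat.find_min hex hu)
  have htfT : tf ≤ T := Nat.find_min' hex hT
  have hexc : exc k σ j E tf = tf * Module.finrank k (homogeneousSubmodule σ k E) -
      nu j E * (tf.choose 2 : ℕ) - Module.finrank k (homogeneousSubmodule σ k (E + j)) := by
    unfold exc
    rw [hfull]
  by_cases h1 : tf ≤ t
  · refine ⟨tf, tf, h1, le_rfl, htfT, ?_⟩
    have := exc_nonneg hlt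
    rw [hexc] at this
    rw [sub_self]
    linarith
  · push Not at h1
    obtain ⟨s0, hs0, hk⟩ : ∃ s0 < t, 1 ≤ kap k σ j E s0 := by
      by_contra hcon
      push Not at hcon
      apply ht
      have h2 : ∀ u ≤ t, exc k σ j E u = 0 := by
        intro u
        induction u with
        | zero => intro _; exact exc_zero j E
        | succ u ih =>
          intro hu
          rw [exc_succ, ih (by omega)]
          have h3 := hcon u (by omega)
          have h4 := kap_nonneg (j := j) (E := E) (s := u) fun v hv => hlt v (by omega)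
          have h5 : kap k σ j E u = 0 := by linarith
          rw [h5, add_zero]
      exact h2 t le_rfl
    refine ⟨tf, s0, hs0.le, by omega, htfT, ?_⟩
    have h2 := exc_lower hlt hk (tf - s0) (by omega)
    rw [show s0 + (tf - s0) = tf by omega, hexc] at h2
    have h3 : (((tf - s0 : ℕ)) : ℤ) = (tf : ℤ) - s0 := by
      rw [Nat.cast_sub (by omega)]
    rw [h3] at h2
    linarith

end GrCount

end Pool.Agent.Helper45.Gr
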