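import Mathlib
import Pool.Agent.Helper45.FatGen

namespace Pool.Agent.Helper45

open MvPolynomial

set_option linter.unusedSectionVars false

section Pairing

variable {k : Type*} [Field k] {σ : Type*} [Fintype σ]

/-- The product of the factorials of the exponents. -/
noncomputable def facExp (k : Type*) [Field k] {σ : Type*} [Fintype σ] (v : σ →₀ ℕ) : k :=
  ∏ s, ((v s).factorial : k)

/-- The apolarity pairing. -/
noncomputable def apol (k : Type*) [Field k] (σ : Type*) [Fintype σ] :
    MvPolynomial σ k →ₗ[k] MvPolynomial σ k →ₗ[k] k :=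
  (basisMonomials σ k).constr k fun v => facExp k v • lcoeff k v

theorem apol_monomial (v : σ →₀ ℕ) (a : k) (f : MvPolynomial σ k) :
    apol k σ (monomial v a) f = a * facExp k v * coeff v f := by
  have h1 : (monomial v a : MvPolynomial σ k) = a • monomial v 1 := by
    rw [smul_monomial, smul_eq_mul, mul_one]
  have h2 := (basisMonomials σ k).constr_basis k (fun v => facExp k v • lcoeff k v) v
  rw [coe_basisMonomials] at h2
  rw [h1, map_smul]
  unfold apol
  rw [h2, LinearMap.smul_apply, LinearMap.smul_apply, lcoeff_apply, smul_eq_mul, smul_eq_mul,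
    mul_assoc]

theorem facExp_add_single [DecidableEq σ] (v : σ →₀ ℕ) (s : σ) :
    facExp k (v + Finsupp.single s 1) = ((v s : k) + 1) * facExp k v := by
  unfold facExp
  rw [← Finset.mul_prod_erase Finset.univ _ (Finset.mem_univ s),
    ← Finset.mul_prod_erase Finset.univ (fun x => ((v x).factorial : k)) (Finset.mem_univ s)]
  have h1 : (v + Finsupp.single s 1 : σ →₀ ℕ) s = v s + 1 := by simp
  rw [h1, Nat.factorial_succ]
  have h2 : ∏ x ∈ Finset.univ.erase s, (((v + Finsupp.single s 1 : σ →₀ ℕ) x).factorial : k) =
      ∏ x ∈ Finset.univ.erase s, ((v x).factorial : k) := by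
    refine Finset.prod_congr rfl fun x hx => ?_
    have : (v + Finsupp.single s 1 : σ →₀ ℕ) x = v x := by
      simp [(Finset.mem_erase.1 hx).1.symm]
    rw [this]
  rw [h2]
  push_cast
  ring

theorem apol_X_mul (s : σ) (g f : MvPolynomial σ k) :
    apol k σ (X s * g) f = apol k σ g (pderiv s f) := by
  classical
  induction g using MvPolynomial.induction_on' with
  | add p q hp hq => rw [mul_add, map_add, map_add, LinearMap.add_apply, LinearMap.add_apply, hp, hq]
  | monomial v a =>
    have h1 : (X s : MvPolynomial σ k) * monomial v a = monomial (v + Finsupp.single s 1) a := by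
      rw [X, monomial_mul, one_mul, add_comm]
    rw [h1, apol_monomial, apol_monomial, facExp_add_single, coeff_pderiv]
    ring

/-- Directional derivative. -/
noncomputable def dirDeriv (p : σ → k) : MvPolynomial σ k →ₗ[k] MvPolynomial σ k :=
  ∑ s, p s • (pderiv s : Derivation k (MvPolynomial σ k) (MvPolynomial σ k)).toLinearMap

theorem dirDeriv_apply (p : σ → k) (f : MvPolynomial σ k) :
    dirDeriv p f = ∑ s, C (p s) * pderiv s f := by
  unfold dirDeriv
  rw [LinearMap.sum_apply]
  refine Finset.sum_congr rfl fun s _ => ?_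
  rw [LinearMap.smul_apply, smul_eq_C_mul]
  rfl

theorem apol_linForm_mul (p : σ → k) (g f : MvPolynomial σ k) :
    apol k σ (linForm p * g) f = apol k σ g (dirDeriv p f) := by
  rw [dirDeriv_apply, map_sum]
  unfold linForm
  rw [Finset.sum_mul, map_sum, LinearMap.sum_apply]
  refine Finset.sum_congr rfl fun s _ => ?_
  rw [mul_assoc, ← smul_eq_C_mul, map_smul, LinearMap.smul_apply, apol_X_mul, ← smul_eq_C_mul,
    map_smul]

theorem apol_linForm_pow_mul (p : σ → k) (j : ℕ) (g f : MvPolynomial σ k) :
    apol k σ (linForm p ^ j * g) f = apol k σ g ((dirDeriv p)^[j] f) := by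
  induction j generalizing f with
  | zero => rw [pow_zero, one_mul, Function.iterate_zero, id]
  | succ j ih =>
    rw [pow_succ', mul_assoc, apol_linForm_mul, ih, Function.iterate_succ_apply]

theorem dirDeriv_isHomogeneous (p : σ → k) {f : MvPolynomial σ k} {d : ℕ}
    (hf : f.IsHomogeneous d) : (dirDeriv p f).IsHomogeneous (d - 1) := by
  rw [dirDeriv_apply]
  refine IsHomogeneous.sum _ _ _ fun s _ => ?_
  exact hf.pderiv.C_mul _

theorem dirDeriv_iterate_isHomogeneous (p : σ → k) (i : ℕ) {f : MvPolynomial σ k} {d : ℕ}
    (hf : f.IsHomogeneous d) : ((dirDeriv p)^[i] f).IsHomogeneous (d - i) := by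
  induction i with
  | zero => exact hf
  | succ i ih =>
    rw [Function.iterate_succ_apply']
    have := dirDeriv_isHomogeneous p ih
    rwa [Nat.sub_sub] at this

theorem facExp_ne_zero [CharZero k] (v : σ →₀ ℕ) : facExp k v ≠ 0 := by
  unfold facExp
  exact Finset.prod_ne_zero_iff.2 fun s _ => Nat.cast_ne_zero.2 (Nat.factorial_ne_zero _)

theorem eq_zero_of_apol [CharZero k] {h : MvPolynomial σ k} {E : ℕ} (hh : h.IsHomogeneous E)
    (h0 : ∀ g : MvPolynomial σ k, g.IsHomogeneous E → apol k σ g h = 0) : h = 0 := by
  by_contra hne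
  obtain ⟨v, hv⟩ := support_nonempty.2 hne
  have hdeg : v.degree = E := by
    by_contra hd
    exact (mem_support_iff.1 hv) (hh.coeff_eq_zero hd)
  have h1 := h0 (monomial v 1) (isHomogeneous_monomial _ hdeg)
  rw [apol_monomial, one_mul] at h1
  rcases mul_eq_zero.1 h1 with h1 | h1
  · exact facExp_ne_zero v h1
  · exact (mem_support_iff.1 hv) h1

theorem apol_symm (f g : MvPolynomial σ k) : apol k σ f g = apol k σ g f := by
  classical
  induction f using MvPolynomial.induction_on' with
  | add p q hp hq => rw [map_add, map_add, LinearMap.add_apply, hp, hq]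
  | monomial v a =>
    induction g using MvPolynomial.induction_on' with
    | add p q hp hq => rw [map_add, map_add, LinearMap.add_apply, hp, hq]
    | monomial w b =>
      rw [apol_monomial, apol_monomial, coeff_monomial, coeff_monomial]
      by_cases h : v = w
      · subst h; simp only [if_true]; ring
      · rw [if_neg (Ne.symm h), if_neg h]; ring

end Pairing

section Taylor

variable {k : Type*} [Field k] {σ : Type*} [Fintype σ]

/-- The Taylor expansion in the direction `p`. -/
noncomputable def taylor (p : σ → k) : MvPolynomial σ k →ₐ[k] Polynomial (MvPolynomial σ k) :=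
  aeval fun s => Polynomial.C (X s) + Polynomial.C (C (p s)) * Polynomial.X

theorem taylor_X (p : σ → k) (s : σ) : taylor p (X s) =
    Polynomial.C (X s) + Polynomial.C (C (p s)) * Polynomial.X := by
  unfold taylor
  rw [aeval_X]

theorem taylor_C (p : σ → k) (a : k) : taylor p (C a) = Polynomial.C (C a) := by
  unfold taylor
  rw [aeval_C]
  rfl

theorem derivative_taylor (p : σ → k) (f : MvPolynomial σ k) :
    Polynomial.derivative (taylor p f) = taylor p (dirDeriv p f) := by
  classical
  induction f using MvPolynomial.induction_on with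
  | C a =>
    rw [taylor_C, Polynomial.derivative_C, dirDeriv_apply]
    simp
  | add f g hf hg => rw [map_add, map_add, hf, hg, map_add, map_add]
  | mul_X f s hf =>
    have h1 : dirDeriv p (f * X s) = dirDeriv p f * X s + C (p s) * f := by
      rw [dirDeriv_apply, dirDeriv_apply, Finset.sum_mul]
      have : ∀ s', C (p s') * pderiv s' (f * X s) = C (p s') * pderiv s' f * X s +
          (if s' = s then C (p s) * f else 0) := by
        intro s'
        rw [pderiv_mul]
        by_cases h : s' = s
        · subst h
          rw [pderiv_X_self, if_pos rfl]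
          ring
        · rw [pderiv_X_of_ne (Ne.symm h), if_neg h]
          ring
      rw [Finset.sum_congr rfl fun s' _ => this s', Finset.sum_add_distrib]
      simp
    rw [map_mul, Polynomial.derivative_mul, hf, h1, map_add, map_mul, map_mul, taylor_X, taylor_C]
    simp only [Polynomial.derivative_add, Polynomial.derivative_C, Polynomial.derivative_mul,
      Polynomial.derivative_X, zero_mul, mul_one, zero_add]
    ring

theorem coeff_taylor_zero (p : σ → k) (f : MvPolynomial σ k) : (taylor p f).coeff 0 = f := by
  rw [Polynomial.coeff_zero_eq_eval_zero]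
  have : (Polynomial.evalRingHom (0 : MvPolynomial σ k)).comp (taylor p).toRingHom =
      RingHom.id _ := by
    refine MvPolynomial.ringHom_ext ?_ ?_
    · intro a
      change Polynomial.eval 0 (taylor p (C a)) = _
      rw [taylor_C]
      simp
    · intro s
      change Polynomial.eval 0 (taylor p (X s)) = _
      rw [taylor_X]
      simp
  exact RingHom.congr_fun this f

theorem coeff_taylor (p : σ → k) (i : ℕ) (f : MvPolynomial σ k) :
    (i.factorial : MvPolynomial σ k) * (taylor p f).coeff i = (dirDeriv p)^[i] f := by
  induction i generalizing f with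
  | zero => rw [coeff_taylor_zero, Nat.factorial_zero, Nat.cast_one, one_mul,
      Function.iterate_zero, id]
  | succ i ih =>
    rw [Function.iterate_succ_apply, ← ih, ← derivative_taylor, Polynomial.coeff_derivative,
      Nat.factorial_succ]
    push_cast
    ring

theorem taylor_coeff_isHomogeneous [CharZero k] (p : σ → k) (i : ℕ) {f : MvPolynomial σ k}
    {d : ℕ} (hf : f.IsHomogeneous d) : ((taylor p f).coeff i).IsHomogeneous (d - i) := by
  have h1 := coeff_taylor p i f
  have h2 : (taylor p f).coeff i = C ((i.factorial : k)⁻¹) * (dirDeriv p)^[i] f := by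
    rw [← h1, ← mul_assoc]
    have : C ((i.factorial : k)⁻¹) * (i.factorial : MvPolynomial σ k) = 1 := by
      have h3 : (i.factorial : MvPolynomial σ k) = C (i.factorial : k) := by simp
      rw [h3, ← C_mul, inv_mul_cancel₀ (Nat.cast_ne_zero.2 (Nat.factorial_ne_zero i)), C_1]
    rw [this, one_mul]
  rw [h2]
  exact (dirDeriv_iterate_isHomogeneous p i hf).C_mul _

theorem taylor_coeff_eq_zero [CharZero k] (p : σ → k) {i : ℕ} {f : MvPolynomial σ k}
    (h : (dirDeriv p)^[i] f = 0) : (taylor p f).coeff i = 0 := by
  have h1 := coeff_taylor p i f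
  rw [h] at h1
  rcases mul_eq_zero.1 h1 with h2 | h2
  · exfalso
    have h3 : (i.factorial : MvPolynomial σ k) = C (i.factorial : k) := by simp
    rw [h3, C_eq_zero] at h2
    exact (Nat.cast_ne_zero.2 (Nat.factorial_ne_zero i)) h2
  · exact h2

theorem iterate_eq_zero_of_le (p : σ → k) {i j : ℕ} (hij : i ≤ j) {f : MvPolynomial σ k}
    (h : (dirDeriv p)^[i] f = 0) : (dirDeriv p)^[j] f = 0 := by
  obtain ⟨c, rfl⟩ := Nat.exists_eq_add_of_le hij
  rw [add_comm, Function.iterate_add_apply, h]
  induction c with
  | zero => rfl
  | succ c ih => rw [Function.iterate_succ_apply', ih (by omega), map_zero]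

theorem iterate_eq_zero_of_degree (p : σ → k) {f : MvPolynomial σ k} {d : ℕ}
    (hf : f.IsHomogeneous d) : (dirDeriv p)^[d + 1] f = 0 := by
  have h1 := dirDeriv_iterate_isHomogeneous p d hf
  rw [Nat.sub_self] at h1
  rw [Function.iterate_succ_apply']
  rw [← totalDegree_zero_iff_isHomogeneous] at h1
  rw [totalDegree_eq_zero_iff_eq_C] at h1
  rw [h1, dirDeriv_apply]
  simp

end Taylor

section PointIdeal

variable {k : Type*} [Field k] {σ : Type*} [Fintype σ]

/-- The ideal generated by the homogeneous polynomials vanishing at `p`. -/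
noncomputable def ptIdeal (p : σ → k) : Ideal (MvPolynomial σ k) :=
  Ideal.span {f | (∃ d, f.IsHomogeneous d) ∧ eval p f = 0}

/-- Translation by `p`. -/
noncomputable def translate (p : σ → k) : MvPolynomial σ k →ₐ[k] MvPolynomial σ k :=
  aeval fun s => X s + C (p s)

theorem eval_one_taylor (p : σ → k) (f : MvPolynomial σ k) :
    Polynomial.eval 1 (taylor p f) = translate p f := by
  have : (Polynomial.evalRingHom (1 : MvPolynomial σ k)).comp (taylor p).toRingHom =
      (translate p).toRingHom := by
    refine MvPolynomial.ringHom_ext ?_ ?_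
    · intro a
      change Polynomial.eval 1 (taylor p (C a)) = translate p (C a)
      rw [taylor_C]
      unfold translate
      rw [aeval_C]
      simp
    · intro s
      change Polynomial.eval 1 (taylor p (X s)) = translate p (X s)
      rw [taylor_X]
      unfold translate
      rw [aeval_X]
      simp
  exact RingHom.congr_fun this f

theorem coeff_zero_translate (p : σ → k) (f : MvPolynomial σ k) :
    coeff 0 (translate p f) = eval p f := by
  rw [← constantCoeff_eq]
  have : (constantCoeff).comp (translate p).toRingHom = (eval p : MvPolynomial σ k →+* k) := by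
    refine MvPolynomial.ringHom_ext ?_ ?_
    · intro a
      change constantCoeff (translate p (C a)) = eval p (C a)
      unfold translate
      rw [aeval_C]
      simp
    · intro s
      change constantCoeff (translate p (X s)) = eval p (X s)
      unfold translate
      rw [aeval_X]
      simp
  exact RingHom.congr_fun this f

theorem translate_mem (p : σ → k) {f : MvPolynomial σ k} (m : ℕ) (hf : f ∈ ptIdeal p ^ m) :
    translate p f ∈ idealOfVars σ k ^ m := by
  have h1 : ptIdeal p ≤ (idealOfVars σ k).comap (translate p) := by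
    unfold ptIdeal
    rw [Ideal.span_le]
    rintro f ⟨_, hf⟩
    rw [SetLike.mem_coe, Ideal.mem_comap]
    have := mem_pow_idealOfVars_iff' (σ := σ) (R := k) 1 (translate p f)
    rw [pow_one] at this
    rw [this]
    intro x hx
    have : x = 0 := by
      rw [← Finsupp.degree_eq_zero_iff]; omega
    rw [this, coeff_zero_translate, hf]
  have h2 : ptIdeal p ^ m ≤ ((idealOfVars σ k) ^ m).comap (translate p) :=
    (Ideal.pow_right_mono h1 m).trans (Ideal.le_comap_pow _ m)
  exact h2 hf

theorem dirDeriv_of_mem [CharZero k] (p : σ → k) {f : MvPolynomial σ k} {m j : ℕ} (hm : 1 ≤ m)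
    (hf : f.IsHomogeneous (m - 1 + j)) (hmem : f ∈ ptIdeal p ^ m) : (dirDeriv p)^[j] f = 0 := by
  have h1 := translate_mem p m hmem
  rw [← eval_one_taylor, Polynomial.eval_eq_sum_range] at h1
  rw [← coeff_taylor]
  suffices h : (taylor p f).coeff j = 0 by rw [h, mul_zero]
  rw [mem_pow_idealOfVars_iff'] at h1
  have h2 : homogeneousComponent (m - 1) (∑ i ∈ Finset.range ((taylor p f).natDegree + 1),
      (taylor p f).coeff i * 1 ^ i) = 0 := by
    ext x
    rw [coeff_homogeneousComponent, coeff_zero]
    split_ifs with hx
    · exact h1 x (by omega)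
    · rfl
  rw [map_sum] at h2
  have h3 : ∀ i, homogeneousComponent (m - 1) ((taylor p f).coeff i * 1 ^ i) =
      if i = j then (taylor p f).coeff j else 0 := by
    intro i
    rw [one_pow, mul_one]
    by_cases hi : i ≤ m - 1 + j
    · rw [homogeneousComponent_of_mem (taylor_coeff_isHomogeneous p i hf)]
      by_cases hij : i = j
      · subst hij
        rw [if_pos (by omega), if_pos rfl]
      · rw [if_neg (by omega), if_neg hij]
    · have : (taylor p f).coeff i = 0 := taylor_coeff_eq_zero p
        (iterate_eq_zero_of_le p (by omega) (iterate_eq_zero_of_degree p hf))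
      rw [this, map_zero, if_neg (by omega)]
  rw [Finset.sum_congr rfl fun i _ => h3 i] at h2
  by_cases hj : j ∈ Finset.range ((taylor p f).natDegree + 1)
  · rw [Finset.sum_ite_eq' _ j, if_pos hj] at h2
    exact h2
  · rw [Finset.mem_range, not_lt] at hj
    exact Polynomial.coeff_eq_zero_of_natDegree_lt (by omega)

theorem mem_of_dirDeriv [CharZero k] {p : σ → k} (hp : p ≠ 0) {f : MvPolynomial σ k} {m j : ℕ}
    (hm : 1 ≤ m) (hf : f.IsHomogeneous (m - 1 + j)) (h : (dirDeriv p)^[j] f = 0) :
    f ∈ ptIdeal p ^ m := by
  classical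
  obtain ⟨s0, hs0⟩ := Function.ne_iff.1 hp
  rw [Pi.zero_apply] at hs0
  let lam : MvPolynomial σ k := C ((p s0)⁻¹) * X s0
  have hlam : lam.IsHomogeneous 1 := (isHomogeneous_X k s0).C_mul _
  have hlamp : eval p lam = 1 := by
    simp only [lam]
    rw [map_mul, eval_C, eval_X, inv_mul_cancel₀ hs0]
  let π : MvPolynomial σ k →ₐ[k] MvPolynomial σ k := aeval fun s => X s - C (p s) * lam
  have hπX : ∀ s, (X s - C (p s) * lam : MvPolynomial σ k) ∈ ptIdeal p := by
    intro s
    refine Ideal.subset_span ⟨⟨1, ?_⟩, ?_⟩
    · exact (isHomogeneous_X k s).sub (hlam.C_mul _)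
    · rw [map_sub, eval_X, map_mul, eval_C, hlamp, mul_one, sub_self]
  have hπ : ∀ (e : ℕ) (g : MvPolynomial σ k), g.IsHomogeneous e → π g ∈ ptIdeal p ^ e := by
    intro e g hg
    rw [← support_sum_monomial_coeff g, map_sum]
    refine Ideal.sum_mem _ fun v hv => ?_
    have hdeg : v.degree = e := by
      by_contra hd
      exact (mem_support_iff.1 hv) (hg.coeff_eq_zero hd)
    simp only [π]
    rw [aeval_monomial]
    refine Ideal.mul_mem_left _ _ ?_
    have h1 : ∀ s ∈ v.support, (X s - C (p s) * lam : MvPolynomial σ k) ^ v s ∈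
        ptIdeal p ^ v s := fun s _ => Ideal.pow_mem_pow (hπX s) _
    have h2 := Ideal.prod_mem_prod h1
    rw [Finset.prod_pow_eq_pow_sum] at h2
    have h3 : ∑ s ∈ v.support, v s = e := by rw [← hdeg]; rfl
    rw [h3] at h2
    exact h2
  -- Taylor expansion
  have hexp : f = ∑ i ∈ Finset.range ((taylor p f).natDegree + 1),
      π ((taylor p f).coeff i) * lam ^ i := by
    have h1 : (Polynomial.eval₂RingHom (π.toRingHom) lam).comp (taylor p).toRingHom =
        RingHom.id _ := by
      refine MvPolynomial.ringHom_ext ?_ ?_
      · intro a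
        change Polynomial.eval₂ π.toRingHom lam (taylor p (C a)) = C a
        rw [taylor_C, Polynomial.eval₂_C]
        change π (C a) = C a
        simp only [π]
        rw [aeval_C]
        rfl
      · intro s
        change Polynomial.eval₂ π.toRingHom lam (taylor p (X s)) = X s
        rw [taylor_X, Polynomial.eval₂_add, Polynomial.eval₂_mul, Polynomial.eval₂_C,
          Polynomial.eval₂_C, Polynomial.eval₂_X]
        change π (X s) + π (C (p s)) * lam = X s
        simp only [π]
        rw [aeval_C, aeval_X]
        change X s - C (p s) * lam + C (p s) * lam = X s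
        ring
    have h2 := RingHom.congr_fun h1 f
    change Polynomial.eval₂ π.toRingHom lam (taylor p f) = f at h2
    rw [Polynomial.eval₂_eq_sum_range] at h2
    exact h2.symm
  rw [hexp]
  refine Ideal.sum_mem _ fun i _ => ?_
  by_cases hi : i < j
  · have h1 := hπ _ _ (taylor_coeff_isHomogeneous p i hf)
    refine Ideal.mul_mem_right _ _ (Ideal.pow_le_pow_right ?_ h1)
    omega
  · have : (taylor p f).coeff i = 0 := taylor_coeff_eq_zero p
      (iterate_eq_zero_of_le p (by omega) h)
    rw [this, map_zero, zero_mul]
    exact zero_mem _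

/-- Apolarity: membership in a power of the ideal of a point. -/
theorem mem_ptIdeal_pow_iff [CharZero k] {p : σ → k} (hp : p ≠ 0) {f : MvPolynomial σ k}
    {m j : ℕ} (hm : 1 ≤ m) (hf : f.IsHomogeneous (m - 1 + j)) :
    f ∈ ptIdeal p ^ m ↔ ∀ g : MvPolynomial σ k, g.IsHomogeneous (m - 1) →
      apol k σ (linForm p ^ j * g) f = 0 := by
  constructor
  · intro h g _
    rw [apol_linForm_pow_mul, dirDeriv_of_mem p hm hf h, map_zero]
  · intro h
    refine mem_of_dirDeriv hp hm hf ?_
    have h1 := dirDeriv_iterate_isHomogeneous p j hf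
    rw [Nat.add_sub_cancel] at h1
    refine eq_zero_of_apol h1 fun g hg => ?_
    rw [← apol_linForm_pow_mul]
    exact h g hg

/-- The ideal of forms vanishing to order `m` at each of the given points. -/
noncomputable def fatId {r : ℕ} (P : Fin r → σ → k) (m : ℕ) : Ideal (MvPolynomial σ k) :=
  ⨅ i, ptIdeal (P i) ^ m

theorem degPart_powSeq_apol {r : ℕ} (P : Fin r → σ → k) (j E : ℕ) (f : MvPolynomial σ k) :
    (∀ w ∈ degPart (powSeq (fun x => P x.1 x.2) j) r E, apol k σ w f = 0) ↔
      ∀ i : Fin r, ∀ g : MvPolynomial σ k, g.IsHomogeneous E →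
        apol k σ (linForm (P i) ^ j * g) f = 0 := by
  constructor
  · intro h i g hg
    refine h _ ?_
    refine Submodule.mem_iSup_of_mem (i : ℕ)
      (Submodule.mem_iSup_of_mem (Finset.mem_range.2 i.2) ?_)
    refine ⟨g, hg, ?_⟩
    rw [LinearMap.mulLeft_apply]
    unfold powSeq
    rw [ptSeq_of_lt _ i.2]
  · intro h w hw
    obtain ⟨c, hc1, hc2⟩ := mem_degPart.1 hw
    rw [hc2, map_sum, LinearMap.sum_apply]
    refine Finset.sum_eq_zero fun a ha => ?_
    rw [Finset.mem_range] at ha
    have := h ⟨a, ha⟩ (c a) (hc1 a)
    unfold powSeq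
    rw [ptSeq_of_lt _ ha]
    exact this

/-- The Hilbert function of a fat point ideal in terms of powers of linear forms. -/
theorem hilb_eq_finrank_degPart [CharZero k] {r : ℕ} (P : Fin r → σ → k) (hP : ∀ i, P i ≠ 0)
    {m j : ℕ} (hm : 1 ≤ m) :
    Module.finrank k (homogeneousSubmodule σ k (m - 1 + j)) -
      Module.finrank k (homogeneousSubmodule σ k (m - 1 + j) ⊓
        (fatId P m).restrictScalars k : Submodule k (MvPolynomial σ k)) =
    Module.finrank k (degPart (powSeq (fun x => P x.1 x.2) j) r (m - 1)) := by
  set R := homogeneousSubmodule σ k (m - 1 + j) with hR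
  set W := degPart (powSeq (fun x => P x.1 x.2) j) r (m - 1) with hW
  have hWR : W ≤ R := degPart_le (powSeq_isHomogeneous _ j) r (m - 1)
  let B : LinearMap.BilinForm k R := (apol k σ).domRestrict₁₂ R R
  have hB : B.Nondegenerate := by
    constructor
    · intro x hx
      apply Subtype.ext
      refine eq_zero_of_apol x.2 fun g hg => ?_
      rw [apol_symm]
      exact hx ⟨g, hg⟩
    · intro x hx
      apply Subtype.ext
      refine eq_zero_of_apol x.2 fun g hg => ?_
      exact hx ⟨g, hg⟩
  let W' : Submodule k R := W.comap R.subtype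
  have hW' : Module.finrank k W' = Module.finrank k W := by
    refine LinearEquiv.finrank_eq ?_
    exact Submodule.comapSubtypeEquivOfLe hWR
  have horth : Module.finrank k (B.orthogonal W') = Module.finrank k
      (R ⊓ (fatId P m).restrictScalars k : Submodule k (MvPolynomial σ k)) := by
    have h1 : B.orthogonal W' = ((fatId P m).restrictScalars k).comap R.subtype := by
      ext f
      rw [LinearMap.BilinForm.mem_orthogonal_iff, Submodule.mem_comap]
      have h2 : (f : MvPolynomial σ k) ∈ fatId P m ↔
          ∀ i : Fin r, ∀ g : MvPolynomial σ k, g.IsHomogeneous (m - 1) →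
            apol k σ (linForm (P i) ^ j * g) f = 0 := by
        unfold fatId
        rw [Submodule.mem_iInf]
        exact forall_congr' fun i => mem_ptIdeal_pow_iff (hP i) hm f.2
      change _ ↔ (f : MvPolynomial σ k) ∈ fatId P m
      rw [h2, ← degPart_powSeq_apol]
      constructor
      · intro h w hw
        exact h ⟨w, hWR hw⟩ hw
      · intro h w hw
        exact h w hw
    rw [h1]
    have h3 : (((fatId P m).restrictScalars k).comap R.subtype).map R.subtype =
        R ⊓ (fatId P m).restrictScalars k := by
      rw [Submodule.map_comap_subtype]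
    rw [← h3]
    exact (LinearEquiv.finrank_eq (Submodule.equivMapOfInjective _ R.injective_subtype _))
  have h4 := LinearMap.BilinForm.finrank_orthogonal hB W'
  rw [horth, hW'] at h4
  have h5 : Module.finrank k W ≤ Module.finrank k R := Submodule.finrank_mono hWR
  omega

end PointIdeal

end Pool.Agent.Helper45
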