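import Mathlib
import Pool.Agent.Helper45.ShPts

namespace Pool.Agent.Helper45

open MvPolynomial Filter

set_option linter.unusedSectionVars false

section Count

theorem KN_le (N n : ℕ) : (n / N + 1) * N ≤ n + N := by
  rw [add_mul, one_mul]
  exact Nat.add_le_add_right (Nat.div_mul_le_self n N) N

theorem le_KN (N n : ℕ) (hN : 1 ≤ N) : n + 1 ≤ (n / N + 1) * N := by
  have h1 := Nat.lt_div_mul_add (a := n) (b := N) hN
  rw [add_mul, one_mul]
  exact h1

theorem KN_pow_le (N n j : ℕ) (hn : 1 ≤ n) :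
    (((n / N + 1 : ℕ) : ℝ) * N) ^ j ≤ (1 + (N : ℝ) / n) ^ j * (n : ℝ) ^ j := by
  rw [← mul_pow]
  have hn' : (n : ℝ) ≠ 0 := by positivity
  have h1 : (1 + (N : ℝ) / n) * n = n + N := by field_simp
  rw [h1]
  refine pow_le_pow_left₀ (by positivity) ?_ j
  exact_mod_cast KN_le N n

theorem tendsto_one_add_div (N j : ℕ) :
    Tendsto (fun n : ℕ => (1 + (N : ℝ) / n) ^ j) atTop (nhds 1) := by
  have h1 : Tendsto (fun n : ℕ => (1 + (N : ℝ) / n)) atTop (nhds (1 + 0)) :=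
    tendsto_const_nhds.add (tendsto_const_div_atTop_nhds_zero_nat (N : ℝ))
  have h2 := h1.pow j
  rwa [add_zero, one_pow] at h2

theorem tendsto_desc (N j : ℕ) (hN : 1 ≤ N) :
    Tendsto (fun n : ℕ => ((n / N + 1).descFactorial j : ℝ) / ((n / N + 1 : ℕ) : ℝ) ^ j) atTop
      (nhds 1) := by
  have h1 := isEquivalent_descFactorial j
  rw [Asymptotics.isEquivalent_iff_tendsto_one] at h1
  · have h3 : Tendsto (fun n : ℕ => n / N) atTop atTop := Nat.tendsto_div_const_atTop (by omega)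
    have h2 : Tendsto (fun n : ℕ => n / N + 1) atTop atTop :=
      (tendsto_add_atTop_nat 1).comp h3
    exact h1.comp h2
  · filter_upwards [eventually_ge_atTop 1] with n hn
    positivity

theorem count_le (N j M : ℕ) (hN : 1 ≤ N) {x c : ℝ} (hM : (M : ℝ) ≤ x * (N : ℝ) ^ j)
    (hx : x / (j.factorial : ℝ) < c) :
    ∀ᶠ n : ℕ in atTop, (((n / N + 1).choose j * M + ((n / N + 1) ^ j -
      (n / N + 1).descFactorial j) * N ^ j * 2 ^ j : ℕ) : ℝ) ≤ c * (n : ℝ) ^ j := by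
  have h1 : Tendsto (fun n : ℕ => (1 + (N : ℝ) / n) ^ j * (x / (j.factorial : ℝ) + 2 ^ j *
      (1 - ((n / N + 1).descFactorial j : ℝ) / ((n / N + 1 : ℕ) : ℝ) ^ j))) atTop
      (nhds (1 * (x / (j.factorial : ℝ) + 2 ^ j * (1 - 1)))) := by
    refine (tendsto_one_add_div N j).mul ?_
    refine tendsto_const_nhds.add ?_
    refine tendsto_const_nhds.mul ?_
    exact tendsto_const_nhds.sub (tendsto_desc N j hN)
  rw [sub_self, mul_zero, add_zero, one_mul] at h1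
  filter_upwards [h1.eventually_lt_const hx, eventually_ge_atTop 1] with n hn1 hn2
  set K := n / N + 1 with hK
  have hKpos : (0 : ℝ) < ((K : ℕ) : ℝ) := by
    rw [hK]; positivity
  have h2 := Nat.descFactorial_le_pow K j
  push_cast [Nat.cast_sub h2]
  have h3 : ((K.choose j : ℕ) : ℝ) * (M : ℝ) ≤ ((K : ℝ) * N) ^ j * (x / (j.factorial : ℝ)) := by
    have h4 : ((K.choose j : ℕ) : ℝ) ≤ (K : ℝ) ^ j / (j.factorial : ℝ) :=
      Nat.choose_le_pow_div j K
    calc ((K.choose j : ℕ) : ℝ) * (M : ℝ) ≤ ((K : ℝ) ^ j / (j.factorial : ℝ)) *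
          (x * (N : ℝ) ^ j) := mul_le_mul h4 hM (by positivity) (by positivity)
      _ = ((K : ℝ) * N) ^ j * (x / (j.factorial : ℝ)) := by rw [mul_pow]; ring
  have h5 : ((K : ℝ) ^ j - (K.descFactorial j : ℝ)) * (N : ℝ) ^ j * 2 ^ j =
      ((K : ℝ) * N) ^ j * (2 ^ j * (1 - (K.descFactorial j : ℝ) / (K : ℝ) ^ j)) := by
    rw [mul_pow]
    field_simp
  have hx0 : 0 ≤ x := by
    have : (0 : ℝ) ≤ x * (N : ℝ) ^ j := le_trans (by positivity) hM
    have hNj : (0 : ℝ) < (N : ℝ) ^ j := by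
      have : (0 : ℝ) < N := by exact_mod_cast hN
      positivity
    by_contra hneg
    push Not at hneg
    have := mul_neg_of_neg_of_pos hneg hNj
    linarith
  have h6 : 0 ≤ x / (j.factorial : ℝ) + 2 ^ j * (1 - (K.descFactorial j : ℝ) / (K : ℝ) ^ j) := by
    have h7 : (K.descFactorial j : ℝ) / (K : ℝ) ^ j ≤ 1 := by
      rw [div_le_one (by positivity)]
      exact_mod_cast h2
    have h8 : 0 ≤ 1 - (K.descFactorial j : ℝ) / (K : ℝ) ^ j := by linarith
    positivity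
  have h9 := KN_pow_le N n j hn2
  rw [← hK] at h9
  calc ((K.choose j : ℕ) : ℝ) * (M : ℝ) + ((K : ℝ) ^ j - (K.descFactorial j : ℝ)) *
        (N : ℝ) ^ j * 2 ^ j ≤ ((K : ℝ) * N) ^ j * (x / (j.factorial : ℝ)) +
          ((K : ℝ) * N) ^ j * (2 ^ j * (1 - (K.descFactorial j : ℝ) / (K : ℝ) ^ j)) := by
        rw [h5]; exact add_le_add_left h3 _
    _ = ((K : ℝ) * N) ^ j * (x / (j.factorial : ℝ) + 2 ^ j * (1 - (K.descFactorial j : ℝ) /
          (K : ℝ) ^ j)) := by ring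
    _ ≤ ((1 + (N : ℝ) / n) ^ j * (n : ℝ) ^ j) * (x / (j.factorial : ℝ) + 2 ^ j * (1 -
          (K.descFactorial j : ℝ) / (K : ℝ) ^ j)) := mul_le_mul_of_nonneg_right h9 h6
    _ = ((1 + (N : ℝ) / n) ^ j * (x / (j.factorial : ℝ) + 2 ^ j * (1 -
          (K.descFactorial j : ℝ) / (K : ℝ) ^ j))) * (n : ℝ) ^ j := by ring
    _ ≤ c * (n : ℝ) ^ j := mul_le_mul_of_nonneg_right hn1.le (by positivity)

theorem defect_le (N D r : ℕ) {η η' : ℝ} (hr : (1 - η) * (N : ℝ) ^ D ≤ r)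
    (hη' : η / (D.factorial : ℝ) < η' ∨ (η ≤ 0 ∧ 0 ≤ η')) (hη : 0 ≤ η) :
    ∀ᶠ n : ℕ in atTop, (((n / N + 1).choose D * (N ^ D - r) : ℕ) : ℝ) ≤ η' * (n : ℝ) ^ D := by
  have hN0 : ((N ^ D - r : ℕ) : ℝ) ≤ η * (N : ℝ) ^ D := by
    rcases le_total (N ^ D) r with h | h
    · rw [Nat.sub_eq_zero_of_le h, Nat.cast_zero]
      positivity
    · rw [Nat.cast_sub h]
      push_cast
      linarith
  rcases hη' with hη' | ⟨h0, h1⟩
  · have h1 : Tendsto (fun n : ℕ => (1 + (N : ℝ) / n) ^ D * (η / (D.factorial : ℝ))) atTop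
      (nhds (1 * (η / (D.factorial : ℝ)))) := (tendsto_one_add_div N D).mul tendsto_const_nhds
    rw [one_mul] at h1
    filter_upwards [h1.eventually_lt_const hη', eventually_ge_atTop 1] with n hn1 hn2
    set K := n / N + 1 with hK
    have h9 := KN_pow_le N n D hn2
    rw [← hK] at h9
    push_cast
    have h4 : ((K.choose D : ℕ) : ℝ) ≤ (K : ℝ) ^ D / (D.factorial : ℝ) :=
      Nat.choose_le_pow_div D K
    calc ((K.choose D : ℕ) : ℝ) * ((N ^ D - r : ℕ) : ℝ) ≤ ((K : ℝ) ^ D / (D.factorial : ℝ)) *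
          (η * (N : ℝ) ^ D) := mul_le_mul h4 hN0 (by positivity) (by positivity)
      _ = ((K : ℝ) * N) ^ D * (η / (D.factorial : ℝ)) := by rw [mul_pow]; ring
      _ ≤ ((1 + (N : ℝ) / n) ^ D * (n : ℝ) ^ D) * (η / (D.factorial : ℝ)) :=
          mul_le_mul_of_nonneg_right h9 (by positivity)
      _ = ((1 + (N : ℝ) / n) ^ D * (η / (D.factorial : ℝ))) * (n : ℝ) ^ D := by ring
      _ ≤ η' * (n : ℝ) ^ D := mul_le_mul_of_nonneg_right hn1.le (by positivity)
  · have hη0 : η = 0 := le_antisymm h0 hη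
    subst hη0
    rw [zero_mul] at hN0
    have h2 : N ^ D - r = 0 := by
      have : (((N ^ D - r : ℕ)) : ℝ) = 0 := le_antisymm hN0 (by positivity)
      exact_mod_cast this
    refine Filter.Eventually.of_forall fun n => ?_
    rw [h2, mul_zero, Nat.cast_zero]
    positivity

end Count

section Upper

variable {k : Type*} [Field k] [CharZero k]

theorem upper_of_AR {j E : ℕ} (hj : 2 ≤ j) {x η : ℝ} (hx : 0 ≤ x) (hη : 0 ≤ η)
    (hAR : AR k (Finset.univ : Finset (Fin (E + j))) (xU j x) η) {c η' : ℝ}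
    (hc : x / (j.factorial : ℝ) < c)
    (hη' : η / ((E + j).factorial : ℝ) < η' ∨ (η ≤ 0 ∧ 0 ≤ η')) :
    ∀ᶠ n : ℕ in atTop, ∀ t R : ℕ, c * (n : ℝ) ^ j ≤ t → t ≤ R →
      ∃ G : MvPolynomial (Fin R × Fin (n + 1)) k, G ≠ 0 ∧
        ∀ P : Fin R × Fin (n + 1) → k, eval P G ≠ 0 →
        (Module.finrank k (homogeneousSubmodule (Fin (n + 1)) k (E + j)) : ℝ) ≤
          (Module.finrank k (degPart (powSeq P j) t E) : ℝ) + η' * (n : ℝ) ^ (E + j) := by
  have h1 := exists_config (k := k) (j := j) (D := E + j) (by omega) x η hAR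
  obtain ⟨N, ⟨r, hr1, hr2⟩, hN⟩ := (h1.and (eventually_ge_atTop 1)).exists
  set M : ℕ := ⌊x * (N : ℝ) ^ j⌋₊ with hM
  have hM' : (M : ℝ) ≤ x * (N : ℝ) ^ j := Nat.floor_le (by positivity)
  filter_upwards [count_le N j M hN hM' hc, defect_le N (E + j) r hr1 hη' hη] with n hn1 hn2
  intro t R ht htR
  obtain ⟨a, ha⟩ := hr2 (n / N + 1)
  have ht' : (n / N + 1).choose j * M + ((n / N + 1) ^ j - (n / N + 1).descFactorial j) *
      N ^ j * 2 ^ j ≤ t := by exact_mod_cast hn1.trans ht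
  obtain ⟨P0, hP0⟩ := exists_points (k := k) (E := E) (R := R) hj (le_KN N n hN) a ha ht' htR
  obtain ⟨G, hG1, hG2⟩ := semicont_degPart P0 j t E htR
  refine ⟨G, ?_, fun P hP => ?_⟩
  · rintro rfl
    exact hG1 (map_zero _)
  · have h3 := hG2 P hP
    have h4 : (Module.finrank k (homogeneousSubmodule (Fin (n + 1)) k (E + j)) : ℝ) ≤
        (Module.finrank k (degPart (powSeq P j) t E) : ℝ) +
          (((n / N + 1).choose (E + j) * (N ^ (E + j) - r) : ℕ) : ℝ) := by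
      exact_mod_cast hP0.trans (Nat.add_le_add_right h3 _)
    linarith

end Upper

end Pool.Agent.Helper45
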