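import Mathlib
import Pool.Agent.Helper45.ShUnif

namespace Pool.Agent.Helper45

open Filter

set_option linter.unusedSectionVars false

section ShThr

theorem thr_at_zero {j : ℕ} (b : ℕ) : thr j b 0 = 1 / (b.factorial : ℝ) := by
  unfold thr
  rw [Finset.sum_range_succ']
  rw [Finset.sum_eq_zero]
  · simp
  · intro i _
    rw [neg_zero, zero_pow (Nat.succ_ne_zero i), zero_div]

theorem thr_of_lt {j b : ℕ} (h : b < j) (c : ℝ) : thr j b c = 1 / (b.factorial : ℝ) := by
  unfold thr
  rw [Nat.div_eq_of_lt h]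
  simp

theorem thr_self {j : ℕ} (hj : 1 ≤ j) (c : ℝ) : thr j j c = 1 / (j.factorial : ℝ) - c := by
  unfold thr
  rw [Nat.div_self hj, Finset.sum_range_succ, Finset.sum_range_one]
  simp
  ring

theorem continuous_thr (j b : ℕ) : Continuous (thr j b) := by
  unfold thr
  refine continuous_finsetSum _ fun i _ => ?_
  exact (continuous_neg.pow i).div_const _

theorem hasDerivAt_thr {j : ℕ} (hj : 1 ≤ j) (b : ℕ) (c : ℝ) :
    HasDerivAt (thr j b) (-(if j ≤ b then thr j (b - j) c else 0)) c := by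
  have h1 : HasDerivAt (thr j b) (∑ i ∈ Finset.range (b / j + 1),
      ((i : ℝ) * (-c) ^ (i - 1) * (-1)) / ((i.factorial : ℝ) * ((b - i * j).factorial : ℝ))) c := by
    unfold thr
    refine HasDerivAt.fun_sum fun i _ => ?_
    exact ((hasDerivAt_neg c).pow i).div_const _
  convert h1 using 1
  rw [Finset.sum_range_succ']
  by_cases h : j ≤ b
  · rw [if_pos h]
    have e : b / j = (b - j) / j + 1 := Nat.div_eq_sub_div hj h
    rw [e]
    simp only [Nat.cast_zero, zero_mul, zero_div, add_zero]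
    unfold thr
    rw [← Finset.sum_neg_distrib]
    refine Finset.sum_congr rfl fun i hi => ?_
    have e2 : b - (i + 1) * j = b - j - i * j := by
      rw [add_mul, one_mul]; omega
    rw [e2, Nat.factorial_succ, Nat.add_sub_cancel]
    push_cast
    have h4 : (i.factorial : ℝ) ≠ 0 := by positivity
    have h5 : ((b - j - i * j).factorial : ℝ) ≠ 0 := by positivity
    have h6 : (i : ℝ) + 1 ≠ 0 := by positivity
    field_simp
  · rw [if_neg h, Nat.div_eq_of_lt (by omega)]
    simp

/-- Positivity on an initial interval passes to lower degrees. -/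
theorem thr_pos_of_pos {j : ℕ} (hj : 1 ≤ j) (b : ℕ) :
    ∀ c : ℝ, (∀ s, 0 ≤ s → s ≤ c → 0 < thr j b s) → ∀ b' ≤ b, ∀ s, 0 ≤ s → s ≤ c →
      0 < thr j b' s := by
  induction b with
  | zero =>
    intro c h b' hb' s hs0 hsc
    have : b' = 0 := by omega
    rw [this]
    exact h s hs0 hsc
  | succ b ih =>
    intro c h b' hb'
    -- first the case b
    have hb : ∀ s, 0 ≤ s → s ≤ c → 0 < thr j b s := by
      by_contra hcon
      push Not at hcon
      obtain ⟨s, hs0, hsc, hs⟩ := hcon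
      let Z : Set ℝ := {s | 0 ≤ s ∧ thr j b s ≤ 0}
      have hZne : Z.Nonempty := ⟨s, hs0, hs⟩
      have hZbdd : BddBelow Z := ⟨0, fun x hx => hx.1⟩
      have hZcl : IsClosed Z := by
        have h1 : Z = Set.Ici 0 ∩ (thr j b) ⁻¹' Set.Iic 0 := by
          ext x; rfl
        rw [h1]
        exact isClosed_Ici.inter (isClosed_Iic.preimage (continuous_thr j b))
      have hmem := hZcl.csInf_mem hZne hZbdd
      set c0 := sInf Z with hc0
      have hc0c : c0 ≤ c := (csInf_le hZbdd (show s ∈ Z from ⟨hs0, hs⟩)).trans hsc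
      have hbelow : ∀ x, 0 ≤ x → x < c0 → 0 < thr j b x := by
        intro x hx0 hxc
        by_contra hneg
        push Not at hneg
        have := csInf_le hZbdd (show x ∈ Z from ⟨hx0, hneg⟩)
        linarith
      have hc0pos : 0 < c0 := by
        refine lt_of_le_of_ne hmem.1 ?_
        intro h0
        have h1 := hmem.2
        rw [← h0, thr_at_zero] at h1
        have : (0 : ℝ) < 1 / (b.factorial : ℝ) := by positivity
        linarith
      have hlow : ∀ b' ≤ b, 0 ≤ thr j b' c0 := by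
        intro b' hb'
        have h1 : Tendsto (thr j b') (nhdsWithin c0 (Set.Iio c0)) (nhds (thr j b' c0)) :=
          (continuous_thr j b').continuousAt.tendsto.mono_left nhdsWithin_le_nhds
        refine ge_of_tendsto h1 ?_
        have h2 : ∀ᶠ x in nhdsWithin c0 (Set.Iio c0), 0 < x :=
          (eventually_gt_nhds hc0pos).filter_mono nhdsWithin_le_nhds
        filter_upwards [h2, self_mem_nhdsWithin] with x hx hx2
        exact (ih x (fun s hs0 hsx => hbelow s hs0 (lt_of_le_of_lt hsx hx2)) b' hb' x hx.le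
          le_rfl).le
      have hrec := thr_rec hj b c0
      have h1 := h c0 hc0pos.le hc0c
      have h2 : (0 : ℝ) < ((b : ℝ) + 1) * thr j (b + 1) c0 := by positivity
      rw [hrec] at h2
      split_ifs at h2 with hjb
      · have h3 := hlow (b + 1 - j) (by omega)
        have h4 : 0 ≤ (j : ℝ) * c0 * thr j (b + 1 - j) c0 := by positivity
        have h5 := hmem.2
        linarith
      · have h5 := hmem.2
        linarith
    intro s hs0 hsc
    rcases Nat.lt_or_ge b' (b + 1) with h1 | h1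
    · exact ih c hb b' (by omega) s hs0 hsc
    · have : b' = b + 1 := by omega
      rw [this]
      exact h s hs0 hsc

/-- `c` is the least zero. -/
def IsZ (j b : ℕ) (c : ℝ) : Prop := 0 < c ∧ thr j b c = 0 ∧ ∀ s, 0 ≤ s → s < c → 0 < thr j b s

theorem exists_isZ {j b : ℕ} (hj : 1 ≤ j) (hb : j ≤ b) : ∃ c, IsZ j b c := by
  have h0 : ∃ s, 0 ≤ s ∧ thr j b s ≤ 0 := by
    by_contra hcon
    push Not at hcon
    have h1 := thr_pos_of_pos hj b (1 / (j.factorial : ℝ)) (fun s hs0 _ => hcon s hs0) j hb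
      (1 / (j.factorial : ℝ)) (by positivity) le_rfl
    rw [thr_self hj, sub_self] at h1
    exact lt_irrefl _ h1
  obtain ⟨s, hs0, hs⟩ := h0
  let Z : Set ℝ := {s | 0 ≤ s ∧ thr j b s ≤ 0}
  have hZne : Z.Nonempty := ⟨s, hs0, hs⟩
  have hZbdd : BddBelow Z := ⟨0, fun x hx => hx.1⟩
  have hZcl : IsClosed Z := by
    have h1 : Z = Set.Ici 0 ∩ (thr j b) ⁻¹' Set.Iic 0 := by
      ext x; rfl
    rw [h1]
    exact isClosed_Ici.inter (isClosed_Iic.preimage (continuous_thr j b))
  have hmem := hZcl.csInf_mem hZne hZbdd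
  set c0 := sInf Z with hc0
  have hbelow : ∀ x, 0 ≤ x → x < c0 → 0 < thr j b x := by
    intro x hx0 hxc
    by_contra hneg
    push Not at hneg
    have := csInf_le hZbdd (show x ∈ Z from ⟨hx0, hneg⟩)
    linarith
  have hc0pos : 0 < c0 := by
    refine lt_of_le_of_ne hmem.1 ?_
    intro h0
    have h1 := hmem.2
    rw [← h0, thr_at_zero] at h1
    have : (0 : ℝ) < 1 / (b.factorial : ℝ) := by positivity
    linarith
  refine ⟨c0, hc0pos, le_antisymm hmem.2 ?_, hbelow⟩
  have h1 : Tendsto (thr j b) (nhdsWithin c0 (Set.Iio c0)) (nhds (thr j b c0)) :=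
    (continuous_thr j b).continuousAt.tendsto.mono_left nhdsWithin_le_nhds
  refine ge_of_tendsto h1 ?_
  have h2 : ∀ᶠ x in nhdsWithin c0 (Set.Iio c0), 0 < x :=
    (eventually_gt_nhds hc0pos).filter_mono nhdsWithin_le_nhds
  filter_upwards [h2, self_mem_nhdsWithin] with x hx hx2
  exact (hbelow x hx.le hx2).le

theorem isZ_le {j b : ℕ} {c : ℝ} (h : IsZ j b c) : j ≤ b := by
  by_contra hlt
  have h1 := h.2.1
  rw [thr_of_lt (by omega)] at h1
  have : (0 : ℝ) < 1 / (b.factorial : ℝ) := by positivity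
  linarith

theorem isZ_nonneg {j b : ℕ} (hj : 1 ≤ j) {c : ℝ} (h : IsZ j b c) :
    ∀ b' ≤ b, ∀ s, 0 ≤ s → s ≤ c → 0 ≤ thr j b' s := by
  intro b' hb' s hs0 hsc
  rcases lt_or_eq_of_le hsc with hlt | heq
  · exact (thr_pos_of_pos hj b s (fun x hx0 hxs => h.2.2 x hx0 (lt_of_le_of_lt hxs hlt)) b' hb' s
      hs0 le_rfl).le
  · subst heq
    have h1 : Tendsto (thr j b') (nhdsWithin s (Set.Iio s)) (nhds (thr j b' s)) :=
      (continuous_thr j b').continuousAt.tendsto.mono_left nhdsWithin_le_nhds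
    refine ge_of_tendsto h1 ?_
    have h2 : ∀ᶠ x in nhdsWithin s (Set.Iio s), 0 < x :=
      (eventually_gt_nhds h.1).filter_mono nhdsWithin_le_nhds
    filter_upwards [h2, self_mem_nhdsWithin] with x hx hx2
    exact (thr_pos_of_pos hj b x (fun y hy0 hyx => h.2.2 y hy0 (lt_of_le_of_lt hyx hx2)) b' hb' x
      hx.le le_rfl).le

theorem isZ_pos {j : ℕ} (hj : 2 ≤ j) (b : ℕ) : ∀ c, IsZ j b c → ∀ b' < b, 0 < thr j b' c := by
  induction b using Nat.strong_induction_on with
  | _ b ih =>
    intro c hc b' hb'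
    have hnn := isZ_nonneg (by omega) hc
    refine lt_of_le_of_ne (hnn b' hb'.le c hc.1.le le_rfl) ?_
    intro h0
    have hZ' : IsZ j b' c := by
      refine ⟨hc.1, h0.symm, fun s hs0 hsc => ?_⟩
      exact thr_pos_of_pos (by omega) b s (fun y hy0 hys => hc.2.2 y hy0 (lt_of_le_of_lt hys hsc))
        b' hb'.le s hs0 le_rfl
    have hjb' := isZ_le hZ'
    have h1 := ih b' hb' c hZ' (b' + 1 - j) (by omega)
    have h2 := thr_rec (by omega : 1 ≤ j) b' c
    rw [if_pos (by omega), ← h0] at h2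
    have h3 := hnn (b' + 1) (by omega) c hc.1.le le_rfl
    have h4 : 0 ≤ ((b' : ℝ) + 1) * thr j (b' + 1) c := by positivity
    rw [h2] at h4
    have h5 : 0 < (j : ℝ) * c * thr j (b' + 1 - j) c := by
      have := hc.1
      have hj0 : (0 : ℝ) < j := by
        exact_mod_cast (by omega : 0 < j)
      positivity
    linarith

/-- The function becomes negative right after its least zero. -/
theorem isZ_neg {j b : ℕ} (hj : 2 ≤ j) {c : ℝ} (h : IsZ j b c) {c' : ℝ} (hc' : c < c') :
    ∃ s, c < s ∧ s < c' ∧ thr j b s < 0 := by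
  have hjb := isZ_le h
  have h1 := hasDerivAt_thr (by omega : 1 ≤ j) b c
  rw [if_pos hjb] at h1
  have h2 := isZ_pos hj b c h (b - j) (by omega)
  have h3 := h1.tendsto_slope
  have h4 : Tendsto (slope (thr j b) c) (nhdsWithin c (Set.Ioi c)) (nhds (-thr j (b - j) c)) :=
    h3.mono_left (nhdsWithin_mono c fun x hx => ne_of_gt hx)
  have h5 := h4.eventually_lt_const (show -thr j (b - j) c < 0 by linarith)
  have h6 : ∀ᶠ x in nhdsWithin c (Set.Ioi c), x < c' :=
    (eventually_lt_nhds hc').filter_mono nhdsWithin_le_nhds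
  obtain ⟨s, ⟨hs1, hs2⟩, hs3⟩ := ((h5.and h6).and self_mem_nhdsWithin).exists
  refine ⟨s, hs3, hs2, ?_⟩
  rw [slope_def_field, h.2.1, sub_zero] at hs1
  have hsc : 0 < s - c := sub_pos.2 hs3
  rw [div_lt_iff₀ hsc, zero_mul] at hs1
  exact hs1

end ShThr

end Pool.Agent.Helper45
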