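import Mathlib
import Pool.Agent.Helper45.ShCount
import Pool.Agent.Helper45.ShThr

namespace Pool.Agent.Helper45

open MvPolynomial Filter

set_option linter.unusedSectionVars false

section Upper2

variable {k : Type*} [Field k] [CharZero k]

theorem exists_below {j b : ℕ} {c η : ℝ} (hc : 0 < c) (h : thr j b c < η) :
    ∃ s, 0 ≤ s ∧ s < c ∧ thr j b s < η := by
  have h1 : Tendsto (thr j b) (nhdsWithin c (Set.Iio c)) (nhds (thr j b c)) :=
    (continuous_thr j b).continuousAt.tendsto.mono_left nhdsWithin_le_nhds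
  have h2 : ∀ᶠ x in nhdsWithin c (Set.Iio c), 0 < x :=
    (eventually_gt_nhds hc).filter_mono nhdsWithin_le_nhds
  obtain ⟨s, ⟨hs1, hs2⟩, hs3⟩ :=
    (((h1.eventually_lt_const h).and h2).and self_mem_nhdsWithin).exists
  exact ⟨s, hs2.le, hs3, hs1⟩

theorem uthr_mul (j b : ℕ) (s : ℝ) :
    uthr j b ((j.factorial : ℝ) * s) = (b.factorial : ℝ) * thr j b s := by
  unfold uthr
  rw [mul_div_cancel_left₀]
  positivity

/-- The codimension is at most the expected one, asymptotically. -/
theorem upper {j E : ℕ} (hj : 2 ≤ j) {c η : ℝ} (hc : 0 < c) (hη : 0 < η)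
    (h : thr j (E + j) c < η) :
    ∀ᶠ n : ℕ in atTop, ∀ t R : ℕ, c * (n : ℝ) ^ j ≤ t → t ≤ R →
      ∃ G : MvPolynomial (Fin R × Fin (n + 1)) k, G ≠ 0 ∧
        ∀ P : Fin R × Fin (n + 1) → k, eval P G ≠ 0 →
        (Module.finrank k (homogeneousSubmodule (Fin (n + 1)) k (E + j)) : ℝ) ≤
          (Module.finrank k (degPart (powSeq P j) t E) : ℝ) + η * (n : ℝ) ^ (E + j) := by
  obtain ⟨s, hs0, hsc, hs⟩ := exists_below hc h
  obtain ⟨η1, hη1, hη2⟩ := exists_between (max_lt hs hη)
  have hD : (0 : ℝ) < ((E + j).factorial : ℝ) := by positivity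
  have hη10 : 0 < η1 := (le_max_right _ _).trans_lt hη1
  have hAR := (AR_unif (k := k) (j := j) (D := E + j) (by omega : 1 ≤ j)
    (x := (j.factorial : ℝ) * s) (by positivity)).2 (((E + j).factorial : ℝ) * η1)
    (by positivity) (by
      rw [uthr_mul]
      exact mul_lt_mul_of_pos_left ((le_max_left _ _).trans_lt hη1) hD)
  refine upper_of_AR hj (by positivity) (by positivity) hAR ?_ (Or.inl ?_)
  · rw [mul_div_cancel_left₀ _ (by positivity)]
    exact hsc
  · rw [mul_div_cancel_left₀ _ (by positivity)]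
    exact hη2

/-- Above the threshold the ideal contains all forms. -/
theorem upper_exact {j E : ℕ} (hj : 2 ≤ j) {c : ℝ} (hc : 0 < c) (h : thr j (E + j) c < 0) :
    ∀ᶠ n : ℕ in atTop, ∀ t R : ℕ, c * (n : ℝ) ^ j ≤ t → t ≤ R →
      ∃ G : MvPolynomial (Fin R × Fin (n + 1)) k, G ≠ 0 ∧
        ∀ P : Fin R × Fin (n + 1) → k, eval P G ≠ 0 →
        Module.finrank k (homogeneousSubmodule (Fin (n + 1)) k (E + j)) =
          Module.finrank k (degPart (powSeq P j) t E) := by
  obtain ⟨s, hs0, hsc, hs⟩ := exists_below hc h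
  have hD : (0 : ℝ) < ((E + j).factorial : ℝ) := by positivity
  have hAR := (AR_unif (k := k) (j := j) (D := E + j) (by omega : 1 ≤ j)
    (x := (j.factorial : ℝ) * s) (by positivity)).1 (by
      rw [uthr_mul]
      exact mul_neg_of_pos_of_neg hD hs)
  have h1 := upper_of_AR (E := E) (η' := 0) (c := c) hj (by positivity) le_rfl hAR (by
    rw [mul_div_cancel_left₀ _ (by positivity)]
    exact hsc) (Or.inr ⟨le_rfl, le_rfl⟩)
  refine h1.mono fun n hn t R ht htR => ?_
  obtain ⟨G, hG1, hG2⟩ := hn t R ht htR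
  refine ⟨G, hG1, fun P hP => le_antisymm ?_ ?_⟩
  · have h2 := hG2 P hP
    rw [zero_mul, add_zero] at h2
    exact_mod_cast h2
  · exact Submodule.finrank_mono (degPart_le (powSeq_isHomogeneous P j) t E)

end Upper2

end Pool.Agent.Helper45
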