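import Mathlib
import Pool.Agent.Helper45.ShUpper

namespace Pool.Agent.Helper45

open MvPolynomial Filter

set_option linter.unusedSectionVars false

section Dims

variable {k : Type*} [Field k]

theorem finrank_homog_fin (n E : ℕ) :
    Module.finrank k (homogeneousSubmodule (Fin (n + 1)) k E) = (n + E).choose E := by
  rw [finrank_homog, Fintype.card_fin]
  congr 1
  omega

theorem dim_ge (n E : ℕ) :
    (n : ℝ) ^ E / (E.factorial : ℝ) ≤
      (Module.finrank k (homogeneousSubmodule (Fin (n + 1)) k E) : ℝ) := by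
  rw [finrank_homog_fin]
  have h1 := Nat.pow_le_choose (α := ℝ) E (n + E)
  have h2 : n + E + 1 - E = n + 1 := by omega
  rw [h2] at h1
  refine le_trans ?_ h1
  refine div_le_div_of_nonneg_right ?_ (by positivity)
  refine pow_le_pow_left₀ (by positivity) ?_ E
  push_cast
  linarith

theorem dim_le (k : Type*) [Field k] (E : ℕ) {ε : ℝ} (hε : 0 < ε) :
    ∀ᶠ n : ℕ in atTop, (Module.finrank k (homogeneousSubmodule (Fin (n + 1)) k E) : ℝ) ≤
      (1 / (E.factorial : ℝ) + ε) * (n : ℝ) ^ E := by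
  have h1 : Tendsto (fun n : ℕ => (1 + (E : ℝ) / n) ^ E * (1 / (E.factorial : ℝ))) atTop
      (nhds (1 * (1 / (E.factorial : ℝ)))) := (tendsto_one_add_div E E).mul tendsto_const_nhds
  rw [one_mul] at h1
  filter_upwards [h1.eventually_lt_const (show 1 / (E.factorial : ℝ) < 1 / (E.factorial : ℝ) + ε by
    linarith), eventually_ge_atTop 1] with n hn1 hn2
  rw [finrank_homog_fin]
  have h4 : (((n + E).choose E : ℕ) : ℝ) ≤ ((n + E : ℕ) : ℝ) ^ E / (E.factorial : ℝ) :=
    Nat.choose_le_pow_div E (n + E)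
  refine h4.trans ?_
  have hn' : (n : ℝ) ≠ 0 := by positivity
  have h5 : ((n + E : ℕ) : ℝ) = (1 + (E : ℝ) / n) * n := by
    push_cast
    field_simp
  rw [h5, mul_pow]
  calc (1 + (E : ℝ) / n) ^ E * (n : ℝ) ^ E / (E.factorial : ℝ) =
        ((1 + (E : ℝ) / n) ^ E * (1 / (E.factorial : ℝ))) * (n : ℝ) ^ E := by ring
    _ ≤ (1 / (E.factorial : ℝ) + ε) * (n : ℝ) ^ E :=
        mul_le_mul_of_nonneg_right hn1.le (by positivity)

end Dims

section Steps

variable {k : Type*} [Field k] {σ : Type*} [Fintype σ]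

theorem degPart_mono {f : ℕ → MvPolynomial σ k} {s t : ℕ} (hst : s ≤ t) (E : ℕ) :
    degPart f s E ≤ degPart f t E := by
  unfold degPart
  exact iSup₂_le fun i hi => le_iSup₂ (f := fun (i : ℕ) (_ : i ∈ Finset.range t) =>
    (homogeneousSubmodule σ k E).map (LinearMap.mulLeft k (f i))) i
    (Finset.range_subset_range.2 hst hi)

theorem lowPart_mono {f : ℕ → MvPolynomial σ k} {s t : ℕ} (hst : s ≤ t) (j E : ℕ) :
    lowPart f j s E ≤ lowPart f j t E := by
  unfold lowPart
  split_ifs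
  · exact degPart_mono hst _
  · exact le_rfl

theorem step_le' {f : ℕ → MvPolynomial σ k} {j : ℕ} (hf : ∀ a, (f a).IsHomogeneous j)
    (t E : ℕ) : Module.finrank k (degPart f (t + 1) E) + Module.finrank k (lowPart f j t E) ≤
      Module.finrank k (degPart f t E) + Module.finrank k (homogeneousSubmodule σ k E) := by
  by_cases h0 : f t = 0
  · have h1 : degPart f (t + 1) E = degPart f t E := by
      rw [degPart_succ, h0]
      refine le_antisymm (sup_le ?_ le_rfl) le_sup_right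
      rintro _ ⟨p, _, rfl⟩
      rw [LinearMap.mulLeft_apply, zero_mul]
      exact Submodule.zero_mem _
    rw [h1]
    exact Nat.add_le_add_left (Submodule.finrank_mono (lowPart_le hf t E)) _
  · exact finrank_step_le hf t E h0

theorem tele_le {f : ℕ → MvPolynomial σ k} {j : ℕ} (hf : ∀ a, (f a).IsHomogeneous j)
    (s t E : ℕ) (hst : s ≤ t) {B : ℝ}
    (hB : (Module.finrank k (homogeneousSubmodule σ k E) : ℝ) ≤
      Module.finrank k (lowPart f j s E) + B) :
    (Module.finrank k (degPart f t E) : ℝ) ≤ Module.finrank k (degPart f s E) +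
      ((t : ℝ) - s) * B := by
  induction t, hst using Nat.le_induction with
  | base => rw [sub_self, zero_mul, add_zero]
  | succ t hst ih =>
    have h1 := step_le' hf t E
    have hfin : Module.Finite k (lowPart f j t E) :=
      Submodule.finiteDimensional_of_le (lowPart_le hf t E)
    have h2 : Module.finrank k (lowPart f j s E) ≤ Module.finrank k (lowPart f j t E) :=
      Submodule.finrank_mono (lowPart_mono hst j E)
    have h1' : (Module.finrank k (degPart f (t + 1) E) : ℝ) + Module.finrank k (lowPart f j t E) ≤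
      Module.finrank k (degPart f t E) + Module.finrank k (homogeneousSubmodule σ k E) := by
      exact_mod_cast h1
    have h2' : (Module.finrank k (lowPart f j s E) : ℝ) ≤ Module.finrank k (lowPart f j t E) := by
      exact_mod_cast h2
    push_cast
    have h3 : ((t : ℝ) + 1 - s) * B = ((t : ℝ) - s) * B + B := by ring
    rw [h3]
    linarith

end Steps

section Riemann

theorem riemann {j : ℕ} (hj : 1 ≤ j) (E : ℕ) {c ε : ℝ} (hc : 0 ≤ c) (hε : 0 < ε) :
    ∃ L : ℕ, 1 ≤ L ∧ ∀ i < L, (c / L) * thr j E (i * (c / L)) ≤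
      thr j (E + j) (i * (c / L)) - thr j (E + j) (((i + 1 : ℕ) : ℝ) * (c / L)) + ε * (c / L) := by
  have hu : UniformContinuousOn (thr j E) (Set.Icc 0 c) :=
    isCompact_Icc.uniformContinuousOn_of_continuous (continuous_thr j E).continuousOn
  rw [Metric.uniformContinuousOn_iff] at hu
  obtain ⟨δ, hδ, hu⟩ := hu ε hε
  obtain ⟨L, hL⟩ := exists_nat_gt (c / δ)
  have hL0 : (0 : ℝ) < L := lt_of_le_of_lt (by positivity) hL
  have hL1 : 1 ≤ L := by exact_mod_cast hL0
  refine ⟨L, hL1, fun i hi => ?_⟩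
  set h := c / L with hh
  have hh0 : 0 ≤ h := by positivity
  have hhδ : h < δ := by
    rw [hh, div_lt_iff₀ hL0]
    rw [div_lt_iff₀ hδ] at hL
    linarith
  have e1 : (((i + 1 : ℕ) : ℝ)) * h = i * h + h := by push_cast; ring
  rw [e1]
  have hLh : (L : ℝ) * h = c := by rw [hh]; field_simp
  have hic : i * h + h ≤ c := by
    rw [← e1, ← hLh]
    refine mul_le_mul_of_nonneg_right ?_ hh0
    exact_mod_cast hi
  have hi0 : 0 ≤ i * h := by positivity
  rcases eq_or_lt_of_le hh0 with h0 | hpos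
  · rw [← h0]
    simp
  · obtain ⟨ξ, hξ, hξ2⟩ := exists_hasDerivAt_eq_slope (thr j (E + j))
      (fun x => -(if j ≤ E + j then thr j (E + j - j) x else 0))
      (show i * h < i * h + h by linarith) (continuous_thr j (E + j)).continuousOn
      (fun x _ => hasDerivAt_thr hj (E + j) x)
    simp only [le_add_iff_nonneg_left, Nat.zero_le, if_true, Nat.add_sub_cancel] at hξ2
    have h2 : i * h + h - i * h = h := by ring
    rw [h2, eq_div_iff hpos.ne'] at hξ2
    have h3 := hu (i * h) ⟨hi0, by linarith⟩ ξ ⟨by linarith [hξ.1], by linarith [hξ.2]⟩ (by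
      rw [Real.dist_eq, abs_lt]
      constructor <;> linarith [hξ.1, hξ.2])
    rw [Real.dist_eq, abs_lt] at h3
    have h4 : thr j E (i * h) ≤ thr j E ξ + ε := by linarith [h3.2]
    have h5 : h * thr j E (i * h) ≤ h * (thr j E ξ + ε) := mul_le_mul_of_nonneg_left h4 hh0
    have h6 : h * (thr j E ξ + ε) = -(-thr j E ξ * h) + ε * h := by ring
    rw [h6, hξ2] at h5
    linarith

end Riemann

section Lower

variable {k : Type*} [Field k] [CharZero k]

theorem low_codim {j E : ℕ} (hj : 2 ≤ j) {s ε : ℝ} (hs : 0 ≤ s) (hε : 0 < ε)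
    (hnn : 0 ≤ thr j E s) :
    ∀ᶠ n : ℕ in atTop, ∀ t R : ℕ, s * (n : ℝ) ^ j ≤ t → t ≤ R →
      ∃ G : MvPolynomial (Fin R × Fin (n + 1)) k, G ≠ 0 ∧
        ∀ P : Fin R × Fin (n + 1) → k, eval P G ≠ 0 →
        (Module.finrank k (homogeneousSubmodule (Fin (n + 1)) k E) : ℝ) ≤
          (Module.finrank k (lowPart (powSeq P j) j t E) : ℝ) +
            (thr j E s + ε) * (n : ℝ) ^ E := by
  by_cases h : s = 0 ∨ E < j
  · have h1 : thr j E s = 1 / (E.factorial : ℝ) := by
      rcases h with h | h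
      · rw [h, thr_at_zero]
      · exact thr_of_lt h s
    filter_upwards [dim_le k E hε] with n hn t R _ _
    refine ⟨1, one_ne_zero, fun P _ => ?_⟩
    rw [h1]
    have : (0 : ℝ) ≤ (Module.finrank k (lowPart (powSeq P j) j t E) : ℝ) := by positivity
    linarith
  · push Not at h
    obtain ⟨h0, hjE⟩ := h
    have hs' : 0 < s := lt_of_le_of_ne hs (Ne.symm h0)
    have e : E - j + j = E := Nat.sub_add_cancel hjE
    have h1 := upper (k := k) (E := E - j) hj hs' (show 0 < thr j E s + ε by linarith)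
      (by rw [e]; linarith)
    rw [e] at h1
    refine h1.mono fun n hn t R ht htR => ?_
    obtain ⟨G, hG1, hG2⟩ := hn t R ht htR
    refine ⟨G, hG1, fun P hP => ?_⟩
    rw [lowPart_of_le _ _ hjE]
    exact hG2 P hP

theorem lower_generic {j E : ℕ} (hj : 2 ≤ j) {c ε : ℝ} (hc : 0 ≤ c) (hε : 0 < ε)
    (hnn : ∀ s, 0 ≤ s → s ≤ c → 0 ≤ thr j E s) :
    ∀ᶠ n : ℕ in atTop, ∀ R : ℕ, ⌈c * (n : ℝ) ^ j⌉₊ ≤ R →
      ∃ G : MvPolynomial (Fin R × Fin (n + 1)) k, G ≠ 0 ∧
        ∀ P : Fin R × Fin (n + 1) → k, eval P G ≠ 0 →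
        (Module.finrank k (degPart (powSeq P j) ⌈c * (n : ℝ) ^ j⌉₊ E) : ℝ) ≤
          (1 / ((E + j).factorial : ℝ) - thr j (E + j) c + ε) * (n : ℝ) ^ (E + j) := by
  -- parameters
  obtain ⟨δ, hδ, hδε⟩ : ∃ δ : ℝ, 0 < δ ∧ δ * (2 * c + 1) ≤ ε := by
    refine ⟨ε / (2 * c + 1), by positivity, ?_⟩
    rw [div_mul_cancel₀]
    positivity
  obtain ⟨L, hL1, hL⟩ := riemann (by omega : 1 ≤ j) E hc hδ
  set h := c / L with hh
  have hL0 : (0 : ℝ) < L := by exact_mod_cast hL1
  have hh0 : 0 ≤ h := by positivity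
  have hLh : (L : ℝ) * h = c := by rw [hh]; field_simp
  have hmem : ∀ i : ℕ, i ≤ L → 0 ≤ i * h ∧ i * h ≤ c := by
    intro i hi
    refine ⟨by positivity, ?_⟩
    rw [← hLh]
    exact mul_le_mul_of_nonneg_right (by exact_mod_cast hi) hh0
  have hall : ∀ᶠ n : ℕ in atTop, ∀ i ∈ Finset.range L, ∀ t R : ℕ, (i * h) * (n : ℝ) ^ j ≤ t →
      t ≤ R → ∃ G : MvPolynomial (Fin R × Fin (n + 1)) k, G ≠ 0 ∧
        ∀ P : Fin R × Fin (n + 1) → k, eval P G ≠ 0 →
        (Module.finrank k (homogeneousSubmodule (Fin (n + 1)) k E) : ℝ) ≤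
          (Module.finrank k (lowPart (powSeq P j) j t E) : ℝ) +
            (thr j E (i * h) + δ) * (n : ℝ) ^ E := by
    rw [Filter.eventually_all_finset]
    intro i hi
    have hi' := hmem i (Finset.mem_range.1 hi).le
    exact low_codim hj hi'.1 hδ (hnn _ hi'.1 hi'.2)
  set W : ℝ := ∑ i ∈ Finset.range L, (thr j E (i * h) + δ) with hW
  have hWn : ∀ᶠ n : ℕ in atTop, W ≤ δ * (n : ℝ) := by
    have h1 : Tendsto (fun n : ℕ => δ * (n : ℝ)) atTop atTop :=
      tendsto_natCast_atTop_atTop.const_mul_atTop hδ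
    exact h1.eventually_ge_atTop W
  filter_upwards [hall, hWn, eventually_ge_atTop 1] with n hn1 hn2 hn3
  intro R hR
  have hn0 : (1 : ℝ) ≤ n := by exact_mod_cast hn3
  let T : ℕ → ℕ := fun i => ⌈(i * h) * (n : ℝ) ^ j⌉₊
  have hTL : T L = ⌈c * (n : ℝ) ^ j⌉₊ := by
    simp only [T]
    rw [hLh]
  have hTmono : ∀ i l, i ≤ l → T i ≤ T l := by
    intro i l hil
    refine Nat.ceil_mono ?_
    have : (i : ℝ) ≤ l := by exact_mod_cast hil
    gcongr
  have hTR : ∀ i, i < L → T i ≤ R := by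
    intro i hi
    exact (hTmono i L hi.le).trans (hTL ▸ hR)
  have hex : ∀ i ∈ Finset.range L, ∃ G : MvPolynomial (Fin R × Fin (n + 1)) k, G ≠ 0 ∧
        ∀ P : Fin R × Fin (n + 1) → k, eval P G ≠ 0 →
        (Module.finrank k (homogeneousSubmodule (Fin (n + 1)) k E) : ℝ) ≤
          (Module.finrank k (lowPart (powSeq P j) j (T i) E) : ℝ) +
            (thr j E (i * h) + δ) * (n : ℝ) ^ E := by
    intro i hi
    exact hn1 i hi (T i) R (Nat.le_ceil _) (hTR i (Finset.mem_range.1 hi))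
  choose! G hG1 hG2 using hex
  refine ⟨∏ i ∈ Finset.range L, G i, Finset.prod_ne_zero_iff.2 hG1, fun P hP => ?_⟩
  rw [map_prod, Finset.prod_ne_zero_iff] at hP
  have hstep : ∀ i, i ≤ L → (Module.finrank k (degPart (powSeq P j) (T i) E) : ℝ) ≤
      ∑ l ∈ Finset.range i, ((T (l + 1) : ℝ) - T l) * ((thr j E (l * h) + δ) * (n : ℝ) ^ E) := by
    intro i
    induction i with
    | zero =>
      intro _
      have h0 : T 0 = 0 := by simp [T]
      rw [h0, degPart_zero, finrank_bot]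
      simp
    | succ i ih =>
      intro hi
      rw [Finset.sum_range_succ]
      have h1 := ih (by omega)
      have h2 := tele_le (powSeq_isHomogeneous P j) (T i) (T (i + 1)) E
        (hTmono i (i + 1) (by omega)) (hG2 i (Finset.mem_range.2 (by omega)) P
          (hP i (Finset.mem_range.2 (by omega))))
      linarith
  have hfinal := hstep L le_rfl
  rw [hTL] at hfinal
  refine hfinal.trans ?_
  have hterm : ∀ l ∈ Finset.range L, ((T (l + 1) : ℝ) - T l) *
      ((thr j E (l * h) + δ) * (n : ℝ) ^ E) ≤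
      (h * thr j E (l * h) + δ * h) * (n : ℝ) ^ (E + j) +
        (thr j E (l * h) + δ) * (n : ℝ) ^ E := by
    intro l hl
    have hl' := hmem l (Finset.mem_range.1 hl).le
    have hq : 0 ≤ thr j E (l * h) + δ := by
      have := hnn _ hl'.1 hl'.2
      linarith
    have h1 : (T (l + 1) : ℝ) ≤ (((l + 1 : ℕ) : ℝ) * h) * (n : ℝ) ^ j + 1 :=
      (Nat.ceil_lt_add_one (by positivity)).le
    have h2 : (l * h) * (n : ℝ) ^ j ≤ (T l : ℝ) := Nat.le_ceil _
    have h3 : (T (l + 1) : ℝ) - T l ≤ h * (n : ℝ) ^ j + 1 := by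
      push_cast at h1
      have : ((l : ℝ) + 1) * h * (n : ℝ) ^ j = l * h * (n : ℝ) ^ j + h * (n : ℝ) ^ j := by ring
      rw [this] at h1
      linarith
    calc ((T (l + 1) : ℝ) - T l) * ((thr j E (l * h) + δ) * (n : ℝ) ^ E) ≤
          (h * (n : ℝ) ^ j + 1) * ((thr j E (l * h) + δ) * (n : ℝ) ^ E) :=
          mul_le_mul_of_nonneg_right h3 (by positivity)
      _ = (h * thr j E (l * h) + δ * h) * (n : ℝ) ^ (E + j) +
          (thr j E (l * h) + δ) * (n : ℝ) ^ E := by rw [pow_add]; ring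
  refine (Finset.sum_le_sum hterm).trans ?_
  rw [Finset.sum_add_distrib, ← Finset.sum_mul, ← Finset.sum_mul, ← hW]
  have hR1 : ∑ l ∈ Finset.range L, (h * thr j E (l * h) + δ * h) ≤
      1 / ((E + j).factorial : ℝ) - thr j (E + j) c + 2 * δ * c := by
    have h1 : ∀ l ∈ Finset.range L, h * thr j E (l * h) + δ * h ≤
        (thr j (E + j) (l * h) - thr j (E + j) (((l + 1 : ℕ) : ℝ) * h)) + 2 * δ * h := by
      intro l hl
      have := hL l (Finset.mem_range.1 hl)
      linarith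
    refine (Finset.sum_le_sum h1).trans ?_
    rw [Finset.sum_add_distrib, Finset.sum_range_sub' (fun l : ℕ => thr j (E + j) ((l : ℝ) * h)),
      Finset.sum_const, Finset.card_range, nsmul_eq_mul, Nat.cast_zero, zero_mul, thr_at_zero, hLh]
    have : (L : ℝ) * (2 * δ * h) = 2 * δ * c := by rw [← hLh]; ring
    rw [this]
  have hR2 : W * (n : ℝ) ^ E ≤ δ * (n : ℝ) ^ (E + j) := by
    have h1 : (n : ℝ) ≤ (n : ℝ) ^ j := by
      calc (n : ℝ) = (n : ℝ) ^ 1 := (pow_one _).symm
        _ ≤ (n : ℝ) ^ j := pow_le_pow_right₀ hn0 (by omega)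
    calc W * (n : ℝ) ^ E ≤ (δ * (n : ℝ)) * (n : ℝ) ^ E :=
          mul_le_mul_of_nonneg_right hn2 (by positivity)
      _ ≤ (δ * (n : ℝ) ^ j) * (n : ℝ) ^ E := by gcongr
      _ = δ * (n : ℝ) ^ (E + j) := by rw [pow_add]; ring
  have hD0 : (0 : ℝ) ≤ (n : ℝ) ^ (E + j) := by positivity
  calc (∑ l ∈ Finset.range L, (h * thr j E (l * h) + δ * h)) * (n : ℝ) ^ (E + j) +
        W * (n : ℝ) ^ E ≤
      (1 / ((E + j).factorial : ℝ) - thr j (E + j) c + 2 * δ * c) * (n : ℝ) ^ (E + j) +
        δ * (n : ℝ) ^ (E + j) := add_le_add (mul_le_mul_of_nonneg_right hR1 hD0) hR2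
    _ = (1 / ((E + j).factorial : ℝ) - thr j (E + j) c + δ * (2 * c + 1)) *
        (n : ℝ) ^ (E + j) := by ring
    _ ≤ _ := by
        refine mul_le_mul_of_nonneg_right ?_ hD0
        linarith

/-- The dimension is at most the expected one, asymptotically, for every family of points. -/
theorem lower {j E : ℕ} (hj : 2 ≤ j) {c ε : ℝ} (hc : 0 ≤ c) (hε : 0 < ε)
    (hnn : ∀ s, 0 ≤ s → s ≤ c → 0 ≤ thr j E s) :
    ∀ᶠ n : ℕ in atTop, ∀ R : ℕ, (R : ℝ) ≤ c * (n : ℝ) ^ j →
      ∀ P : Fin R × Fin (n + 1) → k,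
        (Module.finrank k (degPart (powSeq P j) R E) : ℝ) ≤
          (1 / ((E + j).factorial : ℝ) - thr j (E + j) c + ε) * (n : ℝ) ^ (E + j) := by
  refine (lower_generic (k := k) hj hc hε hnn).mono fun n hn R hR P => ?_
  set T := ⌈c * (n : ℝ) ^ j⌉₊ with hT
  have hRT : R ≤ T := by
    have h1 : (R : ℝ) ≤ (T : ℝ) := hR.trans (Nat.le_ceil _)
    exact_mod_cast h1
  obtain ⟨G, hG1, hG2⟩ := hn T le_rfl
  let P' : Fin T × Fin (n + 1) → k := fun x =>
    if h : (x.1 : ℕ) < R then P (⟨x.1, h⟩, x.2) else 0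
  obtain ⟨G', hG'1, hG'2⟩ := semicont_degPart P' j T E le_rfl
  have hne : G * G' ≠ 0 := by
    refine mul_ne_zero hG1 ?_
    rintro rfl
    exact hG'1 (map_zero _)
  obtain ⟨Q, hQ⟩ : ∃ Q, eval Q (G * G') ≠ 0 := by
    by_contra hcon
    push Not at hcon
    exact hne (MvPolynomial.funext fun s => by rw [hcon s, map_zero])
  rw [map_mul] at hQ
  have h1 := hG2 Q (left_ne_zero_of_mul hQ)
  have h2 := hG'2 Q (right_ne_zero_of_mul hQ)
  have h3 : degPart (powSeq P j) R E ≤ degPart (powSeq P' j) T E := by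
    have e : degPart (powSeq P j) R E = degPart (powSeq P' j) R E := by
      unfold degPart
      refine iSup_congr fun a => iSup_congr fun ha => ?_
      rw [Finset.mem_range] at ha
      congr 2
      unfold powSeq
      rw [ptSeq_of_lt P ha, ptSeq_of_lt P' (lt_of_lt_of_le ha hRT)]
      congr 2
      funext s
      simp only [P']
      rw [dif_pos ha]
    rw [e]
    exact degPart_mono hRT E
  have hfin : Module.Finite k (degPart (powSeq P' j) T E) :=
    finite_degPart (powSeq_isHomogeneous P' j) T E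
  have h4 := Submodule.finrank_mono h3
  refine le_trans ?_ h1
  exact_mod_cast h4.trans h2

end Lower

end Pool.Agent.Helper45
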