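import Mathlib
import Pool.Agent.Helper45.ShLower
import Pool.Agent.Helper45.FatApolar

namespace Pool.Agent.Helper45

open MvPolynomial Filter

set_option linter.unusedSectionVars false

section Final

variable {k : Type*} [Field k] [CharZero k]

/-- The limiting codimension. -/
noncomputable def tau (j b : ℕ) (cs c : ℝ) : ℝ := if c < cs then thr j b c else 0

theorem exists_mesh (j b : ℕ) {cs ε : ℝ} (hcs : 0 < cs) (hε : 0 < ε) :
    ∃ L : ℕ, 1 ≤ L ∧ ∀ x y, 0 ≤ x → x ≤ cs → 0 ≤ y → y ≤ cs → |x - y| ≤ cs / L →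
      |thr j b x - thr j b y| ≤ ε := by
  have hu : UniformContinuousOn (thr j b) (Set.Icc 0 cs) :=
    isCompact_Icc.uniformContinuousOn_of_continuous (continuous_thr j b).continuousOn
  rw [Metric.uniformContinuousOn_iff] at hu
  obtain ⟨δ, hδ, hu⟩ := hu ε hε
  obtain ⟨L, hL⟩ := exists_nat_gt (cs / δ)
  have hL0 : (0 : ℝ) < L := lt_of_le_of_lt (by positivity) hL
  have hL1 : 1 ≤ L := by exact_mod_cast hL0
  refine ⟨L, hL1, fun x y hx0 hx hy0 hy hxy => ?_⟩
  have hhδ : cs / L < δ := by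
    rw [div_lt_iff₀ hL0]
    rw [div_lt_iff₀ hδ] at hL
    linarith
  have := hu x ⟨hx0, hx⟩ y ⟨hy0, hy⟩ (by rw [Real.dist_eq]; exact lt_of_le_of_lt hxy hhδ)
  rw [Real.dist_eq] at this
  exact this.le

/-- Uniform asymptotics of the rank. -/
theorem uniform_rank {j E : ℕ} (hj : 2 ≤ j) {cs : ℝ} (hcs : IsZ j (E + j) cs) {ε : ℝ}
    (hε : 0 < ε) :
    ∀ᶠ n : ℕ in atTop, ∀ r : ℕ, ∃ G : MvPolynomial (Fin r × Fin (n + 1)) k, G ≠ 0 ∧
      ∀ P : Fin r × Fin (n + 1) → k, eval P G ≠ 0 →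
        |(Module.finrank k (homogeneousSubmodule (Fin (n + 1)) k (E + j)) : ℝ) -
          Module.finrank k (degPart (powSeq P j) r E) -
          tau j (E + j) cs ((r : ℝ) / (n : ℝ) ^ j) * (n : ℝ) ^ (E + j)| ≤
          ε * (n : ℝ) ^ (E + j) := by
  obtain ⟨L, hL1, hL⟩ := exists_mesh j (E + j) hcs.1 (show 0 < ε / 2 by positivity)
  set h := cs / L with hh
  have hL0 : (0 : ℝ) < L := by exact_mod_cast hL1
  have hcs0 := hcs.1
  have hh0 : 0 < h := by positivity
  have hLh : (L : ℝ) * h = cs := by rw [hh]; field_simp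
  have hmem : ∀ i : ℕ, i ≤ L → 0 ≤ i * h ∧ i * h ≤ cs := by
    intro i hi
    refine ⟨by positivity, ?_⟩
    rw [← hLh]
    exact mul_le_mul_of_nonneg_right (by exact_mod_cast hi) hh0.le
  have hnnD : ∀ s, 0 ≤ s → s ≤ cs → 0 ≤ thr j (E + j) s := fun s hs0 hs =>
    isZ_nonneg (by omega) hcs (E + j) le_rfl s hs0 hs
  have hnnE : ∀ s, 0 ≤ s → s ≤ cs → 0 ≤ thr j E s := fun s hs0 hs =>
    isZ_nonneg (by omega) hcs E (by omega) s hs0 hs
  -- upper bounds for the codimension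
  have hU : ∀ᶠ n : ℕ in atTop, ∀ i ∈ Finset.Icc 1 L, ∀ t R : ℕ, (i * h) * (n : ℝ) ^ j ≤ t →
      t ≤ R → ∃ G : MvPolynomial (Fin R × Fin (n + 1)) k, G ≠ 0 ∧
        ∀ P : Fin R × Fin (n + 1) → k, eval P G ≠ 0 →
        (Module.finrank k (homogeneousSubmodule (Fin (n + 1)) k (E + j)) : ℝ) ≤
          (Module.finrank k (degPart (powSeq P j) t E) : ℝ) +
            (thr j (E + j) (i * h) + ε / 2) * (n : ℝ) ^ (E + j) := by
    rw [Filter.eventually_all_finset]
    intro i hi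
    rw [Finset.mem_Icc] at hi
    have hi' := hmem i hi.2
    have hi0 : (0 : ℝ) < i := by exact_mod_cast hi.1
    have := hnnD _ hi'.1 hi'.2
    exact upper hj (by positivity) (by positivity) (by linarith)
  -- upper bounds for the rank
  have hLo : ∀ᶠ n : ℕ in atTop, ∀ i ∈ Finset.range (L + 1), ∀ R : ℕ,
      (R : ℝ) ≤ (i * h) * (n : ℝ) ^ j → ∀ P : Fin R × Fin (n + 1) → k,
        (Module.finrank k (degPart (powSeq P j) R E) : ℝ) ≤
          (1 / ((E + j).factorial : ℝ) - thr j (E + j) (i * h) + ε / 2) *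
            (n : ℝ) ^ (E + j) := by
    rw [Filter.eventually_all_finset]
    intro i hi
    rw [Finset.mem_range] at hi
    have hi' := hmem i (by omega)
    exact lower hj hi'.1 (by positivity) fun s hs0 hs => hnnE s hs0 (hs.trans hi'.2)
  filter_upwards [hU, hLo, dim_le k (E + j) (show 0 < ε / 2 by positivity),
    eventually_ge_atTop 1] with n hn1 hn2 hn3 hn4
  intro r
  have hn0 : (0 : ℝ) < (n : ℝ) := by exact_mod_cast hn4
  have hnj : (0 : ℝ) < (n : ℝ) ^ j := by positivity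
  have hnD : (0 : ℝ) < (n : ℝ) ^ (E + j) := by positivity
  set c : ℝ := (r : ℝ) / (n : ℝ) ^ j with hc
  have hc0 : 0 ≤ c := by positivity
  have hrc : (r : ℝ) = c * (n : ℝ) ^ j := by rw [hc]; field_simp
  have hdim := dim_ge (k := k) n (E + j)
  have hdim' : (1 / ((E + j).factorial : ℝ)) * (n : ℝ) ^ (E + j) ≤
      (Module.finrank k (homogeneousSubmodule (Fin (n + 1)) k (E + j)) : ℝ) := by
    rw [one_div, inv_mul_eq_div]; exact hdim
  by_cases hccs : c < cs
  · -- below the threshold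
    have htau : tau j (E + j) cs c = thr j (E + j) c := by unfold tau; rw [if_pos hccs]
    rw [htau]
    set i := ⌊c / h⌋₊ with hi
    have hi1 : (i : ℝ) * h ≤ c := by
      have := Nat.floor_le (show 0 ≤ c / h by positivity)
      rw [← hi, le_div_iff₀ hh0] at this
      exact this
    have hi2 : c < ((i + 1 : ℕ) : ℝ) * h := by
      have := Nat.lt_floor_add_one (c / h)
      rw [← hi, div_lt_iff₀ hh0] at this
      push_cast
      exact this
    have hiL : i < L := by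
      have h1 : (i : ℝ) * h < (L : ℝ) * h := by rw [hLh]; linarith
      have h2 := lt_of_mul_lt_mul_right h1 hh0.le
      exact_mod_cast h2
    have e1 : (((i + 1 : ℕ) : ℝ)) * h = i * h + h := by push_cast; ring
    have hmi := hmem i hiL.le
    have hmi1 := hmem (i + 1) hiL
    have hd1 := hL (i * h) c hmi.1 hmi.2 hc0 hccs.le (by
      rw [abs_sub_comm, abs_of_nonneg (by linarith)]
      rw [e1] at hi2
      linarith)
    have hd2 := hL (((i + 1 : ℕ) : ℝ) * h) c hmi1.1 hmi1.2 hc0 hccs.le (by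
      rw [abs_of_nonneg (by linarith)]
      rw [e1]
      linarith)
    rw [abs_le] at hd1 hd2
    have hup : ∀ P : Fin r × Fin (n + 1) → k,
        (Module.finrank k (degPart (powSeq P j) r E) : ℝ) ≤
          (1 / ((E + j).factorial : ℝ) - thr j (E + j) c + ε) * (n : ℝ) ^ (E + j) := by
      intro P
      refine (hn2 (i + 1) (Finset.mem_range.2 (by omega)) r (by
        rw [hrc]
        exact mul_le_mul_of_nonneg_right hi2.le hnj.le) P).trans ?_
      refine mul_le_mul_of_nonneg_right ?_ hnD.le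
      linarith [hd2.1, hd2.2]
    obtain ⟨G, hG1, hG2⟩ : ∃ G : MvPolynomial (Fin r × Fin (n + 1)) k, G ≠ 0 ∧
        ∀ P : Fin r × Fin (n + 1) → k, eval P G ≠ 0 →
        (Module.finrank k (homogeneousSubmodule (Fin (n + 1)) k (E + j)) : ℝ) ≤
          (Module.finrank k (degPart (powSeq P j) r E) : ℝ) +
            (thr j (E + j) c + ε) * (n : ℝ) ^ (E + j) := by
      rcases Nat.eq_zero_or_pos i with h0 | hpos
      · refine ⟨1, one_ne_zero, fun P _ => ?_⟩
        have h1 : (0 : ℝ) ≤ (Module.finrank k (degPart (powSeq P j) r E) : ℝ) := by positivity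
        rw [h0, Nat.cast_zero, zero_mul, thr_at_zero] at hd1
        have h2 : (1 / ((E + j).factorial : ℝ) + ε / 2) * (n : ℝ) ^ (E + j) ≤
            (thr j (E + j) c + ε) * (n : ℝ) ^ (E + j) :=
          mul_le_mul_of_nonneg_right (by linarith [hd1.1, hd1.2]) hnD.le
        linarith
      · obtain ⟨G, hG1, hG2⟩ := hn1 i (Finset.mem_Icc.2 ⟨hpos, hiL.le⟩) r r (by
          rw [hrc]
          exact mul_le_mul_of_nonneg_right hi1 hnj.le) le_rfl
        refine ⟨G, hG1, fun P hP => (hG2 P hP).trans ?_⟩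
        refine add_le_add le_rfl ?_
        refine mul_le_mul_of_nonneg_right ?_ hnD.le
        linarith [hd1.1, hd1.2]
    refine ⟨G, hG1, fun P hP => ?_⟩
    have h1 := hG2 P hP
    have h2 := hup P
    rw [abs_le]
    constructor
    · have e2 : (1 / ((E + j).factorial : ℝ) - thr j (E + j) c + ε) * (n : ℝ) ^ (E + j) =
        (1 / ((E + j).factorial : ℝ)) * (n : ℝ) ^ (E + j) -
          thr j (E + j) c * (n : ℝ) ^ (E + j) + ε * (n : ℝ) ^ (E + j) := by ring
      rw [e2] at h2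
      linarith
    · have e2 : (thr j (E + j) c + ε) * (n : ℝ) ^ (E + j) =
        thr j (E + j) c * (n : ℝ) ^ (E + j) + ε * (n : ℝ) ^ (E + j) := by ring
      rw [e2] at h1
      linarith
  · -- above the threshold
    have htau : tau j (E + j) cs c = 0 := by unfold tau; rw [if_neg hccs]
    simp only [htau, zero_mul, sub_zero]
    push Not at hccs
    obtain ⟨G, hG1, hG2⟩ := hn1 L (Finset.mem_Icc.2 ⟨hL1, le_rfl⟩) r r (by
      rw [hrc, hLh]
      exact mul_le_mul_of_nonneg_right hccs hnj.le) le_rfl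
    refine ⟨G, hG1, fun P hP => ?_⟩
    have h1 := hG2 P hP
    rw [hLh, hcs.2.1, zero_add] at h1
    have h2 : Module.finrank k (degPart (powSeq P j) r E) ≤
        Module.finrank k (homogeneousSubmodule (Fin (n + 1)) k (E + j)) :=
      Submodule.finrank_mono (degPart_le (powSeq_isHomogeneous P j) r E)
    have h2' : (Module.finrank k (degPart (powSeq P j) r E) : ℝ) ≤
        Module.finrank k (homogeneousSubmodule (Fin (n + 1)) k (E + j)) := by exact_mod_cast h2
    have h3 : (ε / 2) * (n : ℝ) ^ (E + j) ≤ ε * (n : ℝ) ^ (E + j) :=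
      mul_le_mul_of_nonneg_right (by linarith) hnD.le
    rw [abs_le]
    constructor <;> linarith

/-- All coordinates of general points are nonzero. -/
theorem exists_nonzero {r n : ℕ} {G : MvPolynomial (Fin r × Fin (n + 1)) k} (hG : G ≠ 0) :
    ∃ G' : MvPolynomial (Fin r × Fin (n + 1)) k, G' ≠ 0 ∧
      ∀ P : Fin r → Fin (n + 1) → k, eval (fun x => P x.1 x.2) G' ≠ 0 →
        (∀ i, P i ≠ 0) ∧ eval (fun x => P x.1 x.2) G ≠ 0 := by
  refine ⟨G * ∏ a : Fin r, X (a, 0), ?_, ?_⟩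
  · exact mul_ne_zero hG (Finset.prod_ne_zero_iff.2 fun a _ => X_ne_zero _)
  · intro P hP
    rw [map_mul, map_prod] at hP
    have hX := right_ne_zero_of_mul hP
    rw [Finset.prod_ne_zero_iff] at hX
    refine ⟨fun a h => ?_, left_ne_zero_of_mul hP⟩
    have := hX a (Finset.mem_univ a)
    rw [eval_X] at this
    exact this (by rw [h]; rfl)

theorem codim_eq {r n m j : ℕ} (hm : 1 ≤ m) (P : Fin r → Fin (n + 1) → k) (hP : ∀ i, P i ≠ 0) :
    Module.finrank k (homogeneousSubmodule (Fin (n + 1)) k (m - 1 + j) ⊓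
        (fatId P m).restrictScalars k : Submodule k (MvPolynomial (Fin (n + 1)) k)) +
      Module.finrank k (degPart (powSeq (fun x => P x.1 x.2) j) r (m - 1)) =
      Module.finrank k (homogeneousSubmodule (Fin (n + 1)) k (m - 1 + j)) := by
  have h1 := hilb_eq_finrank_degPart P hP (j := j) hm
  have h2 : Module.finrank k (homogeneousSubmodule (Fin (n + 1)) k (m - 1 + j) ⊓
        (fatId P m).restrictScalars k : Submodule k (MvPolynomial (Fin (n + 1)) k)) ≤
      Module.finrank k (homogeneousSubmodule (Fin (n + 1)) k (m - 1 + j)) :=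
    Submodule.finrank_mono inf_le_left
  omega

/-- Uniform asymptotics for the dimension of the space of forms of degree `d`. -/
theorem final_asymptotic (m d : ℕ) (hm : 1 ≤ m) (hd : m + 1 ≤ d) {cs : ℝ}
    (hcs : IsZ (d + 1 - m) d cs) {ε : ℝ} (hε : 0 < ε) :
    ∃ n0 : ℕ, ∀ n ≥ n0, ∀ r : ℕ, ∃ G : MvPolynomial (Fin r × Fin (n + 1)) k, G ≠ 0 ∧
      ∀ P : Fin r → Fin (n + 1) → k, eval (fun x => P x.1 x.2) G ≠ 0 → (∀ i, P i ≠ 0) ∧
        |(Module.finrank k (homogeneousSubmodule (Fin (n + 1)) k d ⊓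
          (fatId P m).restrictScalars k : Submodule k (MvPolynomial (Fin (n + 1)) k)) : ℝ) -
          tau (d + 1 - m) d cs ((r : ℝ) / (n : ℝ) ^ (d + 1 - m)) * (n : ℝ) ^ d| ≤
          ε * (n : ℝ) ^ d := by
  obtain ⟨j, hj⟩ : ∃ j, j = d + 1 - m := ⟨_, rfl⟩
  obtain ⟨E, hE⟩ : ∃ E, E = m - 1 := ⟨_, rfl⟩
  rw [← hj] at hcs ⊢
  have hd' : d = E + j := by omega
  subst hd'
  have h1 := uniform_rank (k := k) (by omega : 2 ≤ j) hcs hε
  obtain ⟨n0, hn0⟩ := eventually_atTop.1 h1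
  refine ⟨n0, fun n hn r => ?_⟩
  obtain ⟨G, hG1, hG2⟩ := hn0 n hn r
  obtain ⟨G', hG'1, hG'2⟩ := exists_nonzero hG1
  refine ⟨G', hG'1, fun P hP => ?_⟩
  obtain ⟨hP0, hP1⟩ := hG'2 P hP
  refine ⟨hP0, ?_⟩
  have h2 := hG2 _ hP1
  have h3 := codim_eq (j := j) hm P hP0
  rw [← hE] at h3
  have h4 : (Module.finrank k (homogeneousSubmodule (Fin (n + 1)) k (E + j) ⊓
        (fatId P m).restrictScalars k : Submodule k (MvPolynomial (Fin (n + 1)) k)) : ℝ) =
      (Module.finrank k (homogeneousSubmodule (Fin (n + 1)) k (E + j)) : ℝ) -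
      Module.finrank k (degPart (powSeq (fun x => P x.1 x.2) j) r E) := by
    rw [← h3]
    push_cast
    ring
  rw [h4]
  exact h2

/-- No forms of degree at most `d` above the threshold. -/
theorem final_empty (m d : ℕ) (hm : 1 ≤ m) (hd : m + 1 ≤ d) {cs : ℝ}
    (hcs : IsZ (d + 1 - m) d cs) {c : ℝ} (hc : cs < c) :
    ∃ n0 : ℕ, ∀ n ≥ n0, ∀ r : ℕ, c * (n : ℝ) ^ (d + 1 - m) ≤ r →
      ∃ G : MvPolynomial (Fin r × Fin (n + 1)) k, G ≠ 0 ∧
      ∀ P : Fin r → Fin (n + 1) → k, eval (fun x => P x.1 x.2) G ≠ 0 → (∀ i, P i ≠ 0) ∧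
        ∀ e ≤ d, ∀ f ∈ fatId P m, f.IsHomogeneous e → f = 0 := by
  obtain ⟨j, hj⟩ : ∃ j, j = d + 1 - m := ⟨_, rfl⟩
  obtain ⟨E, hE⟩ : ∃ E, E = m - 1 := ⟨_, rfl⟩
  rw [← hj] at hcs ⊢
  have hd' : d = E + j := by omega
  subst hd'
  have hj2 : 2 ≤ j := by omega
  obtain ⟨s, hs1, hs2, hs3⟩ := isZ_neg hj2 hcs hc
  have hs0 : 0 < s := hcs.1.trans hs1
  have h1 := upper_exact (k := k) hj2 hs0 hs3
  obtain ⟨n0, hn0⟩ := eventually_atTop.1 h1
  refine ⟨n0, fun n hn r hr => ?_⟩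
  obtain ⟨G, hG1, hG2⟩ := hn0 n hn r r (by
    refine le_trans ?_ hr
    exact mul_le_mul_of_nonneg_right hs2.le (by positivity)) le_rfl
  obtain ⟨G', hG'1, hG'2⟩ := exists_nonzero hG1
  refine ⟨G', hG'1, fun P hP => ?_⟩
  obtain ⟨hP0, hP1⟩ := hG'2 P hP
  refine ⟨hP0, ?_⟩
  have h2 := hG2 _ hP1
  have h3 := codim_eq (j := j) hm P hP0
  rw [← hE] at h3
  have h4 : Module.finrank k (homogeneousSubmodule (Fin (n + 1)) k (E + j) ⊓
        (fatId P m).restrictScalars k : Submodule k (MvPolynomial (Fin (n + 1)) k)) = 0 := by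
    omega
  have hfin : Module.Finite k (homogeneousSubmodule (Fin (n + 1)) k (E + j) ⊓
        (fatId P m).restrictScalars k : Submodule k (MvPolynomial (Fin (n + 1)) k)) :=
    Submodule.finiteDimensional_of_le inf_le_left
  rw [Submodule.finrank_eq_zero] at h4
  intro e he f hf hfe
  have h5 : (X 0 : MvPolynomial (Fin (n + 1)) k) ^ (E + j - e) * f ∈
      (homogeneousSubmodule (Fin (n + 1)) k (E + j) ⊓
        (fatId P m).restrictScalars k : Submodule k (MvPolynomial (Fin (n + 1)) k)) := by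
    refine ⟨?_, ?_⟩
    · rw [SetLike.mem_coe, mem_homogeneousSubmodule]
      have h6 := ((isHomogeneous_X k (0 : Fin (n + 1))).pow (E + j - e)).mul hfe
      rw [one_mul, Nat.sub_add_cancel he] at h6
      exact h6
    · exact Ideal.mul_mem_left _ _ hf
  rw [h4, Submodule.mem_bot, mul_eq_zero] at h5
  rcases h5 with h5 | h5
  · exact absurd h5 (pow_ne_zero _ (X_ne_zero _))
  · exact h5

/-- Forms of degree `d` exist below the threshold, for every family of points. -/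
theorem final_nonempty (m d : ℕ) (hm : 1 ≤ m) (hd : m + 1 ≤ d) {cs : ℝ}
    (hcs : IsZ (d + 1 - m) d cs) {c : ℝ} (hc : c < cs) :
    ∃ n0 : ℕ, ∀ n ≥ n0, ∀ r : ℕ, (r : ℝ) ≤ c * (n : ℝ) ^ (d + 1 - m) →
      ∀ P : Fin r → Fin (n + 1) → k, (∀ i, P i ≠ 0) →
        ∃ f ∈ fatId P m, f.IsHomogeneous d ∧ f ≠ 0 := by
  obtain ⟨j, hj⟩ : ∃ j, j = d + 1 - m := ⟨_, rfl⟩
  obtain ⟨E, hE⟩ : ∃ E, E = m - 1 := ⟨_, rfl⟩
  rw [← hj] at hcs ⊢
  have hd' : d = E + j := by omega
  subst hd'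
  have hj2 : 2 ≤ j := by omega
  obtain ⟨c1, hc1, hc2, hc3⟩ : ∃ c1 : ℝ, 0 ≤ c1 ∧ c ≤ c1 ∧ c1 < cs :=
    ⟨max c 0, le_max_right _ _, le_max_left _ _, max_lt hc hcs.1⟩
  have hpos := hcs.2.2 c1 hc1 hc3
  have h1 := lower (k := k) (E := E) hj2 hc1 (show 0 < thr j (E + j) c1 / 2 by positivity)
    (fun s hs0 hs => isZ_nonneg (by omega) hcs E (by omega) s hs0 (by linarith))
  obtain ⟨n0, hn0⟩ := eventually_atTop.1 h1
  refine ⟨max n0 1, fun n hn r hr P hP0 => ?_⟩
  have hn1 : (0 : ℝ) < n := by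
    have : 1 ≤ n := le_trans (le_max_right _ _) hn
    exact_mod_cast this
  have h2 := hn0 n (le_trans (le_max_left _ _) hn) r (by
    refine hr.trans ?_
    exact mul_le_mul_of_nonneg_right hc2 (by positivity)) (fun x => P x.1 x.2)
  have hnD : (0 : ℝ) < (n : ℝ) ^ (E + j) := by positivity
  have hdim := dim_ge (k := k) n (E + j)
  have h3 := codim_eq (j := j) hm P hP0
  rw [← hE] at h3
  have h4 : (Module.finrank k (degPart (powSeq (fun x => P x.1 x.2) j) r E) : ℝ) <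
      (Module.finrank k (homogeneousSubmodule (Fin (n + 1)) k (E + j)) : ℝ) := by
    refine lt_of_le_of_lt h2 (lt_of_lt_of_le ?_ hdim)
    have h7 : (n : ℝ) ^ (E + j) / ((E + j).factorial : ℝ) =
        (1 / ((E + j).factorial : ℝ)) * (n : ℝ) ^ (E + j) := by ring
    rw [h7]
    refine mul_lt_mul_of_pos_right ?_ hnD
    linarith
  have h5 : Module.finrank k (degPart (powSeq (fun x => P x.1 x.2) j) r E) <
      Module.finrank k (homogeneousSubmodule (Fin (n + 1)) k (E + j)) := by exact_mod_cast h4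
  have h6 : (homogeneousSubmodule (Fin (n + 1)) k (E + j) ⊓
        (fatId P m).restrictScalars k : Submodule k (MvPolynomial (Fin (n + 1)) k)) ≠ ⊥ := by
    intro h7
    rw [h7, finrank_bot] at h3
    omega
  obtain ⟨f, hf, hf0⟩ := Submodule.exists_mem_ne_zero_of_ne_bot h6
  exact ⟨f, hf.2, (mem_homogeneousSubmodule _ _).1 hf.1, hf0⟩

theorem thr_le_of_isZ {j b : ℕ} (hj : 1 ≤ j) {cs : ℝ} (h : IsZ j b cs) {c : ℝ} (hc0 : 0 ≤ c)
    (hc : c ≤ cs) : thr j b c ≤ 1 / (b.factorial : ℝ) := by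
  have h1 : AntitoneOn (thr j b) (Set.Icc 0 cs) := by
    refine antitoneOn_of_deriv_nonpos (convex_Icc 0 cs) (continuous_thr j b).continuousOn
      (fun x _ => (hasDerivAt_thr hj b x).differentiableAt.differentiableWithinAt) ?_
    intro x hx
    rw [interior_Icc] at hx
    rw [(hasDerivAt_thr hj b x).deriv]
    split_ifs with hjb
    · have := isZ_nonneg hj h (b - j) (by omega) x hx.1.le hx.2.le
      linarith
    · simp
  have h2 := h1 ⟨le_rfl, h.1.le⟩ ⟨hc0, hc⟩ hc0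
  rwa [thr_at_zero] at h2

/-- Uniform asymptotics for the Hilbert function. -/
theorem final_ratio (m d : ℕ) (hm : 1 ≤ m) (hd : m + 1 ≤ d) {cs : ℝ}
    (hcs : IsZ (d + 1 - m) d cs) {ε : ℝ} (hε : 0 < ε) :
    ∃ n0 : ℕ, ∀ n ≥ n0, ∀ r : ℕ, ∃ G : MvPolynomial (Fin r × Fin (n + 1)) k, G ≠ 0 ∧
      ∀ P : Fin r → Fin (n + 1) → k, eval (fun x => P x.1 x.2) G ≠ 0 → (∀ i, P i ≠ 0) ∧
        |((Module.finrank k (homogeneousSubmodule (Fin (n + 1)) k d) : ℝ) -
          (Module.finrank k (homogeneousSubmodule (Fin (n + 1)) k d ⊓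
            (fatId P m).restrictScalars k : Submodule k (MvPolynomial (Fin (n + 1)) k)) : ℝ)) -
          (1 - (d.factorial : ℝ) * tau (d + 1 - m) d cs ((r : ℝ) / (n : ℝ) ^ (d + 1 - m))) *
            ((n + d).choose n : ℝ)| ≤ ε * ((n + d).choose n : ℝ) := by
  have hdf : (0 : ℝ) < (d.factorial : ℝ) := by positivity
  set ε' : ℝ := ε / (2 * d.factorial) with hε'
  have hε'0 : 0 < ε' := by positivity
  obtain ⟨n1, hn1⟩ := final_asymptotic (k := k) m d hm hd hcs hε'0
  obtain ⟨n2, hn2⟩ := eventually_atTop.1 (dim_le k d hε'0)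
  refine ⟨max n1 n2, fun n hn r => ?_⟩
  obtain ⟨G, hG1, hG2⟩ := hn1 n (le_trans (le_max_left _ _) hn) r
  refine ⟨G, hG1, fun P hP => ?_⟩
  obtain ⟨hP0, hP1⟩ := hG2 P hP
  refine ⟨hP0, ?_⟩
  have h1 := hn2 n (le_trans (le_max_right _ _) hn)
  have h2 := dim_ge (k := k) n d
  have h3 : (Module.finrank k (homogeneousSubmodule (Fin (n + 1)) k d) : ℝ) =
      ((n + d).choose n : ℝ) := by
    rw [finrank_homog_fin, ← Nat.choose_symm_of_eq_add (n := n + d) (a := n) (b := d) rfl]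
  rw [h3] at h1 h2 ⊢
  set D : ℝ := (Module.finrank k (homogeneousSubmodule (Fin (n + 1)) k d ⊓
            (fatId P m).restrictScalars k : Submodule k (MvPolynomial (Fin (n + 1)) k)) : ℝ)
    with hD
  set C : ℝ := ((n + d).choose n : ℝ) with hC
  set t : ℝ := tau (d + 1 - m) d cs ((r : ℝ) / (n : ℝ) ^ (d + 1 - m)) with ht
  have ht0 : 0 ≤ t := by
    rw [ht]
    unfold tau
    split_ifs with hlt
    · exact (hcs.2.2 _ (by positivity) hlt).le
    · exact le_rfl
  have ht1 : t * d.factorial ≤ 1 := by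
    rw [ht]
    unfold tau
    split_ifs with hlt
    · have := thr_le_of_isZ (by omega) hcs (c := (r : ℝ) / (n : ℝ) ^ (d + 1 - m))
        (by positivity) hlt.le
      rwa [le_div_iff₀ hdf] at this
    · rw [zero_mul]; exact zero_le_one
  have h4 : (n : ℝ) ^ d ≤ d.factorial * C := by
    rw [div_le_iff₀ hdf] at h2
    linarith
  have h5 : d.factorial * C - (n : ℝ) ^ d ≤ d.factorial * ε' * (n : ℝ) ^ d := by
    have h6 : (d.factorial : ℝ) * C ≤ d.factorial * ((1 / (d.factorial : ℝ) + ε') *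
      (n : ℝ) ^ d) := mul_le_mul_of_nonneg_left h1 hdf.le
    have h7 : (d.factorial : ℝ) * ((1 / (d.factorial : ℝ) + ε') * (n : ℝ) ^ d) =
        (n : ℝ) ^ d + d.factorial * ε' * (n : ℝ) ^ d := by field_simp
    linarith
  have e1 : C - D - (1 - (d.factorial : ℝ) * t) * C =
      -(D - t * (n : ℝ) ^ d) + t * (d.factorial * C - (n : ℝ) ^ d) := by ring
  have h8 : t * (d.factorial * C - (n : ℝ) ^ d) ≤ ε' * (n : ℝ) ^ d := by
    calc t * (d.factorial * C - (n : ℝ) ^ d) ≤ t * (d.factorial * ε' * (n : ℝ) ^ d) :=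
          mul_le_mul_of_nonneg_left h5 ht0
      _ = (t * d.factorial) * (ε' * (n : ℝ) ^ d) := by ring
      _ ≤ 1 * (ε' * (n : ℝ) ^ d) := mul_le_mul_of_nonneg_right ht1 (by positivity)
      _ = ε' * (n : ℝ) ^ d := one_mul _
  have h9 : 0 ≤ t * (d.factorial * C - (n : ℝ) ^ d) := mul_nonneg ht0 (by linarith)
  have h10 : 2 * (ε' * (n : ℝ) ^ d) ≤ ε * C := by
    have h11 : 2 * (ε' * (n : ℝ) ^ d) ≤ 2 * (ε' * (d.factorial * C)) := by
      have := mul_le_mul_of_nonneg_left h4 hε'0.le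
      linarith
    have h12 : 2 * (ε' * (d.factorial * C)) = ε * C := by
      rw [hε']
      field_simp
    linarith
  rw [abs_le] at hP1
  rw [e1, abs_le]
  constructor <;> linarith [hP1.1, hP1.2]

end Final

end Pool.Agent.Helper45
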