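import Mathlib
import Pool.Agent.Helper45.GrCount
import Pool.Agent.Helper45.ShFinal

namespace Pool.Agent.Helper45.Gr

open MvPolynomial Filter

set_option linter.unusedSectionVars false

section GrFinal

variable {k : Type*} [Field k] [CharZero k]

theorem degPart_eq_setPart {σ : Type*} [Fintype σ] {r : ℕ} (P : Fin r × σ → k) (j E : ℕ) :
    degPart (powSeq P j) r E =
      setPart (pw (fun (a : Fin r) s => P (a, s)) j) (Finset.univ : Finset (Fin r)) E := by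
  unfold degPart setPart
  have h : ∀ (a : ℕ) (ha : a < r), powSeq P j a = pw (fun (a : Fin r) s => P (a, s)) j ⟨a, ha⟩ := by
    intro a ha
    unfold powSeq pw
    rw [ptSeq_of_lt P ha]
  refine le_antisymm ?_ ?_
  · refine iSup₂_le fun a ha => ?_
    rw [Finset.mem_range] at ha
    rw [h a ha]
    exact le_iSup₂ (f := fun (i : Fin r) (_ : i ∈ (Finset.univ : Finset (Fin r))) =>
      (homogeneousSubmodule σ k E).map (LinearMap.mulLeft k
        (pw (fun (a : Fin r) s => P (a, s)) j i))) ⟨a, ha⟩ (Finset.mem_univ _)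
  · refine iSup₂_le fun a _ => ?_
    have h1 := h a.1 a.2
    have h2 : (⟨a.1, a.2⟩ : Fin r) = a := rfl
    rw [h2] at h1
    rw [← h1]
    exact le_iSup₂ (f := fun (i : ℕ) (_ : i ∈ Finset.range r) =>
      (homogeneousSubmodule σ k E).map (LinearMap.mulLeft k (powSeq P j i))) a.1
        (Finset.mem_range.2 a.2)

/-- Everything is generated by many general powers. -/
theorem gen_full_of_above {j E : ℕ} (hj : 2 ≤ j) {c : ℝ} (hc : 0 < c)
    (h : thr j (E + j) c < 0) :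
    ∀ᶠ n : ℕ in atTop, ∀ t : ℕ, c * (n : ℝ) ^ j ≤ t → gen k (Fin (n + 1)) j E t =
      Module.finrank k (homogeneousSubmodule (Fin (n + 1)) k (E + j)) := by
  filter_upwards [upper_exact (k := k) hj hc h] with n hn
  intro t ht
  obtain ⟨G, hG1, hG2⟩ := hn t t ht le_rfl
  obtain ⟨P, hP⟩ := exists_eval hG1
  refine le_antisymm (gen_le_homog j E t) ?_
  rw [hG2 P hP, degPart_eq_setPart]
  have := le_gen (k := k) j E (fun (a : Fin t) s => P (a, s)) Finset.univ
  rwa [Finset.card_univ, Fintype.card_fin] at this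

theorem thr_formula {j E : ℕ} (hj : 1 ≤ j) (hE : E ≤ j) (x : ℝ) :
    thr j (E + j) x = 1 / ((E + j).factorial : ℝ) - x / (E.factorial : ℝ) +
      nu j E * (x ^ 2 / 2) := by
  unfold thr nu
  by_cases h : E = j
  · subst h
    rw [if_pos rfl]
    have h1 : (E + E) / E = 2 := by
      rw [← two_mul, Nat.mul_div_cancel _ (by omega)]
    rw [h1, Finset.sum_range_succ, Finset.sum_range_succ, Finset.sum_range_one]
    simp only [pow_zero, Nat.factorial_zero, zero_mul, Nat.sub_zero, pow_one, Nat.factorial_one,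
      one_mul, Nat.add_sub_cancel, Nat.cast_one, Nat.factorial_two, Nat.cast_ofNat]
    have h2 : E + E - 2 * E = 0 := by omega
    rw [h2, Nat.factorial_zero, Nat.cast_one]
    ring
  · rw [if_neg h]
    have h1 : (E + j) / j = 1 := by
      rw [Nat.add_div_right _ (by omega), Nat.div_eq_of_lt (by omega)]
    rw [h1, Finset.sum_range_succ, Finset.sum_range_one]
    simp only [pow_zero, Nat.factorial_zero, zero_mul, Nat.sub_zero, pow_one, Nat.factorial_one,
      one_mul, Nat.add_sub_cancel, Nat.cast_one]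
    push_cast
    ring

/-- The numerical contradiction. -/
theorem numeric {j E n : ℕ} (hE : E ≤ j) (hn : (1 : ℝ) ≤ n) {cs ε A B μ δ η : ℝ}
    (hj : 1 ≤ j) (hA : 0 < A) (hAμ : A ≤ μ) (hAε : A ≤ ε ^ 2 / 16) (hε : 0 < ε)
    (hB : 0 < B) (hη : η = A / (8 * B)) (hδB : cs + δ ≤ B)
    (h1 : ∀ x, 0 ≤ x → x ≤ cs - ε / 2 → μ ≤ thr j (E + j) x)
    (h2 : ∀ x, 0 ≤ x → x ≤ cs + δ → -(A / 2) ≤ thr j (E + j) x)
    (hnj : (n : ℝ) ^ j ≤ 2 * η * (n : ℝ) ^ (j + j)) {Δ Λ tf s0 : ℝ}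
    (hΔ : (n : ℝ) ^ (E + j) / ((E + j).factorial : ℝ) ≤ Δ)
    (hΛ : Λ ≤ (1 / (E.factorial : ℝ) + η) * (n : ℝ) ^ E)
    (htf0 : 0 ≤ tf) (htf : tf ≤ (cs + δ) * (n : ℝ) ^ j) (hs0 : s0 ≤ (cs - ε) * (n : ℝ) ^ j)
    (hineq : 4 * Δ + (tf - s0) ^ 2 ≤ 4 * (tf * Λ - nu j E * (tf * (tf - 1) / 2))) : False := by
  have hn0 : (0 : ℝ) < n := by linarith
  have hnj0 : (0 : ℝ) < (n : ℝ) ^ j := by positivity
  have hnE0 : (0 : ℝ) < (n : ℝ) ^ E := by positivity
  have hnD0 : (0 : ℝ) < (n : ℝ) ^ (E + j) := by positivity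
  have hηpos : 0 < η := by rw [hη]; positivity
  set x : ℝ := tf / (n : ℝ) ^ j with hx
  have hx0 : 0 ≤ x := by positivity
  have htfx : tf = x * (n : ℝ) ^ j := by rw [hx]; field_simp
  have hxle : x ≤ cs + δ := by
    rw [hx, div_le_iff₀ hnj0]; exact htf
  have hxB : x ≤ B := hxle.trans hδB
  have hpow : (n : ℝ) ^ j * (n : ℝ) ^ E = (n : ℝ) ^ (E + j) := by rw [← pow_add, add_comm]
  -- the main term
  have h3 : tf * Λ ≤ (x / (E.factorial : ℝ) + x * η) * (n : ℝ) ^ (E + j) := by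
    calc tf * Λ ≤ tf * ((1 / (E.factorial : ℝ) + η) * (n : ℝ) ^ E) :=
          mul_le_mul_of_nonneg_left hΛ htf0
      _ = (x / (E.factorial : ℝ) + x * η) * ((n : ℝ) ^ j * (n : ℝ) ^ E) := by
          rw [htfx]; ring
      _ = _ := by rw [hpow]
  have h4 : (nu j E : ℝ) * (x ^ 2 / 2) * (n : ℝ) ^ (E + j) - x * η * (n : ℝ) ^ (E + j) ≤
      nu j E * (tf * (tf - 1) / 2) := by
    unfold nu
    split_ifs with h
    · subst h
      push_cast
      rw [one_mul, one_mul, htfx]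
      have e1 : x * (n : ℝ) ^ E * (x * (n : ℝ) ^ E - 1) / 2 =
          x ^ 2 / 2 * (n : ℝ) ^ (E + E) - x * (n : ℝ) ^ E / 2 := by
        rw [pow_add]; ring
      rw [e1]
      have h5 : x * (n : ℝ) ^ E ≤ x * (2 * η * (n : ℝ) ^ (E + E)) :=
        mul_le_mul_of_nonneg_left hnj hx0
      linarith
    · push_cast
      have h5 : 0 ≤ x * η * (n : ℝ) ^ (E + j) := by positivity
      linarith
  have h5 : (thr j (E + j) x - 2 * (x * η)) * (n : ℝ) ^ (E + j) + (tf - s0) ^ 2 / 4 ≤ 0 := by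
    rw [thr_formula hj hE]
    have e1 : (1 / ((E + j).factorial : ℝ) - x / (E.factorial : ℝ) + nu j E * (x ^ 2 / 2) -
        2 * (x * η)) * (n : ℝ) ^ (E + j) = (n : ℝ) ^ (E + j) / ((E + j).factorial : ℝ) -
        (x / (E.factorial : ℝ) + x * η) * (n : ℝ) ^ (E + j) +
        ((nu j E : ℝ) * (x ^ 2 / 2) * (n : ℝ) ^ (E + j) - x * η * (n : ℝ) ^ (E + j)) := by ring
    rw [e1]
    linarith
  have h6 : 2 * (x * η) ≤ A / 4 := by
    have h7 : x * η ≤ B * η := mul_le_mul_of_nonneg_right hxB hηpos.le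
    have h8 : B * η = A / 8 := by
      rw [hη]; field_simp
    linarith
  by_cases hcase : x ≤ cs - ε / 2
  · have h7 := h1 x hx0 hcase
    have h8 : 0 < (thr j (E + j) x - 2 * (x * η)) * (n : ℝ) ^ (E + j) :=
      mul_pos (by linarith) hnD0
    have h9 : 0 ≤ (tf - s0) ^ 2 / 4 := by positivity
    linarith
  · push Not at hcase
    have h7 := h2 x hx0 hxle
    have h8 : (-(3 * A / 4)) * (n : ℝ) ^ (E + j) ≤
        (thr j (E + j) x - 2 * (x * η)) * (n : ℝ) ^ (E + j) :=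
      mul_le_mul_of_nonneg_right (by linarith) hnD0.le
    have h9 : ε / 2 * (n : ℝ) ^ j ≤ tf - s0 := by
      rw [htfx]
      have h10 : (cs - ε / 2) * (n : ℝ) ^ j ≤ x * (n : ℝ) ^ j :=
        mul_le_mul_of_nonneg_right hcase.le hnj0.le
      linarith
    have h10 : (ε / 2 * (n : ℝ) ^ j) ^ 2 ≤ (tf - s0) ^ 2 :=
      pow_le_pow_left₀ (by positivity) h9 2
    have h11 : (n : ℝ) ^ (E + j) ≤ (n : ℝ) ^ j * (n : ℝ) ^ j := by
      rw [← pow_add]
      exact pow_le_pow_right₀ hn (by omega)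
    have h12 : A * (n : ℝ) ^ (E + j) ≤ (tf - s0) ^ 2 / 4 := by
      calc A * (n : ℝ) ^ (E + j) ≤ (ε ^ 2 / 16) * (n : ℝ) ^ (E + j) :=
            mul_le_mul_of_nonneg_right hAε hnD0.le
        _ ≤ (ε ^ 2 / 16) * ((n : ℝ) ^ j * (n : ℝ) ^ j) :=
            mul_le_mul_of_nonneg_left h11 (by positivity)
        _ = (ε / 2 * (n : ℝ) ^ j) ^ 2 / 4 := by ring
        _ ≤ (tf - s0) ^ 2 / 4 := by linarith
    have h13 : 0 < A / 4 * (n : ℝ) ^ (E + j) := by positivity
    linarith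

/-- Exactness below the threshold. -/
theorem exact_below {j E : ℕ} (hj : 2 ≤ j) (hE : E ≤ j) {cs : ℝ} (hcs : IsZ j (E + j) cs)
    {ε : ℝ} (hε : 0 < ε) :
    ∀ᶠ n : ℕ in atTop, ∀ t : ℕ, (t : ℝ) ≤ (cs - ε) * (n : ℝ) ^ j →
      exc k (Fin (n + 1)) j E t = 0 := by
  have hcs0 := hcs.1
  -- lower bound well below the threshold
  obtain ⟨μ, hμ0, hμ⟩ : ∃ μ : ℝ, 0 < μ ∧ ∀ x, 0 ≤ x → x ≤ cs - ε / 2 →
      μ ≤ thr j (E + j) x := by
    by_cases hneg : cs - ε / 2 < 0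
    · exact ⟨1, one_pos, fun x hx0 hx => absurd (hx0.trans hx) (not_le.2 hneg)⟩
    · push Not at hneg
      obtain ⟨x0, hx0, hmin⟩ := isCompact_Icc.exists_isMinOn (Set.nonempty_Icc.2 hneg)
        (continuous_thr j (E + j)).continuousOn
      refine ⟨thr j (E + j) x0, hcs.2.2 x0 hx0.1 (by linarith [hx0.2]), fun x hx1 hx2 => ?_⟩
      exact hmin ⟨hx1, hx2⟩
  set A : ℝ := min μ (ε ^ 2 / 16) with hA
  have hA0 : 0 < A := lt_min hμ0 (by positivity)
  obtain ⟨δ, hδ0, hδ1, hδ⟩ : ∃ δ : ℝ, 0 < δ ∧ δ ≤ 1 ∧ ∀ x, 0 ≤ x → x ≤ cs + δ →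
      -(A / 2) ≤ thr j (E + j) x := by
    have h1 := Metric.continuousAt_iff.1 ((continuous_thr j (E + j)).continuousAt (x := cs))
      (A / 2) (by positivity)
    obtain ⟨δ, hδ0, hδ⟩ := h1
    refine ⟨min (δ / 2) 1, by positivity, min_le_right _ _, fun x hx0 hx => ?_⟩
    by_cases hxc : x ≤ cs
    · have := isZ_nonneg (by omega) hcs (E + j) le_rfl x hx0 hxc
      linarith
    · push Not at hxc
      have h2 : dist x cs < δ := by
        rw [Real.dist_eq, abs_of_pos (by linarith)]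
        have := min_le_left (δ / 2) 1
        linarith
      have h3 := hδ h2
      rw [Real.dist_eq, hcs.2.1, sub_zero, abs_lt] at h3
      linarith [h3.1]
  set B : ℝ := cs + 1 with hB
  have hB0 : 0 < B := by positivity
  set η : ℝ := A / (8 * B) with hη
  have hη0 : 0 < η := by positivity
  obtain ⟨s, hs1, hs2, hs3⟩ := isZ_neg hj hcs (show cs < cs + δ by linarith)
  have hs0 : 0 < s := hcs0.trans hs1
  have hev : ∀ᶠ n : ℕ in atTop, 1 / (2 * η) + 1 / (cs + δ - s) ≤ (n : ℝ) :=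
    tendsto_natCast_atTop_atTop.eventually_ge_atTop _
  filter_upwards [gen_full_of_above (k := k) hj hs0 hs3, dim_le k E hη0, hev,
    eventually_ge_atTop 1] with n hn1 hn2 hn3 hn4
  intro t ht
  by_contra hne
  have hn1' : (1 : ℝ) ≤ n := by exact_mod_cast hn4
  have hnj : (n : ℝ) ≤ (n : ℝ) ^ j := le_self_pow₀ hn1' (by omega)
  have hδs : 0 < cs + δ - s := by linarith
  have hp1 : 0 < 1 / (2 * η) := by positivity
  have hp2 : 0 < 1 / (cs + δ - s) := by positivity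
  set T : ℕ := ⌈s * (n : ℝ) ^ j⌉₊ with hT
  have hT1 : s * (n : ℝ) ^ j ≤ T := Nat.le_ceil _
  have hT2 : (T : ℝ) ≤ (cs + δ) * (n : ℝ) ^ j := by
    have h1 : (T : ℝ) < s * (n : ℝ) ^ j + 1 := Nat.ceil_lt_add_one (by positivity)
    have h2 : 1 ≤ (cs + δ - s) * (n : ℝ) ^ j := by
      have h3 : 1 / (cs + δ - s) ≤ (n : ℝ) ^ j := by linarith
      rw [div_le_iff₀ hδs] at h3
      linarith
    linarith
  obtain ⟨tf, s0, h1, h2, h3, h4⟩ := count (hn1 T hT1) hne
  have h5 : 4 * (Module.finrank k (homogeneousSubmodule (Fin (n + 1)) k (E + j)) : ℝ) +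
      ((tf : ℝ) - s0) ^ 2 ≤ 4 * (tf * Module.finrank k (homogeneousSubmodule (Fin (n + 1)) k E) -
        nu j E * ((tf : ℝ) * (tf - 1) / 2)) := by
    have h6 : (4 * (Module.finrank k (homogeneousSubmodule (Fin (n + 1)) k (E + j)) : ℝ) +
      ((tf : ℝ) - s0) ^ 2 : ℝ) ≤ 4 * (tf * Module.finrank k (homogeneousSubmodule
        (Fin (n + 1)) k E) - nu j E * ((tf.choose 2 : ℕ) : ℝ)) := by exact_mod_cast h4
    rwa [Nat.cast_choose_two] at h6
  refine numeric (cs := cs) (ε := ε) (A := A) (B := B) (μ := μ) (δ := δ) (η := η) hE hn1'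
    (by omega) hA0 (min_le_left _ _) (min_le_right _ _) hε hB0 rfl (by linarith) hμ hδ ?_
    (dim_ge (k := k) n (E + j)) hn2 (by positivity) ?_ ?_ h5
  · rw [pow_add]
    have h6 : 1 / (2 * η) ≤ (n : ℝ) ^ j := by linarith
    rw [div_le_iff₀ (by positivity)] at h6
    have h7 : (0 : ℝ) < (n : ℝ) ^ j := by positivity
    nlinarith
  · exact le_trans (by exact_mod_cast h3) hT2
  · exact le_trans (by exact_mod_cast h1) ht

/-- General points attain the largest dimension. -/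
theorem exists_generic_rank (n r j E : ℕ) : ∃ G : MvPolynomial (Fin r × Fin (n + 1)) k, G ≠ 0 ∧
    ∀ P : Fin r → Fin (n + 1) → k, eval (fun x => P x.1 x.2) G ≠ 0 → (∀ i, P i ≠ 0) ∧
      Module.finrank k (degPart (powSeq (fun x => P x.1 x.2) j) r E) =
        gen k (Fin (n + 1)) j E r := by
  obtain ⟨G, hG1, hG2⟩ := exists_gen (k := k) (σ := Fin (n + 1)) (Fin r) j E
  refine ⟨G, hG1, fun P hP => ?_⟩
  have h := hG2 _ hP
  refine ⟨fun i => h.1 i, ?_⟩
  rw [degPart_eq_setPart, h.2, Finset.card_univ, Fintype.card_fin]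

/-- The exact value below the threshold. -/
theorem final_exact (m d : ℕ) (hm : 1 ≤ m) (hd : m + 1 ≤ d) (hd2 : 2 * m ≤ d + 2) {cs : ℝ}
    (hcs : IsZ (d + 1 - m) d cs) {ε : ℝ} (hε : 0 < ε) :
    ∃ n0 : ℕ, ∀ n ≥ n0, ∀ r : ℕ, (r : ℝ) ≤ (cs - ε) * (n : ℝ) ^ (d + 1 - m) →
      ∃ G : MvPolynomial (Fin r × Fin (n + 1)) k, G ≠ 0 ∧
      ∀ P : Fin r → Fin (n + 1) → k, eval (fun x => P x.1 x.2) G ≠ 0 → (∀ i, P i ≠ 0) ∧
        (Module.finrank k (homogeneousSubmodule (Fin (n + 1)) k d) : ℝ) -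
          (Module.finrank k (homogeneousSubmodule (Fin (n + 1)) k d ⊓
            (fatId P m).restrictScalars k : Submodule k (MvPolynomial (Fin (n + 1)) k)) : ℝ) =
        (r : ℝ) * ((n + m - 1).choose n : ℝ) - (if d + 2 = 2 * m then (r.choose 2 : ℝ) else 0) := by
  obtain ⟨j, hj⟩ : ∃ j, j = d + 1 - m := ⟨_, rfl⟩
  obtain ⟨E, hE⟩ : ∃ E, E = m - 1 := ⟨_, rfl⟩
  rw [← hj] at hcs ⊢
  have hd' : d = E + j := by omega
  subst hd'
  obtain ⟨n0, hn0⟩ := eventually_atTop.1 (exact_below (k := k) (by omega : 2 ≤ j)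
    (by omega : E ≤ j) hcs hε)
  refine ⟨n0, fun n hn r hr => ?_⟩
  obtain ⟨G, hG1, hG2⟩ := exists_generic_rank (k := k) n r j E
  refine ⟨G, hG1, fun P hP => ?_⟩
  obtain ⟨hP0, hP1⟩ := hG2 P hP
  refine ⟨hP0, ?_⟩
  have h1 := hn0 n hn r hr
  have h3 := codim_eq (j := j) hm P hP0
  rw [← hE, hP1] at h3
  have h4 : ((Module.finrank k (homogeneousSubmodule (Fin (n + 1)) k (E + j)) : ℝ) -
      (Module.finrank k (homogeneousSubmodule (Fin (n + 1)) k (E + j) ⊓
        (fatId P m).restrictScalars k : Submodule k (MvPolynomial (Fin (n + 1)) k)) : ℝ)) =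
      (gen k (Fin (n + 1)) j E r : ℝ) := by
    rw [← h3]
    push_cast
    ring
  rw [h4]
  unfold exc at h1
  have h5 : (gen k (Fin (n + 1)) j E r : ℤ) = r * Module.finrank k (homogeneousSubmodule
      (Fin (n + 1)) k E) - nu j E * (r.choose 2 : ℕ) := by linarith
  have h6 : (gen k (Fin (n + 1)) j E r : ℝ) = r * Module.finrank k (homogeneousSubmodule
      (Fin (n + 1)) k E) - nu j E * (r.choose 2 : ℕ) := by exact_mod_cast h5
  rw [h6, finrank_homog_fin]
  have h7 : (n + E).choose E = (n + m - 1).choose n := by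
    rw [show n + m - 1 = n + E by omega]
    exact (Nat.choose_symm_of_eq_add (n := n + E) (a := n) (b := E) rfl).symm
  rw [h7]
  congr 1
  unfold nu
  by_cases h8 : E = j
  · rw [if_pos h8, if_pos (by omega)]
    push_cast
    ring
  · rw [if_neg h8, if_neg (by omega)]
    push_cast
    ring

end GrFinal

end Pool.Agent.Helper45.Gr
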