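import Mathlib

namespace Pool.Agent.Helper45

open MvPolynomial

section Base

variable {k : Type*} [Field k] [CharZero k] {τ : Type*} [DecidableEq τ]

/-- A multiple of a high power of the sum of the variables whose monomials all miss one of the
variables in `L` is zero. -/
theorem eq_zero_of_pow_dvd [Fintype τ] (L : Finset τ) :
    ∀ (j : ℕ), L.card ≤ j → ∀ h : MvPolynomial τ k,
      h ∈ restrictSupport k {u : τ →₀ ℕ | ∃ i ∈ L, u i = 0} →
      (∑ i, (X i : MvPolynomial τ k)) ^ j ∣ h → h = 0 := by
  induction L using Finset.induction_on with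
  | empty =>
    intro j _ h hh _
    have : h.support = ∅ := by
      rw [mem_restrictSupport_iff] at hh
      rw [Finset.eq_empty_iff_forall_notMem]
      intro u hu
      have := hh (Finset.mem_coe.2 hu)
      simp at this
    exact support_eq_empty.1 this
  | insert a L' ha ih =>
    intro j hj h hh hd
    rw [Finset.card_insert_of_notMem ha] at hj
    have hjpos : 1 ≤ j := by omega
    -- derivative
    have h1 : pderiv a h ∈ restrictSupport k {u : τ →₀ ℕ | ∃ i ∈ L', u i = 0} := by
      rw [mem_restrictSupport_iff]
      intro v hv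
      rw [Finset.mem_coe, mem_support_iff, coeff_pderiv] at hv
      have hv1 : v + Finsupp.single a 1 ∈ h.support := by
        rw [mem_support_iff]
        exact fun h0 => hv (by rw [h0, zero_mul])
      obtain ⟨i, hi, hi0⟩ := hh (Finset.mem_coe.2 hv1)
      rw [Finset.mem_insert] at hi
      rcases hi with rfl | hi
      · simp at hi0
      · refine ⟨i, hi, ?_⟩
        simp only [Finsupp.add_apply] at hi0
        omega
    have h2 : (∑ i, (X i : MvPolynomial τ k)) ^ (j - 1) ∣ pderiv a h := by
      obtain ⟨g, rfl⟩ := hd
      rw [pderiv_mul, pderiv_pow]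
      have e : (∑ i, (X i : MvPolynomial τ k)) ^ j = (∑ i, (X i : MvPolynomial τ k)) ^ (j - 1) *
          (∑ i, (X i : MvPolynomial τ k)) := by
        rw [← pow_succ]; congr 1; omega
      refine Dvd.dvd.add ?_ ?_
      · refine Dvd.intro ((j : MvPolynomial τ k) * pderiv a (∑ i, X i) * g) ?_
        ring
      · rw [e]
        refine Dvd.intro ((∑ i, (X i : MvPolynomial τ k)) * pderiv a g) ?_
        ring
    have h3 : pderiv a h = 0 := ih (j - 1) (by omega) _ h1 h2
    -- so `a` does not occur in `h`
    have h4 : a ∉ h.vars := by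
      rw [mem_vars_iff_mem_support]
      rintro ⟨v, hv, hva⟩
      have hva' : 1 ≤ v a := Nat.one_le_iff_ne_zero.2 (Finsupp.mem_support_iff.1 hva)
      have e : coeff (v - Finsupp.single a 1) (pderiv a h) = 0 := by rw [h3, coeff_zero]
      rw [coeff_pderiv] at e
      have e2 : v - Finsupp.single a 1 + Finsupp.single a 1 = v := by
        ext i
        by_cases hi : i = a
        · subst hi; simp; omega
        · simp [Ne.symm hi]
      rw [e2] at e
      rw [mem_support_iff] at hv
      rcases mul_eq_zero.1 e with e | e
      · exact hv e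
      · exact (Nat.cast_add_one_ne_zero (R := k) _) e
    -- substitute
    let φ : MvPolynomial τ k →ₐ[k] MvPolynomial τ k :=
      aeval (fun i => if i = a then - ∑ i ∈ Finset.univ.erase a, (X i : MvPolynomial τ k) else X i)
    have h5 : φ h = h := by
      have : φ h = aeval (X : τ → MvPolynomial τ k) h := by
        refine eval₂Hom_congr' rfl ?_ rfl
        intro i hi _
        have : i ≠ a := fun h0 => h4 (h0 ▸ hi)
        simp [this]
      rw [this, aeval_X_left_apply]
    have h6 : φ (∑ i, (X i : MvPolynomial τ k)) = 0 := by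
      rw [map_sum, ← Finset.add_sum_erase Finset.univ _ (Finset.mem_univ a)]
      have : ∑ x ∈ Finset.univ.erase a, φ (X x) = ∑ x ∈ Finset.univ.erase a, X x := by
        refine Finset.sum_congr rfl ?_
        intro x hx
        simp [φ, (Finset.mem_erase.1 hx).1]
      rw [this]
      simp [φ]
    obtain ⟨g, rfl⟩ := hd
    rw [← h5, map_mul, map_pow, h6, zero_pow (by omega), zero_mul]

/-- Normal form projection modulo a power of the sum of the variables, fixing all polynomials
none of whose monomials involves all the variables. -/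
theorem exists_rho0 [Fintype τ] (j : ℕ) (hj : Fintype.card τ ≤ j) :
    ∃ ρ : MvPolynomial τ k →ₗ[k] MvPolynomial τ k,
      (∀ t, (∑ i, (X i : MvPolynomial τ k)) ^ j ∣ t - ρ t) ∧
      (∀ t, ρ ((∑ i, (X i : MvPolynomial τ k)) ^ j * t) = 0) ∧
      (∀ t ∈ restrictSupport k {u : τ →₀ ℕ | ∃ i, u i = 0}, ρ t = t) := by
  classical
  set P := (∑ i, (X i : MvPolynomial τ k)) ^ j with hP
  let D : Submodule k (MvPolynomial τ k) := LinearMap.range (LinearMap.mulLeft k P)
  let W : Submodule k (MvPolynomial τ k) := restrictSupport k {u : τ →₀ ℕ | ∃ i, u i = 0}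
  have hDW : Disjoint D W := by
    rw [Submodule.disjoint_def]
    rintro h ⟨g, rfl⟩ hW
    refine eq_zero_of_pow_dvd (Finset.univ : Finset τ) j (by simpa using hj) _ ?_ ?_
    · simpa using hW
    · simp [P]
  obtain ⟨a, ha⟩ := exists_isCompl (D ⊔ W)
  have hc : IsCompl (W ⊔ a) D := by
    constructor
    · exact (hDW.disjoint_sup_right_of_disjoint_sup_left ha.disjoint).symm
    · rw [codisjoint_iff, sup_comm, ← sup_assoc]
      exact ha.sup_eq_top
  refine ⟨(W ⊔ a).projection D hc, ?_, ?_, ?_⟩
  · intro t
    have : t - (W ⊔ a).projection D hc t ∈ D := by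
      rw [← Submodule.projection_apply_eq_zero_iff hc, map_sub,
        Submodule.projection_apply_of_mem_left hc (Submodule.projection_apply_mem hc t), sub_self]
    obtain ⟨g, hg⟩ := this
    rw [← hg]
    simp
  · intro t
    rw [Submodule.projection_apply_eq_zero_iff]
    exact ⟨t, by simp⟩
  · intro t ht
    exact Submodule.projection_apply_of_mem_left hc ((le_sup_left : W ≤ W ⊔ a) ht)

end Base

end Pool.Agent.Helper45
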