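import Mathlib
import Pool.Agent.Helper45.FatBase

namespace Pool.Agent.Helper45

open MvPolynomial
open scoped Classical

section Lift

variable {k : Type*} [Field k] {τ σ : Type*}

/-- The part of the exponent `u` away from the range of `x`. -/
noncomputable def offPart (x : τ → σ) (u : σ →₀ ℕ) : σ →₀ ℕ :=
  u.filter (fun s => s ∉ Set.range x)

theorem offPart_apply (x : τ → σ) (u : σ →₀ ℕ) (s : σ) :
    offPart x u s = if s ∉ Set.range x then u s else 0 := by
  unfold offPart
  rw [Finsupp.filter_apply]

theorem mem_support_offPart (x : τ → σ) (u : σ →₀ ℕ) {s : σ} (hs : s ∈ (offPart x u).support) :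
    s ∈ u.support ∧ s ∉ Set.range x := by
  rw [Finsupp.mem_support_iff, offPart_apply] at hs
  by_cases h : s ∈ Set.range x
  · rw [if_neg (not_not.2 h)] at hs
    exact absurd rfl hs
  · rw [if_pos h] at hs
    exact ⟨Finsupp.mem_support_iff.2 hs, h⟩

/-- Extension of a linear operator on the polynomials in the variables `x i` to all
polynomials, linear over the polynomials in the remaining variables. -/
noncomputable def liftOp (x : τ → σ) (hx : Function.Injective x)
    (φ : MvPolynomial τ k →ₗ[k] MvPolynomial τ k) : MvPolynomial σ k →ₗ[k] MvPolynomial σ k :=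
  (basisMonomials σ k).constr k fun u =>
    rename x (φ (monomial (u.comapDomain x hx.injOn) 1)) *
      monomial (offPart x u) 1

variable (x : τ → σ) (hx : Function.Injective x) (φ : MvPolynomial τ k →ₗ[k] MvPolynomial τ k)

theorem liftOp_monomial (u : σ →₀ ℕ) (a : k) :
    liftOp x hx φ (monomial u a) = rename x (φ (monomial (u.comapDomain x hx.injOn) a)) *
      monomial (offPart x u) 1 := by
  have h1 : monomial u a = a • (monomial u 1 : MvPolynomial σ k) := by
    rw [smul_monomial, smul_eq_mul, mul_one]
  have h2 : (monomial (u.comapDomain x hx.injOn) a : MvPolynomial τ k) =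
      a • (monomial (u.comapDomain x hx.injOn) 1) := by
    rw [smul_monomial, smul_eq_mul, mul_one]
  rw [h1, h2, map_smul, map_smul, map_smul, smul_mul_assoc]
  congr 1
  have := (basisMonomials σ k).constr_basis k (fun u =>
    rename x (φ (monomial (u.comapDomain x hx.injOn) 1)) *
      monomial (offPart x u) (1 : k)) u
  rw [coe_basisMonomials] at this
  exact this

theorem monomial_split (u : σ →₀ ℕ) (a : k) :
    (monomial u a : MvPolynomial σ k) = rename x (monomial (u.comapDomain x hx.injOn) a) *
      monomial (offPart x u) 1 := by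
  have key : Finsupp.mapDomain x (u.comapDomain x hx.injOn) +
      offPart x u = u := by
    ext s
    rw [Finsupp.add_apply, offPart_apply]
    by_cases hs : s ∈ Set.range x
    · obtain ⟨i, rfl⟩ := hs
      rw [Finsupp.mapDomain_apply hx]
      simp
    · rw [Finsupp.mapDomain_of_notMem_range _ _ hs]
      simp [hs]
  rw [rename_monomial, monomial_mul, mul_one, key]

theorem liftOp_mono_mul (v : τ →₀ ℕ) (a : k) (w : σ →₀ ℕ) (hw : ∀ s ∈ w.support, s ∉ Set.range x)
    (b : k) :
    liftOp x hx φ (rename x (monomial v a) * monomial w b) =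
      rename x (φ (monomial v a)) * monomial w b := by
  rw [rename_monomial, monomial_mul, liftOp_monomial]
  have h1 : (Finsupp.mapDomain x v + w).comapDomain x hx.injOn = v := by
    ext i
    rw [Finsupp.comapDomain_apply, Finsupp.add_apply, Finsupp.mapDomain_apply hx]
    have : w (x i) = 0 := by
      by_contra h
      exact hw (x i) (Finsupp.mem_support_iff.2 h) ⟨i, rfl⟩
    rw [this, add_zero]
  have h2 : offPart x (Finsupp.mapDomain x v + w) = w := by
    ext s
    rw [offPart_apply]
    by_cases hs : s ∈ Set.range x
    · rw [if_neg (not_not.2 hs)]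
      by_contra h
      exact hw s (Finsupp.mem_support_iff.2 (Ne.symm h)) hs
    · rw [if_pos hs, Finsupp.add_apply, Finsupp.mapDomain_of_notMem_range _ _ hs, zero_add]
  rw [h1, h2]
  have h3 : (monomial v (a * b) : MvPolynomial τ k) = b • monomial v a := by
    rw [smul_monomial, smul_eq_mul, mul_comm]
  have h4 : (monomial w b : MvPolynomial σ k) = b • monomial w 1 := by
    rw [smul_monomial, smul_eq_mul, mul_one]
  rw [h3, h4, map_smul, map_smul, smul_mul_assoc, mul_smul_comm]

theorem liftOp_mul (t : MvPolynomial τ k) (c : MvPolynomial σ k)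
    (hc : c ∈ supported k (Set.range x)ᶜ) :
    liftOp x hx φ (rename x t * c) = rename x (φ t) * c := by
  induction t using MvPolynomial.induction_on' with
  | add p q hp hq => rw [map_add, add_mul, map_add, hp, hq, map_add, map_add, add_mul]
  | monomial v a =>
    have hsum : c = ∑ w ∈ c.support, monomial w (coeff w c) := (support_sum_monomial_coeff c).symm
    rw [hsum, Finset.mul_sum, map_sum, Finset.mul_sum]
    refine Finset.sum_congr rfl ?_
    intro w hw
    refine liftOp_mono_mul x hx φ v a w ?_ _
    intro s hs
    rw [mem_supported] at hc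
    have : s ∈ c.vars := (mem_vars_iff_mem_support s).2 ⟨w, hw, hs⟩
    exact hc (Finset.mem_coe.2 this)

theorem filter_mem_supported (u : σ →₀ ℕ) (a : k) :
    (monomial (offPart x u) a : MvPolynomial σ k) ∈
      supported k (Set.range x)ᶜ := by
  rw [mem_supported]
  intro s hs
  rw [Finset.mem_coe, mem_vars_iff_mem_support] at hs
  obtain ⟨d, hd, hs⟩ := hs
  have hd' := support_monomial_subset hd
  rw [Finset.mem_singleton] at hd'
  subst hd'
  exact (mem_support_offPart x u hs).2

theorem monomial_mem_supported {s : Set σ} {u : σ →₀ ℕ} (a : k) (hu : ∀ i ∈ u.support, i ∈ s) :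
    (monomial u a : MvPolynomial σ k) ∈ supported k s := by
  rw [mem_supported]
  intro i hi
  rw [Finset.mem_coe, mem_vars_iff_mem_support] at hi
  obtain ⟨d, hd, hs⟩ := hi
  have hd' := support_monomial_subset hd
  rw [Finset.mem_singleton] at hd'
  subst hd'
  exact hu i hs

theorem rename_mem_supported {s : Set σ} (hs : Set.range x ⊆ s) (t : MvPolynomial τ k) :
    rename x t ∈ supported k s := by
  refine supported_mono hs ?_
  rw [mem_supported]
  intro i hi
  have := vars_rename x t (Finset.mem_coe.1 hi)
  rw [Finset.mem_image] at this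
  obtain ⟨j, _, rfl⟩ := this
  exact ⟨j, rfl⟩

end Lift

section Rho

variable {k : Type*} [Field k] [CharZero k] {τ σ : Type*} [Fintype τ]

/-- The normal form operator attached to a power of a sum of distinct variables. -/
theorem exists_rho (x : τ → σ) (hx : Function.Injective x) (j : ℕ) (hj : Fintype.card τ ≤ j) :
    ∃ ρ : MvPolynomial σ k →ₗ[k] MvPolynomial σ k,
      (∀ c ∈ supported k (Set.range x)ᶜ, ∀ h, ρ (c * h) = c * ρ h) ∧
      (∀ h, ρ ((∑ i, (X (x i) : MvPolynomial σ k)) ^ j * h) = 0) ∧
      (∀ s : Set σ, ∀ h ∈ supported k s, ρ h ∈ supported k s ∧ ∃ w ∈ supported k s,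
        (w ≠ 0 → Set.range x ⊆ s) ∧ h - ρ h = (∑ i, (X (x i) : MvPolynomial σ k)) ^ j * w) := by
  obtain ⟨φ, h1, h2, h3⟩ := exists_rho0 (k := k) (τ := τ) j hj
  have hf : (∑ i, (X (x i) : MvPolynomial σ k)) ^ j =
      rename x ((∑ i, (X i : MvPolynomial τ k)) ^ j) := by
    rw [map_pow, map_sum]
    simp
  refine ⟨liftOp x hx φ, ?_, ?_, ?_⟩
  · intro c hc h
    induction h using MvPolynomial.induction_on' with
    | add p q hp hq => rw [mul_add, map_add, hp, hq, map_add, mul_add]
    | monomial u a =>
      rw [monomial_split x hx u a]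
      have hm := filter_mem_supported (k := k) x u 1
      have e : c * (rename x (monomial (u.comapDomain x hx.injOn) a) *
          monomial (offPart x u) 1) =
          rename x (monomial (u.comapDomain x hx.injOn) a) *
          (c * monomial (offPart x u) 1) := by ring
      rw [e, liftOp_mul x hx φ _ _ (mul_mem hc hm), liftOp_mul x hx φ _ _ hm]
      ring
  · intro h
    induction h using MvPolynomial.induction_on' with
    | add p q hp hq => rw [mul_add, map_add, hp, hq, add_zero]
    | monomial u a =>
      rw [monomial_split x hx u a, ← mul_assoc, hf, ← map_mul,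
        liftOp_mul x hx φ _ _ (filter_mem_supported x u 1), h2, map_zero, zero_mul]
  · intro s h hh
    have hmon : ∀ u ∈ h.support, ∀ i ∈ u.support, i ∈ s := by
      intro u hu i hi
      rw [mem_supported] at hh
      exact hh (Finset.mem_coe.2 ((mem_vars_iff_mem_support i).2 ⟨u, hu, hi⟩))
    by_cases hs : Set.range x ⊆ s
    · -- the full case
      have key : ∀ u ∈ h.support, liftOp x hx φ (monomial u (coeff u h)) ∈ supported k s ∧
          ∃ w ∈ supported k s, monomial u (coeff u h) - liftOp x hx φ (monomial u (coeff u h)) =
            (∑ i, (X (x i) : MvPolynomial σ k)) ^ j * w := by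
        intro u hu
        have hm : (monomial (offPart x u) 1 : MvPolynomial σ k) ∈
            supported k s := by
          refine monomial_mem_supported _ ?_
          intro i hi
          exact hmon u hu i (mem_support_offPart x u hi).1
        refine ⟨?_, ?_⟩
        · rw [liftOp_monomial]
          exact mul_mem (rename_mem_supported x hs _) hm
        · obtain ⟨w, hw⟩ := h1 (monomial (u.comapDomain x hx.injOn) (coeff u h))
          refine ⟨rename x w * monomial (offPart x u) 1,
            mul_mem (rename_mem_supported x hs _) hm, ?_⟩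
          rw [liftOp_monomial]
          nth_rewrite 1 [monomial_split x hx u (coeff u h)]
          rw [← sub_mul, ← map_sub, hw, map_mul, hf, mul_assoc]
      choose! hk w hw1 hw2 using key
      have hsum : h = ∑ u ∈ h.support, monomial u (coeff u h) := (support_sum_monomial_coeff h).symm
      refine ⟨?_, ∑ u ∈ h.support, w u, sum_mem fun u hu => hw1 u hu, fun _ => hs, ?_⟩
      · rw [hsum, map_sum]
        exact sum_mem fun u hu => hk u hu
      · nth_rewrite 1 2 [hsum]
        rw [map_sum, ← Finset.sum_sub_distrib, Finset.mul_sum]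
        exact Finset.sum_congr rfl fun u hu => hw2 u hu
    · obtain ⟨_, ⟨i, rfl⟩, hi⟩ := Set.not_subset.1 hs
      have key : liftOp x hx φ h = h := by
        have hsum : h = ∑ u ∈ h.support, monomial u (coeff u h) :=
          (support_sum_monomial_coeff h).symm
        nth_rewrite 1 [hsum]
        rw [map_sum]
        nth_rewrite 3 [hsum]
        refine Finset.sum_congr rfl ?_
        intro u hu
        rw [liftOp_monomial, h3, ← monomial_split x hx u]
        rw [monomial_mem_restrictSupport]
        left
        refine ⟨i, ?_⟩
        rw [Finsupp.comapDomain_apply]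
        by_contra h0
        exact hi (hmon u hu (x i) (Finsupp.mem_support_iff.2 h0))
      rw [key]
      exact ⟨hh, 0, zero_mem _, fun h0 => absurd rfl h0, by rw [sub_self, mul_zero]⟩

end Rho

end Pool.Agent.Helper45
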