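import Mathlib
import Pool.Agent.Helper45.FatLift

namespace Pool.Agent.Helper45

open MvPolynomial

set_option linter.unusedSectionVars false

section Koszul

variable {k : Type*} [Field k] [CharZero k] {σ : Type*} {E : Type*} [DecidableEq E]
  {τ : E → Type*} [∀ e, Fintype (τ e)]

/-- The power of the sum of the variables attached to an edge. -/
noncomputable def edgePow (k : Type*) [Field k] {σ : Type*} {E : Type*} {τ : E → Type*}
    [∀ e, Fintype (τ e)] (x : ∀ e, τ e → σ) (j : ℕ) (e : E) : MvPolynomial σ k :=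
  (∑ i, (X (x e i) : MvPolynomial σ k)) ^ j

theorem edgePow_mem (x : ∀ e, τ e → σ) (j : ℕ) (e : E) {s : Set σ} (hs : Set.range (x e) ⊆ s) :
    edgePow k x j e ∈ supported k s := by
  unfold edgePow
  refine pow_mem (sum_mem fun i _ => ?_) j
  rw [X_mem_supported]
  exact hs ⟨i, rfl⟩

theorem exists_rhoSet (x : ∀ e, τ e → σ) (hx : ∀ e, Function.Injective (x e))
    (hd : ∀ e e', e ≠ e' → Disjoint (Set.range (x e)) (Set.range (x e'))) (j : ℕ)
    (hj : ∀ e, Fintype.card (τ e) ≤ j) (A : Finset E) :
    ∃ ρ : MvPolynomial σ k →ₗ[k] MvPolynomial σ k,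
      (∀ e ∈ A, ∀ h, ρ (edgePow k x j e * h) = 0) ∧
      (∀ e, e ∉ A → ∀ h, ρ (edgePow k x j e * h) = edgePow k x j e * ρ h) ∧
      (∀ s : Set σ, ∀ h ∈ supported k s, ρ h ∈ supported k s ∧
        ∃ w : E → MvPolynomial σ k, (∀ e, w e ∈ supported k s) ∧
          (∀ e, w e ≠ 0 → e ∈ A ∧ Set.range (x e) ⊆ s) ∧
          h - ρ h = ∑ e ∈ A, edgePow k x j e * w e) := by
  induction A using Finset.induction_on with
  | empty =>
    refine ⟨LinearMap.id, fun e he => absurd he (Finset.notMem_empty e), fun e _ h => rfl, ?_⟩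
    intro s h hh
    refine ⟨hh, fun _ => 0, fun _ => zero_mem _, fun _ h0 => absurd rfl h0, ?_⟩
    simp
  | insert a A ha ih =>
    obtain ⟨ρ, h1, h2, h3⟩ := ih
    obtain ⟨θ, g1, g2, g3⟩ := exists_rho (k := k) (x a) (hx a) j (hj a)
    refine ⟨θ ∘ₗ ρ, ?_, ?_, ?_⟩
    · intro e he h
      rw [LinearMap.comp_apply]
      rcases Finset.mem_insert.1 he with rfl | he
      · rw [h2 e ha]
        exact g2 _
      · rw [h1 e he, map_zero]
    · intro e he h
      rw [Finset.mem_insert, not_or] at he
      rw [LinearMap.comp_apply, LinearMap.comp_apply, h2 e he.2]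
      refine g1 _ ?_ _
      refine edgePow_mem x j e ?_
      exact Set.subset_compl_iff_disjoint_right.2 (hd e a he.1)
    · intro s h hh
      obtain ⟨hρ, w, hw1, hw2, hw3⟩ := h3 s h hh
      obtain ⟨hθ, w', hw1', hw2', hw3'⟩ := g3 s (ρ h) hρ
      refine ⟨hθ, Function.update w a w', ?_, ?_, ?_⟩
      · intro e
        by_cases he : e = a
        · subst he; rw [Function.update_self]; exact hw1'
        · rw [Function.update_of_ne he]; exact hw1 e
      · intro e
        by_cases he : e = a
        · subst he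
          rw [Function.update_self]
          exact fun h0 => ⟨Finset.mem_insert_self _ _, hw2' h0⟩
        · rw [Function.update_of_ne he]
          exact fun h0 => ⟨Finset.mem_insert_of_mem (hw2 e h0).1, (hw2 e h0).2⟩
      · rw [Finset.sum_insert ha, Function.update_self]
        have e1 : ∑ e ∈ A, edgePow k x j e * Function.update w a w' e =
            ∑ e ∈ A, edgePow k x j e * w e := by
          refine Finset.sum_congr rfl ?_
          intro e he
          have hea : e ≠ a := by rintro rfl; exact ha he
          rw [Function.update_of_ne hea]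
        rw [e1, ← hw3, LinearMap.comp_apply]
        have e2 : edgePow k x j a * w' = ρ h - θ (ρ h) := hw3'.symm
        rw [e2]
        ring

theorem koszul_of_disjoint (x : ∀ e, τ e → σ) (hx : ∀ e, Function.Injective (x e))
    (hd : ∀ e e', e ≠ e' → Disjoint (Set.range (x e)) (Set.range (x e'))) (j : ℕ)
    (hj : ∀ e, Fintype.card (τ e) ≤ j) (hne : ∀ e, Nonempty (τ e)) (A : Finset E) :
    ∀ G : E → MvPolynomial σ k, ∑ e ∈ A, edgePow k x j e * G e = 0 →
      ∃ κ : E → E → MvPolynomial σ k, (∀ e e', κ e e' = - κ e' e) ∧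
        (∀ e e', κ e e' ≠ 0 → e ∈ A ∧ e' ∈ A) ∧
        ∀ e ∈ A, G e = ∑ e' ∈ A, κ e e' * edgePow k x j e' := by
  classical
  induction A using Finset.induction_on with
  | empty =>
    intro G _
    exact ⟨fun _ _ => 0, by simp, by simp, by simp⟩
  | insert a A ha ih =>
    intro G hG
    rw [Finset.sum_insert ha] at hG
    obtain ⟨ρ, h1, h2, h3⟩ := exists_rhoSet (k := k) x hx hd j hj A
    have hρ : ρ (edgePow k x j a * G a) = 0 := by
      have : edgePow k x j a * G a = - ∑ e ∈ A, edgePow k x j e * G e := by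
        rw [eq_neg_iff_add_eq_zero]; exact hG
      rw [this, map_neg, map_sum, Finset.sum_eq_zero, neg_zero]
      intro e he
      exact h1 e he _
    rw [h2 a ha] at hρ
    have hne0 : edgePow k x j a ≠ 0 := by
      unfold edgePow
      refine pow_ne_zero _ ?_
      intro h0
      obtain ⟨i⟩ := hne a
      have := congrArg (coeff (Finsupp.single (x a i) 1)) h0
      rw [coeff_zero, coeff_sum] at this
      rw [Finset.sum_eq_single i] at this
      · simp at this
      · intro i' _ hi'
        rw [coeff_X, if_neg]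
        intro h1
        have := Finsupp.single_left_injective one_ne_zero h1
        exact hi' (hx a this)
      · simp
    have hG0 : ρ (G a) = 0 := (mul_eq_zero.1 hρ).resolve_left hne0
    obtain ⟨_, c, _, _, hc⟩ := h3 Set.univ (G a) (by rw [supported_univ]; trivial)
    rw [hG0, sub_zero] at hc
    obtain ⟨κ, k1, k2, k3⟩ := ih (fun e => G e + c e * edgePow k x j a) (by
      have : ∑ e ∈ A, edgePow k x j e * (G e + c e * edgePow k x j a) =
          edgePow k x j a * G a + ∑ e ∈ A, edgePow k x j e * G e := by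
        rw [hc, Finset.mul_sum, ← Finset.sum_add_distrib]
        refine Finset.sum_congr rfl fun e _ => ?_
        ring
      rw [this, hG])
    refine ⟨fun e e' => if e = a then (if e' = a then 0 else if e' ∈ A then c e' else 0)
      else if e' = a then (if e ∈ A then - c e else 0) else κ e e', ?_, ?_, ?_⟩
    · intro e e'
      by_cases he : e = a <;> by_cases he' : e' = a
      · simp [he, he']
      · by_cases h : e' ∈ A <;> simp [he, he', h]
      · by_cases h : e ∈ A <;> simp [he, he', h]
      · simp only [he, he', if_false]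
        exact k1 e e'
    · intro e e' h0
      by_cases he : e = a <;> by_cases he' : e' = a
      · simp [he, he'] at h0
      · by_cases h : e' ∈ A
        · exact ⟨he ▸ Finset.mem_insert_self _ _, Finset.mem_insert_of_mem h⟩
        · simp [he, he', h] at h0
      · by_cases h : e ∈ A
        · exact ⟨Finset.mem_insert_of_mem h, he' ▸ Finset.mem_insert_self _ _⟩
        · simp [he, he', h] at h0
      · simp only [he, he', if_false] at h0
        exact ⟨Finset.mem_insert_of_mem (k2 e e' h0).1, Finset.mem_insert_of_mem (k2 e e' h0).2⟩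
    · intro e he
      rw [Finset.sum_insert ha]
      rcases Finset.mem_insert.1 he with rfl | he2
      · simp only [if_true, zero_mul, zero_add]
        rw [hc]
        refine Finset.sum_congr rfl ?_
        intro e' he'
        have hea : e' ≠ e := by rintro rfl; exact ha he'
        rw [if_neg hea, if_pos he']
        ring
      · have hea : e ≠ a := by rintro rfl; exact ha he2
        simp only [hea, if_false, if_true, he2]
        have e1 : ∑ e' ∈ A, (if e' = a then - c e else κ e e') * edgePow k x j e' =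
            ∑ e' ∈ A, κ e e' * edgePow k x j e' := by
          refine Finset.sum_congr rfl ?_
          intro e' he'
          have hea : e' ≠ a := by rintro rfl; exact ha he'
          rw [if_neg hea]
        rw [e1, ← k3 e he2]
        ring

end Koszul

section Local0

variable {k : Type*} [Field k] [CharZero k] {σ ι : Type*} [DecidableEq ι]

/-- The set of variables whose block (if any) lies in `B`. -/
def inB (blk : σ → Option ι) (B : Finset ι) : Set σ := {s | ∀ i, blk s = some i → i ∈ B}

theorem inB_mono (blk : σ → Option ι) {B B' : Finset ι} (h : B ⊆ B') : inB blk B ⊆ inB blk B' :=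
  fun _ hs i hi => h (hs i hi)

theorem local0 (blk : σ → Option ι) {E : Type*} [Fintype E] [DecidableEq E] (supp : E → Finset ι)
    (x : ∀ e, supp e → σ) (hblk : ∀ e i, blk (x e i) = some (i : ι))
    (hd : ∀ e e', e ≠ e' → Disjoint (Set.range (x e)) (Set.range (x e')))
    (j : ℕ) (hj : ∀ e, (supp e).card ≤ j) (hne : ∀ e, (supp e).Nonempty)
    (B : Finset ι) (g : E → MvPolynomial σ k) (h : ι → MvPolynomial σ k)
    (hh : ∀ i ∈ B, h i ∈ supported k (inB blk (B.erase i)))
    (hsum : ∑ e, edgePow k x j e * g e = ∑ i ∈ B, h i) :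
    ∃ κ : E → E → MvPolynomial σ k, (∀ e e', κ e e' = - κ e' e) ∧
      ∀ e, g e - ∑ e', κ e e' * edgePow k x j e' ∈
        ⨆ i ∈ B \ supp e, Subalgebra.toSubmodule (supported k (inB blk (B.erase i))) := by
  classical
  have hx : ∀ e, Function.Injective (x e) := by
    intro e i i' hii
    have : some (i : ι) = some (i' : ι) := by rw [← hblk e i, ← hblk e i', hii]
    exact Subtype.ext (Option.some_injective _ this)
  have hj' : ∀ e, Fintype.card (supp e) ≤ j := fun e => by
    rw [Fintype.card_coe]; exact hj e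
  obtain ⟨ρ, h1, h2, h3⟩ := exists_rhoSet (k := k) x hx hd j hj' Finset.univ
  have hρ : ∑ i ∈ B, ρ (h i) = 0 := by
    rw [← map_sum, ← hsum, map_sum, Finset.sum_eq_zero]
    intro e _
    exact h1 e (Finset.mem_univ _) _
  have hw : ∀ i ∈ B, ∃ w : E → MvPolynomial σ k,
      (∀ e, w e ∈ supported k (inB blk (B.erase i))) ∧
      (∀ e, w e ≠ 0 → i ∉ supp e) ∧
      h i - ρ (h i) = ∑ e, edgePow k x j e * w e := by
    intro i hi
    obtain ⟨_, w, w1, w2, w3⟩ := h3 (inB blk (B.erase i)) (h i) (hh i hi)
    refine ⟨w, w1, ?_, w3⟩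
    intro e he hie
    have := (w2 e he).2 ⟨⟨i, hie⟩, rfl⟩
    have := this i (hblk e ⟨i, hie⟩)
    exact absurd this (Finset.notMem_erase i B)
  choose! w w1 w2 w3 using hw
  have hsum2 : ∑ e, edgePow k x j e * (g e - ∑ i ∈ B, w i e) = 0 := by
    have e1 : ∑ e, edgePow k x j e * (g e - ∑ i ∈ B, w i e) =
        ∑ e, edgePow k x j e * g e - ∑ i ∈ B, ∑ e, edgePow k x j e * w i e := by
      rw [Finset.sum_comm, ← Finset.sum_sub_distrib]
      refine Finset.sum_congr rfl fun e _ => ?_
      rw [mul_sub, Finset.mul_sum]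
    have e2 : ∑ i ∈ B, ∑ e, edgePow k x j e * w i e = ∑ i ∈ B, (h i - ρ (h i)) :=
      Finset.sum_congr rfl fun i hi => (w3 i hi).symm
    rw [e1, e2, Finset.sum_sub_distrib, hρ, hsum]
    ring
  obtain ⟨κ, k1, _, k3⟩ := koszul_of_disjoint (k := k) x hx hd j hj'
    (fun e => (hne e).to_subtype) Finset.univ _ hsum2
  refine ⟨κ, k1, ?_⟩
  intro e
  rw [← k3 e (Finset.mem_univ _)]
  have e3 : g e - (g e - ∑ i ∈ B, w i e) = ∑ i ∈ B \ supp e, w i e := by
    rw [sub_sub_cancel]
    symm
    refine Finset.sum_subset Finset.sdiff_subset ?_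
    intro i hi hi2
    by_contra h0
    exact hi2 (Finset.mem_sdiff.2 ⟨hi, w2 i hi e h0⟩)
  rw [e3]
  refine Submodule.sum_mem _ ?_
  intro i hi
  refine Submodule.mem_iSup_of_mem i (Submodule.mem_iSup_of_mem hi ?_)
  exact w1 i (Finset.mem_sdiff.1 hi).1 e

end Local0

end Pool.Agent.Helper45
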