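import Mathlib
import Pool.Agent.Helper45.FatLocal

namespace Pool.Agent.Helper45

open MvPolynomial

set_option linter.unusedSectionVars false

section Vander

variable {k : Type*} [Field k] {σ ι : Type*} [DecidableEq ι] {N0 : ℕ}

/-- The block of a variable: the first component of its position. -/
noncomputable def blkOf (pos : ι × Fin N0 → σ) : σ → Option ι :=
  Function.extend pos (fun p => some p.1) (fun _ => none)

theorem blkOf_pos {pos : ι × Fin N0 → σ} (hpos : Function.Injective pos) (p : ι × Fin N0) :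
    blkOf pos (pos p) = some p.1 := hpos.extend_apply _ _ _

theorem blkOf_eq_some {pos : ι × Fin N0 → σ} (hpos : Function.Injective pos) {s : σ} {i : ι}
    (h : blkOf pos s = some i) : ∃ u, s = pos (i, u) := by
  by_cases hs : ∃ p, pos p = s
  · obtain ⟨p, rfl⟩ := hs
    rw [blkOf_pos hpos] at h
    have : p.1 = i := Option.some_injective _ h
    exact ⟨p.2, by rw [← this]⟩
  · unfold blkOf at h
    rw [Function.extend_apply' _ _ _ hs] at h
    exact absurd h (by simp)

/-- The block linear substitution given by a family of matrices. -/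
noncomputable def blockSub (pos : ι × Fin N0 → σ) (M : ι → Matrix (Fin N0) (Fin N0) k) :
    MvPolynomial σ k →ₐ[k] MvPolynomial σ k :=
  aeval (Function.extend pos (fun p => ∑ u, M p.1 p.2 u • (X (pos (p.1, u)) : MvPolynomial σ k)) X)

theorem blockSub_pos {pos : ι × Fin N0 → σ} (hpos : Function.Injective pos)
    (M : ι → Matrix (Fin N0) (Fin N0) k) (i : ι) (v : Fin N0) :
    blockSub pos M (X (pos (i, v))) = ∑ u, M i v u • (X (pos (i, u)) : MvPolynomial σ k) := by
  unfold blockSub
  rw [aeval_X, hpos.extend_apply]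

theorem blockSub_of_not {pos : ι × Fin N0 → σ}
    (M : ι → Matrix (Fin N0) (Fin N0) k) {s : σ} (hs : ¬ ∃ p, pos p = s) :
    blockSub pos M (X s) = (X s : MvPolynomial σ k) := by
  unfold blockSub
  rw [aeval_X, Function.extend_apply' _ _ _ hs]

theorem blockSub_comp {pos : ι × Fin N0 → σ} (hpos : Function.Injective pos)
    (M M' : ι → Matrix (Fin N0) (Fin N0) k) (h : ∀ i, M' i * M i = 1) (f : MvPolynomial σ k) :
    blockSub pos M (blockSub pos M' f) = f := by
  have : (blockSub pos M).comp (blockSub pos M') = AlgHom.id k (MvPolynomial σ k) := by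
    refine MvPolynomial.algHom_ext ?_
    intro s
    rw [AlgHom.comp_apply, AlgHom.id_apply]
    by_cases hs : ∃ p, pos p = s
    · obtain ⟨⟨i, v⟩, rfl⟩ := hs
      rw [blockSub_pos hpos, map_sum]
      have e1 : ∀ u, blockSub pos M (M' i v u • (X (pos (i, u)) : MvPolynomial σ k)) =
          ∑ w, (M' i v u * M i u w) • (X (pos (i, w)) : MvPolynomial σ k) := by
        intro u
        rw [map_smul, blockSub_pos hpos, Finset.smul_sum]
        refine Finset.sum_congr rfl fun w _ => ?_
        rw [smul_smul]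
      simp_rw [e1]
      rw [Finset.sum_comm]
      have e2 : ∀ w, ∑ u, (M' i v u * M i u w) • (X (pos (i, w)) : MvPolynomial σ k) =
          ((1 : Matrix (Fin N0) (Fin N0) k) v w) • (X (pos (i, w)) : MvPolynomial σ k) := by
        intro w
        rw [← Finset.sum_smul, ← h i, Matrix.mul_apply]
      simp_rw [e2]
      rw [Finset.sum_eq_single v]
      · rw [Matrix.one_apply_eq, one_smul]
      · intro w _ hw
        rw [Matrix.one_apply_ne (Ne.symm hw), zero_smul]
      · simp
    · rw [blockSub_of_not M' hs, blockSub_of_not M hs]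
  rw [← AlgHom.comp_apply, this, AlgHom.id_apply]

theorem blockSub_mem {pos : ι × Fin N0 → σ} (hpos : Function.Injective pos)
    (M : ι → Matrix (Fin N0) (Fin N0) k) (B : Finset ι) (f : MvPolynomial σ k)
    (hf : f ∈ supported k (inB (blkOf pos) B)) :
    blockSub pos M f ∈ supported k (inB (blkOf pos) B) := by
  have : (supported k (inB (blkOf pos) B)).map (blockSub pos M) ≤
      supported k (inB (blkOf pos) B) := by
    rw [supported_eq_adjoin_X, AlgHom.map_adjoin, Algebra.adjoin_le_iff]
    rintro _ ⟨_, ⟨s, hs, rfl⟩, rfl⟩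
    rw [← supported_eq_adjoin_X]
    by_cases h : ∃ p, pos p = s
    · obtain ⟨⟨i, v⟩, rfl⟩ := h
      change blockSub pos M (X (pos (i, v))) ∈ supported k (inB (blkOf pos) B)
      rw [blockSub_pos hpos]
      refine sum_mem fun u _ => ?_
      refine Subalgebra.smul_mem _ ?_ _
      rw [X_mem_supported]
      intro i' hi'
      rw [blkOf_pos hpos] at hi'
      exact hs i' (by rw [blkOf_pos hpos]; exact hi')
    · change blockSub pos M (X s) ∈ supported k (inB (blkOf pos) B)
      rw [blockSub_of_not M h, X_mem_supported]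
      exact hs
  exact this ⟨f, hf, rfl⟩

end Vander

section Local1

variable {k : Type*} [Field k] [CharZero k] {σ ι : Type*} [DecidableEq ι] {N0 : ℕ}

/-- The power of the linear form attached to a set of blocks and a parameter. -/
noncomputable def ptPow (pos : ι × Fin N0 → σ) (j : ℕ) (s : Finset ι) (t : k) :
    MvPolynomial σ k :=
  (∑ i ∈ s, ∑ u : Fin N0, t ^ (u : ℕ) • (X (pos (i, u)) : MvPolynomial σ k)) ^ j

theorem local1 {pos : ι × Fin N0 → σ} (hpos : Function.Injective pos)
    {E : Type*} [Fintype E] [DecidableEq E] (supp : E → Finset ι) (t : E → k)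
    (ht : Function.Injective t)
    (j : ℕ) (hj : ∀ e, (supp e).card ≤ j) (hne : ∀ e, (supp e).Nonempty)
    (hcount : ∀ i, (Finset.univ.filter fun e => i ∈ supp e).card ≤ N0)
    (B : Finset ι) (g : E → MvPolynomial σ k) (h : ι → MvPolynomial σ k)
    (hh : ∀ i ∈ B, h i ∈ supported k (inB (blkOf pos) (B.erase i)))
    (hsum : ∑ e, ptPow pos j (supp e) (t e) * g e = ∑ i ∈ B, h i) :
    ∃ κ : E → E → MvPolynomial σ k, (∀ e e', κ e e' = - κ e' e) ∧
      ∀ e, g e - ∑ e', κ e e' * ptPow pos j (supp e') (t e') ∈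
        ⨆ i ∈ B \ supp e, Subalgebra.toSubmodule (supported k (inB (blkOf pos) (B.erase i))) := by
  classical
  have hv : ∀ i, ∃ v : Fin N0 → k, Function.Injective v ∧ ∀ e, i ∈ supp e → ∃ c, v c = t e := by
    intro i
    have hc : ((Finset.univ.filter fun e => i ∈ supp e).image t).card ≤ N0 :=
      Finset.card_image_le.trans (hcount i)
    obtain ⟨T, hT, hTc⟩ := Infinite.exists_superset_card_eq _ _ hc
    let q := T.equivFinOfCardEq hTc
    refine ⟨fun c => (q.symm c : k), ?_, ?_⟩
    · intro c c' hcc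
      exact q.symm.injective (Subtype.ext hcc)
    · intro e he
      have : t e ∈ T := hT (Finset.mem_image.2 ⟨e, by simpa using he, rfl⟩)
      exact ⟨q ⟨t e, this⟩, by simp⟩
  choose v hv1 hv2 using hv
  choose c hc using hv2
  let M : ι → Matrix (Fin N0) (Fin N0) k := fun i => Matrix.vandermonde (v i)
  have hdet : ∀ i, IsUnit (M i).det := by
    intro i
    rw [isUnit_iff_ne_zero]
    exact Matrix.det_vandermonde_ne_zero_iff.2 (hv1 i)
  let Φ := blockSub pos M
  let Ψ := blockSub pos (fun i => (M i)⁻¹)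
  have hΦΨ : ∀ f, Φ (Ψ f) = f := fun f =>
    blockSub_comp hpos _ _ (fun i => Matrix.nonsing_inv_mul _ (hdet i)) f
  have hΨΦ : ∀ f, Ψ (Φ f) = f := fun f =>
    blockSub_comp hpos _ _ (fun i => Matrix.mul_nonsing_inv _ (hdet i)) f
  let x : ∀ e, supp e → σ := fun e i => pos (i, c i e i.2)
  have hΦx : ∀ e i, Φ (X (x e i)) = ∑ u : Fin N0, t e ^ (u : ℕ) • (X (pos ((i : ι), u)) :
      MvPolynomial σ k) := by
    intro e i
    change blockSub pos M (X (pos ((i : ι), c i e i.2))) = _
    rw [blockSub_pos hpos]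
    refine Finset.sum_congr rfl fun u _ => ?_
    change (Matrix.vandermonde (v i) (c i e i.2) u) • _ = _
    rw [Matrix.vandermonde_apply, hc]
  have hΦf : ∀ e, Φ (edgePow k x j e) = ptPow pos j (supp e) (t e) := by
    intro e
    unfold edgePow ptPow
    rw [map_pow, map_sum, ← Finset.sum_coe_sort (supp e)]
    congr 1
    exact Finset.sum_congr rfl fun i _ => hΦx e i
  have hΨf : ∀ e, Ψ (ptPow pos j (supp e) (t e)) = edgePow k x j e := by
    intro e; rw [← hΦf, hΨΦ]
  obtain ⟨κ, k1, k2⟩ := local0 (k := k) (blkOf pos) supp x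
    (fun e i => blkOf_pos hpos _)
    (by
      intro e e' hee
      rw [Set.disjoint_left]
      rintro _ ⟨⟨i, hi⟩, rfl⟩ ⟨⟨i', hi'⟩, hii⟩
      apply hee
      have := hpos hii
      rw [Prod.mk.injEq] at this
      obtain ⟨h1, h2⟩ := this
      simp only at h1
      subst h1
      apply ht
      rw [← hc i' e hi, ← hc i' e' hi', ← h2])
    j hj hne B (fun e => Ψ (g e)) (fun i => Ψ (h i))
    (fun i hi => blockSub_mem hpos _ _ _ (hh i hi))
    (by
      rw [← map_sum, ← hsum, map_sum]
      refine Finset.sum_congr rfl fun e _ => ?_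
      rw [map_mul, hΨf])
  refine ⟨fun e e' => Φ (κ e e'), ?_, ?_⟩
  · intro e e'
    change Φ (κ e e') = - Φ (κ e' e)
    rw [k1 e e', map_neg]
  · intro e
    have e1 : g e - ∑ e', Φ (κ e e') * ptPow pos j (supp e') (t e') =
        Φ (Ψ (g e) - ∑ e', κ e e' * edgePow k x j e') := by
      rw [map_sub, hΦΨ, map_sum]
      congr 1
      refine Finset.sum_congr rfl fun e' _ => ?_
      rw [map_mul, hΦf]
    rw [e1]
    have hle : (⨆ i ∈ B \ supp e, Subalgebra.toSubmodule
        (supported k (inB (blkOf pos) (B.erase i)))) ≤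
        (⨆ i ∈ B \ supp e, Subalgebra.toSubmodule
        (supported k (inB (blkOf pos) (B.erase i)))).comap Φ.toLinearMap := by
      refine iSup₂_le fun i hi => ?_
      intro f hf
      refine Submodule.mem_iSup_of_mem i (Submodule.mem_iSup_of_mem hi ?_)
      exact blockSub_mem hpos _ _ _ hf
    exact hle (k2 e)

end Local1

end Pool.Agent.Helper45
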