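import Mathlib
import Pool.Agent.Helper45.FatVander

namespace Pool.Agent.Helper45

open MvPolynomial

set_option linter.unusedSectionVars false

section Kill

variable {k : Type*} [Field k] {σ ι : Type*} [DecidableEq ι]

open scoped Classical in
/-- Kill all the variables whose block is not in `B`. -/
noncomputable def killB (k : Type*) [Field k] (blk : σ → Option ι) (B : Finset ι) :
    MvPolynomial σ k →ₐ[k] MvPolynomial σ k :=
  aeval (fun s => if s ∈ inB blk B then (X s : MvPolynomial σ k) else 0)

theorem killB_of_mem (blk : σ → Option ι) (B : Finset ι) {f : MvPolynomial σ k}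
    (hf : f ∈ supported k (inB blk B)) : killB k blk B f = f := by
  have : killB k blk B f = aeval (X : σ → MvPolynomial σ k) f := by
    refine eval₂Hom_congr' rfl ?_ rfl
    intro s hs _
    rw [mem_supported] at hf
    rw [if_pos (hf (Finset.mem_coe.2 hs))]
  rw [this, aeval_X_left_apply]

theorem killB_mem (blk : σ → Option ι) (B B' C : Finset ι) (hC : B ∩ B' ⊆ C)
    {f : MvPolynomial σ k} (hf : f ∈ supported k (inB blk B')) :
    killB k blk B f ∈ supported k (inB blk C) := by
  have : (supported k (inB blk B')).map (killB k blk B) ≤ supported k (inB blk C) := by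
    rw [supported_eq_adjoin_X, AlgHom.map_adjoin, Algebra.adjoin_le_iff]
    rintro _ ⟨_, ⟨s, hs, rfl⟩, rfl⟩
    change killB k blk B (X s) ∈ supported k (inB blk C)
    unfold killB
    rw [aeval_X]
    split_ifs with h
    · rw [X_mem_supported]
      intro i hi
      exact hC (Finset.mem_inter.2 ⟨h i hi, hs i hi⟩)
    · exact zero_mem _
  exact this ⟨f, hf, rfl⟩

end Kill

section Syz

variable {k : Type*} [Field k] [CharZero k] {σ ι : Type*} [DecidableEq ι] [Fintype ι] {N0 : ℕ}
variable {A : Type*} [Fintype A] [DecidableEq A]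

/-- Sets of blocks containing `s`, of size at most `b`. -/
def famF (s : Finset ι) (b : ℕ) : Finset (Finset ι) :=
  Finset.univ.filter fun B => s ⊆ B ∧ B.card ≤ b

theorem mem_famF {s : Finset ι} {b : ℕ} {B : Finset ι} :
    B ∈ famF s b ↔ s ⊆ B ∧ B.card ≤ b := by
  simp [famF]

/-- Polynomials that are sums of polynomials supported on at most `b` blocks containing `s`. -/
noncomputable def modM (k : Type*) [Field k] (blk : σ → Option ι) (s : Finset ι) (b : ℕ) :
    Submodule k (MvPolynomial σ k) :=
  ⨆ B ∈ famF s b, Subalgebra.toSubmodule (supported k (inB blk B))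

theorem mem_modM_of_mem (blk : σ → Option ι) {s : Finset ι} {b : ℕ} {B : Finset ι}
    (h1 : s ⊆ B) (h2 : B.card ≤ b) {f : MvPolynomial σ k}
    (hf : f ∈ supported k (inB blk B)) : f ∈ modM k blk s b :=
  Submodule.mem_iSup_of_mem B (Submodule.mem_iSup_of_mem (mem_famF.2 ⟨h1, h2⟩) hf)

theorem ptPow_mem {pos : ι × Fin N0 → σ} (hpos : Function.Injective pos) (j : ℕ) (s B : Finset ι)
    (hs : s ⊆ B) (t : k) : ptPow pos j s t ∈ supported k (inB (blkOf pos) B) := by
  unfold ptPow
  refine pow_mem (sum_mem fun i hi => sum_mem fun u _ => Subalgebra.smul_mem _ ?_ _) j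
  rw [X_mem_supported]
  intro i' hi'
  rw [blkOf_pos hpos] at hi'
  have : i = i' := Option.some_injective _ hi'
  subst this
  exact hs hi

theorem syz_step {pos : ι × Fin N0 → σ} (hpos : Function.Injective pos)
    (η : A → Finset ι) (t : A → k) (ht : Function.Injective t)
    (j : ℕ) (hj : ∀ a, (η a).card ≤ j) (hne : ∀ a, (η a).Nonempty) (b : ℕ)
    (hcount : ∀ B : Finset ι, B.card = b + 1 → ∀ i ∈ B,
      (Finset.univ.filter fun a => η a ⊆ B ∧ i ∈ η a).card ≤ N0)
    (g : A → MvPolynomial σ k) (hg : ∀ a, g a ∈ modM k (blkOf pos) (η a) (b + 1))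
    (hsum : ∑ a, ptPow pos j (η a) (t a) * g a = 0) :
    ∃ κ : A → A → MvPolynomial σ k, (∀ a a', κ a a' = - κ a' a) ∧
      ∀ a, g a - ∑ a', κ a a' * ptPow pos j (η a') (t a') ∈ modM k (blkOf pos) (η a) b := by
  classical
  have hμ : ∀ a, ∃ μ : Finset ι → MvPolynomial σ k,
      (∀ B, μ B ∈ supported k (inB (blkOf pos) B)) ∧ ∑ B ∈ famF (η a) (b + 1), μ B = g a := by
    intro a
    obtain ⟨μ, hμ⟩ := (Submodule.mem_iSup_finset_iff_exists_sum _ _).1 (hg a)
    exact ⟨fun B => (μ B : MvPolynomial σ k), fun B => (μ B).2, hμ⟩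
  choose μ hμ1 hμ2 using hμ
  -- the local data
  have hloc : ∀ B : Finset ι, B.card = b + 1 → ∃ κ : A → A → MvPolynomial σ k,
      (∀ a a', κ a a' = - κ a' a) ∧ (∀ a a', κ a a' ≠ 0 → η a ⊆ B) ∧
      ∀ a, η a ⊆ B → μ a B - ∑ a', κ a a' * ptPow pos j (η a') (t a') ∈
        modM k (blkOf pos) (η a) b := by
    intro B hB
    have hH : ∑ a : {a // η a ⊆ B}, ptPow pos j (η a) (t a) * μ a B ∈
        ⨆ i ∈ B, Subalgebra.toSubmodule (supported k (inB (blkOf pos) (B.erase i))) := by
      set W : Submodule k (MvPolynomial σ k) :=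
        ⨆ i ∈ B, Subalgebra.toSubmodule (supported k (inB (blkOf pos) (B.erase i))) with hW
      have hterm : ∀ a, ∀ B' ∈ famF (η a) (b + 1), B' ≠ B →
          killB k (blkOf pos) B (ptPow pos j (η a) (t a) * μ a B') ∈ W := by
        intro a B' hB' hne'
        rw [mem_famF] at hB'
        have : ¬ B ⊆ B' := by
          intro h
          exact hne' (Finset.eq_of_subset_of_card_le h (by omega)).symm
        obtain ⟨i, hi, hi'⟩ := Finset.not_subset.1 this
        refine Submodule.mem_iSup_of_mem i (Submodule.mem_iSup_of_mem hi ?_)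
        refine killB_mem (blkOf pos) B B' (B.erase i) ?_
          (mul_mem (ptPow_mem hpos j _ _ hB'.1 _) (hμ1 a B'))
        intro i'' hi''
        rw [Finset.mem_inter] at hi''
        refine Finset.mem_erase.2 ⟨?_, hi''.1⟩
        rintro rfl
        exact hi' hi''.2
      have hself : ∀ a, η a ⊆ B → killB k (blkOf pos) B (ptPow pos j (η a) (t a) * μ a B) =
          ptPow pos j (η a) (t a) * μ a B := fun a ha =>
        killB_of_mem _ _ (mul_mem (ptPow_mem hpos j _ _ ha _) (hμ1 a B))
      have hz : ∑ a, ∑ B' ∈ famF (η a) (b + 1),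
          killB k (blkOf pos) B (ptPow pos j (η a) (t a) * μ a B') = 0 := by
        rw [← map_zero (killB k (blkOf pos) B), ← hsum, map_sum]
        refine Finset.sum_congr rfl fun a _ => ?_
        rw [← map_sum, ← Finset.mul_sum, hμ2]
      -- split off the term `B' = B`
      have hsplit : ∀ a, ∑ B' ∈ famF (η a) (b + 1),
          killB k (blkOf pos) B (ptPow pos j (η a) (t a) * μ a B') =
          (if η a ⊆ B then ptPow pos j (η a) (t a) * μ a B else 0) +
          ∑ B' ∈ (famF (η a) (b + 1)).erase B,
            killB k (blkOf pos) B (ptPow pos j (η a) (t a) * μ a B') := by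
        intro a
        by_cases ha : η a ⊆ B
        · have hm : B ∈ famF (η a) (b + 1) := mem_famF.2 ⟨ha, by omega⟩
          rw [if_pos ha, ← Finset.add_sum_erase _ _ hm, hself a ha]
        · have hm : B ∉ famF (η a) (b + 1) := fun h => ha (mem_famF.1 h).1
          rw [if_neg ha, zero_add, Finset.erase_eq_of_notMem hm]
      rw [Finset.sum_congr rfl (fun a _ => hsplit a), Finset.sum_add_distrib] at hz
      have e1 : ∑ a : {a // η a ⊆ B}, ptPow pos j (η a) (t a) * μ a B =
          ∑ a, (if η a ⊆ B then ptPow pos j (η a) (t a) * μ a B else 0) := by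
        rw [← Finset.sum_filter]
        symm
        refine Finset.sum_subtype (Finset.univ.filter fun a => η a ⊆ B) (by simp)
          (fun a => ptPow pos j (η a) (t a) * μ a B)
      rw [e1, eq_neg_of_add_eq_zero_left hz]
      refine Submodule.neg_mem _ (Submodule.sum_mem _ fun a _ => Submodule.sum_mem _ ?_)
      intro B' hB'
      rw [Finset.mem_erase] at hB'
      exact hterm a B' hB'.2 hB'.1
    obtain ⟨h, hh⟩ := (Submodule.mem_iSup_finset_iff_exists_sum _ _).1 hH
    obtain ⟨κ, k1, k2⟩ := local1 (k := k) hpos (E := {a // η a ⊆ B}) (fun a => η a)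
      (fun a => t a) (fun a a' haa => Subtype.ext (ht haa)) j (fun a => hj a) (fun a => hne a)
      (by
        intro i
        by_cases hi : i ∈ B
        · refine le_trans ?_ (hcount B hB i hi)
          refine Finset.card_le_card_of_injOn (fun a => (a : A)) ?_ ?_
          · intro a ha
            simp only [Finset.coe_filter, Finset.mem_univ, true_and, Set.mem_ofPred_eq] at ha ⊢
            exact ⟨a.2, ha⟩
          · intro a _ a' _ haa
            exact Subtype.ext haa
        · rw [Finset.card_eq_zero.2]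
          · exact Nat.zero_le _
          · rw [Finset.filter_eq_empty_iff]
            intro a _ ha
            exact hi (a.2 ha))
      B (fun a => μ a B) (fun i => (h i : MvPolynomial σ k)) (fun i _ => (h i).2) hh.symm
    refine ⟨fun a a' => if h : η a ⊆ B ∧ η a' ⊆ B then κ ⟨a, h.1⟩ ⟨a', h.2⟩ else 0, ?_, ?_, ?_⟩
    · intro a a'
      by_cases ha : η a ⊆ B <;> by_cases ha' : η a' ⊆ B
      · simp only [ha, ha', and_self, dif_pos]
        exact k1 _ _
      · simp [ha, ha']
      · simp [ha, ha']
      · simp [ha, ha']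
    · intro a a' h0
      by_contra hc
      simp [hc] at h0
    · intro a ha
      have e2 : ∑ a', (if h : η a ⊆ B ∧ η a' ⊆ B then κ ⟨a, h.1⟩ ⟨a', h.2⟩ else 0) *
          ptPow pos j (η a') (t a') =
          ∑ a' : {a // η a ⊆ B}, κ ⟨a, ha⟩ a' * ptPow pos j (η a') (t a') := by
        have e3 : ∀ a', (if h : η a ⊆ B ∧ η a' ⊆ B then κ ⟨a, h.1⟩ ⟨a', h.2⟩ else 0) *
          ptPow pos j (η a') (t a') = if h : η a' ⊆ B then
            (fun a' : {a // η a ⊆ B} => κ ⟨a, ha⟩ a' * ptPow pos j (η a') (t a')) ⟨a', h⟩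
            else 0 := by
          intro a'
          by_cases ha' : η a' ⊆ B
          · rw [dif_pos ⟨ha, ha'⟩, dif_pos ha']
          · rw [dif_neg (fun h => ha' h.2), dif_neg ha', zero_mul]
        rw [Finset.sum_congr rfl (fun a' _ => e3 a')]
        rw [Finset.sum_dite, Finset.sum_const_zero, add_zero]
        refine Finset.sum_bij' (fun a' _ => ⟨a'.1, (Finset.mem_filter.1 a'.2).2⟩)
          (fun a' _ => ⟨a'.1, Finset.mem_filter.2 ⟨Finset.mem_univ _, a'.2⟩⟩) ?_ ?_ ?_ ?_ ?_
        · intros; exact Finset.mem_univ _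
        · intros; exact Finset.mem_attach _ _
        · intros; rfl
        · intros; rfl
        · intros; rfl
      rw [e2]
      have hle : (⨆ i ∈ B \ η a, Subalgebra.toSubmodule
          (supported k (inB (blkOf pos) (B.erase i)))) ≤ modM k (blkOf pos) (η a) b := by
        refine iSup₂_le fun i hi => ?_
        intro f hf
        rw [Finset.mem_sdiff] at hi
        refine mem_modM_of_mem _ ?_ ?_ hf
        · intro i' hi'
          refine Finset.mem_erase.2 ⟨?_, ha hi'⟩
          rintro rfl
          exact hi.2 hi'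
        · rw [Finset.card_erase_of_mem hi.1]; omega
      exact hle (k2 ⟨a, ha⟩)
  choose! κ k1 k2 k3 using hloc
  set 𝓑 : Finset (Finset ι) := Finset.univ.filter fun B => B.card = b + 1 with h𝓑
  refine ⟨fun a a' => ∑ B ∈ 𝓑, κ B a a', ?_, ?_⟩
  · intro a a'
    change ∑ B ∈ 𝓑, κ B a a' = - ∑ B ∈ 𝓑, κ B a' a
    rw [← Finset.sum_neg_distrib]
    exact Finset.sum_congr rfl fun B hB => k1 B (Finset.mem_filter.1 hB).2 a a'
  · intro a
    have e1 : ∑ a', (∑ B ∈ 𝓑, κ B a a') * ptPow pos j (η a') (t a') =
        ∑ B ∈ 𝓑.filter (fun B => η a ⊆ B), ∑ a', κ B a a' * ptPow pos j (η a') (t a') := by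
      rw [Finset.sum_filter]
      simp_rw [Finset.sum_mul]
      rw [Finset.sum_comm]
      refine Finset.sum_congr rfl fun B hB => ?_
      by_cases ha : η a ⊆ B
      · rw [if_pos ha]
      · rw [if_neg ha]
        refine Finset.sum_eq_zero fun a' _ => ?_
        have : κ B a a' = 0 := by
          by_contra h0
          exact ha (k2 B (Finset.mem_filter.1 hB).2 a a' h0)
        rw [this, zero_mul]
    have e2 : ∑ B ∈ famF (η a) (b + 1), μ a B = ∑ B ∈ famF (η a) b, μ a B +
        ∑ B ∈ 𝓑.filter (fun B => η a ⊆ B), μ a B := by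
      rw [← Finset.sum_union]
      · refine Finset.sum_congr ?_ fun _ _ => rfl
        ext B
        simp only [mem_famF, Finset.mem_union, Finset.mem_filter, h𝓑, Finset.mem_univ, true_and]
        constructor
        · rintro ⟨h1, h2⟩
          rcases Nat.lt_or_ge b B.card with h | h
          · right; exact ⟨by omega, h1⟩
          · left; exact ⟨h1, h⟩
        · rintro (⟨h1, h2⟩ | ⟨h1, h2⟩)
          · exact ⟨h1, by omega⟩
          · exact ⟨h2, by omega⟩
      · rw [Finset.disjoint_left]
        intro B hB hB'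
        rw [mem_famF] at hB
        rw [Finset.mem_filter, Finset.mem_filter] at hB'
        omega
    rw [← hμ2, e1, e2, add_sub_assoc, ← Finset.sum_sub_distrib]
    refine Submodule.add_mem _ (Submodule.sum_mem _ fun B hB => ?_)
      (Submodule.sum_mem _ fun B hB => ?_)
    · rw [mem_famF] at hB
      exact mem_modM_of_mem _ hB.1 hB.2 (hμ1 a B)
    · rw [Finset.mem_filter, Finset.mem_filter] at hB
      exact k3 B hB.1.2 a hB.2

/-- All syzygies supported on few blocks are Koszul. -/
theorem syz_koszul {pos : ι × Fin N0 → σ} (hpos : Function.Injective pos)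
    (η : A → Finset ι) (t : A → k) (ht : Function.Injective t)
    (j : ℕ) (hj : ∀ a, (η a).card ≤ j) (hne : ∀ a, (η a).Nonempty) (b : ℕ)
    (hcount : ∀ B : Finset ι, B.card ≤ b → ∀ i ∈ B,
      (Finset.univ.filter fun a => η a ⊆ B ∧ i ∈ η a).card ≤ N0)
    (g : A → MvPolynomial σ k) (hg : ∀ a, g a ∈ modM k (blkOf pos) (η a) b)
    (hsum : ∑ a, ptPow pos j (η a) (t a) * g a = 0) :
    ∃ κ : A → A → MvPolynomial σ k, (∀ a a', κ a a' = - κ a' a) ∧
      ∀ a, g a = ∑ a', κ a a' * ptPow pos j (η a') (t a') := by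
  induction b generalizing g with
  | zero =>
    refine ⟨fun _ _ => 0, by simp, ?_⟩
    intro a
    have : famF (η a) 0 = (∅ : Finset (Finset ι)) := by
      rw [Finset.eq_empty_iff_forall_notMem]
      intro B hB
      rw [mem_famF] at hB
      have h0 : B = ∅ := Finset.card_eq_zero.1 (by omega)
      subst h0
      exact (hne a).ne_empty (Finset.subset_empty.1 hB.1)
    have hga := hg a
    unfold modM at hga
    rw [this] at hga
    simp at hga
    rw [hga]
    simp
  | succ b ih =>
    obtain ⟨κ, k1, k2⟩ := syz_step hpos η t ht j hj hne b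
      (fun B hB => hcount B (by omega)) g hg hsum
    obtain ⟨κ', k1', k2'⟩ := ih (fun B hB => hcount B (by omega))
      (fun a => g a - ∑ a', κ a a' * ptPow pos j (η a') (t a')) k2 (by
        have : ∑ a, ptPow pos j (η a) (t a) * (g a - ∑ a', κ a a' * ptPow pos j (η a') (t a')) =
            ∑ a, ptPow pos j (η a) (t a) * g a -
            ∑ a, ∑ a', ptPow pos j (η a) (t a) * (κ a a' * ptPow pos j (η a') (t a')) := by
          rw [← Finset.sum_sub_distrib]
          refine Finset.sum_congr rfl fun a _ => ?_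
          rw [mul_sub, Finset.mul_sum]
        rw [this, hsum, zero_sub, neg_eq_zero]
        have h2 : ∑ a, ∑ a', ptPow pos j (η a) (t a) * (κ a a' * ptPow pos j (η a') (t a')) =
            - ∑ a, ∑ a', ptPow pos j (η a) (t a) * (κ a a' * ptPow pos j (η a') (t a')) := by
          nth_rewrite 1 [Finset.sum_comm]
          rw [← Finset.sum_neg_distrib]
          refine Finset.sum_congr rfl fun a _ => ?_
          rw [← Finset.sum_neg_distrib]
          refine Finset.sum_congr rfl fun a' _ => ?_
          rw [k1 a' a]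
          ring
        exact self_eq_neg.1 h2)
    refine ⟨fun a a' => κ a a' + κ' a a', ?_, ?_⟩
    · intro a a'
      change κ a a' + κ' a a' = - (κ a' a + κ' a' a)
      rw [k1 a a', k1' a a']
      ring
    · intro a
      have := k2' a
      rw [sub_eq_iff_eq_add] at this
      rw [this, ← Finset.sum_add_distrib]
      refine Finset.sum_congr rfl fun a' _ => ?_
      ring

end Syz

end Pool.Agent.Helper45
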