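import Pool.Agent.Helper85.BQ_Q6
import Pool.Agent.Helper85.BPM.W2

/-!
# MP_3dd6d4_an, module BQ Q6c : admissibility of the sharp weight
-/

set_option autoImplicit false

open MeasureTheory Complex FourierTransform Filter Topology
open scoped ENNReal NNReal ComplexConjugate

noncomputable section

namespace Helper72.BQ.P

open Helper72.BA Helper85.BP Helper72.BQ

theorem Q6c_gamma_cont (a c : ℝ) (ha : 0 < a) :
    Continuous fun τ : ℝ => ‖Complex.Gamma ((a : ℂ) + I * ((c * τ : ℝ) : ℂ))‖ := by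
  rw [continuous_iff_continuousAt]
  intro τ
  have h1 : DifferentiableAt ℂ Complex.Gamma ((a : ℂ) + I * ((c * τ : ℝ) : ℂ)) := by
    apply Complex.differentiableAt_Gamma
    intro n h
    have := congrArg Complex.re h
    simp at this
    have : (0:ℝ) ≤ n := Nat.cast_nonneg n
    linarith
  have h2 : Continuous fun τ : ℝ => (a : ℂ) + I * ((c * τ : ℝ) : ℂ) := by fun_prop
  have h3 : ContinuousAt (fun τ : ℝ => Complex.Gamma ((a : ℂ) + I * ((c * τ : ℝ) : ℂ))) τ :=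
    ContinuousAt.comp (g := Complex.Gamma) (f := fun τ : ℝ => (a : ℂ) + I * ((c * τ : ℝ) : ℂ))
      h1.continuousAt h2.continuousAt
  exact h3.norm

theorem Q6c_gamma_pos (a y : ℝ) (ha : 0 < a) :
    0 < ‖Complex.Gamma ((a : ℂ) + I * (y : ℂ))‖ := by
  apply norm_pos_iff.2
  apply Complex.Gamma_ne_zero_of_re_pos
  simpa using ha

theorem Q6c_As (a y : ℝ) (ha : 0 < a) (ha1 : a < 1) :
    (‖As ((a : ℂ) + I * (y : ℂ))‖ ^ 2)⁻¹ = (a ^ 2 + y ^ 2) *
      (‖Complex.Gamma (((1 - a : ℝ) : ℂ) + I * (y : ℂ))‖ /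
        ‖Complex.Gamma (((1 + a : ℝ) : ℂ) + I * (y : ℂ))‖) ^ 2 := by
  have hne : (a : ℂ) + I * (y : ℂ) ≠ 0 := by
    intro h
    have := congrArg Complex.re h
    simp at this
    exact ha.ne' this
  have e1 : ((1 + a : ℝ) : ℂ) + I * (y : ℂ) = ((a : ℂ) + I * (y : ℂ)) + 1 := by
    push_cast; ring
  have e2 : (1 : ℂ) - ((a : ℂ) + I * (y : ℂ)) = ((1 - a : ℝ) : ℂ) - I * (y : ℂ) := by
    push_cast; ring
  have e3 : ‖(a : ℂ) + I * (y : ℂ)‖ ^ 2 = a ^ 2 + y ^ 2 := by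
    rw [← Complex.normSq_eq_norm_sq, Complex.normSq_apply]
    simp
    ring
  unfold As
  rw [e1, Complex.Gamma_add_one _ hne, e2, norm_div, norm_mul,
    Helper85.BP.P.W2_norm_gamma_symm (1 - a) y, ← e3]
  have p1 := Q6c_gamma_pos a y ha
  have p2 := Q6c_gamma_pos (1 - a) y (by linarith)
  have p3 : 0 < ‖(a : ℂ) + I * (y : ℂ)‖ := norm_pos_iff.2 hne
  field_simp

theorem Q6c_PD_le {f : ℝ → ℝ} (hf : PD f) (t : ℝ) : |f t| ≤ f 0 := by
  obtain ⟨m, hm, h⟩ := hf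
  have h0 := Helper85.BP.P.W1_cos h 0
  have ht := Helper85.BP.P.W1_cos h t
  rw [ht, h0]
  refine (abs_integral_le_integral_abs).trans ?_
  apply integral_mono_of_nonneg
  · exact Filter.Eventually.of_forall fun s => abs_nonneg _
  · simp
  · refine Filter.Eventually.of_forall fun s => ?_
    simpa using Real.abs_cos_le_one (t * s)

theorem adm_sharp (P m θ : ℝ) (hP : 2 < P) (hm : m = 1 ∨ 2 ≤ m) (h0 : 0 < θ) (h1 : θ < 1) :
    Adm (1 / m) (fun τ => P1 θ τ *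
      (‖As (((1 / P : ℝ) : ℂ) + I * ((τ / (P * m) : ℝ) : ℂ))‖ ^ 2)⁻¹) := by
  obtain ⟨-, hc, -, hpos, -, heven, -⟩ := Helper85.BP.P.P_facts θ h0 h1
  have hm0 : 1 ≤ m := by rcases hm with h | h <;> linarith
  have hmp : 0 < m := by linarith
  have hPp : 0 < P := by linarith
  set a : ℝ := 1 / P with ha
  have ha0 : 0 < a := by positivity
  have ha1 : a < 1 := by
    rw [ha, div_lt_one hPp]; linarith
  set c : ℝ := 1 / (P * m) with hcdef
  have hcy : ∀ τ : ℝ, τ / (P * m) = c * τ := by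
    intro τ; rw [hcdef]; ring
  set Q : ℝ → ℝ := fun τ => (‖Complex.Gamma (((1 - a : ℝ) : ℂ) + I * ((c * τ : ℝ) : ℂ))‖ /
      ‖Complex.Gamma (((1 + a : ℝ) : ℂ) + I * ((c * τ : ℝ) : ℂ))‖) ^ 2 with hQ
  have hQ0 : ∀ τ, 0 ≤ Q τ := fun τ => by rw [hQ]; positivity
  have hQc : Continuous Q := by
    apply Continuous.pow
    apply (Q6c_gamma_cont (1 - a) c (by linarith)).div (Q6c_gamma_cont (1 + a) c (by linarith))
    intro τ
    exact (Q6c_gamma_pos (1 + a) (c * τ) (by linarith)).ne'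
  have hQPD : PD Q := PD_beta a c ha0 ha1
  have hQle : ∀ τ, Q τ ≤ Q 0 := fun τ => (le_abs_self _).trans (Q6c_PD_le hQPD τ)
  have hQeven : ∀ τ, Q (-τ) = Q τ := by
    intro τ
    have e : ∀ b : ℝ, ‖Complex.Gamma ((b : ℂ) + I * ((c * -τ : ℝ) : ℂ))‖ =
        ‖Complex.Gamma ((b : ℂ) + I * ((c * τ : ℝ) : ℂ))‖ := by
      intro b
      rw [← Helper85.BP.P.W2_norm_gamma_symm b (c * τ)]
      congr 2
      push_cast
      ring
    simp only [hQ]
    rw [e, e]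
  have hW : (fun τ => P1 θ τ * (‖As ((a : ℂ) + I * ((τ / (P * m) : ℝ) : ℂ))‖ ^ 2)⁻¹) =
      fun τ => P1 θ τ * ((a ^ 2 + (c * τ) ^ 2) * Q τ) := by
    funext τ
    rw [hcy, Q6c_As a (c * τ) ha0 ha1]
  rw [hW]
  have hF : (fun τ : ℝ => (1 + (1 / m) ^ 2 * τ ^ 2) * (P1 θ τ * ((a ^ 2 + (c * τ) ^ 2) * Q τ))) =
      fun τ => (1 / (P ^ 2 * m ^ 4)) * (((m ^ 2 + τ ^ 2) ^ 2 * P1 θ τ) * Q τ) := by
    funext τ
    rw [ha, hcdef]
    field_simp
  have hWc : Continuous fun τ : ℝ => P1 θ τ * ((a ^ 2 + (c * τ) ^ 2) * Q τ) := by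
    apply hc.mul
    apply Continuous.mul (by fun_prop) hQc
  have hPD : PD (fun τ : ℝ => (1 / (P ^ 2 * m ^ 4)) *
      (((m ^ 2 + τ ^ 2) ^ 2 * P1 θ τ) * Q τ)) :=
    Helper85.BP.P.PD_smul _ (by positivity) (Helper85.BP.P.PD_mul (PD_P θ m h0 h1 hm) hQPD)
  have hint : Integrable (fun τ : ℝ => (1 / (P ^ 2 * m ^ 4)) *
      (((m ^ 2 + τ ^ 2) ^ 2 * P1 θ τ) * Q τ)) := by
    have h2 := ((Helper85.BP.P.P_int θ h0 h1 4).2).const_mul
      ((1 / (P ^ 2 * m ^ 4)) * (m ^ 4 * Q 0))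
    refine h2.mono' ?_ (Filter.Eventually.of_forall fun τ => ?_)
    · exact (continuous_const.mul (((by fun_prop : Continuous fun τ : ℝ =>
        (m ^ 2 + τ ^ 2) ^ 2).mul hc).mul hQc)).aestronglyMeasurable
    · have hp := (hpos τ).le
      have hq := hQ0 τ
      rw [Real.norm_eq_abs, abs_of_nonneg (by positivity)]
      have h5 : m ^ 2 + τ ^ 2 ≤ m ^ 2 * (1 + |τ|) ^ 2 := by
        have h6 := abs_nonneg τ
        have h7 : τ ^ 2 = |τ| ^ 2 := (sq_abs τ).symm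
        have h8 : 1 ≤ m ^ 2 := by nlinarith
        rw [h7]
        nlinarith [mul_nonneg (sub_nonneg.2 h8) (sq_nonneg |τ|), mul_nonneg (sq_nonneg m) h6]
      have h9 : (m ^ 2 + τ ^ 2) ^ 2 ≤ m ^ 4 * (1 + |τ|) ^ 4 := by
        calc (m ^ 2 + τ ^ 2) ^ 2 ≤ (m ^ 2 * (1 + |τ|) ^ 2) ^ 2 :=
              pow_le_pow_left₀ (by positivity) h5 2
          _ = m ^ 4 * (1 + |τ|) ^ 4 := by ring
      calc 1 / (P ^ 2 * m ^ 4) * ((m ^ 2 + τ ^ 2) ^ 2 * P1 θ τ * Q τ)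
          ≤ 1 / (P ^ 2 * m ^ 4) * ((m ^ 4 * (1 + |τ|) ^ 4) * P1 θ τ * Q 0) := by
            apply mul_le_mul_of_nonneg_left _ (by positivity)
            apply mul_le_mul _ (hQle τ) hq (by positivity)
            exact mul_le_mul_of_nonneg_right h9 hp
        _ = 1 / (P ^ 2 * m ^ 4) * (m ^ 4 * Q 0) * ((1 + |τ|) ^ 4 * P1 θ τ) := by ring
  constructor
  · exact hWc
  · exact fun τ => mul_nonneg (hpos τ).le (mul_nonneg (by positivity) (hQ0 τ))
  · intro τ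
    simp only [heven τ, hQeven τ]
    ring
  · rw [hF]; exact hint
  · intro s
    have := Helper85.BP.P.PD_integral_nonneg hPD hint (1 / m * s)
    have e : ∀ τ : ℝ, (1 + (1 / m) ^ 2 * τ ^ 2) * (P1 θ τ * ((a ^ 2 + (c * τ) ^ 2) * Q τ)) *
        Real.cos (1 / m * τ * s) = (1 / (P ^ 2 * m ^ 4)) *
      (((m ^ 2 + τ ^ 2) ^ 2 * P1 θ τ) * Q τ) * Real.cos (τ * (1 / m * s)) := by
      intro τ
      rw [congrFun hF τ]
      congr 2
      ring
    simp_rw [e]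
    exact this

end Helper72.BQ.P
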