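import Mathlib
import Pool.Agent.Helper45.FatSyz
import Pool.Agent.Helper45.FatGen

namespace Pool.Agent.Helper45

open MvPolynomial

set_option linter.unusedSectionVars false

section Special

variable {k : Type*} [Field k] [CharZero k] {σ ι : Type*} [Fintype σ] [DecidableEq ι] [Fintype ι]
  {N0 : ℕ}

theorem mem_modM_of_totalDegree (blk : σ → Option ι) (s : Finset ι) (f : MvPolynomial σ k)
    (D : ℕ) (hD : f.totalDegree ≤ D) : f ∈ modM k blk s (s.card + D) := by
  rw [← support_sum_monomial_coeff f]
  refine Submodule.sum_mem _ fun u hu => ?_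
  let B : Finset ι := s ∪ u.support.biUnion fun x => (blk x).toFinset
  have hcard : B.card ≤ s.card + D := by
    refine (Finset.card_union_le _ _).trans ?_
    refine Nat.add_le_add_left ?_ _
    refine Finset.card_biUnion_le.trans ?_
    have h1 : ∑ x ∈ u.support, ((blk x).toFinset).card ≤ ∑ x ∈ u.support, u x := by
      refine Finset.sum_le_sum fun x hx => ?_
      have h2 : ((blk x).toFinset).card ≤ 1 := by
        cases blk x <;> simp
      exact h2.trans (Nat.one_le_iff_ne_zero.2 (Finsupp.mem_support_iff.1 hx))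
    refine h1.trans (le_trans ?_ hD)
    exact le_totalDegree hu
  refine mem_modM_of_mem blk (B := B) Finset.subset_union_left hcard ?_
  refine monomial_mem_supported _ fun x hx => ?_
  intro i hi
  refine Finset.mem_union_right _ (Finset.mem_biUnion.2 ⟨x, hx, ?_⟩)
  rw [Option.mem_toFinset, hi]
  exact Option.mem_some_self i

theorem count_le {A : Type*} [Fintype A] [DecidableEq A] (η : A → Finset ι)
    (hη : Function.Injective η) (q : ℕ) (hq : ∀ a, (η a).card = q) (B : Finset ι) (i : ι)
    (hi : i ∈ B) :
    (Finset.univ.filter fun a => η a ⊆ B ∧ i ∈ η a).card ≤ (B.card - 1).choose (q - 1) := by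
  rw [← Finset.card_erase_of_mem hi, ← Finset.card_powersetCard]
  refine Finset.card_le_card_of_injOn (fun a => (η a).erase i) ?_ ?_
  · intro a ha
    simp only [Finset.coe_filter, Finset.mem_univ, true_and, Set.mem_ofPred_eq] at ha
    simp only [Finset.mem_coe,
      Finset.mem_powersetCard]
    exact ⟨Finset.erase_subset_erase i ha.1, by rw [Finset.card_erase_of_mem ha.2, hq]⟩
  · intro a ha a' ha' haa
    simp only [Finset.coe_filter, Finset.mem_univ, true_and, Set.mem_ofPred_eq] at ha ha'
    apply hη
    rw [← Finset.insert_erase ha.2, ← Finset.insert_erase ha'.2]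
    simp only at haa
    rw [haa]

/-- The special point attached to a set of blocks and a parameter. -/
noncomputable def specPt (pos : ι × Fin N0 → σ) (s : Finset ι) (t : k) : σ → k :=
  Function.extend pos (fun p => if p.1 ∈ s then t ^ (p.2 : ℕ) else 0) (fun _ => 0)

theorem linForm_specPt {pos : ι × Fin N0 → σ} (hpos : Function.Injective pos) (s : Finset ι)
    (t : k) : linForm (specPt pos s t) =
      ∑ i ∈ s, ∑ u : Fin N0, t ^ (u : ℕ) • (X (pos (i, u)) : MvPolynomial σ k) := by
  classical
  unfold linForm
  have h1 : ∑ x, C (specPt pos s t x) * (X x : MvPolynomial σ k) =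
      ∑ x ∈ Finset.univ.image pos, C (specPt pos s t x) * (X x : MvPolynomial σ k) := by
    symm
    refine Finset.sum_subset (Finset.subset_univ _) fun x _ hx => ?_
    have : ¬ ∃ p, pos p = x := by
      rintro ⟨p, rfl⟩
      exact hx (Finset.mem_image_of_mem pos (Finset.mem_univ p))
    unfold specPt
    rw [Function.extend_apply' _ _ _ this, C_0, zero_mul]
  rw [h1, Finset.sum_image (fun _ _ _ _ h => hpos h)]
  have h2 : ∀ p : ι × Fin N0, C (specPt pos s t (pos p)) * (X (pos p) : MvPolynomial σ k) =
      if p.1 ∈ s then t ^ (p.2 : ℕ) • (X (pos p) : MvPolynomial σ k) else 0 := by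
    intro p
    unfold specPt
    rw [hpos.extend_apply]
    split_ifs with h
    · rw [smul_eq_C_mul]
    · rw [C_0, zero_mul]
  rw [Finset.sum_congr rfl fun p _ => h2 p, ← Finset.univ_product_univ, Finset.sum_product]
  rw [← Finset.sum_filter_add_sum_filter_not Finset.univ (fun i => i ∈ s)]
  have h3 : ∑ x ∈ Finset.univ.filter (fun i => ¬ i ∈ s), ∑ y : Fin N0,
      (if (x, y).1 ∈ s then t ^ ((x, y).2 : ℕ) • (X (pos (x, y)) : MvPolynomial σ k) else 0) = 0 := by
    refine Finset.sum_eq_zero fun x hx => Finset.sum_eq_zero fun y _ => ?_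
    rw [if_neg (Finset.mem_filter.1 hx).2]
  rw [h3, add_zero]
  refine Finset.sum_congr (by ext; simp) fun i hi => ?_
  refine Finset.sum_congr rfl fun u _ => ?_
  rw [if_pos hi]

/-- The colon property of the special configuration. -/
theorem colon_special {pos : ι × Fin N0 → σ} (hpos : Function.Injective pos)
    (f : ℕ → MvPolynomial σ k) (η : ℕ → Finset ι) (q j D r : ℕ) (hq1 : 1 ≤ q) (hqj : q ≤ j)
    (hN0 : (q + D - 1).choose (q - 1) ≤ N0)
    (hη : ∀ a < r, (η a).card = q) (hinj : ∀ a < r, ∀ b < r, η a = η b → a = b)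
    (hf : ∀ a < r, f a = ptPow pos j (η a) (a : k)) (hfh : ∀ a, (f a).IsHomogeneous j) :
    ∀ t < r, ∀ E ≤ D, ∀ g : MvPolynomial σ k, g.IsHomogeneous E →
      f t * g ∈ degPart f t E → g ∈ lowPart f j t E := by
  classical
  intro t ht E hE g hg hmem
  obtain ⟨c, hc1, hc2⟩ := mem_degPart.1 hmem
  let g' : Fin (t + 1) → MvPolynomial σ k := fun a => if (a : ℕ) = t then - g else c a
  have hlt : ∀ a : Fin (t + 1), (a : ℕ) < r := fun a => by have := a.2; omega
  have hsum : ∑ a : Fin (t + 1), ptPow pos j (η a) ((a : ℕ) : k) * g' a = 0 := by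
    have h1 : ∑ a : Fin (t + 1), ptPow pos j (η a) ((a : ℕ) : k) * g' a =
        ∑ a ∈ Finset.range (t + 1), f a * (if a = t then - g else c a) := by
      rw [← Fin.sum_univ_eq_sum_range (fun a => f a * (if a = t then - g else c a)) (t + 1)]
      refine Finset.sum_congr rfl fun a _ => ?_
      rw [hf a (hlt a)]
    rw [h1, Finset.sum_range_succ, if_pos rfl]
    have h2 : ∑ a ∈ Finset.range t, f a * (if a = t then - g else c a) =
        ∑ a ∈ Finset.range t, f a * c a := by
      refine Finset.sum_congr rfl fun a ha => ?_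
      rw [if_neg (Finset.mem_range.1 ha).ne]
    rw [h2, ← hc2]
    ring
  obtain ⟨κ, k1, k2⟩ := syz_koszul (k := k) hpos (A := Fin (t + 1)) (fun a => η a)
    (fun a => ((a : ℕ) : k)) (fun a b hab => Fin.ext (Nat.cast_injective hab)) j
    (fun a => by rw [hη a (hlt a)]; exact hqj)
    (fun a => by rw [← Finset.card_pos, hη a (hlt a)]; exact hq1) (q + D)
    (by
      intro B hB i hi
      refine (count_le (fun a : Fin (t + 1) => η a) ?_ q (fun a => hη a (hlt a)) B i hi).trans ?_
      · intro a b hab
        exact Fin.ext (hinj a (hlt a) b (hlt b) hab)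
      · refine (Nat.choose_le_choose (q - 1) ?_).trans hN0
        omega)
    g' (by
      intro a
      have h1 : (g' a).totalDegree ≤ D := by
        simp only [g']
        split_ifs
        · rw [totalDegree_neg]
          exact hg.totalDegree_le.trans hE
        · exact (hc1 a).totalDegree_le.trans hE
      have h2 := mem_modM_of_totalDegree (blkOf pos) (η a) (g' a) D h1
      rw [hη a (hlt a)] at h2
      exact h2) hsum
  have hlast := k2 (Fin.last t)
  have hκ0 : κ (Fin.last t) (Fin.last t) = 0 := by
    have := k1 (Fin.last t) (Fin.last t)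
    exact self_eq_neg.1 this
  have hg' : g' (Fin.last t) = - g := by simp [g']
  rw [hg', Fin.sum_univ_castSucc, hκ0, zero_mul, add_zero] at hlast
  have hg2 : g = ∑ a ∈ Finset.range t,
      (if h : a < t then - κ (Fin.last t) (Fin.castSucc ⟨a, h⟩) else 0) * f a := by
    rw [← Fin.sum_univ_eq_sum_range (fun a =>
      (if h : a < t then - κ (Fin.last t) (Fin.castSucc ⟨a, h⟩) else 0) * f a) t]
    have : g = - (- g) := by ring
    rw [this, hlast, ← Finset.sum_neg_distrib]
    refine Finset.sum_congr rfl fun a _ => ?_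
    rw [dif_pos a.2, hf a (by have := a.2; omega)]
    simp
  set d : ℕ → MvPolynomial σ k := fun a =>
    if h : a < t then - κ (Fin.last t) (Fin.castSucc ⟨a, h⟩) else 0 with hd
  have hcomp : g = ∑ a ∈ Finset.range t,
      (if j ≤ E then homogeneousComponent (E - j) (d a) * f a else 0) := by
    have h1 : homogeneousComponent E g = g := homogeneousComponent_eq_self hg
    rw [← h1]
    nth_rewrite 1 [hg2]
    rw [map_sum]
    exact Finset.sum_congr rfl fun a _ => homogeneousComponent_mul_right (hfh a) (d a) E
  by_cases h : j ≤ E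
  · rw [lowPart_of_le f t h, mem_degPart]
    refine ⟨fun a => homogeneousComponent (E - j) (d a),
      fun a => homogeneousComponent_isHomogeneous _ _, ?_⟩
    rw [hcomp]
    refine Finset.sum_congr rfl fun a _ => ?_
    rw [if_pos h, mul_comm]
  · rw [lowPart_of_not f t h, Submodule.mem_bot, hcomp]
    refine Finset.sum_eq_zero fun a _ => ?_
    rw [if_neg h]

end Special

end Pool.Agent.Helper45
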