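import Mathlib
import Pool.Agent.Helper45.FatSpecial
import Pool.Agent.Helper45.FatApolar

namespace Pool.Agent.Helper45

open MvPolynomial

set_option linter.unusedSectionVars false

section Uniform

variable {k : Type*} [Field k] [CharZero k] {σ : Type*} [Fintype σ]

/-- The sum map from tuples of forms of degree `E`. -/
noncomputable def sumMap (f : ℕ → MvPolynomial σ k) (r E : ℕ) :
    (Fin r → homogeneousSubmodule σ k E) →ₗ[k] MvPolynomial σ k :=
  ∑ a : Fin r, LinearMap.mulLeft k (f a) ∘ₗ (homogeneousSubmodule σ k E).subtype ∘ₗ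
    LinearMap.proj a

theorem sumMap_apply (f : ℕ → MvPolynomial σ k) (r E : ℕ)
    (c : Fin r → homogeneousSubmodule σ k E) :
    sumMap f r E c = ∑ a : Fin r, f a * (c a : MvPolynomial σ k) := by
  unfold sumMap
  rw [LinearMap.sum_apply]
  rfl

theorem range_sumMap (f : ℕ → MvPolynomial σ k) (r E : ℕ) :
    LinearMap.range (sumMap f r E) = degPart f r E := by
  ext p
  rw [mem_degPart]
  constructor
  · rintro ⟨c, rfl⟩
    refine ⟨fun a => if h : a < r then (c ⟨a, h⟩ : MvPolynomial σ k) else 0, ?_, ?_⟩
    · intro a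
      by_cases h : a < r
      · simp only [h, dif_pos]
        exact (c ⟨a, h⟩).2
      · simp only [h, dif_neg, not_false_iff]
        exact isHomogeneous_zero _ _ _
    · rw [sumMap_apply, ← Fin.sum_univ_eq_sum_range (fun a => f a *
        (if h : a < r then (c ⟨a, h⟩ : MvPolynomial σ k) else 0)) r]
      refine Finset.sum_congr rfl fun a _ => ?_
      rw [dif_pos a.2]
  · rintro ⟨c, hc1, hc2⟩
    refine ⟨fun a => ⟨c a, hc1 a⟩, ?_⟩
    rw [sumMap_apply, hc2, ← Fin.sum_univ_eq_sum_range (fun a => f a * c a) r]

theorem finrank_degPart_eq_iff (f : ℕ → MvPolynomial σ k) (r E : ℕ) :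
    Module.finrank k (degPart f r E) = r * Module.finrank k (homogeneousSubmodule σ k E) ↔
      Function.Injective (sumMap f r E) := by
  have h1 := LinearMap.finrank_range_add_finrank_ker (sumMap f r E)
  rw [range_sumMap] at h1
  have h2 : Module.finrank k (Fin r → homogeneousSubmodule σ k E) =
      r * Module.finrank k (homogeneousSubmodule σ k E) := by
    rw [Module.finrank_pi_fintype, Finset.sum_const, Finset.card_univ, Fintype.card_fin,
      smul_eq_mul]
  rw [h2] at h1
  rw [← LinearMap.ker_eq_bot, ← Submodule.finrank_eq_zero (R := k)]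
  omega

theorem pderiv_iterate_eq_zero (s : σ) {f : MvPolynomial σ k} {d : ℕ} (hf : f.IsHomogeneous d) :
    (pderiv s)^[d + 1] f = 0 := by
  induction d generalizing f with
  | zero =>
    rw [← totalDegree_zero_iff_isHomogeneous, totalDegree_eq_zero_iff_eq_C] at hf
    rw [hf]
    simp
  | succ d ih =>
    rw [Function.iterate_succ_apply]
    exact ih hf.pderiv

/-- The operator `g ↦ c g + L ∂ g` is injective on forms. -/
theorem eq_zero_of_euler (s : σ) {L g : MvPolynomial σ k} {c : k} (hc : c ≠ 0)
    (hL : pderiv s L = C c) {E : ℕ} (hg : g.IsHomogeneous E) (j : ℕ)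
    (h : C (((j : k) + 1) * c) * g + L * pderiv s g = 0) : g = 0 := by
  -- iterated version
  have h1 : ∀ i : ℕ, C (((j : k) + 1 + (i : k)) * c) * (pderiv s)^[i] g +
      L * (pderiv s)^[i + 1] g = 0 := by
    intro i
    induction i with
    | zero => simpa using h
    | succ i ih =>
      have h2 := congrArg (pderiv s) ih
      rw [map_add, map_zero] at h2
      have e1 : pderiv s (C (((j : k) + 1 + (i : k)) * c) * (pderiv s)^[i] g) =
          C (((j : k) + 1 + (i : k)) * c) * (pderiv s)^[i + 1] g := by
        rw [pderiv_C_mul, Function.iterate_succ_apply']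
      have e2 : pderiv s (L * (pderiv s)^[i + 1] g) = C c * (pderiv s)^[i + 1] g +
          L * (pderiv s)^[i + 1 + 1] g := by
        rw [pderiv_mul, hL]
        congr 2
        rw [← Function.iterate_succ_apply' (pderiv s) (i + 1) g]
      rw [e1, e2] at h2
      have e3 : (C (((j : k) + 1 + ((i + 1 : ℕ) : k)) * c) : MvPolynomial σ k) =
          C (((j : k) + 1 + (i : k)) * c) + C c := by
        rw [← C_add]
        congr 1
        push_cast
        ring
      rw [e3, ← h2, add_mul, add_assoc]
  have h3 : ∀ i : ℕ, (pderiv s)^[i] g = 0 → g = 0 := by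
    intro i
    induction i with
    | zero => intro h; exact h
    | succ i ih =>
      intro h4
      apply ih
      have h5 := h1 i
      rw [h4, mul_zero, add_zero] at h5
      rcases mul_eq_zero.1 h5 with h6 | h6
      · exfalso
        rw [C_eq_zero] at h6
        rcases mul_eq_zero.1 h6 with h7 | h7
        · have : ((j + 1 + i : ℕ) : k) = 0 := by push_cast; exact h7
          rw [Nat.cast_eq_zero] at this
          omega
        · exact hc h7
      · exact h6
  exact h3 _ (pderiv_iterate_eq_zero s hg)

theorem pderiv_linForm (p : σ → k) (s : σ) : pderiv s (linForm p) = C (p s) := by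
  classical
  unfold linForm
  rw [map_sum, Finset.sum_eq_single s]
  · rw [pderiv_C_mul, pderiv_X_self, mul_one]
  · intro s' _ hs'
    rw [pderiv_C_mul, pderiv_X_of_ne hs', mul_zero]
  · intro h; exact absurd (Finset.mem_univ _) h

theorem injective_succ {r : ℕ} (P : Fin r × σ → k) (s : σ) (hs : ∀ a, P (a, s) ≠ 0) (j E : ℕ)
    (h : Function.Injective (sumMap (powSeq P j) r E)) :
    Function.Injective (sumMap (powSeq P (j + 1)) r E) := by
  rw [injective_iff_map_eq_zero]
  intro c hc
  rw [sumMap_apply] at hc
  have h0 : ∀ a : Fin r, powSeq P (j + 1) a = linForm (fun s => P (a, s)) ^ (j + 1) := by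
    intro a; unfold powSeq; rw [ptSeq_of_lt P a.2]
  have h0' : ∀ a : Fin r, powSeq P j a = linForm (fun s => P (a, s)) ^ j := by
    intro a; unfold powSeq; rw [ptSeq_of_lt P a.2]
  have h1 := congrArg (pderiv s) hc
  rw [map_sum, map_zero] at h1
  let d : Fin r → MvPolynomial σ k := fun a =>
    C (((j : k) + 1) * P (a, s)) * (c a : MvPolynomial σ k) +
      linForm (fun s => P (a, s)) * pderiv s (c a : MvPolynomial σ k)
  have hd : ∀ a, (d a).IsHomogeneous E := by
    intro a
    refine IsHomogeneous.add ?_ ?_
    · exact IsHomogeneous.C_mul (c a).2 _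
    · rcases Nat.eq_zero_or_pos E with hE | hE
      · have : pderiv s (c a : MvPolynomial σ k) = 0 := by
          have h2 : (c a : MvPolynomial σ k).IsHomogeneous 0 := by rw [← hE]; exact (c a).2
          rw [← totalDegree_zero_iff_isHomogeneous, totalDegree_eq_zero_iff_eq_C] at h2
          rw [h2]
          simp
        rw [this, mul_zero]
        exact isHomogeneous_zero _ _ _
      · have h2 : (c a : MvPolynomial σ k).IsHomogeneous E := (c a).2
        have h3 := (linForm_isHomogeneous (fun s => P (a, s))).mul (h2.pderiv (i := s))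
        have e : 1 + (E - 1) = E := by omega
        rwa [e] at h3
  have h2 : sumMap (powSeq P j) r E (fun a => ⟨d a, hd a⟩) = 0 := by
    rw [sumMap_apply, ← h1]
    refine Finset.sum_congr rfl fun a _ => ?_
    rw [h0, h0', pderiv_mul, pderiv_pow, pderiv_linForm, Nat.add_sub_cancel]
    have e0 : (C (((j : k) + 1) * P (a, s)) : MvPolynomial σ k) =
        ((j + 1 : ℕ) : MvPolynomial σ k) * C (P (a, s)) := by
      rw [C_mul]
      congr 1
      simp
    simp only [d]
    rw [e0, pow_succ]
    ring
  have h3 := (injective_iff_map_eq_zero _).1 h _ h2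
  funext a
  apply Subtype.ext
  have h4 : d a = 0 := by
    have := congrFun h3 a
    exact congrArg Subtype.val this
  exact eq_zero_of_euler s (hs a) (pderiv_linForm _ s) (c a).2 j h4

theorem uval_of_lt (n j r E : ℕ) (h : E < j) : uval n j r E = (r : ℤ) * ((n + E).choose n : ℤ) := by
  unfold uval
  rw [Nat.div_eq_of_lt h]
  simp

theorem finrank_of_ge {n : ℕ} (hσ : Fintype.card σ = n + 1) {r : ℕ} (P : Fin r × σ → k) (s : σ)
    (hs : ∀ a, P (a, s) ≠ 0) (j0 E : ℕ) (hj0 : E < j0)
    (h : (Module.finrank k (degPart (powSeq P j0) r E) : ℤ) = uval n j0 r E) :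
    ∀ j, j0 ≤ j → (Module.finrank k (degPart (powSeq P j) r E) : ℤ) = uval n j r E := by
  have hinj : ∀ i, Function.Injective (sumMap (powSeq P (j0 + i)) r E) := by
    intro i
    induction i with
    | zero =>
      rw [add_zero, ← finrank_degPart_eq_iff]
      rw [uval_of_lt n j0 r E hj0, ← finrank_homog' (k := k) hσ E] at h
      exact_mod_cast h
    | succ i ih => exact injective_succ P s hs (j0 + i) E ih
  intro j hj
  obtain ⟨i, rfl⟩ := Nat.exists_eq_add_of_le hj
  have h1 := (finrank_degPart_eq_iff (powSeq P (j0 + i)) r E).2 (hinj i)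
  rw [uval_of_lt n (j0 + i) r E (by omega), ← finrank_homog' (k := k) hσ E, h1]
  push_cast
  ring

end Uniform

end Pool.Agent.Helper45
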